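import Pool.Agent.Lib.MP_7ed551_gt.Cy.N.Main
import Pool.Agent.Lib.MP_7ed551_gt.Cy.W.Chart
import Pool.Agent.Lib.MP_7ed551_gt.Cy.W.CayT
import Pool.Agent.Lib.MP_7ed551_gt.Cy.A.Cut
import Pool.Agent.Lib.MP_7ed551_gt.Cy.A.Rad

/-! Monotone tori in a ball: definitions. -/

open scoped ContDiff Topology
open Set Filter Metric MeasureTheory Real
open Complex (I)

noncomputable section

namespace Pool.Agent.Lib.MP_7ed551_gt.Cy.Q

open Pool.Agent.Lib.MP_ccffa6_gt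
open FA (nq Pf Far)

/-- The exchange of the two coordinates. -/
def sw : E →L[ℝ] E := (ContinuousLinearMap.snd ℝ ℂ ℂ).prod (ContinuousLinearMap.fst ℝ ℂ ℂ)

/-- The real inner product. -/
def ip (x u : E) : ℝ := x.1.re * u.1.re + x.1.im * u.1.im + x.2.re * u.2.re + x.2.im * u.2.im

/-- A primitive of the form of Fubini and Study. -/
def fs (A D : ℝ) : Form1 E := fun x => (A / (nq x + D)) • lam0 x

/-- `dΛ` tames `J`. -/
def Tm (Λ : Form1 E) (J : E → E →L[ℝ] E) : Prop := ∀ x v, v ≠ 0 → 0 < dF Λ x v (J x v)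

/-- An almost complex structure which is standard far away. -/
structure Acs (J : E → E →L[ℝ] E) : Prop where
  sm : ContDiff ℝ ∞ J
  sq : ∀ x v, J x (J x v) = -v
  far : ∃ R : ℝ, ∀ x, R ≤ ‖x‖ → J x = J0

/-- A form with a projective end. -/
structure End (Λ : Form1 E) (A D : ℝ) : Prop where
  sm : ContDiff ℝ ∞ Λ
  A0 : 0 < A
  D0 : 0 < D
  far : ∃ R : ℝ, ∀ x, R ≤ ‖x‖ → Λ x = fs A D x

/-- A diffeomorphism which fixes `S` maps `dΛ` to `dΛ'`. -/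
def Eqv (S : Set E) (Λ Λ' : Form1 E) : Prop :=
  ∃ ψ ψ' : E → E, Dif ψ ψ' ∧ (∀ x ∈ S, ψ x = x) ∧
    ∀ x u v, dF Λ' (ψ x) (fderiv ℝ ψ x u) (fderiv ℝ ψ x v) = dF Λ x u v

/-- The pull-back of an almost complex structure. -/
def pJ (G : E → E) (J : E → E →L[ℝ] E) (x : E) : E →L[ℝ] E :=
  (fderiv ℝ G x).inverse * J (G x) * fderiv ℝ G x

/-- A vertex of a rotated square. -/
def Vtx (g x y : ℝ) : Prop :=
  |x + √2 * y| + |y - √2 * x| = g ∧ (x + √2 * y = 0 ∨ y - √2 * x = 0)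

/-- The data after the first foliation has been straightened; the line is `x.1 = cs`. -/
structure Prep (Λo Λx : Form1 E) (Jx : E → E →L[ℝ] E) (Θ : E → E) (N c a A D : ℝ) (k : ℤ × ℤ)
    (cs zp : ℂ) : Prop where
  N0 : 0 < N
  fin : End Λx A D
  acs : Acs Jx
  tame : Tm Λx Jx
  near : ∃ ε : ℝ, 0 < ε ∧ ∀ x : E, ‖x.1 - cs‖ < ε → Jx x = J0
  bas : ∀ x, 0 < dF Λx x (0, 1) (0, I)
  cht : Cht Jx Θ N
  can : Can Λx Θ N c a k
  lab : ∀ Z ∈ CBox (N / 20), ‖(Θ Z).1‖ < ‖cs‖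
  pt : ∃ Z : E, Vtx (N / 4) Z.1.re Z.2.re ∧ Θ Z = (cs, zp)
  far : Far Λo
  old : ∃ Jo : E → E →L[ℝ] E, Tm Λo Jo ∧ Tm Λx Jo ∧ ∃ R : ℝ, ∀ x, R ≤ ‖x‖ → Jo x = J0
  eq : ∀ Z ∈ Box N, Λo (Θ Z) = Λx (Θ Z)

/-- The denominator of the projective map. -/
def ll (cs : ℂ) (s : ℝ) (x : E) : ℂ := 1 - s * x.1 / cs

/-- The projective map. -/
def ta (cs zp : ℂ) (s : ℝ) (x : E) : E := (ll cs s x)⁻¹ • (x.1, x.2 - s * zp)

/-- The denominator of the inverse map. -/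
def mm (cs : ℂ) (s : ℝ) (y : E) : ℂ := 1 + s * y.1 / cs

/-- The numerator of the inverse map. -/
def TT (cs zp : ℂ) (s : ℝ) (y : E) : E := (y.1, y.2 + s * zp * mm cs s y)

/-- The inverse map. -/
def sg (cs zp : ℂ) (s : ℝ) (y : E) : E := (mm cs s y)⁻¹ • TT cs zp s y

/-- The data after the projective transformation. -/
structure Proj (Λo : Form1 E) (Jx : E → E →L[ℝ] E) (Θ : E → E) (t c a : ℝ) (k : ℤ × ℤ)
    (cs zp : ℂ) (Λ' : Form1 E) (J' : E → E →L[ℝ] E) (K' : Set E) (ρ ρ' : E → E) : Prop where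
  amb : Amb Λ' J' K'
  dif : Dif ρ ρ'
  eqv : Eqv (Θ '' CBox 0) Λo (pb ρ Λ')
  cht : Cht J' (fun Z => ρ (Θ Z)) t
  can : Can Λ' (fun Z => ρ (Θ Z)) t c a k
  eq : ∀ Z ∈ Box t, ρ (Θ Z) = ta cs zp 1 (Θ Z)
  hol : ∀ y, mm cs 1 y ≠ 0 → ∀ v,
    fderiv ℝ (sg cs zp 1) y (J' y v) = Jx (sg cs zp 1 y) (fderiv ℝ (sg cs zp 1) y v)
  std : ∃ K₁ : Set E, IsCompact K₁ ∧ (∀ y ∈ K₁, mm cs 1 y ≠ 0) ∧ ∀ y, y ∉ K₁ → J' y = J0

theorem sw_apply (x : E) : sw x = (x.2, x.1) := rfl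

theorem sw_sw (x : E) : sw (sw x) = x := rfl

end Pool.Agent.Lib.MP_7ed551_gt.Cy.Q
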