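import Pool.Agent.Lib.MP_7ed551_gt.Cy.Q.Defs

/-! Pull-back of structures, the exchange of the coordinates. -/

open scoped ContDiff Topology
open Set Filter Metric MeasureTheory Real
open Complex (I)

noncomputable section

namespace Pool.Agent.Lib.MP_7ed551_gt.Cy.Q

open Pool.Agent.Lib.MP_ccffa6_gt
open FA (nq Pf Far)

variable {Λ : Form1 E} {J J' : E → E →L[ℝ] E} {G G' Θ : E → E} {N c a : ℝ} {k : ℤ × ℤ}

theorem pJ_spec_aux1 {F : E → E} (hG : ContDiff ℝ ∞ G) (hF : ContDiff ℝ ∞ F) (x : E) :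
    fderiv ℝ (fun x => G (F x)) x = (fderiv ℝ G (F x)).comp (fderiv ℝ F x) :=
  fderiv_comp x (hG.differentiable (by simp) _) (hF.differentiable (by simp) _)

theorem pJ_spec_aux2 (h : Dif G G') (x : E) :
    (fderiv ℝ G' (G x)).comp (fderiv ℝ G x) = ContinuousLinearMap.id ℝ E := by
  rw [← pJ_spec_aux1 h.sm' h.sm, funext h.left, fderiv_fun_id]

theorem pJ_spec_aux3 (h : Dif G G') (x : E) :
    (fderiv ℝ G x).comp (fderiv ℝ G' (G x)) = ContinuousLinearMap.id ℝ E := by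
  simpa only [h.left] using pJ_spec_aux2 h.symm (G x)

theorem pJ_spec_aux4 (h : Dif G G') (J : E → E →L[ℝ] E) :
    pJ G J = fun x => fderiv ℝ G' (G x) * J (G x) * fderiv ℝ G x := funext fun x => by
  rw [pJ, ContinuousLinearMap.inverse_eq (pJ_spec_aux3 h x) (pJ_spec_aux2 h x)]

theorem pJ_spec_aux5 (h : Dif G G') : ∃ R : ℝ, ∀ x, R ≤ ‖x‖ →
    G x = x ∧ fderiv ℝ G x = ContinuousLinearMap.id ℝ E := by
  obtain ⟨R, hR⟩ := h.far
  refine ⟨R + 1, fun x hx => ⟨hR x (by linarith), ?_⟩⟩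
  have : G =ᶠ[𝓝 x] id := (continuous_norm.continuousAt.eventually
    (lt_mem_nhds (by linarith : R < ‖x‖))).mono fun y hy => hR y hy.le
  rw [this.fderiv_eq, fderiv_id]

theorem pJ_spec (h : Dif G G') (J : E → E →L[ℝ] E) (x v : E) :
    fderiv ℝ G x (pJ G J x v) = J (G x) (fderiv ℝ G x v) := by
  rw [pJ_spec_aux4 h]
  exact DFunLike.congr_fun (pJ_spec_aux3 h x) _

theorem Acs.pull (hJ : Acs J) (h : Dif G G') : Acs (pJ G J) := by
  obtain ⟨R, hR⟩ := pJ_spec_aux5 h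
  obtain ⟨R', hR'⟩ := hJ.far
  refine ⟨?_, fun x v => h.inj_fderiv x ?_, max R R', fun x hx => ?_⟩
  · rw [pJ_spec_aux4 h]
    exact (((h.sm'.fderiv_right (by simp)).comp h.sm).mul (hJ.sm.comp h.sm)).mul
      (h.sm.fderiv_right (by simp))
  · rw [pJ_spec h, pJ_spec h, hJ.sq, map_neg]
  · obtain ⟨h1, h2⟩ := hR x (le_of_max_le_left hx)
    rw [pJ, h1, h2, hR' x (le_of_max_le_right hx), ContinuousLinearMap.inverse_id]
    rfl

theorem Tm.pull (ht : Tm Λ J) (hΛ : ContDiff ℝ ∞ Λ) (h : Dif G G') : Tm (pb G Λ) (pJ G J) := by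
  intro x v hv
  rw [dF_pb (h.sm.contDiffAt.of_le (by norm_cast)) (hΛ.differentiable (by simp) _), pJ_spec h]
  exact ht _ _ fun e => hv (h.inj_fderiv x (e.trans (map_zero _).symm))

theorem Amb.acs {K : Set E} (h : Amb Λ J K) : Acs J := by
  obtain ⟨R, hR⟩ := h.cpt.isBounded.subset_ball 0
  exact ⟨h.smJ, h.sq, R, fun x hx => h.farJ x fun e => (mem_ball_zero_iff.1 (hR e)).not_ge hx⟩

theorem amb_of (hJ : Acs J) (hΛ : Far Λ) (ht : Tm Λ J) : ∃ R : ℝ, Amb Λ J (closedBall 0 R) := by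
  obtain ⟨R, hR⟩ := hJ.far
  obtain ⟨R', hR'⟩ := hΛ.far
  have e : ∀ x : E, x ∉ closedBall 0 (max R R') → max R R' ≤ ‖x‖ := fun x hx =>
    (not_le.1 fun e => hx (mem_closedBall_zero_iff.2 e)).le
  exact ⟨max R R', hΛ.sm, hJ.sm, hJ.sq, ht, isCompact_closedBall _ _,
    fun x hx => hR' x (le_of_max_le_right (e x hx)), fun x hx => hR x (le_of_max_le_left (e x hx))⟩

theorem End.pb {A D : ℝ} (h : End Λ A D) (hG : Dif G G') : End (pb G Λ) A D := by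
  obtain ⟨R, hR⟩ := pJ_spec_aux5 hG
  obtain ⟨R', hR'⟩ := h.far
  refine ⟨contDiff_pb hG.sm h.sm, h.A0, h.D0, max R R', fun x hx => ?_⟩
  obtain ⟨h1, h2⟩ := hR x (le_of_max_le_left hx)
  rw [MP_ccffa6_gt.pb, h1, h2, hR' x (le_of_max_le_right hx), ContinuousLinearMap.comp_id]

theorem pb_comp {F : E → E} (hG : ContDiff ℝ ∞ G) (hF : ContDiff ℝ ∞ F) (Λ : Form1 E) :
    pb (fun x => G (F x)) Λ = pb F (pb G Λ) := by
  funext x
  rw [pb, pJ_spec_aux1 hG hF]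
  rfl

theorem pb_inv (h : Dif G G') (Λ : Form1 E) : pb G' (pb G Λ) = Λ := by
  rw [← pb_comp h.sm h.sm', funext h.right]
  funext x
  rw [pb, fderiv_fun_id, ContinuousLinearMap.comp_id]

theorem cht_mono (h : Cht J Θ N) {N' : ℝ} (hN : N' ≤ N) : Cht J Θ N' := by
  have e : ∀ Z ∈ Box N', Z ∈ Box N := fun Z hZ => ⟨hZ.1.trans_le hN, hZ.2.trans_le hN⟩
  exact ⟨h.sm, h.per1, h.per2, fun Z hZ Z' hZ' => h.inj Z (e Z hZ) Z' (e Z' hZ'),
    fun Z hZ => h.imm Z (e Z hZ), fun Z hZ => h.hol Z (e Z hZ)⟩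

/-- Transport of a chart. -/
theorem cht_pull (h : Cht J Θ N) (hG : Dif G G')
    (hJ : ∀ x, G x ∈ Θ '' Box N → ∀ v, fderiv ℝ G x (J' x v) = J (G x) (fderiv ℝ G x v)) :
    Cht J' (fun Z => G' (Θ Z)) N := by
  refine ⟨hG.sm'.comp h.sm, fun Z => congrArg G' (h.per1 Z), fun Z => congrArg G' (h.per2 Z),
    fun Z hZ Z' hZ' e => h.inj Z hZ Z' hZ' (Function.LeftInverse.injective hG.right e),
    fun Z hZ => ?_, fun Z hZ v => hG.inj_fderiv (G' (Θ Z)) ?_⟩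
  · rw [pJ_spec_aux1 hG.sm' h.sm]
    exact (hG.symm.inj_fderiv _).comp (h.imm Z hZ)
  · have e := fun w => DFunLike.congr_fun (pJ_spec_aux2 hG.symm (Θ Z)) w
    simp only [ContinuousLinearMap.comp_apply, ContinuousLinearMap.id_apply] at e
    rw [hJ _ ⟨Z, hZ, (hG.right _).symm⟩, pJ_spec_aux1 hG.sm' h.sm, ContinuousLinearMap.comp_apply,
      ContinuousLinearMap.comp_apply, e, e, hG.right, h.hol Z hZ]

theorem can_pull (h : Can Λ Θ N c a k) (hΘ : ContDiff ℝ ∞ Θ) (hG : Dif G G') :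
    Can (pb G Λ) (fun Z => G' (Θ Z)) N c a k := by
  rwa [Can, pb_comp hG.sm' hΘ, pb_inv hG]

theorem can_congr {Λ' : Form1 E} (h : Can Λ Θ N c a k) (he : ∀ Z ∈ Box N, Λ' (Θ Z) = Λ (Θ Z)) :
    Can Λ' Θ N c a k := by
  obtain ⟨g, h1, h2, h3, h4⟩ := h
  exact ⟨g, h1, h2, h3, fun Z hZ v => by rw [← h4 Z hZ, pb, pb, he Z hZ]⟩

theorem nq_sw (x : E) : nq (sw x) = nq x := add_comm _ _

theorem norm_sw (x : E) : ‖sw x‖ = ‖x‖ := max_comm _ _

theorem sw_J0 : sw * J0 * sw = J0 := ContinuousLinearMap.ext fun _ => rfl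

theorem pb_sw_sw (Λ : Form1 E) : pb sw (pb sw Λ) = Λ := by
  funext x
  simp only [pb, sw.fderiv]
  rfl

theorem dF_sw (hΛ : ContDiff ℝ ∞ Λ) (x u v : E) :
    dF (pb sw Λ) x u v = dF Λ (sw x) (sw u) (sw v) := by
  rw [dF_pb sw.contDiff.contDiffAt (hΛ.differentiable (by simp) _), sw.fderiv]

theorem dif_sw (h : Dif G G') : Dif (fun x => sw (G (sw x))) fun x => sw (G' (sw x)) :=
  ⟨sw.contDiff.comp (h.sm.comp sw.contDiff), sw.contDiff.comp (h.sm'.comp sw.contDiff),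
    fun x => by rw [sw_sw, h.left, sw_sw], fun x => by rw [sw_sw, h.right, sw_sw],
    h.far.imp fun R hR x hx => by rw [hR _ (by rwa [norm_sw]), sw_sw]⟩

theorem Acs.sw (hJ : Acs J) : Acs fun x => sw * J (sw x) * sw :=
  ⟨(contDiff_const.mul (hJ.sm.comp Q.sw.contDiff)).mul contDiff_const,
    fun x v => congrArg Q.sw (hJ.sq (Q.sw x) (Q.sw v)),
    hJ.far.imp fun R hR x hx => by rw [hR _ (by rwa [norm_sw]), sw_J0]⟩

theorem Tm.sw (ht : Tm Λ J) (hΛ : ContDiff ℝ ∞ Λ) : Tm (pb sw Λ) fun x => sw * J (sw x) * sw :=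
  fun x v hv => by
    rw [dF_sw hΛ]
    exact ht _ _ fun e => hv (congrArg Q.sw e)

theorem path_sw {Jt : ℝ × E → E →L[ℝ] E} {K : Set E} (h : Path Λ Jt K) :
    Path (pb sw Λ) (fun p => sw * Jt (p.1, sw p.2) * sw) (sw '' K) := by
  have e : ∀ x, x ∉ sw '' K → sw x ∉ K := fun x hx h' => hx ⟨_, h', rfl⟩
  refine ⟨contDiff_pb sw.contDiff h.smΛ, (contDiff_const.mul (h.smJ.comp
    (contDiff_fst.prodMk (sw.contDiff.comp contDiff_snd)))).mul contDiff_const,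
    fun p v => congrArg sw (h.sq (p.1, sw p.2) (sw v)), fun p v hv => ?_,
    h.cpt.image sw.continuous, fun x hx => ContinuousLinearMap.ext fun v => ?_,
    fun p hp => ?_, fun x => ?_⟩
  · rw [dF_sw h.smΛ]
    exact h.tame (p.1, sw p.2) _ fun e => hv (congrArg sw e)
  · rw [pb, sw.fderiv, h.farΛ _ (e x hx), ContinuousLinearMap.comp_apply, lam0_apply, lam0_apply]
    exact congrArg (· / 2) (add_comm _ _)
  · rw [h.farJ (p.1, sw p.2) (e _ hp), sw_J0]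
  · rw [h.zero, sw_J0]

theorem cht_sw (h : Cht J Θ N) : Cht (fun x => sw * J (sw x) * sw) (fun Z => sw (Θ Z)) N := by
  have e : ∀ Z v, fderiv ℝ (fun Z => sw (Θ Z)) Z v = sw (fderiv ℝ Θ Z v) := fun Z v =>
    congrArg (· v) (sw.hasFDerivAt.comp Z (h.sm.differentiable (by simp) Z).hasFDerivAt).fderiv
  refine ⟨sw.contDiff.comp h.sm, fun Z => by rw [h.per1], fun Z => by rw [h.per2],
    fun Z hZ Z' hZ' e' => h.inj Z hZ Z' hZ' (congrArg sw e'), fun Z hZ u v e' => h.imm Z hZ ?_,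
    fun Z hZ v => ?_⟩
  · rw [e, e] at e'
    exact congrArg sw e'
  · rw [e, e]
    exact congrArg sw (h.hol Z hZ v)

theorem can_sw (h : Can Λ Θ N c a k) (hΘ : ContDiff ℝ ∞ Θ) :
    Can (pb sw Λ) (fun Z => sw (Θ Z)) N c a k := by
  rwa [Can, pb_comp sw.contDiff hΘ, pb_sw_sw]

end Pool.Agent.Lib.MP_7ed551_gt.Cy.Q
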