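import Pool.Agent.Lib.MP_7ed551_gt.Cy.Q.Rad
import Pool.Agent.Lib.MP_7ed551_gt.Cy.Q.Pull
import Pool.Agent.Lib.MP_7ed551_gt.Cy.G.Lin

/-! Straightening the foliation at infinity. -/

open scoped ContDiff Topology
open Set Filter Metric MeasureTheory Real
open Complex (I)

noncomputable section

namespace Pool.Agent.Lib.MP_7ed551_gt.Cy.Q

open Pool.Agent.Lib.MP_ccffa6_gt
open FA (nq Pf Far)

theorem far_alg_aux1 {B : E →L[ℝ] E} {ε : ℝ} (hB : ‖B - 1‖ ≤ ε) (x : E) :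
    ‖B x - x‖ ≤ ε * ‖x‖ :=
  ((B - 1).le_opNorm x).trans (mul_le_mul_of_nonneg_right hB (norm_nonneg x))

theorem far_alg_aux2 {B : E →L[ℝ] E} {ε : ℝ} (hB : ‖B - 1‖ ≤ ε) (hε : ε ≤ 1 / 2) (x : E) :
    ‖x‖ ≤ 2 * ‖B x‖ := by
  have h1 := far_alg_aux1 hB x
  have h2 := norm_sub_norm_le x (B x)
  rw [norm_sub_rev] at h2
  nlinarith [norm_nonneg x]

theorem far_alg_aux3 {B : E →L[ℝ] E} {ε : ℝ} (hB : ‖B - 1‖ ≤ ε) (hε : ε ≤ 1 / 2) :
    Function.Injective B :=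
  (injective_iff_map_eq_zero _).2 fun x e => norm_le_zero_iff.1 (by
    simpa [e] using far_alg_aux2 hB hε x)

theorem far_alg {w : Bil E} {m M ε : ℝ} {B B' : E →L[ℝ] E} (hm : ∀ v, m * nq v ≤ w v (J0 v))
    (hM : ∀ u v, |w u v| ≤ M * (‖u‖ * ‖v‖)) (hB : ‖B - 1‖ ≤ ε) (hB' : ‖B' - 1‖ ≤ ε)
    (hε : ε ≤ 1 / 2) (h : 20 * M * ε < m) {v : E} (hv : v ≠ 0) :
    B.IsInvertible ∧ 0 < w (B' v) (B' ((B.inverse * J0 * B) v)) := by
  have hi := cay_invertible (far_alg_aux3 hB hε)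
  refine ⟨hi, ?_⟩
  obtain ⟨u, hu⟩ : ∃ u, u = (B.inverse * J0 * B) v := ⟨_, rfl⟩
  have e : B u = J0 (B v) := hu ▸ hi.self_apply_inverse _
  rw [← hu]
  have n0 := norm_pos_iff.2 hv
  have e0 : 0 ≤ ε := (norm_nonneg _).trans hB
  have M0 : 0 ≤ M := nonneg_of_mul_nonneg_left ((abs_nonneg _).trans (hM v v)) (mul_pos n0 n0)
  have nJ := FA.norm_J0 v
  have a1 : ‖u - J0 v‖ ≤ 4 * (ε * ‖v‖) := by
    have b1 := far_alg_aux2 hB hε (u - J0 v)
    have b2 := norm_sub_le (J0 (B v - v)) (B (J0 v) - J0 v)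
    have b3 := far_alg_aux1 hB (J0 v)
    rw [FA.norm_J0, map_sub, sub_sub_sub_cancel_right, ← e, ← map_sub] at b2
    rw [nJ] at b3
    linarith [far_alg_aux1 hB v]
  have a0 : ε * ‖v‖ ≤ 1 / 2 * ‖v‖ := mul_le_mul_of_nonneg_right hε n0.le
  have a2 : ‖u‖ ≤ 3 * ‖v‖ := by linarith [norm_sub_norm_le u (J0 v)]
  have a3 : ‖B' u - J0 v‖ ≤ 7 * (ε * ‖v‖) := by
    linarith [norm_sub_le_norm_sub_add_norm_sub (B' u) u (J0 v), far_alg_aux1 hB' u,
      mul_le_mul_of_nonneg_left a2 e0]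
  have a4 : ‖B' u‖ ≤ 5 * ‖v‖ := by linarith [norm_sub_norm_le (B' u) (J0 v)]
  have c1 := (abs_le.1 ((hM v (B' u - J0 v)).trans (mul_le_mul_of_nonneg_left
    (mul_le_mul_of_nonneg_left a3 n0.le) M0))).1
  have c2 := (abs_le.1 ((hM (B' v - v) (B' u)).trans (mul_le_mul_of_nonneg_left
    (mul_le_mul (far_alg_aux1 hB' v) a4 (norm_nonneg _) (by positivity)) M0))).1
  have c3 : 0 ≤ M * ε := by positivity
  have c4 := mul_le_mul_of_nonneg_left (FA.sq_norm_le v) (show 0 ≤ m by linarith)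
  have c5 := mul_lt_mul_of_pos_right h (pow_pos n0 2)
  have c6 := mul_nonneg c3 (sq_nonneg ‖v‖)
  rw [map_sub] at c1
  rw [map_sub, sub_apply] at c2
  linarith [hm v]

theorem far_cut {J : E → E →L[ℝ] E} {Ψ P : E → E} (hF : Fol J Ψ P) : ∃ C : ℝ, 0 < C ∧
    ∀ S : ℝ, 2 * C + 1 ≤ S → ∃ (Φ Φ' : E → E) (χ : ℂ → ℝ), Dif Φ Φ' ∧ ContDiff ℝ ∞ χ ∧
      (∀ w, χ w ∈ Icc (0 : ℝ) 1) ∧ (∀ w, ‖w‖ ≤ S → χ w = 1) ∧ (∀ w, 2 * S ≤ ‖w‖ → χ w = 0) ∧
      (∀ x, Φ x = x + χ x.1 • (Ψ x - x)) ∧ ∀ x : E, S ≤ ‖x.1‖ →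
        ‖Ψ x - x‖ ≤ 1 ∧ ‖fderiv ℝ Ψ x - 1‖ ≤ C / S ∧ ‖fderiv ℝ Φ x - 1‖ ≤ C / S := by
  obtain ⟨A, hA⟩ := hF.dec
  obtain ⟨R, hR⟩ := hF.far
  let b : ContDiffBump (0 : ℂ) := ⟨1, 2, one_pos, one_lt_two⟩
  have bs : ContDiff ℝ ∞ b := b.contDiff
  obtain ⟨K, hK⟩ := (b.hasCompactSupport.fderiv ℝ).exists_bound_of_continuous
    (bs.continuous_fderiv (by simp))
  have K0 : 0 ≤ K := (norm_nonneg _).trans (hK 0)
  have A0 : 0 ≤ A := by simpa using (norm_nonneg _).trans (hA (1, 0) (by simp)).1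
  have AK := mul_nonneg A0 K0
  refine ⟨A + A * K + 1, by positivity, fun S hS => ?_⟩
  have S1 : 1 ≤ S := by linarith
  have S0 : 0 < S := by linarith
  have dΨ := fun x => (hF.sm.differentiable (by simp) x).hasFDerivAt
  have nn : ∀ w : ℂ, ‖S⁻¹ • w‖ = ‖w‖ / S := fun w => by
    rw [norm_smul, norm_inv, Real.norm_of_nonneg S0.le, div_eq_inv_mul]
  have c1 : ∀ w : ℂ, ‖w‖ ≤ S → b (S⁻¹ • w) = 1 := fun w hw =>
    b.one_of_mem_closedBall (mem_closedBall_zero_iff.2 (nn w ▸ (div_le_one S0).2 hw))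
  have c0 : ∀ w : ℂ, 2 * S ≤ ‖w‖ → b (S⁻¹ • w) = 0 := fun w hw =>
    b.zero_of_le_dist (by rw [dist_zero_right, nn]; exact (le_div_iff₀ S0).2 hw)
  have cs : ContDiff ℝ ∞ fun w : ℂ => b (S⁻¹ • w) := bs.comp (contDiff_id.const_smul _)
  have key : ∀ x : E, S ≤ ‖x.1‖ → ‖Ψ x - x‖ ≤ 1 ∧ ‖fderiv ℝ Ψ x - 1‖ ≤ (A + A * K + 1) / S ∧
      ‖fderiv ℝ (fun x : E => x + b (S⁻¹ • x.1) • (Ψ x - x)) x - 1‖ ≤ (A + A * K + 1) / S := by
    intro x hx
    have q : A / ‖x.1‖ ≤ A / S := div_le_div_of_nonneg_left A0 S0 hx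
    have a1 := (hA x (S1.trans hx)).1.trans q
    have a2 : ‖fderiv ℝ Ψ x - 1‖ ≤ A / S := (hA x (S1.trans hx)).2.trans q
    refine ⟨a1.trans ((div_le_one S0).2 (by linarith)), a2.trans (by gcongr; linarith), ?_⟩
    have d1 := (bs.differentiable (by simp) (S⁻¹ • x.1)).hasFDerivAt.comp x
      ((hasFDerivAt_fst (𝕜 := ℝ) (p := x)).const_smul S⁻¹)
    rw [HasFDerivAt.fderiv (f := fun x : E => x + b (S⁻¹ • x.1) • (Ψ x - x))
      ((hasFDerivAt_id x).fun_add (d1.fun_smul ((dΨ x).fun_sub (hasFDerivAt_id x))))]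
    have d2 : ‖(fderiv ℝ b (S⁻¹ • x.1)).comp (S⁻¹ • ContinuousLinearMap.fst ℝ ℂ ℂ)‖ ≤ K := by
      refine (ContinuousLinearMap.opNorm_comp_le _ _).trans ((mul_le_of_le_one_right
        (norm_nonneg _) ?_).trans (hK _))
      rw [norm_smul, norm_inv, Real.norm_of_nonneg S0.le]
      exact mul_le_one₀ (inv_le_one_of_one_le₀ S1) (norm_nonneg _)
        (ContinuousLinearMap.norm_fst_le ..)
    refine (le_of_eq (congrArg norm (add_sub_cancel_left _ _))).trans ((norm_add_le _ _).trans ?_)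
    rw [norm_smul, ContinuousLinearMap.norm_smulRight_apply, add_div, add_div]
    refine (add_le_add ((mul_le_of_le_one_left (norm_nonneg _) ?_).trans a2)
      (mul_le_mul d2 a1 (norm_nonneg _) K0)).trans ?_
    · exact (Real.norm_of_nonneg b.nonneg).trans_le b.le_one
    · rw [mul_comm K, div_mul_eq_mul_div]
      exact le_add_of_nonneg_right (by positivity)
  obtain ⟨Φ', hΦ⟩ := exists_dif (F := fun x : E => x + b (S⁻¹ • x.1) • (Ψ x - x))
    (contDiff_id.add ((cs.comp contDiff_fst).smul (hF.sm.sub contDiff_id))) (fun x => by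
      rcases le_or_gt S ‖x.1‖ with hx | hx
      · exact far_alg_aux3 (key x hx).2.2 ((div_le_iff₀ S0).2 (by linarith))
      · have e : (fun x : E => x + b (S⁻¹ • x.1) • (Ψ x - x)) =ᶠ[𝓝 x] Ψ :=
          ((isOpen_lt continuous_fst.norm continuous_const).eventually_mem hx).mono fun y hy => by
            simp only [c1 _ (le_of_lt hy), one_smul, add_sub_cancel]
        have h1 := (hF.sm'.differentiable (by simp) (Ψ x)).hasFDerivAt.comp x (dΨ x)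
        rw [show P ∘ Ψ = id from funext hF.left] at h1
        rw [e.fderiv_eq]
        exact Function.LeftInverse.injective fun v =>
          DFunLike.congr_fun (h1.unique (hasFDerivAt_id x)) v)
    ⟨max R (2 * S), fun x hx => by
      rcases le_max_iff.1 hx with h | h
      · simp only [c0 _ ((le_max_right _ _).trans h), zero_smul, add_zero]
      · simp only [hR x ((le_max_left _ _).trans h), sub_self, smul_zero, add_zero]⟩
  exact ⟨_, Φ', _, hΦ, cs, fun w => ⟨b.nonneg, b.le_one⟩, c1, c0, fun _ => rfl, key⟩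

theorem exists_far_inv {B : E →L[ℝ] E} (h : ‖B - 1‖ ≤ 1 / 2) : B.IsInvertible :=
  cay_invertible ((injective_iff_map_eq_zero _).2 fun v e => by
    have := (B - 1).le_of_opNorm_le h v
    rw [sub_apply, e, one_apply_eq_self, zero_sub, norm_neg] at this
    exact norm_le_zero_iff.1 (by linarith))

theorem exists_far_num {b C s n D : ℝ} (hb : 0 < b) (hs : 0 < s) (hn : 0 < n)
    (h : 120 * C * n < D * s) : 20 * (6 * b / n) * (C / s) < b * D / n ^ 2 := by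
  rw [show 20 * (6 * b / n) * (C / s) = b * (120 * C * n / s) / n ^ 2 by field_simp; ring]
  exact div_lt_div_of_pos_right (mul_lt_mul_of_pos_left ((div_lt_iff₀ hs).2 h) hb) (by positivity)

theorem exists_far {Λ : Form1 E} {J : E → E →L[ℝ] E} {K : Set E} {Ψ P : E → E} (hA : Amb Λ J K)
    (hF : Fol J Ψ P) {a b : ℝ} (ha : 0 < a) (hab : a < b) (hK : ∀ x ∈ K, nq x < a) (R : ℝ) :
    ∃ (Φ Φ' : E → E) (Λh : Form1 E) (J1 : E → E →L[ℝ] E) (D : ℝ), Dif Φ Φ' ∧ End Λh b D ∧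
      Tm Λh J ∧ (∀ x, nq x ≤ a → Λh x = Λ x) ∧ Acs J1 ∧ Tm (pb Φ Λh) J1 ∧
      (∀ x v, J1 x (v, 0) = (I * v, 0)) ∧ ∀ x : E, ‖x.1‖ < R → Φ x = Ψ x ∧
        ∀ v, fderiv ℝ Φ x (J1 x v) = J (Φ x) (fderiv ℝ Φ x v) := by
  obtain ⟨C, hC, hcut⟩ := far_cut hF
  obtain ⟨κ, hκ, hhat⟩ := exists_hat hA ha hab hK
  obtain ⟨R₀, hR₀⟩ := hF.far
  have b0 : 0 < b := ha.trans hab
  have κ0 : 0 < κ := by linarith
  obtain ⟨s, s1, s2, s3, s4, s5⟩ : ∃ s : ℝ, κ + 1 ≤ s ∧ 2 * C ≤ s ∧ R ≤ s ∧ R₀ ≤ s ∧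
      120 * C * (98 * κ + 1) ≤ s := ((eventually_ge_atTop _).and ((eventually_ge_atTop _).and
    ((eventually_ge_atTop _).and ((eventually_ge_atTop _).and (eventually_ge_atTop _))))).exists
  obtain ⟨D, hD⟩ : ∃ D, κ * D = s ^ 2 := ⟨s ^ 2 / κ, by field_simp⟩
  have s6 : κ ≤ s ^ 2 := by nlinarith
  have D1 : 1 ≤ D := le_of_mul_le_mul_left (by linarith) κ0
  obtain ⟨Λh, l1, l2, l3, l4⟩ := hhat D D1
  obtain ⟨Φ, Φ', χ, d, c1, c2, c3, c4, c5, c6⟩ := hcut (s + 2) (by linarith)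
  obtain ⟨B, hB⟩ : ∃ B : E → E →L[ℝ] E, B = fun x => 1 + χ x.1 • (fderiv ℝ Ψ x - 1) := ⟨_, rfl⟩
  have big : ∀ y : E, s ≤ ‖y‖ → s ^ 2 ≤ nq y := fun y hy =>
    (pow_le_pow_left₀ (by linarith) hy 2).trans (FA.sq_norm_le y)
  have off : ∀ y : E, s ≤ ‖y‖ → J y = J0 := fun y hy =>
    hA.farJ y fun h => by linarith [hK y h, big y hy]
  have nr : ∀ x y : E, s + 2 ≤ ‖x.1‖ → ‖y - x‖ ≤ 1 → s + 1 ≤ ‖y‖ ∧ ‖y‖ ≤ ‖x‖ + 1 :=
    fun x y hx hy => by
      have := abs_le.1 ((abs_norm_sub_norm_le y x).trans hy)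
      constructor <;> linarith [norm_fst_le x]
  have sm : ∀ {V : Type} [NormedAddCommGroup V] [NormedSpace ℝ V] (x : E) (u : V),
      ‖χ x.1 • u‖ ≤ ‖u‖ := fun x u => by
    rw [norm_smul, Real.norm_of_nonneg (c2 _).1]
    exact mul_le_of_le_one_left (norm_nonneg _) (c2 _).2
  have e0 : ∀ x : E, s + 2 ≤ ‖x.1‖ → J (Ψ x) = J0 := fun x hx =>
    off _ (by linarith [(nr x _ hx (c6 x hx).1).1])
  have e1 : ∀ x : E, s + 2 ≤ ‖x.1‖ → ‖B x - 1‖ ≤ C / (s + 2) := fun x hx => by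
    rw [hB, add_sub_cancel_left]
    exact (sm x _).trans (c6 x hx).2.1
  have e2 : C / (s + 2) ≤ 1 / 2 := (div_le_iff₀ (by linarith)).2 (by linarith)
  have e3 : ∀ x : E, ‖x.1‖ ≤ s + 2 → B x = fderiv ℝ Ψ x ∧ Φ x = Ψ x := fun x hx => by
    simp only [hB, c5, c3 _ hx, one_smul, add_sub_cancel, and_self]
  have inv : ∀ x, (B x).IsInvertible := fun x => (le_total ‖x.1‖ (s + 2)).elim
    (fun h => (e3 x h).1 ▸ cay_invertible (G.fol_inj hF x).1) fun h =>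
      exists_far_inv ((e1 x h).trans e2)
  have ri : ∀ x u, B x ((B x).inverse u) = u := fun x u => ((inv x).inverse_apply_eq.1 rfl).symm
  have sB : ContDiff ℝ ∞ B := by
    rw [hB]
    exact contDiff_const.add ((c1.comp contDiff_fst).smul
      ((hF.sm.fderiv_right (m := ∞) le_rfl).sub contDiff_const))
  have e4 : ∀ x : E, 2 * (s + 2) ≤ ‖x‖ → Φ x = x ∧ B x = 1 ∧ J (Ψ x) = J0 := fun x hx => by
    rcases le_max_iff.1 (hx.trans_eq (Prod.norm_def x)) with h | h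
    · simp only [hB, c5, c4 _ h, zero_smul, zero_smul ℝ (fderiv ℝ Ψ x - 1), add_zero,
        e0 x (by linarith), and_self]
    · have e : Ψ =ᶠ[𝓝 x] id := ((isOpen_lt continuous_const continuous_snd.norm).eventually_mem
        (show R₀ < ‖x.2‖ by linarith)).mono fun y hy => hR₀ y (le_of_lt hy)
      simp only [hB, c5, e.fderiv_eq, e.self_of_nhds, id, off x (by linarith), fderiv_id,
        ContinuousLinearMap.one_def, sub_self, smul_zero, add_zero, and_self]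
  have key : ∀ x, fderiv ℝ Φ x = B x → J (Ψ x) = J (Φ x) → ∀ v, fderiv ℝ Φ x
      (((B x).inverse * J (Ψ x) * B x) v) = J (Φ x) (fderiv ℝ Φ x v) := fun x h1 h2 v => by
    rw [h1, h2, mul_apply_eq_comp, mul_apply_eq_comp, ri]
  have e5 : ∀ x : E, ‖x.1‖ < s + 2 → fderiv ℝ Φ x = B x ∧ J (Ψ x) = J (Φ x) := fun x hx => by
    have e : Φ =ᶠ[𝓝 x] Ψ := ((isOpen_lt continuous_fst.norm continuous_const).eventually_mem
      hx).mono fun y hy => (e3 y (le_of_lt hy)).2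
    rw [e.fderiv_eq, e.self_of_nhds, (e3 x hx.le).1]
    exact ⟨rfl, rfl⟩
  have e6 : ∀ x : E, 2 * (s + 2) < ‖x‖ → fderiv ℝ Φ x = B x ∧ J (Ψ x) = J (Φ x) := fun x hx => by
    have e : Φ =ᶠ[𝓝 x] id := ((isOpen_lt continuous_const continuous_norm).eventually_mem
      hx).mono fun y hy => (e4 y (le_of_lt hy)).1
    obtain ⟨h1, h2, h3⟩ := e4 x hx.le
    rw [e.fderiv_eq, h1, h2, h3, off x (by linarith), fderiv_id]
    exact ⟨rfl, rfl⟩
  refine ⟨Φ, Φ', Λh, fun x => (B x).inverse * J (Ψ x) * B x, D, d,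
    ⟨l1, b0, by linarith, s, fun x hx => l4 x (hD ▸ big x hx)⟩, l2, l3,
    ⟨((contDiff_iff_contDiffAt.2 fun x => (inv x).contDiffAt_map_inverse.comp x
      sB.contDiffAt).mul (hA.smJ.comp hF.sm)).mul sB, fun x v => ?_, 2 * (s + 2), fun x hx => ?_⟩,
    fun x v hv => ?_, fun x v => ?_, fun x hx => ⟨(e3 x (by linarith)).2,
      key x (e5 x (by linarith)).1 (e5 x (by linarith)).2⟩⟩
  · simp only [mul_apply_eq_comp, ri, hA.sq]
    exact (inv x).inverse_apply_eq.2 (map_neg _ _).symm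
  · obtain ⟨-, h2, h3⟩ := e4 x hx
    simp only [h2, h3, ContinuousLinearMap.one_def, ContinuousLinearMap.inverse_id]
    rfl
  · rw [dF_pb (d.sm.contDiffAt.of_le (by norm_cast)) (l1.differentiable (by simp) _)]
    have t : fderiv ℝ Φ x = B x ∧ J (Ψ x) = J (Φ x) → 0 < dF Λh (Φ x) (fderiv ℝ Φ x v)
        (fderiv ℝ Φ x (((B x).inverse * J (Ψ x) * B x) v)) := fun h => by
      rw [key x h.1 h.2]
      exact l2 _ _ fun z => hv (d.inj_fderiv x (z.trans (map_zero _).symm))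
    rcases lt_or_ge ‖x.1‖ (s + 2) with h | h
    · exact t (e5 x h)
    rcases lt_or_ge (2 * (s + 2)) ‖x‖ with h' | h'
    · exact t (e6 x h')
    obtain ⟨n1, n2⟩ := nr x (Φ x) h (by
      rw [c5, add_sub_cancel_left]
      exact (sm x _).trans (c6 x h).1)
    have e : Λh =ᶠ[𝓝 (Φ x)] fs b D := ((isOpen_lt continuous_const continuous_norm).eventually_mem
      (show s < ‖Φ x‖ by linarith)).mono fun y hy => l4 y (hD ▸ big y (le_of_lt hy))
    have n3 : nq (Φ x) ≤ 98 * (κ * D) := by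
      have := pow_le_pow_left₀ (norm_nonneg _) (show ‖Φ x‖ ≤ 7 * s by linarith) 2
      linarith [FA.nq_le (Φ x)]
    have n0 := nq_nonneg (Φ x)
    beta_reduce
    rw [e0 x h, dF, e.fderiv_eq]
    refine (far_alg (fs_lower b0.le (by linarith) _) (fs_upper b0.le (by linarith) _) (e1 x h)
      (c6 x h).2.2 e2 (exists_far_num b0 (by linarith) (by linarith) ?_) hv).2
    nlinarith [mul_le_mul_of_nonneg_right s5 (zero_le_one.trans D1),
      mul_le_mul_of_nonneg_left n3 hC.le]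
  · simp only [mul_apply_eq_comp]
    refine (inv x).inverse_apply_eq.2 ?_
    have l := G.Lin_leaf hF x v
    rcases le_total ‖x.1‖ (s + 2) with h | h
    · rw [(e3 x h).1, l]
    · have j : J0 (v, 0) = (I * v, 0) := by simp [J0_apply]
      rw [e0 x h] at l ⊢
      simp only [hB, add_apply, smul_apply, sub_apply, one_apply_eq_self, map_add, map_smul,
        map_sub, l, j]

end Pool.Agent.Lib.MP_7ed551_gt.Cy.Q
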