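import Pool.Agent.Lib.MP_7ed551_gt.Cy.Q.Pull

/-! Gluing a germ along a line to the identity. -/

open scoped ContDiff Topology
open Set Filter Metric MeasureTheory Real
open Complex (I)

noncomputable section

namespace Pool.Agent.Lib.MP_7ed551_gt.Cy.Q

open Pool.Agent.Lib.MP_ccffa6_gt
open FA (nq Pf Far)

theorem slow0_aux : ∃ M : ℝ, 0 < M ∧ ∀ x, ‖deriv smoothTransition x‖ ≤ M := by
  obtain ⟨M, hM⟩ := ((smoothTransition.contDiff (n := 1)).continuous_deriv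
    le_rfl).bounded_above_of_compact_support (HasCompactSupport.intro (isCompact_Icc (a := 0)
      (b := 1)) fun x hx => by
    rcases not_and_or.1 hx with h | h
    · exact (EventuallyEq.deriv_eq ((gt_mem_nhds (not_le.1 h)).mono fun y hy =>
        smoothTransition.zero_of_nonpos hy.le)).trans (deriv_const _ 0)
    · exact (EventuallyEq.deriv_eq ((lt_mem_nhds (not_le.1 h)).mono fun y hy =>
        smoothTransition.one_of_one_le hy.le)).trans (deriv_const _ 1))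
  exact ⟨M + 1, by linarith [(norm_nonneg _).trans (hM 0)], fun x => by linarith [hM x]⟩

theorem slow0 {η ε : ℝ} (hη : 0 < η) (hε : 0 < ε) : ∃ κ : ℂ → ℝ, ContDiff ℝ ∞ κ ∧
    (∀ ξ, κ ξ ∈ Icc (0 : ℝ) 1) ∧ (∃ δ : ℝ, 0 < δ ∧ ∀ ξ, ‖ξ‖ < δ → κ ξ = 1) ∧
    (∀ ξ, ε ≤ ‖ξ‖ → κ ξ = 0) ∧ ∀ ξ, ‖ξ‖ * ‖fderiv ℝ κ ξ‖ ≤ η := by
  obtain ⟨M, M0, hM⟩ := slow0_aux
  obtain ⟨a, a0, ha⟩ : ∃ a : ℝ, 0 < a ∧ M * a * 2 = η := ⟨η / (2 * M), by positivity, by field_simp⟩
  obtain ⟨c, c0, hc⟩ : ∃ c : ℝ, 0 < c ∧ c + c = ε ^ 2 / exp a⁻¹ :=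
    ⟨_, by positivity, add_halves _⟩
  have p : ∀ ξ : ℂ, 0 < ‖ξ‖ ^ 2 + c := fun ξ => by positivity
  refine ⟨fun ξ => smoothTransition (a * (log (ε ^ 2) - log (‖ξ‖ ^ 2 + c))),
    smoothTransition.contDiff.comp (contDiff_const.mul (contDiff_const.sub
      (((contDiff_norm_sq ℝ).add contDiff_const).log fun ξ => (p ξ).ne'))),
    fun ξ => ⟨smoothTransition.nonneg _, smoothTransition.le_one _⟩,
    ⟨√c, sqrt_pos.2 c0, fun ξ h => smoothTransition.one_of_one_le ?_⟩,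
    fun ξ h => smoothTransition.zero_of_nonpos (mul_nonpos_of_nonneg_of_nonpos a0.le
      (sub_nonpos.2 (log_le_log (by positivity) (by nlinarith)))), fun ξ => ?_⟩
  · have h1 := log_le_log (p ξ) (add_le_add_left ((lt_sqrt (norm_nonneg _)).1 h).le c)
    rw [hc, log_div (by positivity) (by positivity), log_exp] at h1
    rw [← inv_mul_le_iff₀ a0]
    linarith
  · have h1 := ((smoothTransition.contDiff (n := 1)).differentiable one_ne_zero _).hasDerivAt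
      |>.comp_hasFDerivAt ξ (((((hasStrictFDerivAt_norm_sq ξ).hasFDerivAt.add_const c).log
        (p ξ).ne').const_sub (log (ε ^ 2))).const_mul a)
    erw [h1.fderiv]
    rw [norm_smul, norm_smul, norm_neg, norm_smul, two_smul, ← two_smul ℝ,
      norm_smul, innerSL_apply_norm, Real.norm_of_nonneg a0.le,
      Real.norm_of_nonneg (inv_pos.2 (p ξ)).le, Real.norm_two, ← ha]
    have h2 : ‖ξ‖ ^ 2 * (‖ξ‖ ^ 2 + c)⁻¹ ≤ 1 := by
      rw [mul_inv_le_iff₀ (p ξ)]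
      linarith
    calc _ = ‖deriv smoothTransition _‖ * (a * 2 * (‖ξ‖ ^ 2 * (‖ξ‖ ^ 2 + c)⁻¹)) := by ring
      _ ≤ M * (a * 2 * 1) := by gcongr; exact hM _
      _ = _ := by ring

theorem glue {H : ℝ × E → E} (hH : ContDiff ℝ ∞ H) {cs : ℂ} (h0 : ∀ x, H (0, x) = x)
    (hl : ∀ k ζ, H (k, (ζ, cs)) = (ζ, cs)) (hf : ∃ R : ℝ, ∀ k x, R ≤ ‖x.1‖ → H (k, x) = x)
    {Q : Set (E × (E →L[ℝ] E))} (hQ : IsOpen Q) (q1 : ∀ y, (y, 1) ∈ Q)
    (q2 : ∀ k ∈ Icc (0 : ℝ) 1, ∀ ζ, ((ζ, cs), fderiv ℝ (fun x => H (k, x)) (ζ, cs)) ∈ Q)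
    {ε : ℝ} (hε : 0 < ε) : ∃ G : E → E, ContDiff ℝ ∞ G ∧ (∀ x, (G x, fderiv ℝ G x) ∈ Q) ∧
      (∀ x, ε ≤ ‖x.2 - cs‖ → G x = x) ∧ (∀ ζ, G (ζ, cs) = (ζ, cs)) ∧
      (∃ R : ℝ, ∀ x, R ≤ ‖x‖ → G x = x) ∧
      ∃ δ : ℝ, 0 < δ ∧ ∀ x, ‖x.2 - cs‖ < δ → G x = H (1, x) := by
  obtain ⟨R, hR⟩ := hf
  have d := fun p => (hH.differentiable (by simp) p).hasFDerivAt
  have hD : ContDiff ℝ ∞ (fderiv ℝ H) := hH.fderiv_right (by simp)
  have t1 := (isCompact_Icc (a := (0 : ℝ)) (b := 1)).prod (isCompact_closedBall (0 : ℂ) R)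
    |>.eventually_forall_of_forall_eventually (x₀ := ((0, 0) : ℂ × (E →L[ℝ] E)))
    (P := fun p q => (H (q.1, q.2, cs + p.1), (fderiv ℝ H (q.1, q.2, cs + p.1)).comp
      (ContinuousLinearMap.inr ℝ ℝ E) + p.2) ∈ Q) fun q hq =>
      ContinuousAt.eventually_mem (Continuous.continuousAt (by
        have := hH.continuous
        have := hD.continuous
        fun_prop)) (hQ.mem_nhds (by
        have := q2 q.1 hq.1 q.2
        erw [((d _).comp _ (hasFDerivAt_prodMk_right q.1 (q.2, cs))).fderiv] at this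
        simpa only [add_zero, hl] using this))
  obtain ⟨ρ, ρ0, t2⟩ := Metric.eventually_nhds_iff.1 t1
  obtain ⟨C, hC⟩ := (hD.clm_apply (contDiff_const (c := ((1, 0) : ℝ × E)))).contDiffOn
    |>.exists_lipschitzOnWith (by simp) ((convex_Icc (0 : ℝ) 1).prod
      ((convex_closedBall (0 : ℂ) R).prod (convex_closedBall cs 1)))
      (isCompact_Icc.prod ((isCompact_closedBall _ _).prod (isCompact_closedBall _ _)))
  have z : ∀ k ζ, fderiv ℝ H (k, ζ, cs) (1, 0) = 0 := fun k ζ =>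
    ((d _).comp_hasDerivAt (f := fun k => (k, ζ, cs)) k ((hasDerivAt_id k).prodMk
      (hasDerivAt_const k _))).unique ((hasDerivAt_const k (ζ, cs)).congr_of_eventuallyEq
        (.of_forall fun k => hl k ζ))
  obtain ⟨κ, k1, k2, ⟨δ, δ0, k3⟩, k4, k5⟩ := slow0 (η := ρ / (C + 1)) (ε := min ε (min (ρ / 2) 1))
    (by positivity) (by positivity)
  have e1 : ∀ x : E, min ε (min (ρ / 2) 1) ≤ ‖x.2 - cs‖ → H (κ (x.2 - cs), x) = x := fun x h => by
    rw [k4 _ h, h0]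
  have e2 : ∀ x : E, ε ≤ ‖x.2 - cs‖ → H (κ (x.2 - cs), x) = x := fun x h =>
    e1 x ((min_le_left _ _).trans h)
  refine ⟨fun x => H (κ (x.2 - cs), x), by fun_prop, fun x => ?_, e2, fun ζ => hl _ ζ,
    ⟨max R (‖cs‖ + ε), fun x hx => ?_⟩, δ, δ0, fun x h => by simp only [k3 _ h]⟩
  · by_cases h : R < ‖x.1‖ ∨ min ε (min (ρ / 2) 1) < ‖x.2 - cs‖
    · have e : (fun x : E => H (κ (x.2 - cs), x)) =ᶠ[𝓝 x] id := h.elim
        (fun h => (continuousAt_const.eventually_lt (g := fun y : E => ‖y.1‖) (by fun_prop) h).mono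
          fun y h => hR _ y h.le) fun h => (continuousAt_const.eventually_lt
            (g := fun y : E => ‖y.2 - cs‖) (by fun_prop) h).mono fun y h => e1 y h.le
      rw [e.fderiv_eq, fderiv_id]
      exact q1 _
    obtain ⟨h1, h2⟩ := not_or.1 h
    rw [not_lt, ← mem_closedBall_zero_iff] at h1
    rw [not_lt, le_min_iff, le_min_iff] at h2
    have b := hC.dist_le_mul (κ (x.2 - cs), x) ⟨k2 _, h1, mem_closedBall_iff_norm.2 h2.2.2⟩
      (κ (x.2 - cs), x.1, cs) ⟨k2 _, h1, mem_closedBall_self zero_le_one⟩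
    rw [z, dist_zero_right, dist_prod_same_left, show x = (x.1, x.2) from rfl, dist_prod_same_left,
      dist_eq_norm] at b
    have t3 := t2 (y := (x.2 - cs, ((fderiv ℝ κ (x.2 - cs)).comp
      (ContinuousLinearMap.snd ℝ ℂ ℂ)).smulRight (fderiv ℝ H (κ (x.2 - cs), x) (1, 0)))) (by
        rw [Prod.mk_zero_zero, dist_zero_right, Prod.norm_def, max_lt_iff,
          ContinuousLinearMap.norm_smulRight_apply]
        refine ⟨by linarith [h2.2.1], lt_of_le_of_lt (mul_le_mul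
          ((ContinuousLinearMap.opNorm_comp_le _ _).trans (mul_le_of_le_one_right (norm_nonneg _)
            (ContinuousLinearMap.norm_snd_le ..))) b (norm_nonneg _) (norm_nonneg _)) ?_⟩
        have := (le_div_iff₀ (by positivity)).1 (k5 (x.2 - cs))
        by_cases h : ‖x.2 - cs‖ * ‖fderiv ℝ κ (x.2 - cs)‖ = 0
        · nlinarith
        · nlinarith [(mul_nonneg (norm_nonneg _) (norm_nonneg _)).lt_of_ne' h])
      (κ (x.2 - cs), x.1) ⟨k2 _, h1⟩
    erw [((d _).comp x (((k1.differentiable (by simp) _).hasFDerivAt.comp x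
      (hasFDerivAt_snd.sub_const cs)).prodMk (hasFDerivAt_id x))).fderiv]
    simp only [add_sub_cancel] at t3
    refine (congrArg (fun L => (_, L) ∈ Q) (ContinuousLinearMap.ext fun v => ?_)).mp t3
    simp only [add_apply, ContinuousLinearMap.comp_apply, ContinuousLinearMap.smulRight_apply,
      ← map_smul, ← map_add]
    simp
  · rcases le_max_iff.1 (Prod.norm_def x ▸ hx) with h | h
    · exact hR _ x ((le_max_left _ _).trans h)
    · exact e2 x (by linarith [le_max_right R (‖cs‖ + ε), norm_sub_norm_le x.2 cs])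

theorem flatten_strip {Λ : Form1 E} {J : E → E →L[ℝ] E} (hΛ : ContDiff ℝ ∞ Λ) (hJ : Acs J)
    (ht : Tm Λ J) {cs : ℂ} (hl : ∀ ζ, J (ζ, cs) = J0) : ∃ η : ℝ, 0 < η ∧
      ∀ x : E, ‖x.2 - cs‖ < η → ∀ v, v ≠ 0 → 0 < dF Λ x v (J0 v) := by
  obtain ⟨R, hR⟩ := hJ.far
  have c : Continuous fun z : ℂ × ℂ × E => dF Λ (z.2.1, z.1) z.2.2 (J0 z.2.2) :=
    ((((contDiff_dF hΛ).continuous.comp (by fun_prop)).clm_apply (by fun_prop)).clm_apply
      (by fun_prop))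
  obtain ⟨η, h0, h⟩ := Metric.eventually_nhds_iff.1
    (((isCompact_closedBall (0 : ℂ) R).prod (isCompact_sphere (0 : E) 1)
      ).eventually_forall_of_forall_eventually (x₀ := cs)
      (P := fun ξ p => 0 < dF Λ (p.1, ξ) p.2 (J0 p.2)) fun p hp =>
      c.continuousAt.eventually (lt_mem_nhds (hl p.1 ▸ ht (p.1, cs) p.2
        (ne_zero_of_mem_unit_sphere ⟨p.2, hp.2⟩))))
  refine ⟨η, h0, fun x hx v hv => (le_total R ‖x‖).elim (fun e => hR x e ▸ ht x v hv) fun e => ?_⟩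
  have n := inv_pos.2 (norm_pos_iff.2 hv)
  have k := h ((dist_eq_norm _ _).trans_lt hx) (x.1, ‖v‖⁻¹ • v)
    ⟨mem_closedBall_zero_iff.2 ((norm_fst_le x).trans e),
      mem_sphere_zero_iff_norm.2 (norm_smul_inv_norm hv)⟩
  simp only [map_smul, smul_apply, smul_eq_mul] at k
  exact (mul_pos_iff_of_pos_left n).1 ((mul_pos_iff_of_pos_left n).1 k)

theorem flatten {Λ : Form1 E} {J : E → E →L[ℝ] E} (hΛ : ContDiff ℝ ∞ Λ) (hJ : Acs J)
    (ht : Tm Λ J) {cs : ℂ} (hl : ∀ ζ, J (ζ, cs) = J0) {ε : ℝ} (hε : 0 < ε) :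
    ∃ (J2 : E → E →L[ℝ] E) (δ : ℝ), Acs J2 ∧ Tm Λ J2 ∧ 0 < δ ∧
      (∀ x : E, ‖x.2 - cs‖ < δ → J2 x = J0) ∧
      ∀ x : E, J x = J0 ∨ ε ≤ ‖x.2 - cs‖ → J2 x = J x := by
  obtain ⟨η, h0, h⟩ := flatten_strip hΛ hJ ht hl
  have m0 := lt_min h0 hε
  let b : ContDiffBump cs := ⟨min η ε / 4, min η ε / 2, by linarith, by linarith⟩
  have a1 := fun x hx => inv_add_J0 (h x hx) (ht x)
  have a2 : ∀ x : E, ‖x.2 - cs‖ < η → Ctr (dF Λ x) ((1 - b x.2) • cayI (J x)) := fun x hx =>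
    (cayI_ctr (h x hx) (ht x)).smul (h x hx) ⟨sub_nonneg.2 b.le_one, sub_le_self _ b.nonneg⟩
  obtain ⟨J2, e1, e2⟩ : ∃ J2 : E → E →L[ℝ] E,
      (∀ x : E, ‖x.2 - cs‖ < η → J2 x = cayT ((1 - b x.2) • cayI (J x))) ∧
      ∀ x : E, η ≤ ‖x.2 - cs‖ → J2 x = J x :=
    ⟨fun x => if ‖x.2 - cs‖ < η then _ else _, fun x hx => if_pos hx, fun x hx => if_neg hx.not_gt⟩
  have e3 : ∀ x : E, J x = J0 ∨ min η ε / 2 ≤ ‖x.2 - cs‖ → J2 x = J x := fun x hx =>
    (lt_or_ge _ η).elim (fun k => by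
      rw [e1 x k]
      rcases hx with e | e
      · rw [e, cayI_J0, ← cayT_zero]
        exact congrArg cayT (ContinuousLinearMap.ext fun v => by simp)
      · rw [b.zero_of_le_dist (e.trans_eq (dist_eq_norm _ _).symm), sub_zero, one_smul,
          cayT_cayI (h x k) (ht x)]) (e2 x)
  have c : Continuous fun x : E => ‖x.2 - cs‖ := by fun_prop
  refine ⟨J2, min η ε / 4, ⟨contDiff_iff_contDiffAt.2 fun x => ?_, fun x => ?_,
    hJ.far.imp fun R hR x hx => (e3 x (.inl (hR x hx))).trans (hR x hx)⟩, fun x => ?_,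
    by linarith, fun x hx => ?_, fun x hx => e3 x (hx.imp_right fun e => by
      linarith [min_le_right η ε])⟩
  · rcases lt_or_ge ‖x.2 - cs‖ η with k | k
    · exact (ContDiffAt.comp (g := cayT) x (contDiffAt_cayT (a2 x k).inv)
        ((contDiff_const.sub (b.contDiff.comp contDiff_snd)).contDiffAt.smul
          ((contDiffAt_cayI (a1 x k)).comp x hJ.sm.contDiffAt))).congr_of_eventuallyEq
        ((c.continuousAt.eventually (gt_mem_nhds k)).mono e1)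
    · exact hJ.sm.contDiffAt.congr_of_eventuallyEq ((c.continuousAt.eventually (lt_mem_nhds
        (show min η ε / 2 < _ by linarith [min_le_left η ε]))).mono fun y hy => e3 y (.inr hy.le))
  · rcases lt_or_ge ‖x.2 - cs‖ η with k | k
    · exact e1 x k ▸ cayT_sq (a2 x k).inv ((cayI_anti (a1 x k) (hJ.sq x)).smul _)
    · exact e2 x k ▸ hJ.sq x
  · rcases lt_or_ge ‖x.2 - cs‖ η with k | k
    · exact e1 x k ▸ (a2 x k).tame
    · exact e2 x k ▸ ht x
  · rw [e1 x (by linarith [min_le_left η ε]), b.one_of_mem_closedBall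
      (mem_closedBall_iff_norm.2 hx.le), ← cayT_zero]
    exact congrArg cayT (ContinuousLinearMap.ext fun v => by simp)

end Pool.Agent.Lib.MP_7ed551_gt.Cy.Q
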