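import Pool.Agent.Lib.MP_7ed551_gt.Cy.Q.Nrm
import Pool.Agent.Lib.MP_7ed551_gt.Cy.Q.Glue

/-! The normal chart along a line. -/

open scoped ContDiff Topology
open Set Filter Metric MeasureTheory Real
open Complex (I)

noncomputable section

namespace Pool.Agent.Lib.MP_7ed551_gt.Cy.Q

open Pool.Agent.Lib.MP_ccffa6_gt
open FA (nq Pf Far)

variable {Λ : Form1 E} {J : E → E →L[ℝ] E} {Θ : E → E} {N : ℝ} {cs : ℂ} {α β : ℂ → ℂ}

/-- A homotopy of normal frames. -/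
def nf (J : E → E →L[ℝ] E) (cs : ℂ) (α β : ℂ → ℂ) (k : ℝ) (ζ ξ : ℂ) : E :=
  (k * (ξ * β ζ + (ξ * Complex.exp (α ζ)).im * (J (ζ, cs) (0, 1)).1),
    (ξ * Complex.exp (k * α ζ)).re +
      (ξ * Complex.exp (k * α ζ)).im * ((1 - k) * I + k * (J (ζ, cs) (0, 1)).2))

theorem tau_pos (hJ : Acs J) (hl : ∀ x v, J x (v, 0) = (I * v, 0)) (x : E) :
    0 < (J x (0, 1)).2.im := by
  have h0 : ∀ y, (J y (0, 1)).2.im ≠ 0 := fun y hy => by
    have e : J y (0, 1) = ((J y (0, 1)).1, 0) + (J y (0, 1)).2.re • ((0 : ℂ), (1 : ℂ)) :=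
      Prod.ext (by simp) (Complex.ext (by simp) (by simp [hy]))
    have := hJ.sq y (0, 1)
    rw [e, map_add, map_smul, hl] at this
    have := congrArg (fun v : E => v.2.re) this
    simp at this
    nlinarith
  obtain ⟨R, hR⟩ := hJ.far
  have h1 : (J ((R : ℂ), 0) (0, 1)).2.im = 1 := by
    rw [hR _ (by simpa using le_abs_self R), J0_apply]
    simp
  have hc : Continuous fun y => (J y (0, 1)).2.im :=
    Complex.continuous_im.comp (hJ.sm.continuous.clm_apply continuous_const).snd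
  by_contra h
  obtain ⟨y, hy⟩ := intermediate_value_univ x ((R : ℂ), 0) hc ⟨not_lt.1 h, h1 ▸ zero_le_one⟩
  exact h0 y hy

theorem nf_zero (ζ ξ : ℂ) : nf J cs α β 0 ζ ξ = (0, ξ) := by
  simp [nf]

theorem nf_at (k : ℝ) (ζ : ℂ) : nf J cs α β k ζ 0 = 0 := by
  simp [nf]

theorem nf_far {ζ : ℂ} (h1 : α ζ = 0) (h2 : β ζ = 0) (h3 : J (ζ, cs) = J0) (k : ℝ) (ξ : ℂ) :
    nf J cs α β k ζ ξ = (0, ξ) := by
  simp only [nf, h1, h2, h3, J0_apply]
  refine Prod.ext (by simp) ?_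
  simp only [mul_zero, Complex.exp_zero, mul_one, Prod.smul_snd, smul_eq_mul]
  linear_combination Complex.re_add_im ξ

theorem nf_one (hJ : Acs J) (hl : ∀ x v, J x (v, 0) = (I * v, 0)) (ζ ξ : ℂ) :
    nf J cs α β 1 ζ ξ = ξ.re • nrm J cs α β ζ + ξ.im • J (ζ, cs) (nrm J cs α β ζ) := by
  rw [nrm, map_add, map_add, map_smul, map_smul, hl, hJ.sq, nf]
  refine Prod.ext ?_ ?_ <;>
    simp only [Prod.fst_add, Prod.snd_add, Prod.smul_fst, Prod.smul_snd, Prod.fst_neg, Prod.snd_neg,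
      Complex.real_smul, Complex.ofReal_one, one_mul, Complex.mul_re, Complex.mul_im,
      Complex.ofReal_add, Complex.ofReal_sub, Complex.ofReal_mul]
  · linear_combination -β ζ * Complex.re_add_im ξ
  · ring

theorem nf_inj (hJ : Acs J) (hl : ∀ x v, J x (v, 0) = (I * v, 0)) {k : ℝ} (hk : k ∈ Icc (0 : ℝ) 1)
    {ζ ξ : ℂ} (h : (nf J cs α β k ζ ξ).2 = 0) : ξ = 0 := by
  have ht := tau_pos hJ hl (ζ, cs)
  simp only [nf] at h
  generalize hw : ξ * Complex.exp (k * α ζ) = w at h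
  have h1 := congrArg Complex.im h
  have h2 := congrArg Complex.re h
  simp at h1 h2
  have h3 : w.im = 0 := h1.resolve_right (by
    rcases hk.1.eq_or_lt with rfl | h0
    · simp
    · nlinarith [hk.2, mul_pos h0 ht])
  rw [h3, zero_mul, add_zero] at h2
  exact (mul_eq_zero.1 (hw.trans (Complex.ext h2 h3))).resolve_right (Complex.exp_ne_zero _)

theorem contDiff_nf (hJ : ContDiff ℝ ∞ J) (ha : ContDiff ℝ ∞ α) (hb : ContDiff ℝ ∞ β) :
    ContDiff ℝ ∞ fun p : ℝ × E => nf J cs α β p.1 p.2.1 (p.2.2 - cs) := by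
  have hk : ContDiff ℝ ∞ fun p : ℝ × E => (p.1 : ℂ) := Complex.ofRealCLM.contDiff.comp contDiff_fst
  have hx : ContDiff ℝ ∞ fun p : ℝ × E => p.2.2 - cs := by fun_prop
  have h1 : ContDiff ℝ ∞ fun p : ℝ × E => J (p.2.1, cs) (0, 1) :=
    (hJ.comp (by fun_prop)).clm_apply contDiff_const
  have ha' : ContDiff ℝ ∞ fun p : ℝ × E => α p.2.1 := ha.comp (by fun_prop)
  have re : ∀ {f : ℝ × E → ℂ}, ContDiff ℝ ∞ f → ContDiff ℝ ∞ fun p => ((f p).re : ℂ) := fun h =>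
    Complex.ofRealCLM.contDiff.comp (Complex.reCLM.contDiff.comp h)
  have im : ∀ {f : ℝ × E → ℂ}, ContDiff ℝ ∞ f → ContDiff ℝ ∞ fun p => ((f p).im : ℂ) := fun h =>
    Complex.ofRealCLM.contDiff.comp (Complex.imCLM.contDiff.comp h)
  have h2 := hx.mul (hk.mul ha').cexp
  exact (hk.mul ((hx.mul (hb.comp (by fun_prop))).add ((im (hx.mul ha'.cexp)).mul h1.fst))).prodMk
    ((re h2).add ((im h2).mul (((contDiff_const.sub hk).mul contDiff_const).add (hk.mul h1.snd))))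

theorem fderiv_nf_aux (k : ℝ) (ζ ξ : ℂ) :
    nf J cs α β k ζ ξ = ξ.re • nf J cs α β k ζ 1 + ξ.im • nf J cs α β k ζ I := by
  refine Prod.ext ?_ ?_ <;>
    simp only [nf, Prod.fst_add, Prod.snd_add, Prod.smul_fst, Prod.smul_snd, Complex.real_smul,
      one_mul, Complex.mul_re ξ, Complex.mul_im ξ, Complex.I_mul_re, Complex.I_mul_im,
      Complex.ofReal_add, Complex.ofReal_sub, Complex.ofReal_mul, Complex.ofReal_neg]
  · linear_combination -k * β ζ * Complex.re_add_im ξ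
  · ring

theorem fderiv_nf (hJ : ContDiff ℝ ∞ J) (ha : ContDiff ℝ ∞ α) (hb : ContDiff ℝ ∞ β) (k : ℝ)
    (ζ : ℂ) (v : E) :
    fderiv ℝ (fun x : E => nf J cs α β k x.1 (x.2 - cs)) (ζ, cs) v = nf J cs α β k ζ v.2 := by
  have hd : ∀ ξ : ℂ, DifferentiableAt ℝ (fun x : E => nf J cs α β k x.1 ξ) (ζ, cs) := fun ξ => by
    have := (((contDiff_nf (cs := cs) hJ ha hb).comp (f := fun x : E => (k, (x.1, ξ + cs)))
      (by fun_prop)).differentiable (by simp)) (ζ, cs)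
    simpa [Function.comp_def] using this
  have h1 : HasFDerivAt (fun x : E => x.2 - cs) (ContinuousLinearMap.snd ℝ ℂ ℂ) (ζ, cs) :=
    hasFDerivAt_snd.sub_const cs
  have h2 := ((Complex.reCLM.hasFDerivAt.comp _ h1).smul (hd 1).hasFDerivAt).add
    ((Complex.imCLM.hasFDerivAt.comp _ h1).smul (hd I).hasFDerivAt)
  rw [funext fun x : E => fderiv_nf_aux k x.1 (x.2 - cs), fderiv_nf_aux k ζ v.2]
  refine (congrArg (· v) h2.fderiv).trans ?_
  simp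

/-- The local holomorphic extension of the line. -/
def ext (Θ X : E → E) (ν : ℂ → E) (cs : ℂ) (x : E) : E :=
  Yl Θ (X (x.1, cs) + (x.2 - cs) • ν x.1)

theorem ext_line_box {X : E → E} (hX : Inv J Θ N X) {y : E} (hy : y ∈ Θ '' Box N) :
    (X y).1 ≠ 0 ∧ (X y).2 ≠ 0 ∧ |Real.log ‖(X y).1‖| < N ∧ |Real.log ‖(X y).2‖| < N := by
  obtain ⟨Z, hZ, rfl⟩ := hy
  simp only [hX.eq Z hZ, Complex.norm_exp, Real.log_exp]
  exact ⟨Complex.exp_ne_zero _, Complex.exp_ne_zero _, hZ⟩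

theorem ext_line_sm {X : E → E} (hX : Inv J Θ N X) {n : ℂ → E} (hn : ContDiff ℝ ∞ n) {ζ : ℂ}
    (hζ : (ζ, cs) ∈ Θ '' Box N) : ContDiffAt ℝ ∞ (fun ζ => X (ζ, cs)) ζ ∧
      ContDiffAt ℝ ∞ (fun ζ => fderiv ℝ X (ζ, cs) (n ζ)) ζ :=
  have h := hX.sm.contDiffAt (hX.op.mem_nhds hζ)
  have h' : ContDiffAt ℝ ∞ (fun ζ : ℂ => (ζ, cs)) ζ := contDiffAt_id.prodMk contDiffAt_const
  ⟨h.comp ζ h', ((h.fderiv_right (by simp)).comp ζ h').clm_apply hn.contDiffAt⟩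

theorem ext_line_Yl (hC : Cht J Θ N) {w : E} (h1 : w.1 ≠ 0) (h2 : w.2 ≠ 0) :
    ContDiffAt ℝ ∞ (Yl Θ) w :=
  (Yl_smooth hC).contDiffAt ((continuousAt_fst.eventually_ne h1).and
    (continuousAt_snd.eventually_ne h2))

theorem ext_line {X : E → E} (hC : Cht J Θ N) (hX : Inv J Θ N X) {n : ℂ → E}
    (hn : ContDiff ℝ ∞ n) {ζ : ℂ} (hζ : (ζ, cs) ∈ Θ '' Box N) :
    ext Θ X (fun ζ => fderiv ℝ X (ζ, cs) (n ζ)) cs (ζ, cs) = (ζ, cs) ∧
      ∀ v, fderiv ℝ (ext Θ X (fun ζ => fderiv ℝ X (ζ, cs) (n ζ)) cs) (ζ, cs) v =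
        (v.1, 0) + (v.2.re • n ζ + v.2.im • J (ζ, cs) (n ζ)) := by
  obtain ⟨e1, e2⟩ := Yl_X hC hX hζ
  obtain ⟨b1, b2, -⟩ := ext_line_box hX hζ
  refine ⟨by simp only [ext, sub_self, zero_smul, add_zero, e1], fun v => ?_⟩
  have h1 := ((hX.sm.contDiffAt (hX.op.mem_nhds hζ)).differentiableAt (by simp)).hasFDerivAt.comp
    ((ζ, cs) : E) (f := fun x : E => (x.1, cs)) (hasFDerivAt_fst.prodMk (hasFDerivAt_const cs _))
  have h2 := ((hasFDerivAt_snd (𝕜 := ℝ) (p := ((ζ, cs) : E))).sub_const cs).fun_smul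
    (((ext_line_sm hX hn hζ).2.differentiableAt (by simp)).hasFDerivAt.comp ((ζ, cs) : E)
      (f := Prod.fst) hasFDerivAt_fst)
  have h3 := HasFDerivAt.comp (g := Yl Θ) (g' := fderiv ℝ (Yl Θ) (X (ζ, cs))) _ (by
    simpa using ((ext_line_Yl hC b1 b2).differentiableAt (by simp)).hasFDerivAt) (h1.fun_add h2)
  refine (DFunLike.congr_fun h3.fderiv v).trans (Eq.trans (congrArg (fderiv ℝ (Yl Θ) _) ?_) (e2 _))
  rw [map_add, map_add, map_smul, map_smul, hX.hol _ hζ, ← Complex.coe_smul, ← Complex.coe_smul,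
    smul_smul, ← add_smul, Complex.re_add_im]
  simp

theorem ext_tube {X : E → E} (hX : Inv J Θ N X) {n : ℂ → E} (hn : ContDiff ℝ ∞ n) {T : Set ℂ}
    (hT : IsCompact T) (h : ∀ ζ ∈ T, (ζ, cs) ∈ Θ '' Box N) : ∃ ε : ℝ, 0 < ε ∧ ∀ ζ ∈ T, ∀ ξ : ℂ,
      ‖ξ‖ ≤ ε → ∀ w, w = X (ζ, cs) + ξ • fderiv ℝ X (ζ, cs) (n ζ) →
        w.1 ≠ 0 ∧ w.2 ≠ 0 ∧ |Real.log ‖w.1‖| < N ∧ |Real.log ‖w.2‖| < N := by
  obtain ⟨ε, hε, h1⟩ := Metric.eventually_nhds_iff.1 (hT.eventually_forall_of_forall_eventually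
    (x₀ := (0 : ℂ)) (P := fun ξ ζ => ∀ w, w = X (ζ, cs) + ξ • fderiv ℝ X (ζ, cs) (n ζ) →
      w.1 ≠ 0 ∧ w.2 ≠ 0 ∧ |Real.log ‖w.1‖| < N ∧ |Real.log ‖w.2‖| < N) fun ζ hζ => by
    obtain ⟨b1, b2, b3, b4⟩ := ext_line_box hX (h ζ hζ)
    obtain ⟨s1, s2⟩ := ext_line_sm hX hn (h ζ hζ)
    have c := ((s1.continuousAt.comp (f := Prod.snd) (x := ((0, ζ) : E)) continuousAt_snd).add
      (continuousAt_fst.smul (s2.continuousAt.comp (f := Prod.snd) continuousAt_snd))).tendsto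
    simp only [Pi.add_apply, Pi.smul_apply', Function.comp_apply, zero_smul, add_zero] at c
    filter_upwards [c.eventually ((continuousAt_fst.eventually_ne b1).and
      ((continuousAt_snd.eventually_ne b2).and
      (((continuousAt_fst.norm.log (norm_ne_zero_iff.2 b1)).abs.eventually_lt continuousAt_const
        b3).and ((continuousAt_snd.norm.log (norm_ne_zero_iff.2 b2)).abs.eventually_lt
          continuousAt_const b4))))] with p hp w hw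
    exact hw ▸ hp)
  exact ⟨ε / 2, half_pos hε, fun ζ hζ ξ hξ =>
    h1 (by rw [dist_zero_right]; linarith) ζ hζ⟩

theorem ext_smooth {X : E → E} (hC : Cht J Θ N) (hX : Inv J Θ N X) {n : ℂ → E}
    (hn : ContDiff ℝ ∞ n) {x : E} (hx : (x.1, cs) ∈ Θ '' Box N) {w : E}
    (hw : w = X (x.1, cs) + (x.2 - cs) • fderiv ℝ X (x.1, cs) (n x.1)) (h1 : w.1 ≠ 0)
    (h2 : w.2 ≠ 0) : ContDiffAt ℝ ∞ (ext Θ X (fun ζ => fderiv ℝ X (ζ, cs) (n ζ)) cs) x := by
  obtain ⟨s1, s2⟩ := ext_line_sm hX hn hx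
  subst hw
  exact (ext_line_Yl hC h1 h2).comp x ((s1.comp x contDiffAt_fst).add
    ((contDiffAt_snd.sub contDiffAt_const).smul (s2.comp x contDiffAt_fst)))

theorem ext_hol {X : E → E} (hC : Cht J Θ N) (hX : Inv J Θ N X)
    (hl : ∀ x v, J x (v, 0) = (I * v, 0)) {ν : ℂ → E} {x : E} (hx : (x.1, cs) ∈ Θ '' Box N)
    (hν : DifferentiableAt ℂ ν x.1) {w : E} (hw : w = X (x.1, cs) + (x.2 - cs) • ν x.1)
    (h1 : w.1 ≠ 0) (h2 : w.2 ≠ 0) (h3 : |Real.log ‖w.1‖| < N) (h4 : |Real.log ‖w.2‖| < N) (v : E) :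
    fderiv ℝ (ext Θ X ν cs) x (J0 v) = J (ext Θ X ν cs x) (fderiv ℝ (ext Θ X ν cs) x v) := by
  subst hw
  have d1 := (X_line hX hl cs).differentiableAt
    ((hX.op.preimage (continuous_id.prodMk continuous_const)).mem_nhds hx)
  have d2 := (((d1.comp x differentiableAt_fst).fun_add ((differentiableAt_snd.sub_const cs).fun_smul
    (hν.comp x differentiableAt_fst))).hasFDerivAt).restrictScalars ℝ
  have d3 := (((ext_line_Yl hC h1 h2).differentiableAt (by simp)).hasFDerivAt.comp x d2).fderiv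
  rw [show fderiv ℝ (ext Θ X ν cs) x = _ from d3, ContinuousLinearMap.comp_apply,
    ContinuousLinearMap.comp_apply, ContinuousLinearMap.coe_restrictScalars', J0_apply, map_smul]
  exact Yl_hol hC h1 h2 h3 h4 _

theorem exists_germ (hJ : Acs J) (hC : Cht J Θ N) (hN : 0 < N)
    (hl : ∀ x v, J x (v, 0) = (I * v, 0)) (cs : ℂ) : ∃ (α β : ℂ → ℂ) (F : E → E),
      ContDiff ℝ ∞ α ∧ ContDiff ℝ ∞ β ∧ HasCompactSupport α ∧ HasCompactSupport β ∧
      ContDiff ℝ ∞ F ∧ (∀ ζ, F (ζ, cs) = (ζ, cs)) ∧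
      (∀ ζ v, fderiv ℝ F (ζ, cs) v = (v.1, 0) + nf J cs α β 1 ζ v.2) ∧
      (∃ R : ℝ, ∀ x : E, R ≤ ‖x.1‖ → F x = x) ∧ ∃ ε : ℝ, 0 < ε ∧ ∀ x : E, ‖x.2 - cs‖ < ε →
        F x ∈ Θ '' Box (N / 2) → ∀ v, fderiv ℝ F x (J0 v) = J (F x) (fderiv ℝ F x v) := by
  obtain ⟨X, hX⟩ := hC.exists_inv
  obtain ⟨α, β, a1, b1, a2, b2, hd⟩ := exists_nrm hC hX hN hl cs
  have c1 : ContDiff ℝ ∞ fun ζ : ℂ => ((ζ, cs) : E) := contDiff_id.prodMk contDiff_const
  have hn : ContDiff ℝ ∞ (nrm J cs α β) := ((b1.prodMk contDiff_const).add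
    ((Complex.reCLM.contDiff.comp a1.cexp).smul contDiff_const)).add
    ((Complex.imCLM.contDiff.comp a1.cexp).smul ((hJ.sm.comp c1).clm_apply contDiff_const))
  have hK : IsCompact (Θ '' CBox (N / 2)) := hC.isCompact_image _
  have hV : IsOpen {ζ : ℂ | (ζ, cs) ∈ Θ '' Box (3 * N / 4)} :=
    (hC.isOpen_image (by linarith)).preimage c1.continuous
  have hL : IsClosed {x : E | x.2 = cs} := isClosed_eq continuous_snd continuous_const
  obtain ⟨T, hT, t1, t2⟩ := exists_compact_between ((hK.inter_right hL).image continuous_fst) hV (by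
    rintro _ ⟨⟨ζ, _⟩, ⟨h, rfl⟩, rfl⟩
    exact image_mono (CBox_sub (by linarith)) h)
  have t3 : ∀ ζ ∈ T, (ζ, cs) ∈ Θ '' Box N := fun ζ h => image_mono
    ((Box_sub le_rfl).trans (CBox_sub (by linarith))) (t2 h)
  obtain ⟨ε, e0, he⟩ := ext_tube hX hn hT t3
  have hU : IsOpen (interior T ×ˢ ball cs ε) := isOpen_interior.prod isOpen_ball
  obtain ⟨χ, k1, -, k2, k3, k4⟩ := exists_cutoff (hK.inter_right hL).isClosed hU fun x hx =>
    ⟨t1 ⟨x, hx, rfl⟩, by rw [hx.2]; exact mem_ball_self e0⟩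
  have u : ∀ x ∈ interior T ×ˢ ball cs ε, _ := fun x hx =>
    he x.1 (interior_subset hx.1) _ (mem_ball_iff_norm.1 hx.2).le _ rfl
  set G := ext Θ X (fun ζ => fderiv ℝ X (ζ, cs) (nrm J cs α β ζ)) cs
  let F₀ : E → E := fun x => (x.1, cs) + nf J cs α β 1 x.1 (x.2 - cs)
  have n1 : ContDiff ℝ ∞ fun x : E => nf J cs α β 1 x.1 (x.2 - cs) :=
    (contDiff_nf hJ.sm a1 b1).comp (contDiff_const.prodMk contDiff_id)
  have f1 : ContDiff ℝ ∞ F₀ := (c1.comp contDiff_fst).add n1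
  have f2 : ∀ ζ, F₀ (ζ, cs) = (ζ, cs) := fun ζ => by simp [F₀, nf_at]
  have f3 : ∀ ζ v, fderiv ℝ F₀ (ζ, cs) v = (v.1, 0) + nf J cs α β 1 ζ v.2 := fun ζ v => by
    rw [← fderiv_nf hJ.sm a1 b1]
    exact DFunLike.congr_fun ((hasFDerivAt_fst.prodMk (hasFDerivAt_const cs _)).add
      (n1.differentiable (by simp) _).hasFDerivAt).fderiv v
  have g1 : ∀ x ∈ interior T ×ˢ ball cs ε, ContDiffAt ℝ ∞ (fun x => G x - F₀ x) x := fun x hx =>
    (ext_smooth hC hX hn (t3 _ (interior_subset hx.1)) rfl (u x hx).1 (u x hx).2.1).sub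
      f1.contDiffAt
  have g2 := ext_smul hU k1 k3 fun x hx => (g1 x hx).contDiffWithinAt
  have g3 : ∀ ζ, HasFDerivAt (fun x => χ x • (G x - F₀ x)) (0 : E →L[ℝ] E) (ζ, cs) ∧
      χ (ζ, cs) • (G (ζ, cs) - F₀ (ζ, cs)) = 0 := fun ζ => by
    by_cases h : (ζ, cs) ∈ tsupport χ
    · have m := k3 h
      obtain ⟨l1, l2⟩ := ext_line hC hX hn (t3 _ (interior_subset m.1))
      have z : G (ζ, cs) - F₀ (ζ, cs) = 0 := by rw [f2, sub_eq_zero]; exact l1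
      have d := ((g1 _ m).add f1.contDiffAt).differentiableAt (by simp)
      simp only [sub_add_cancel] at d
      have d2 := (k1.differentiable (by simp) _).hasFDerivAt.smul
        (d.hasFDerivAt.sub (f1.differentiable (by simp) _).hasFDerivAt)
      refine ⟨d2.congr_fderiv (ContinuousLinearMap.ext fun v => ?_), by rw [z, smul_zero]⟩
      simp only [add_apply, smul_apply, sub_apply, ContinuousLinearMap.smulRight_apply,
        Pi.sub_apply, z, f3, nf_one hJ hl]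
      rw [l2]
      simp
    · have z := notMem_tsupport_iff_eventuallyEq.1 h
      exact ⟨(hasFDerivAt_const 0 _).congr_of_eventuallyEq (z.mono fun y hy => by simp [hy]),
        by simp [z.self_of_nhds]⟩
  have F2 : ∀ ζ, F₀ (ζ, cs) + χ (ζ, cs) • (G (ζ, cs) - F₀ (ζ, cs)) = (ζ, cs) := fun ζ => by
    rw [(g3 ζ).2, f2, add_zero]
  obtain ⟨R, hR⟩ : ∃ R : ℝ, ∀ x : E, R ≤ ‖x.1‖ → F₀ x + χ x • (G x - F₀ x) = x := by
    obtain ⟨R1, -, r1⟩ := a2.exists_pos_le_norm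
    obtain ⟨R2, -, r2⟩ := b2.exists_pos_le_norm
    obtain ⟨R3, -, r3⟩ := (k4 (hK.inter_right hL)).exists_pos_le_norm
    obtain ⟨R4, r4⟩ := hJ.far
    refine ⟨max (max R1 R2) (max R3 R4), fun x hx => ?_⟩
    simp only [max_le_iff] at hx
    simp [F₀, r3 x (hx.2.1.trans (norm_fst_le x)), nf_far (r1 _ hx.1.1) (r2 _ hx.1.2)
      (r4 (x.1, cs) (hx.2.2.trans (norm_fst_le (x.1, cs))))]
  refine ⟨α, β, fun x => F₀ x + χ x • (G x - F₀ x), a1, b1, a2, b2, f1.add g2, F2, fun ζ v => ?_,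
    ⟨R, hR⟩, ?_⟩
  · rw [← f3]
    exact DFunLike.congr_fun (((f1.differentiable (by simp) _).hasFDerivAt.add
      (g3 ζ).1).fderiv.trans (add_zero _)) v
  obtain ⟨B, hB⟩ := hK.isBounded.exists_norm_le
  have tb := (isCompact_closedBall (0 : ℂ) (max R B)).eventually_forall_of_forall_eventually
    (x₀ := cs) (P := fun ξ ζ => (∀ᶠ y in 𝓝 (ζ, ξ), χ y = 1) ∨
      F₀ (ζ, ξ) + χ (ζ, ξ) • (G (ζ, ξ) - F₀ (ζ, ξ)) ∉ Θ '' CBox (N / 2)) fun ζ _ => by
    by_cases h : (ζ, cs) ∈ Θ '' CBox (N / 2)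
    · exact ((continuous_swap.tendsto (cs, ζ)).eventually (k2.filter_mono
        (nhds_le_nhdsSet (by exact ⟨h, rfl⟩))).eventually_nhds).mono fun _ => .inl
    · exact ((((f1.add g2).continuous.comp continuous_swap).tendsto' (cs, ζ) _ (F2 ζ)).eventually
        (hK.isClosed.isOpen_compl.mem_nhds h)).mono fun _ => .inr
  obtain ⟨δ, d0, hδ⟩ := Metric.eventually_nhds_iff.1 tb
  refine ⟨δ, d0, fun x hx h v => ?_⟩
  have h' := image_mono (Box_sub le_rfl) h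
  have e := (hδ (y := x.2) (by rwa [dist_eq_norm]) x.1 (mem_closedBall_zero_iff.2 (by
    rcases le_total R ‖x.1‖ with r | r
    · exact ((norm_fst_le x).trans (hB x (hR x r ▸ h'))).trans (le_max_right _ _)
    · exact r.trans (le_max_left _ _)))).resolve_right fun n => n h'
  have m := k3 (subset_tsupport _ (show χ x ≠ 0 by simp [e.self_of_nhds]))
  have q : (fun x => F₀ x + χ x • (G x - F₀ x)) =ᶠ[𝓝 x] G := e.mono fun y hy => by simp [hy]
  rw [q.fderiv_eq, q.self_of_nhds]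
  exact ext_hol hC hX hl (t3 _ (interior_subset m.1))
    (hd.differentiableAt (hV.mem_nhds (t2 (interior_subset m.1)))) rfl (u x m).1 (u x m).2.1
    (u x m).2.2.1 (u x m).2.2.2 v

theorem exists_straight (hΛ : ContDiff ℝ ∞ Λ) (hJ : Acs J) (ht : Tm Λ J) (hC : Cht J Θ N)
    (hN : 0 < N) (hl : ∀ x v, J x (v, 0) = (I * v, 0)) (cs : ℂ) {ε : ℝ} (hε : 0 < ε) :
    ∃ G G' : E → E, Dif G G' ∧ FibPos (pb G Λ) ∧ (∀ ζ, G (ζ, cs) = (ζ, cs)) ∧
      (∀ x : E, ε ≤ ‖x.2 - cs‖ → G x = x) ∧ (∀ ζ, pJ G J (ζ, cs) = J0) ∧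
      ∃ δ : ℝ, 0 < δ ∧ ∀ x : E, ‖x.2 - cs‖ < δ → G x ∈ Θ '' Box (N / 2) → pJ G J x = J0 := by
  obtain ⟨α, β, F, ha, hb, ca, cb, hF, f0, f1, ⟨R, hR⟩, η, e0, f2⟩ := exists_germ hJ hC hN hl cs
  have c0 := contDiff_nf (cs := cs) hJ.sm ha hb
  have c1 : ∀ k : ℝ, ContDiff ℝ ∞ fun x : E => nf J cs α β k x.1 (x.2 - cs) := fun k =>
    c0.comp (contDiff_const.prodMk contDiff_id)
  have d1 : ∀ (k : ℝ) (ζ : ℂ), HasFDerivAt (fun x : E => (x.1, cs) + nf J cs α β k x.1 (x.2 - cs))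
      _ (ζ, cs) := fun k ζ => (hasFDerivAt_fst.prodMk (hasFDerivAt_const cs _)).add
        ((c1 k).differentiable (by simp) _).hasFDerivAt
  have t0 : ∀ y, 0 < dF Λ y (1, 0) (I, 0) := fun y => by
    simpa [hl] using ht y (1, 0) (by simp)
  obtain ⟨R1, h1⟩ := ca.isBounded.exists_norm_le
  obtain ⟨R2, h2⟩ := cb.isBounded.exists_norm_le
  obtain ⟨R3, h3⟩ := hJ.far
  obtain ⟨G, g1, g2, g3, g4, g5, δ, d0, g6⟩ := glue (cs := cs) (H := fun p : ℝ × E =>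
      (p.2.1, cs) + nf J cs α β p.1 p.2.1 (p.2.2 - cs) +
        p.1 • (F p.2 - ((p.2.1, cs) + nf J cs α β 1 p.2.1 (p.2.2 - cs))))
    (((contDiff_snd.fst.prodMk contDiff_const).add c0).add (contDiff_fst.smul
      ((hF.comp contDiff_snd).sub ((contDiff_snd.fst.prodMk contDiff_const).add
        ((c1 1).comp contDiff_snd)))))
    (fun x => by simp [nf_zero]) (fun k ζ => by simp [nf_at, f0])
    ⟨max (max R R3) (max R1 R2 + 1), fun k x hx => by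
      simp only [max_le_iff, ← le_sub_iff_add_le] at hx
      have e := fun k => nf_far (cs := cs) (J := J)
        (image_eq_zero_of_notMem_tsupport fun h => by linarith [h1 x.1 h, hx.2.1])
        (image_eq_zero_of_notMem_tsupport fun h => by linarith [h2 x.1 h, hx.2.2])
        (h3 _ (hx.1.2.trans (norm_fst_le (x.1, cs)))) k (x.2 - cs)
      simp [e, hR x hx.1.1]⟩
    (Q := {q | Function.Injective q.2 ∧ 0 < dF Λ q.1 (q.2 (1, 0)) (q.2 (I, 0))})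
    ((ContinuousLinearMap.isOpen_injective.preimage continuous_snd).inter
      (isOpen_lt continuous_const ((((contDiff_dF hΛ).continuous.comp continuous_fst).clm_apply
        (continuous_snd.clm_apply continuous_const)).clm_apply
        (continuous_snd.clm_apply continuous_const))))
    (fun y => ⟨fun _ _ h => h, t0 y⟩) (fun k hk ζ => by
      have e : ∀ v, fderiv ℝ (fun x : E => (x.1, cs) + nf J cs α β k x.1 (x.2 - cs) +
          k • (F x - ((x.1, cs) + nf J cs α β 1 x.1 (x.2 - cs)))) (ζ, cs) v =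
          (v.1, 0) + nf J cs α β k ζ v.2 := fun v => by
        rw [((d1 k ζ).fun_add (((hF.differentiable (by simp) _).hasFDerivAt.fun_sub
          (d1 1 ζ)).fun_const_smul k)).fderiv]
        simp [fderiv_nf hJ.sm ha hb, f1]
      refine ⟨(injective_iff_map_eq_zero _).2 fun v h => ?_, ?_⟩
      · rw [e] at h
        have h2 := nf_inj hJ hl hk ((zero_add _).symm.trans (congrArg Prod.snd h))
        rw [h2, nf_at, add_zero] at h
        exact Prod.ext (Prod.ext_iff.1 h).1 h2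
      · simpa [e, nf_at] using t0 _) hε
  obtain ⟨G', hG⟩ := exists_dif g1 (fun x => (g2 x).1) g5
  have e1 : ∀ x : E, ‖x.2 - cs‖ < δ → G =ᶠ[𝓝 x] F := fun x hx =>
    ((by fun_prop : ContinuousAt (fun x : E => ‖x.2 - cs‖) x).eventually_lt continuousAt_const
      hx).mono fun y hy => by simpa using g6 y hy
  have e2 : ∀ x : E, ‖x.2 - cs‖ < δ → (∀ v, fderiv ℝ F x (J0 v) = J (F x) (fderiv ℝ F x v)) →
      pJ G J x = J0 := fun x hx h => ContinuousLinearMap.ext fun v => (g2 x).1 (by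
    change fderiv ℝ G x _ = fderiv ℝ G x _
    rw [pJ_spec hG, (e1 x hx).fderiv_eq, (e1 x hx).eq_of_nhds, h])
  refine ⟨G, G', hG, fun x => ?_, g4, g3, fun ζ => e2 _ (by simpa using d0) fun v => ?_,
    min δ η, lt_min d0 e0, fun x hx h => e2 x (lt_min_iff.1 hx).1 (f2 x (lt_min_iff.1 hx).2
      ((e1 x (lt_min_iff.1 hx).1).eq_of_nhds ▸ h))⟩
  · rw [dF_pb (g1.contDiffAt.of_le (by norm_cast)) (hΛ.differentiable (by simp) _)]
    exact (g2 x).2
  · rw [f0, f1, f1, nf_one hJ hl, nf_one hJ hl, map_add, map_add, map_smul, map_smul, hl, hJ.sq]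
    simp [J0_apply, add_comm]

theorem exists_nchart (hΛ : ContDiff ℝ ∞ Λ) (hJ : Acs J) (ht : Tm Λ J) (hC : Cht J Θ N)
    (hN : 0 < N) (hl : ∀ x v, J x (v, 0) = (I * v, 0)) (cs : ℂ) {ε : ℝ} (hε : 0 < ε) :
    ∃ (G G' : E → E) (J2 : E → E →L[ℝ] E), Dif G G' ∧ Acs J2 ∧ Tm (pb G Λ) J2 ∧
      FibPos (pb G Λ) ∧ (∀ ζ, G (ζ, cs) = (ζ, cs)) ∧ (∀ x : E, ε ≤ ‖x.2 - cs‖ → G x = x) ∧
      (∃ δ : ℝ, 0 < δ ∧ ∀ x : E, ‖x.2 - cs‖ < δ → J2 x = J0) ∧
      ∀ x, G x ∈ Θ '' Box (N / 2) → ∀ v, fderiv ℝ G x (J2 x v) = J (G x) (fderiv ℝ G x v) := by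
  obtain ⟨G, G', h1, h2, h3, h4, h5, δ, d0, h6⟩ := exists_straight hΛ hJ ht hC hN hl cs hε
  obtain ⟨J2, η, a1, a2, a3, a4, a5⟩ := flatten (contDiff_pb h1.sm hΛ) (hJ.pull h1)
    (ht.pull hΛ h1) h5 d0
  refine ⟨G, G', J2, h1, a1, a2, h2, h3, h4, ⟨η, a3, a4⟩, fun x hx v => ?_⟩
  rw [a5 x ((lt_or_ge _ _).imp_left fun h => h6 x h hx), pJ_spec h1]

end Pool.Agent.Lib.MP_7ed551_gt.Cy.Q
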