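import Pool.Agent.Lib.MP_7ed551_gt.Cy.Q.HDefs

/-! The area of a plane with a simple pole at infinity. -/

open scoped ContDiff Topology
open Set Filter Metric MeasureTheory Real

noncomputable section

namespace Pool.Agent.Lib.MP_7ed551_gt.Cy

open Pool.Agent.Lib.MP_ccffa6_gt (Form1 dF pb px py JHol dens)

/-- Stokes' formula at infinity. -/
theorem area_le {P Q : ℂ → ℝ} (hP : ContDiff ℝ ∞ P) (hQ : ContDiff ℝ ∞ Q)
    (nn : ∀ τ, 0 ≤ px Q τ - py P τ) {T C R : ℝ}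
    (h : ∀ τ : ℂ, R ≤ ‖τ‖ → ‖(Q τ : ℂ) + P τ * Complex.I - T / τ‖ ≤ C / ‖τ‖ ^ 2) (ρ : ℝ) :
    ∫ τ in ball (0 : ℂ) ρ, (px Q τ - py P τ) ≤ 2 * π * T := by
  obtain ⟨M, M0, hM⟩ := exists_cut_scale
  have cμ : Continuous fun ζ => px Q ζ - py P ζ :=
    ((hQ.continuous_fderiv (by simp)).clm_apply continuous_const).sub
      ((hP.continuous_fderiv (by simp)).clm_apply continuous_const)
  have cP := hP.continuous
  have cQ := hQ.continuous
  have key : ∀ r, 0 < r → ρ ≤ r → R ≤ r →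
      ∫ τ in ball (0 : ℂ) ρ, (px Q τ - py P τ) ≤ 2 * π * T + 4 * π * M * |C| / r := by
    intro r r0 r1 r2
    obtain ⟨χ, c1, c2, c3, c4, c5⟩ := hM r r0
    have kd : Kd χ ⊆ {ζ : ℂ | ζ ≠ 0} := fun ζ hζ => norm_pos_iff.mp (r0.trans_le (c4 ζ hζ).1)
    have a1 : ∫ ζ in ball (0 : ℂ) ρ, (px Q ζ - py P ζ) ≤ ∫ ζ, χ ζ * (px Q ζ - py P ζ) := by
      rw [← setIntegral_congr_fun (f := fun ζ => χ ζ * (px Q ζ - py P ζ)) measurableSet_ball
        fun ζ hζ => by simp only [c3 ζ ((mem_ball_zero_iff.mp hζ).trans_le r1), one_mul]]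
      exact setIntegral_le_integral ((c1.sm.continuous.mul cμ).integrable_of_hasCompactSupport
        c1.cpt.mul_right) (ae_of_all _ fun ζ => mul_nonneg (c2 ζ) (nn ζ))
    have i1 := (c1.integrable_gr isOpen_ne kd (g := fun ζ => 1 / ζ)
      (continuousOn_const.div continuousOn_id fun _ hζ => hζ)).re
    have i2 := (c1.integrable_gr isOpen_ne kd (g := fun ζ => (Q ζ : ℂ) + P ζ * Complex.I - T / ζ)
      (ContinuousOn.sub (by fun_prop) (continuousOn_const.div continuousOn_id fun _ hζ => hζ))).re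
    simp only [RCLike.re_to_complex] at i1 i2
    have a2 : ∀ ζ, px χ ζ * Q ζ - py χ ζ * P ζ = T * (gr χ ζ * (1 / ζ)).re +
        (gr χ ζ * ((Q ζ : ℂ) + P ζ * Complex.I - T / ζ)).re := fun ζ => by
      rw [← Complex.re_ofReal_mul, ← Complex.add_re, mul_left_comm, ← mul_add, mul_one_div,
        add_sub_cancel]
      simp [gr]
    have a3 := wn_lin c1 0
    rw [c3 0 (by simpa using r0), wn, neg_mul, neg_eq_iff_eq_neg,
      inv_mul_eq_iff_eq_mul₀ (by positivity)] at a3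
    simp only [sub_zero, deriv_id''] at a3
    have a4 : ‖∫ ζ, (gr χ ζ * ((Q ζ : ℂ) + P ζ * Complex.I - T / ζ)).re‖ ≤
        M / r * (|C| / r ^ 2) * (volume : Measure ℂ).real (closedBall 0 (2 * r)) := by
      rw [← setIntegral_eq_integral_of_forall_compl_eq_zero (s := closedBall 0 (2 * r))
        fun ζ hζ => by simp [gr_eq_zero fun a => hζ (mem_closedBall_zero_iff.mpr (c4 ζ a).2)]]
      refine norm_setIntegral_le_of_norm_le_const measure_closedBall_lt_top fun ζ _ => ?_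
      by_cases hζ : ζ ∈ Kd χ
      · have b := (c4 ζ hζ).1
        refine (Complex.abs_re_le_norm _).trans ?_
        rw [norm_mul]
        refine mul_le_mul (c5 ζ) ((h ζ (r2.trans b)).trans ?_) (norm_nonneg _) (by positivity)
        gcongr
        exact le_abs_self C
      · simp only [gr_eq_zero hζ, zero_mul, Complex.zero_re, norm_zero]
        positivity
    rw [Measure.real, Complex.volume_closedBall, ENNReal.toReal_mul, ENNReal.toReal_pow,
      ENNReal.toReal_ofReal (by positivity), ENNReal.coe_toReal, NNReal.coe_real_pi,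
      show M / r * (|C| / r ^ 2) * ((2 * r) ^ 2 * π) = 4 * π * M * |C| / r by field_simp; ring,
      Real.norm_eq_abs] at a4
    refine a1.trans ?_
    rw [green_cut c1 isOpen_univ (subset_univ _) (hP.of_le (by simp)).contDiffOn
      (hQ.of_le (by simp)).contDiffOn, funext a2, integral_add (i1.const_mul _) i2,
      integral_const_mul, a3]
    linarith [(abs_le.mp a4).1]
  have lim : Tendsto (fun r : ℝ => 2 * π * T + 4 * π * M * |C| / r) atTop
      (𝓝 (2 * π * T + 0)) := (tendsto_const_nhds.div_atTop tendsto_id).const_add _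
  rw [add_zero] at lim
  refine ge_of_tendsto lim ?_
  filter_upwards [eventually_gt_atTop 0, eventually_ge_atTop ρ, eventually_ge_atTop R] using key

theorem harea_alg {τ : ℂ} (h : τ ≠ 0) (w w' : E) {A D : ℝ} (hA : 0 < A) (hD : 0 < D) {x y : E}
    (hx : x = τ • w) (hy : y = w - τ⁻¹ • w') {n : ℝ} (hn : n = ‖x.1‖ ^ 2 + ‖x.2‖ ^ 2 + D) :
    ‖((A / n * (om x (Complex.I • y) / 2) : ℝ) : ℂ) + (A / n * (om x y / 2) : ℝ) * Complex.I -
      (A / 2 : ℝ) / τ‖ ≤ A / 2 * ((‖(starRingEnd ℂ) w.1 * w'.1 + (starRingEnd ℂ) w.2 * w'.2‖ +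
        D * ‖τ⁻¹‖) / (‖w.1‖ ^ 2 + ‖w.2‖ ^ 2 + D * ‖τ⁻¹‖ ^ 2)) / ‖τ‖ ^ 2 := by
  have n0 : 0 < n := by rw [hn]; positivity
  have t0 := norm_pos_iff.mpr h
  have e1 : (om x (Complex.I • y) : ℂ) + om x y * Complex.I =
      (starRingEnd ℂ) x.1 * y.1 + (starRingEnd ℂ) x.2 * y.2 := by
    apply Complex.ext <;> simp [om, w1]
    ring
  have e2 : (n : ℂ) = x.1 * (starRingEnd ℂ) x.1 + x.2 * (starRingEnd ℂ) x.2 + D := by
    rw [hn, Complex.mul_conj', Complex.mul_conj']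
    norm_cast
  have e3 : n = (‖w.1‖ ^ 2 + ‖w.2‖ ^ 2 + D * ‖τ⁻¹‖ ^ 2) * ‖τ‖ ^ 2 := by
    simp only [hn, hx, Prod.smul_fst, Prod.smul_snd, norm_smul, norm_inv]
    field_simp
  have e4 : ((A / n * (om x (Complex.I • y) / 2) : ℝ) : ℂ) +
      (A / n * (om x y / 2) : ℝ) * Complex.I - (A / 2 : ℝ) / τ =
      -((A / 2 / n : ℝ) * ((starRingEnd ℂ) τ * τ⁻¹ *
        ((starRingEnd ℂ) w.1 * w'.1 + (starRingEnd ℂ) w.2 * w'.2) + D * τ⁻¹)) := by
    have a := mul_inv_cancel₀ h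
    have b := mul_inv_cancel₀ (Complex.ofReal_ne_zero.mpr n0.ne')
    simp only [hx, hy, Prod.smul_fst, Prod.smul_snd, Prod.fst_sub, Prod.snd_sub, smul_eq_mul,
      map_mul] at e1 e2
    rw [hx, hy]
    push_cast
    linear_combination (A / 2 / n : ℂ) * e1 - (A / 2 / n : ℂ) * τ⁻¹ * e2 + A / 2 * τ⁻¹ * b -
      (A / 2 / n : ℂ) * (starRingEnd ℂ) τ *
        (w.1 * (starRingEnd ℂ) w.1 + w.2 * (starRingEnd ℂ) w.2) * a
  rw [e4, norm_neg, norm_mul, Complex.norm_of_nonneg (by positivity), mul_div_assoc,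
    div_div _ _ (_ ^ 2), ← e3, div_mul_eq_mul_div, mul_div_assoc]
  gcongr
  refine (norm_add_le _ _).trans_eq ?_
  rw [norm_mul, norm_mul, norm_mul, Complex.norm_conj, Complex.norm_of_nonneg hD.le, ← norm_mul,
    mul_inv_cancel₀ h, norm_one, one_mul]

/-- `area_le` for the pulled back primitive. -/
theorem area_fs {Λ : Form1 E} {v W : ℂ → E} {A D R : ℝ} (hΛ : ContDiff ℝ ∞ Λ) (hv : ContDiff ℝ ∞ v)
    (nn : ∀ τ, 0 ≤ dens Λ v τ) (hA : 0 < A) (hD : 0 < D)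
    (far : ∀ x : E, R ≤ ‖x‖ → Λ x = (A / (‖x.1‖ ^ 2 + ‖x.2‖ ^ 2 + D)) • lam0 x)
    (hW : AnalyticAt ℂ W 0) (h0 : W 0 ≠ 0) (he : ∀ᶠ τ in cocompact ℂ, v τ = τ • W τ⁻¹) (ρ : ℝ) :
    ∫ τ in ball (0 : ℂ) ρ, dens Λ v τ ≤ π * A := by
  have du : ContDiff ℝ ∞ (fderiv ℝ v) := hv.fderiv_right le_rfl
  have e : ∀ τ, px (fun τ => Λ (v τ) (py v τ)) τ - py (fun τ => Λ (v τ) (px v τ)) τ = dens Λ v τ :=
    fun τ => MP_ccffa6_gt.dens_eq (hΛ.differentiable (by simp) _)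
      (hv.contDiffAt.of_le (by norm_cast))
  have i2 : Tendsto (fun t : ℂ => t⁻¹) (cocompact ℂ) (𝓝 0) :=
    Metric.cobounded_eq_cocompact (α := ℂ) ▸ tendsto_inv₀_cobounded
  have c1 := hW.continuousAt
  have c2 := hW.deriv.continuousAt
  have c3 : ContinuousAt (fun t => A / 2 * ((‖(starRingEnd ℂ) (W t).1 * (deriv W t).1 +
      (starRingEnd ℂ) (W t).2 * (deriv W t).2‖ + D * ‖t‖) /
        (‖(W t).1‖ ^ 2 + ‖(W t).2‖ ^ 2 + D * ‖t‖ ^ 2))) 0 := by
    refine (ContinuousAt.div (by fun_prop) (by fun_prop) fun a => h0 ?_).const_mul _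
    rw [norm_zero] at a
    exact Prod.ext (norm_eq_zero.mp (by nlinarith [sq_nonneg ‖(W 0).2‖]))
      (norm_eq_zero.mp (by nlinarith [sq_nonneg ‖(W 0).1‖]))
  obtain ⟨C, c4⟩ := c3.tendsto.isBoundedUnder_le
  obtain ⟨R1, r1, h1⟩ := exists_radius he
  obtain ⟨R2, -, h2⟩ := exists_radius ((((tendsto_norm_cocompact_atTop (E := ℂ)).atTop_mul_pos
    (norm_pos_iff.mpr h0) (c1.norm.tendsto.comp i2)).eventually_ge_atTop R).and
    (((tendsto_norm_cocompact_atTop (E := ℂ)).eventually_gt_atTop R1).and (i2.eventually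
      ((eventually_map.mp c4).and hW.eventually_analyticAt))))
  refine ((integral_congr_ae (ae_of_all _ e)).symm.trans_le (area_le (T := A / 2) (C := C) (R := R2)
    ((hΛ.comp hv).clm_apply (du.clm_apply contDiff_const))
    ((hΛ.comp hv).clm_apply (du.clm_apply contDiff_const)) (fun τ => (nn τ).trans_eq (e τ).symm)
    (fun τ hτ => ?_) ρ)).trans_eq (by ring)
  obtain ⟨a1, a2, a3, a4⟩ := h2 τ hτ
  have z1 : τ ≠ 0 := norm_pos_iff.mp (r1.trans a2)
  have b1 := h1 τ a2.le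
  have b2 : v =ᶠ[𝓝 τ] fun s => s • W s⁻¹ :=
    (continuousAt_const.eventually_lt continuous_norm.continuousAt a2).mono fun s hs => h1 s hs.le
  have d : HasDerivAt v (W τ⁻¹ - τ⁻¹ • deriv W τ⁻¹) τ := by
    refine (((hasDerivAt_id τ).smul (a4.differentiableAt.hasDerivAt.scomp τ
      (hasDerivAt_inv z1))).congr_deriv ?_).congr_of_eventuallyEq b2
    simp only [id, one_smul, smul_smul, Function.comp]
    rw [show τ * -(τ ^ 2)⁻¹ = -τ⁻¹ by field_simp, neg_smul, neg_add_eq_sub]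
  obtain ⟨d1, d2⟩ := MP_ccffa6_gt.cr_of_hasDerivAt d
  change ‖((Λ (v τ) (py v τ) : ℝ) : ℂ) + (Λ (v τ) (px v τ) : ℝ) * Complex.I - _‖ ≤ _
  rw [far _ (by rw [b1, norm_smul]; exact a1), d1, d2, smul_apply, smul_apply, lam0_apply,
    lam0_apply]
  refine (harea_alg z1 _ _ hA hD b1 rfl rfl).trans ?_
  gcongr

end Pool.Agent.Lib.MP_7ed551_gt.Cy
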