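import Pool.Agent.Lib.MP_7ed551_gt.Cy.N.Main

/-! The hole lemma in the ball: definitions. -/

open scoped ContDiff Topology
open Set Filter Metric MeasureTheory Real

noncomputable section

namespace Pool.Agent.Lib.MP_7ed551_gt.Cy

open Pool.Agent.Lib.MP_ccffa6_gt (Form1 dF pb px py JHol dens)

/-- The data of `Lm` with an arbitrary bound `A` for the mass. -/
structure Lw (Ω : Set ℂ) (z1 z2 : ℂ → ℂ) (μ : ℂ → ℝ) (N a A B : ℝ) (k : ℤ × ℤ) : Prop where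
  N0 : 0 < N
  a0 : 0 < a
  h1 : HolN Ω z1
  h2 : HolN Ω z2
  prop : IsCompact {ζ | ζ ∈ Ω ∧ |xi z1 ζ| ≤ N / 2 ∧ |xi z2 ζ| ≤ N / 2}
  cμ : Continuous μ
  nn : ∀ ζ, 0 ≤ μ ζ
  zero : ∀ ζ ∈ Core Ω z1 z2 (N / 4), μ ζ = 0
  sub : ∀ ζ, μ ζ = 0 → ζ ∈ Ω
  mass : ∀ χ, Cut (Core Ω z1 z2 (N / 4)) χ →
    ∫ ζ, χ ζ * μ ζ = a * (k.1 * wn χ z1 + k.2 * wn χ z2) ∧ ∫ ζ, χ ζ * μ ζ ≤ A
  int : IntegrableOn (fl z1 z2) Ω
  flat : ∫ ζ in Ω, fl z1 z2 ζ ≤ B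

/-- The projective map which sends the horizontal point at infinity to `(cs, zp)`. -/
def sig (cs zp : ℂ) (y : E) : E := (y.1 / (1 + y.1 / cs), y.2 / (1 + y.1 / cs) + zp)

/-- `J'` is the pull back of `J` by `sig`; `dΛ` is the Fubini-Study form at infinity. -/
structure Proj (Λ : Form1 E) (J J' : E → E →L[ℝ] E) (A D : ℝ) (cs zp : ℂ) : Prop where
  sm : ContDiff ℝ ∞ Λ
  sq : ∀ x v, J x (J x v) = -v
  tame : ∀ x v, v ≠ 0 → 0 < dF Λ x v (J x v)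
  A0 : 0 < A
  D0 : 0 < D
  c0 : cs ≠ 0
  far : ∃ R : ℝ, ∀ x : E, R ≤ ‖x‖ →
    Λ x = (A / (‖x.1‖ ^ 2 + ‖x.2‖ ^ 2 + D)) • lam0 x ∧ J x = J0
  near : ∃ ε : ℝ, 0 < ε ∧ ∀ x : E, ‖x.1 - cs‖ < ε → J x = J0
  pull : ∀ y : E, 1 + y.1 / cs ≠ 0 → ∀ v,
    J (sig cs zp y) (fderiv ℝ (sig cs zp) y v) = fderiv ℝ (sig cs zp) y (J' y v)
  zero : ∃ ε : ℝ, 0 < ε ∧ ∀ y : E, ‖1 + y.1 / cs‖ < ε → J' y = J0

/-- A proper immersed holomorphic plane of area at most `A`. -/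
structure Pl (Λ : Form1 E) (J : E → E →L[ℝ] E) (v : ℂ → E) (A : ℝ) : Prop where
  sm : ContDiff ℝ ∞ v
  hol : JHol J v univ
  imm : ∀ τ, px v τ ≠ 0
  prop : Tendsto (fun τ => ‖v τ‖) (cocompact ℂ) atTop
  area : ∀ ρ : ℝ, ∫ τ in ball (0 : ℂ) ρ, dens Λ v τ ≤ A

end Pool.Agent.Lib.MP_7ed551_gt.Cy
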