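import Pool.Agent.Lib.MP_7ed551_gt.Cy.Q.HRing

/-! The strand through the base point eats one hole. -/

open scoped ContDiff Topology
open Set Filter Metric MeasureTheory Real

noncomputable section

namespace Pool.Agent.Lib.MP_7ed551_gt.Cy

open Pool.Agent.Lib.MP_ccffa6_gt (Form1 dF pb px py JHol dens)

variable {Ω : Set ℂ} {z1 z2 : ℂ → ℂ} {μ : ℂ → ℝ} {N a A B : ℝ} {k : ℤ × ℤ}

theorem hhole_fd {χ ψ : ℂ → ℝ} (h : Bmp χ) {ζ : ℂ} (hζ : ζ ∉ Kd χ) (e : ψ =ᶠ[𝓝 ζ] χ) :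
    HasFDerivAt ψ (0 : ℂ →L[ℝ] ℝ) ζ :=
  (image_eq_zero_of_notMem_tsupport hζ ▸
    (h.sm.differentiable (by simp) ζ).hasFDerivAt).congr_of_eventuallyEq e

theorem gap_zero {f : ℂ → ℂ} (hf : HolN Ω f) {χ' χ'' : ℂ → ℝ} (h1 : Bmp χ') (h2 : Bmp χ'')
    (hle : ∀ ζ, χ'' ζ ≤ χ' ζ) (hs : tsupport (fun ζ => χ' ζ - χ'' ζ) ⊆ Ω) {s₁ s₂ : ℝ}
    (h12 : s₁ < s₂) (k1 : ∀ ζ ∈ Kd χ', ζ ∈ Ω ∧ s₂ ≤ xi f ζ) (k2 : ∀ ζ ∈ Kd χ'', ζ ∈ Ω ∧ xi f ζ ≤ s₁)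
    (hw : wn χ' f = 0) : ∀ ζ, χ' ζ = 0 ∨ χ'' ζ = 0 := by
  have hc := hf.contDiffOn_xi.continuousOn
  have hlt : ∀ {x y : ℂ}, x ∈ Ω → y ∈ Ω → xi f x < xi f y → ‖f x‖ < ‖f y‖ := fun hx hy e =>
    (Real.log_lt_log_iff (norm_pos_iff.2 (hf.ne _ hx)) (norm_pos_iff.2 (hf.ne _ hy))).1 e
  have a1 : ∀ p ∈ Ω ∩ xi f ⁻¹' Ioo s₁ s₂, χ' p - χ'' p = 0 := fun p hp => by
    have b1 := fun ζ hζ => hlt hp.1 (k1 ζ hζ).1 (hp.2.2.trans_le (k1 ζ hζ).2)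
    have b2 := fun ζ hζ => hlt (k2 ζ hζ).1 hp.1 ((k2 ζ hζ).2.trans_lt hp.2.1)
    have b3 : DifferentiableOn ℂ (fun ζ => f ζ - f p) Ω := hf.hol.sub_const _
    have b4 : HolN (Ω ∩ (fun ζ => f ζ - f p) ⁻¹' {0}ᶜ) fun ζ => f ζ - f p :=
      ⟨b3.continuousOn.isOpen_inter_preimage hf.op isOpen_compl_singleton,
        b3.mono inter_subset_left, fun _ h => h.2⟩
    have c1 : Kd χ' ⊆ Ω ∩ (fun ζ => f ζ - f p) ⁻¹' {0}ᶜ := fun ζ hζ =>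
      ⟨(k1 ζ hζ).1, sub_ne_zero.2 fun e => (b1 ζ hζ).ne (by rw [e])⟩
    have c2 : Kd χ'' ⊆ Ω ∩ (fun ζ => f ζ - f p) ⁻¹' {0}ᶜ := fun ζ hζ =>
      ⟨(k2 ζ hζ).1, sub_ne_zero.2 fun e => (b2 ζ hζ).ne (by rw [e])⟩
    have b5 := ap1 (h1.sub h2) (fun ζ => sub_nonneg.2 (hle ζ)) hf.op hs b3
      (fun ζ hζ => (union_subset c1 c2 (kd_sub h1 h2 hζ)).2) hp.1 (sub_self _)
    rw [wn_sub h1 h2 b4 c1 c2, wn_out h1 hf (fun ζ hζ => (k1 ζ hζ).1) b1,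
      wn_in h2 hf.op hf.hol (fun ζ hζ => (k2 ζ hζ).1) b2, hw, sub_zero] at b5
    exact b5.antisymm (sub_nonneg.2 (hle p))
  classical
  let ψ : ℂ → ℝ := fun ζ => if ζ ∈ Ω ∩ xi f ⁻¹' Ioi s₁ then χ'' ζ else χ' ζ
  have a2 : ∀ ζ, HasFDerivAt ψ (0 : ℂ →L[ℝ] ℝ) ζ := fun ζ => by
    by_cases hζ : ζ ∈ Ω ∩ xi f ⁻¹' Ioi s₁
    · exact hhole_fd h2 (fun e => (k2 ζ e).2.not_gt hζ.2) (mem_of_superset
        ((hc.isOpen_inter_preimage hf.op isOpen_Ioi).mem_nhds hζ) fun x hx => if_pos hx)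
    by_cases hΩ : ζ ∈ Ω
    · have b1 : xi f ζ < s₂ := (not_lt.1 fun e => hζ ⟨hΩ, e⟩).trans_lt h12
      refine hhole_fd h1 (fun e => (k1 ζ e).2.not_gt b1) (mem_of_superset
        ((hc.isOpen_inter_preimage hf.op isOpen_Iio).mem_nhds ⟨hΩ, b1⟩) fun x hx => ?_)
      exact ite_eq_right_iff.2 fun e => (sub_eq_zero.1 (a1 x ⟨e.1, e.2, hx.2⟩)).symm
    · exact hhole_fd h1 (fun e => hΩ (k1 ζ e).1) ((notMem_tsupport_iff_eventuallyEq.1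
        (mt (@hs ζ) hΩ)).mono fun x e => ite_eq_right_iff.2 fun _ => (sub_eq_zero.1 e).symm)
  obtain ⟨q, hq⟩ := (ne_univ_iff_exists_notMem _).1
    (top_univ (h1.cpt.isCompact.union h2.cpt.isCompact).isBounded)
  intro ζ
  have a3 : ψ ζ = 0 := (is_const_of_fderiv_eq_zero (fun x => (a2 x).differentiableAt)
    (fun x => (a2 x).fderiv) ζ q).trans (by
      simp only [ψ, image_eq_zero_of_notMem_tsupport fun e => hq (Or.inl e),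
        image_eq_zero_of_notMem_tsupport fun e => hq (Or.inr e), ite_self])
  by_cases hζ : ζ ∈ Ω ∩ xi f ⁻¹' Ioi s₁
  · exact Or.inr ((if_pos hζ).symm.trans a3)
  · exact Or.inl ((if_neg hζ).symm.trans a3)

theorem hhole_int {A : ℝ} (h : Lw Ω z1 z2 μ N a A B k) {χ : ℂ → ℝ} (hχ : Bmp χ) :
    Integrable fun ζ => χ ζ * μ ζ :=
  (hχ.sm.continuous.mul h.cμ).integrable_of_hasCompactSupport hχ.cpt.mul_right

theorem hhole_zero (h : Lw Ω z1 z2 μ N a A B k) {χ : ℂ → ℝ} (hχ : Bmp χ) (h0 : ∀ ζ, 0 ≤ χ ζ)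
    (e : ∫ ζ, χ ζ * μ ζ = 0) (ζ : ℂ) : χ ζ * μ ζ = 0 :=
  congrFun (((hχ.sm.continuous.mul h.cμ).ae_eq_iff_eq volume continuous_zero).1
    ((integral_eq_zero_iff_of_nonneg (fun ζ => mul_nonneg (h0 ζ) (h.nn ζ))
      (hhole_int h hχ)).1 e)) ζ

theorem hhole_cls (h : Lw Ω z1 z2 μ N a A B k) {χ : ℂ → ℝ} (hχ : Cut (Core Ω z1 z2 (N / 4)) χ) :
    ∃ m : ℤ × ℤ, wn χ z1 = m.1 ∧ wn χ z2 = m.2 ∧
      ∫ ζ, χ ζ * μ ζ = a * (k.1 * m.1 + k.2 * m.2 : ℤ) := by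
  obtain ⟨m, hm⟩ := wn_int hχ (h.h1.mono (isOpen_core h.h1 h.h2 _) fun _ a => a.1)
  obtain ⟨n, hn⟩ := wn_int hχ (h.h2.mono (isOpen_core h.h1 h.h2 _) fun _ a => a.1)
  refine ⟨(m, n), hm, hn, ?_⟩
  rw [(h.mass χ hχ).1, hm, hn]
  push_cast
  rfl

theorem hhole_same {D V : Set ℂ} {χ χ' f : ℂ → _} (h : CutD D V χ) (h' : CutD D V χ')
    (hf : HolN V f) : wn χ f = wn χ' f := by
  rw [← sub_eq_zero, ← wn_sub h.cut.bmp h'.cut.bmp hf h.cut.kd h'.cut.kd]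
  refine wn_zero (h.cut.bmp.sub h'.cut.bmp) hf fun ζ => not_imp_not.1 fun hζ =>
    notMem_tsupport_iff_eventuallyEq.2 ?_
  by_cases hD : ζ ∈ D
  · exact ((h.one ζ hD hζ).and (h'.one ζ hD hζ)).mono fun x e => by simp [e.1, e.2]
  · exact ((notMem_tsupport_iff_eventuallyEq.1 (mt (@h.supp ζ) hD)).and
      (notMem_tsupport_iff_eventuallyEq.1 (mt (@h'.supp ζ) hD))).mono fun x e => by
        simp [e.1, e.2]

theorem hhole_lin {m n u v b r : ℝ} (hm : |m| ≤ b) (hn : |n| ≤ b) (hu : |u| < r) (hv : |v| < r) :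
    |m * u - n * v| ≤ 2 * b * r := by
  refine (abs_sub _ _).trans ?_
  rw [abs_mul, abs_mul]
  linarith [mul_le_mul hm hu.le (abs_nonneg _) ((abs_nonneg _).trans hm),
    mul_le_mul hn hv.le (abs_nonneg _) ((abs_nonneg _).trans hn)]

theorem hole : ∃ M c₀ : ℝ, 0 < M ∧ 0 < c₀ ∧ ∀ (Ω : Set ℂ) (z1 z2 : ℂ → ℂ) (μ : ℂ → ℝ)
    (N a A B : ℝ) (k : ℤ × ℤ) (p : ℂ) (ρ b t : ℝ), Lw Ω z1 z2 μ N a A B k → A < 3 * a →
    p ∈ Core Ω z1 z2 (N / 8) → 0 < ρ → ρ ≤ N / 16 → B < c₀ * ρ ^ 2 → 1 ≤ b → M * B / N ≤ b →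
    0 < t → t ≤ N → (∀ m : ℤ × ℤ, m ≠ 0 → |(m.1 : ℝ)| ≤ b → |(m.2 : ℝ)| ≤ b →
      4 * b * ρ + b * t / 2 < |m.2 * xi z1 p - m.1 * xi z2 p|) →
    ∀ χ, Cut (Core Ω z1 z2 (t / 4)) χ → χ p = 0 → k.1 * wn χ z1 + k.2 * wn χ z2 ≤ 1 := by
  obtain ⟨M, M0, hM⟩ := cls_bound_w
  obtain ⟨c₀, c0, hc⟩ := exists_ring_w
  refine ⟨M, c₀, M0, c0, fun Ω z1 z2 μ N a A B k p ρ b t h hA hp ρ0 ρN hB b1 hb t0 tN hm χ hχ χp =>
    not_lt.1 fun hn => ?_⟩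
  obtain ⟨C, D, hR, pC, C1, C2, hne⟩ := hc Ω z1 z2 μ N a A B k p ρ h hp ρ0 ρN hB
  obtain ⟨χ₀, d0, e1, e2⟩ := hM Ω z1 z2 μ N a A B k C D h hR C2
  have N0 := h.N0
  have a0 := h.a0
  have cm : ∀ {s s' : ℝ}, s ≤ s' → Core Ω z1 z2 s ⊆ Core Ω z1 z2 s' := fun e _ x =>
    ⟨x.1, x.2.1.trans_le e, x.2.2.trans_le e⟩
  have hχ' := hχ.mono (cm (s' := N / 4) (by linarith))
  have a1 : C ⊆ {ζ | χ =ᶠ[𝓝 ζ] fun _ => 0} := by
    refine hR.con.subset_left_of_subset_union (v := {ζ | χ =ᶠ[𝓝 ζ] fun _ => 1})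
      isOpen_setOfPred_eventually_nhds isOpen_setOfPred_eventually_nhds
      (disjoint_left.2 fun ζ x y => zero_ne_one (x.self_of_nhds.symm.trans y.self_of_nhds))
      (fun ζ hζ => hχ.loc ζ fun e => ?_) ⟨p, pC, ?_⟩
    · have b2 := hm (1, 0) (by simp) (by simpa) (by simp; linarith)
      have b3 := abs_le.1 (C1 hζ).2.2
      have b4 := abs_lt.1 e.2.2
      have b5 : |xi z2 p| < ρ + t / 4 := abs_lt.2 ⟨by linarith, by linarith⟩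
      simp only [Int.cast_zero, zero_mul, Int.cast_one, one_mul, zero_sub, abs_neg] at b2
      nlinarith
    · refine (hχ.loc p fun e => ?_).resolve_right fun e =>
        zero_ne_one (χp.symm.trans e.self_of_nhds)
      have b2 := hm (1, 0) (by simp) (by simpa) (by simp; linarith)
      simp only [Int.cast_zero, zero_mul, Int.cast_one, one_mul, zero_sub, abs_neg] at b2
      nlinarith [e.2.2]
  have ho : ∀ {z : ℂ → ℂ}, HolN Ω z → IsOpen (Ω ∩ (fun ζ => |xi z ζ - xi z p|) ⁻¹' Iio (2 * ρ)) :=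
    fun hz => (hz.contDiffOn_xi.continuousOn.sub continuousOn_const).abs.isOpen_inter_preimage
      hz.op isOpen_Iio
  obtain ⟨χ', d1⟩ := hR.exists_cut (((isOpen_core h.h1 h.h2 (N / 4)).inter
    (isOpen_setOfPred_eventually_nhds (p := fun x => χ x = 0))).inter ((ho h.h1).inter (ho h.h2)))
    fun ζ hζ => ⟨⟨cm (by linarith) (C2 hζ), a1 hζ⟩, ⟨(C1 hζ).1, (C1 hζ).2.1.trans_lt (by linarith)⟩,
      (C1 hζ).1, (C1 hζ).2.2.trans_lt (by linarith)⟩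
  have d2 : CutD D (Core Ω z1 z2 (N / 4)) χ' :=
    ⟨d1.cut.mono fun _ x => x.1.1, d1.supp, fun ζ x y => d1.one ζ x fun z => y z.1.1⟩
  refine hne _ χ' Subset.rfl d2 ?_
  by_contra hz
  obtain ⟨m, m1, m2, m3⟩ := hhole_cls h d2.cut
  obtain ⟨n, n1, n2, n3⟩ := hhole_cls h hχ'
  obtain ⟨l, -, -, l3⟩ := hhole_cls h (hχ'.mul d2.cut)
  have m0 : m ≠ 0 := fun e => hz (hhole_zero h d2.cut.bmp d2.cut.nn (by simpa [e] using m3))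
  rw [← hhole_same d2 d0 (h.h1.mono (isOpen_core h.h1 h.h2 _) fun _ x => x.1), m1] at e1
  rw [← hhole_same d2 d0 (h.h2.mono (isOpen_core h.h1 h.h2 _) fun _ x => x.1), m2] at e2
  have i1 := hhole_int h hχ.bmp
  have i2 := hhole_int h d2.cut.bmp
  have i3 := hhole_int h (hχ'.mul d2.cut).bmp
  have hle : ∀ ζ, χ ζ * χ' ζ ≤ χ' ζ := fun ζ => mul_le_of_le_one_left (d2.cut.nn ζ) (hχ.le ζ)
  have a2 : ∀ ζ, (χ' ζ - χ ζ * χ' ζ) * μ ζ = 0 := by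
    have b0 := (h.mass _ (hχ'.or d2.cut)).2
    have b2 : 0 ≤ ∫ ζ, (χ' ζ - χ ζ * χ' ζ) * μ ζ :=
      integral_nonneg fun ζ => mul_nonneg (sub_nonneg.2 (hle ζ)) (h.nn ζ)
    refine hhole_zero h (d2.cut.bmp.sub (hχ'.mul d2.cut).bmp) (fun ζ => sub_nonneg.2 (hle ζ)) ?_
    simp only [sub_mul, add_mul] at b0 b2 ⊢
    rw [integral_sub (f := fun ζ => χ ζ * μ ζ + χ' ζ * μ ζ) (i1.add i2) i3, integral_add i1 i2,
      n3, m3, l3] at b0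
    rw [integral_sub i2 i3, m3, l3] at b2 ⊢
    have b3 : 1 < k.1 * n.1 + k.2 * n.2 := by
      rw [n1, n2] at hn
      exact_mod_cast hn
    generalize k.1 * n.1 + k.2 * n.2 = x, k.1 * m.1 + k.2 * m.2 = y, k.1 * l.1 + k.2 * l.2 = z at *
    have b4 : z ≤ y := by exact_mod_cast le_of_mul_le_mul_left (sub_nonneg.1 b2) a0
    have b5 : x + y - z < 3 := by
      have : a * (x + y - z) < a * 3 := by linarith
      exact_mod_cast lt_of_mul_lt_mul_left this a0.le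
    rw [show y = z by omega, sub_self]
  have a3 : Kd (fun ζ => χ ζ * χ' ζ) ⊆ Core Ω z1 z2 (t / 4) := fun ζ => not_imp_not.1 fun hζ => by
    rcases hχ.loc ζ hζ with e | e
    · exact notMem_kd (c := 0) (e.mono fun x y => by simp [y])
    · rcases d1.cut.loc ζ fun x => zero_ne_one (x.1.2.self_of_nhds.symm.trans e.self_of_nhds)
        with e' | e'
      · exact notMem_kd (c := 0) (e'.mono fun x y => by simp [y])
      · exact notMem_kd (c := 1) ((e.and e').mono fun x y => by simp [y.1, y.2])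
  have key : ∀ u v : ℤ, |(u : ℝ)| ≤ b → |(v : ℝ)| ≤ b → (u : ℝ) * m.1 = v * m.2 →
      4 * b * ρ + b * t / 2 < u * xi z1 p - v * xi z2 p → ∀ ζ, χ' ζ = 0 ∨ χ ζ * χ' ζ = 0 := by
    intro u v hu hv huv hg
    have hx : ∀ ζ ∈ Ω, xi (fun ζ => z1 ζ ^ u * z2 ζ ^ (-v)) ζ = u * xi z1 ζ - v * xi z2 ζ :=
      fun ζ hζ => by
        rw [xi_mul_zpow h.h1 h.h2 u (-v) hζ]
        push_cast
        ring
    have hK : Kd χ' ⊆ Ω := fun ζ hζ => (d2.cut.kd hζ).1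
    refine gap_zero ((h.h1.zpow u).mul (h.h2.zpow (-v))) d2.cut.bmp (hχ'.mul d2.cut).bmp hle
      (fun ζ => not_imp_not.1 fun x => notMem_tsupport_iff_eventuallyEq.2
        ((h.cμ.continuousAt.eventually_ne (mt (h.sub ζ) x)).mono
          fun y e => (mul_eq_zero.1 (a2 y)).resolve_right e))
      (lt_sub_iff_add_lt'.2 hg) (fun ζ hζ => ⟨hK hζ, ?_⟩) (fun ζ hζ => ⟨(a3 hζ).1, ?_⟩) ?_
    · have := abs_le.1 (hhole_lin hu hv (d1.cut.kd hζ).2.1.2 (d1.cut.kd hζ).2.2.2)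
      rw [hx ζ (hK hζ)]
      linarith
    · have := abs_le.1 (hhole_lin hu hv (a3 hζ).2.1 (a3 hζ).2.2)
      rw [hx ζ (a3 hζ).1]
      linarith
    · rw [wn_mul d2.cut.bmp (h.h1.zpow u) (h.h2.zpow (-v)) hK, wn_zpow h.h1 hK, wn_zpow h.h2 hK,
        m1, m2, huv]
      push_cast
      ring
  have a4 : ∀ ζ, χ' ζ = 0 ∨ χ ζ * χ' ζ = 0 := by
    rcases lt_abs.1 (hm m m0 (e1.trans hb) (e2.trans hb)) with e | e
    · exact key m.2 m.1 (e2.trans hb) (e1.trans hb) (mul_comm _ _) e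
    · refine key (-m.2) (-m.1) (by simpa using e2.trans hb) (by simpa using e1.trans hb) ?_ ?_ <;>
        push_cast <;> linarith
  refine hz fun ζ => (a4 ζ).elim (fun e => by rw [e, zero_mul]) fun e => ?_
  simpa only [e, sub_zero] using a2 ζ

end Pool.Agent.Lib.MP_7ed551_gt.Cy
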