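import Pool.Agent.Lib.MP_7ed551_gt.Cy.Q.HDefs

/-! Inversion of the parameter. -/

open scoped ContDiff Topology
open Set Filter Metric MeasureTheory Real

noncomputable section

namespace Pool.Agent.Lib.MP_7ed551_gt.Cy

open Pool.Agent.Lib.MP_ccffa6_gt (Form1 dF pb px py JHol dens)

theorem hinv_der (s₀ : ℂ) {τ : ℂ} (h : τ ≠ 0) :
    HasDerivAt (fun τ : ℂ => s₀ + τ⁻¹) (-(τ ^ 2)⁻¹) τ := (hasDerivAt_inv h).const_add s₀

theorem hinv_sq (τ : ℂ) : Complex.normSq (-(τ ^ 2)⁻¹) = (‖τ‖ ^ 4)⁻¹ := by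
  rw [Complex.normSq_eq_norm_sq, norm_neg, norm_inv, norm_pow, inv_pow, ← pow_mul]

theorem hinv_ne : ∀ᵐ τ : ℂ, τ ≠ 0 := compl_mem_ae_iff.2 (measure_singleton 0)

theorem hinv_ld {f f' : ℂ → ℂ} {U : Set ℂ} {s₀ τ : ℂ} (hf : HolN U f)
    (e : ∀ τ, τ ≠ 0 → s₀ + τ⁻¹ ∈ U → f' τ = f (s₀ + τ⁻¹)) (h0 : τ ≠ 0) (hU : s₀ + τ⁻¹ ∈ U) :
    deriv f' τ / f' τ = -(τ ^ 2)⁻¹ * (deriv f (s₀ + τ⁻¹) / f (s₀ + τ⁻¹)) := by
  have d := hinv_der s₀ h0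
  have d2 := ((hf.hol.differentiableAt (hf.op.mem_nhds hU)).hasDerivAt.comp τ d).congr_of_eventuallyEq
    (f₁ := f') (by
      filter_upwards [d.continuousAt.eventually (hf.op.mem_nhds hU), eventually_ne_nhds h0]
        with x a b using e x b a)
  rw [d2.deriv, e τ h0 hU]
  ring

theorem hinv_gr {χ χ' : ℂ → ℝ} {s₀ τ : ℂ} (hχ : Bmp χ) {c d : ℝ}
    (e : ∀ τ, τ ≠ 0 → χ' τ = c + d * χ (s₀ + τ⁻¹)) (h0 : τ ≠ 0) :
    gr χ' τ = d * (starRingEnd ℂ (-(τ ^ 2)⁻¹) * gr χ (s₀ + τ⁻¹)) := by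
  have d1 := (hinv_der s₀ h0).hasFDerivAt.restrictScalars ℝ
  have d2 := ((((hχ.sm.differentiable (by simp) _).hasFDerivAt.comp τ d1).const_mul d).const_add
    c).congr_of_eventuallyEq (f₁ := χ') ((eventually_ne_nhds h0).mono e)
  have k : ∀ (L : ℂ →L[ℝ] ℝ) (v : ℂ), L v = v.re * L 1 + v.im * L Complex.I := fun L v => by
    rw [← smul_eq_mul, ← smul_eq_mul, ← map_smul, ← map_smul, ← map_add]
    simp
  simp only [gr, px, py, d2.fderiv]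
  generalize -(τ ^ 2)⁻¹ = p
  generalize fderiv ℝ χ (s₀ + τ⁻¹) = L
  simp only [smul_apply, ContinuousLinearMap.comp_apply,
    ContinuousLinearMap.coe_restrictScalars', ContinuousLinearMap.toSpanSingleton_apply,
    smul_eq_mul]
  rw [k L (1 * p), k L (Complex.I * p)]
  apply Complex.ext <;> simp
  exact Or.inl (by ring)

theorem hinv_cut {V V' : Set ℂ} {χ : ℂ → ℝ} {s₀ : ℂ} (hχ : Cut V χ) {c d : ℝ}
    (hc : c = 0 ∧ d = 1 ∨ c = 1 ∧ d = -1) (hs : χ =ᶠ[𝓝 s₀] fun _ => c)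
    (hV : ∀ τ, τ ≠ 0 → s₀ + τ⁻¹ ∈ V → τ ∈ V') :
    ∃ χ', Cut V' χ' ∧ χ' 0 = c ∧ ∀ τ, τ ≠ 0 → χ' τ = c + d * χ (s₀ + τ⁻¹) := by
  classical
  let χ' : ℂ → ℝ := fun τ => if τ = 0 then c else c + d * χ (s₀ + τ⁻¹)
  have e : ∀ τ, τ ≠ 0 → χ' τ = c + d * χ (s₀ + τ⁻¹) := fun τ h => if_neg h
  have e0 : χ' 0 = c := if_pos rfl
  have z : χ' =ᶠ[𝓝 0] fun _ => c := by
    have h1 := hasCompactSupport_iff_eventuallyEq.1 hχ.bmp.cpt
    rw [coclosedCompact_eq_cocompact, ← cobounded_eq_cocompact] at h1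
    have h2 := ((tendsto_const_add_cobounded s₀).comp tendsto_inv₀_nhdsNE_zero).eventually h1
    refine (eventually_nhdsWithin_iff.1 h2).mono fun τ h => ?_
    by_cases h0 : τ = 0
    · exact if_pos h0
    · rw [e τ h0, show χ (s₀ + τ⁻¹) = 0 from h h0, mul_zero, add_zero]
  have b : ∀ τ, 0 ≤ χ' τ ∧ χ' τ ≤ 1 := fun τ => by
    have h1 := hχ.nn (s₀ + τ⁻¹)
    have h2 := hχ.le (s₀ + τ⁻¹)
    by_cases h0 : τ = 0
    · rw [h0, e0]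
      rcases hc with ⟨h, -⟩ | ⟨h, -⟩ <;> simp [h]
    · rw [e τ h0]
      rcases hc with ⟨h, h'⟩ | ⟨h, h'⟩ <;> rw [h, h'] <;> constructor <;> linarith
  refine ⟨χ', ⟨⟨contDiff_iff_contDiffAt.2 fun τ => ?_, ?_⟩, fun τ => (b τ).1, fun τ => (b τ).2,
    fun τ hτ => ?_⟩, e0, e⟩
  · by_cases h0 : τ = 0
    · exact h0 ▸ contDiffAt_const.congr_of_eventuallyEq z
    · exact (contDiffAt_const.add (contDiffAt_const.mul (hχ.bmp.sm.contDiffAt.comp τ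
        (contDiffAt_const.add (contDiffAt_id.inv h0))))).congr_of_eventuallyEq
        ((eventually_ne_nhds h0).mono e)
  · rw [hasCompactSupport_iff_eventuallyEq, coclosedCompact_eq_cocompact, ← cobounded_eq_cocompact]
    have h1 := (tendsto_inv₀_cobounded (α := ℂ)).const_add s₀
    rw [add_zero] at h1
    filter_upwards [h1.eventually hs, Bornology.eventually_ne_cobounded (0 : ℂ)] with τ h h0
    rw [e τ h0, h]
    rcases hc with ⟨h, h'⟩ | ⟨h, h'⟩ <;> simp [h, h']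
  · by_cases h0 : τ = 0
    · rw [h0]
      rcases hc with ⟨rfl, -⟩ | ⟨rfl, -⟩
      exacts [Or.inl z, Or.inr z]
    · have k : ∀ r : ℝ, (χ =ᶠ[𝓝 (s₀ + τ⁻¹)] fun _ => r) → χ' =ᶠ[𝓝 τ] fun _ => c + d * r :=
        fun r h => by
          filter_upwards [(hinv_der s₀ h0).continuousAt.eventually h, eventually_ne_nhds h0]
            with x a b
          rw [e x b, a]
      rcases hχ.loc _ fun h => hτ (hV τ h0 h) with h | h <;> have := k _ h <;>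
        rcases hc with ⟨h, h'⟩ | ⟨h, h'⟩ <;> simp_all

/- `integral_image_eq_integral_abs_det_fderiv_smul` on `{0}ᶜ`; points are null sets. -/
theorem integral_inv (F : ℂ → ℝ) (s₀ : ℂ) :
    ∫ s, F s = ∫ τ : ℂ, (‖τ‖ ^ 4)⁻¹ * F (s₀ + τ⁻¹) := by
  have h := integral_image_eq_integral_abs_det_fderiv_smul volume (measurableSet_singleton 0).compl
    (fun τ hτ => ((hinv_der s₀ hτ).hasFDerivAt.restrictScalars ℝ).hasFDerivWithinAt)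
    (fun _ _ _ _ e => inv_injective (add_left_cancel e)) F
  have e : (fun τ : ℂ => s₀ + τ⁻¹) '' {0}ᶜ = {s₀}ᶜ := by
    exact (image_compl_eq ((Equiv.inv ℂ).trans (Equiv.addLeft s₀)).bijective).trans (by simp)
  rw [e, restrict_compl_singleton, restrict_compl_singleton] at h
  rw [h]
  congr 1
  funext τ
  rw [← hinv_sq, smul_eq_mul, ← abs_of_nonneg (Complex.normSq_nonneg _), ← Algebra.norm_complex_apply]
  exact congrArg (fun A => |LinearMap.det A| * _) (LinearMap.ext fun v => mul_comm _ _)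

/- `gr χ' τ = conj (φ' τ) * gr χ (φ τ)` and `f'' / f' = φ' * (deriv f / f) (φ τ)` for
`φ τ = s₀ + τ⁻¹`, `τ ≠ 0`; where `φ τ ∉ Kd χ` both integrands vanish. -/
theorem wn_inv {χ χ' : ℂ → ℝ} {f f' : ℂ → ℂ} {U : Set ℂ} {s₀ : ℂ} (hχ : Bmp χ) (hf : HolN U f)
    (hK : Kd χ ⊆ U) {c d : ℝ} (e1 : ∀ τ, τ ≠ 0 → χ' τ = c + d * χ (s₀ + τ⁻¹))
    (e2 : ∀ τ, τ ≠ 0 → s₀ + τ⁻¹ ∈ U → f' τ = f (s₀ + τ⁻¹)) : wn χ' f' = d * wn χ f := by
  rw [wn, wn, integral_inv (fun ζ => (gr χ ζ * (deriv f ζ / f ζ)).re) s₀, mul_left_comm,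
    ← integral_const_mul d]
  congr 1
  refine integral_congr_ae (hinv_ne.mono fun τ h0 => ?_)
  beta_reduce
  rw [hinv_gr hχ e1 h0]
  by_cases hU : s₀ + τ⁻¹ ∈ U
  · rw [hinv_ld hf e2 h0 hU, ← hinv_sq, ← Complex.re_ofReal_mul, ← Complex.re_ofReal_mul,
      ← Complex.mul_conj]
    congr 1
    ring
  · simp [gr_eq_zero fun h => hU (hK h)]

theorem flat_inv {Ω Ω' : Set ℂ} {w1 w2 z1 z2 : ℂ → ℂ} {s₀ : ℂ} (h1 : HolN Ω' w1) (h2 : HolN Ω' w2)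
    (hΩ : IsOpen Ω) (hi : IntegrableOn (fl z1 z2) Ω)
    (he : ∀ τ, τ ≠ 0 → s₀ + τ⁻¹ ∈ Ω' → τ ∈ Ω ∧ z1 τ = w1 (s₀ + τ⁻¹) ∧ z2 τ = w2 (s₀ + τ⁻¹)) :
    ∫ s in Ω', fl w1 w2 s ≤ ∫ τ in Ω, fl z1 z2 τ := by
  have n : ∀ f g τ, 0 ≤ fl f g τ := fun f g τ => by unfold fl; positivity
  rw [← integral_indicator h1.op.measurableSet, ← integral_indicator hΩ.measurableSet,
    integral_inv _ s₀]
  refine integral_mono_of_nonneg (.of_forall fun τ => mul_nonneg (by positivity)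
    (indicator_nonneg (fun _ _ => n _ _ _) _)) (hi.integrable_indicator hΩ.measurableSet)
    (hinv_ne.mono fun τ h0 => ?_)
  beta_reduce
  by_cases hU : s₀ + τ⁻¹ ∈ Ω'
  · rw [indicator_of_mem hU, indicator_of_mem (he τ h0 hU).1, fl, fl,
      hinv_ld h1 (fun τ a b => (he τ a b).2.1) h0 hU, hinv_ld h2 (fun τ a b => (he τ a b).2.2) h0 hU,
      ← hinv_sq, Complex.normSq_eq_norm_sq, norm_mul, norm_mul, mul_pow, mul_pow, mul_add]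
  · rw [indicator_of_notMem hU, mul_zero]
    exact indicator_nonneg (fun _ _ => n _ _ _) _

/- A cut `χ` of the `s`-plane is locally `0` or `1` at `s₀`.  In the first case
`χ' = update (χ (s₀ + τ⁻¹)) 0 0` is a cut for `Core Ω z1 z2 (t / 4)` with `χ' 0 = 0`; in the second
case `χ' = update (1 - χ (s₀ + τ⁻¹)) 0 1` is a cut and its mass is nonnegative (`Cut.mono`). -/
theorem Lw.transfer {Ω Ω' : Set ℂ} {w1 w2 z1 z2 : ℂ → ℂ} {μ μ' : ℂ → ℝ} {N t a A A' B B' : ℝ}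
    {k : ℤ × ℤ} {s₀ : ℂ} (hs : Lw Ω' w1 w2 μ' t a A' B' k) (ht : Lw Ω z1 z2 μ N a A B k)
    (hN : t ≤ N) (h0 : s₀ ∉ Ω')
    (he : ∀ τ, τ ≠ 0 → s₀ + τ⁻¹ ∈ Ω' → τ ∈ Ω ∧ z1 τ = w1 (s₀ + τ⁻¹) ∧ z2 τ = w2 (s₀ + τ⁻¹))
    (hh : ∀ χ, Cut (Core Ω z1 z2 (t / 4)) χ → χ 0 = 0 → k.1 * wn χ z1 + k.2 * wn χ z2 ≤ 1) :
    Lm Ω' w1 w2 μ' t a B k := by
  refine ⟨hs.N0, hs.a0, hs.h1, hs.h2, hs.prop, hs.cμ, hs.nn, hs.zero, hs.sub, fun χ hχ => ?_, hs.int,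
    (flat_inv hs.h1 hs.h2 ht.h1.op ht.int he).trans ht.flat⟩
  refine ⟨(hs.mass χ hχ).1, ?_⟩
  have hV : ∀ τ, τ ≠ 0 → s₀ + τ⁻¹ ∈ Core Ω' w1 w2 (t / 4) → τ ∈ Core Ω z1 z2 (t / 4) :=
    fun τ a b => by
      obtain ⟨c1, c2, c3⟩ := he τ a b.1
      exact ⟨c1, by rw [xi, c2]; exact b.2.1, by rw [xi, c3]; exact b.2.2⟩
  have hK : Kd χ ⊆ Ω' := fun ζ h => (hχ.kd h).1
  have a0 := hs.a0
  rw [(hs.mass χ hχ).1]
  rcases hχ.loc s₀ fun h => h0 h.1 with h | h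
  · obtain ⟨χ', c1, c2, c3⟩ := hinv_cut hχ (Or.inl ⟨rfl, rfl⟩) h hV
    have := hh χ' c1 c2
    rw [wn_inv hχ.bmp hs.h1 hK c3 fun τ a b => (he τ a b).2.1,
      wn_inv hχ.bmp hs.h2 hK c3 fun τ a b => (he τ a b).2.2] at this
    nlinarith
  · obtain ⟨χ', c1, c2, c3⟩ := hinv_cut hχ (Or.inr ⟨rfl, rfl⟩) h hV
    have h1 := (ht.mass χ' (c1.mono fun ζ b => ⟨b.1, by linarith [b.2.1], by linarith [b.2.2]⟩)).1
    have h2 : 0 ≤ ∫ ζ, χ' ζ * μ ζ := integral_nonneg fun ζ => mul_nonneg (c1.nn ζ) (ht.nn ζ)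
    rw [wn_inv hχ.bmp hs.h1 hK c3 fun τ a b => (he τ a b).2.1,
      wn_inv hχ.bmp hs.h2 hK c3 fun τ a b => (he τ a b).2.2] at h1
    linarith

end Pool.Agent.Lib.MP_7ed551_gt.Cy
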