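import Pool.Agent.Lib.MP_7ed551_gt.Cy.Q.HDefs

/-! The plane data of a proper holomorphic plane. -/

open scoped ContDiff Topology
open Set Filter Metric MeasureTheory Real

noncomputable section

namespace Pool.Agent.Lib.MP_7ed551_gt.Cy

open Pool.Agent.Lib.MP_ccffa6_gt (Form1 dF pb px py JHol dens)

theorem Pl.exists_lf {Λ : Form1 E} {J : E → E →L[ℝ] E} {Θ X : E → E} {u : ℂ → E} {N c a A : ℝ}
    {k : ℤ × ℤ} (hv : Pl Λ J u A) (hΛ : ContDiff ℝ ∞ Λ)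
    (tame : ∀ x v, v ≠ 0 → 0 < dF Λ x v (J x v)) (hC : Cht J Θ N) (hc : Can Λ Θ N c a k)
    (hX : Inv J Θ N X) : ∃ (S : Set ℂ) (p q : ℂ → ℝ), Lf S {τ | u τ ∈ Θ '' Box N} p q
      (fun τ => (X (u τ)).1) (fun τ => (X (u τ)).2) N c a A k := by
  have hD : ∀ ζ, u ζ ∈ Θ '' Box N →
      HasDerivAt (fun ζ => (X (u ζ)).1) (fderiv ℝ X (u ζ) (px u ζ)).1 ζ ∧
        HasDerivAt (fun ζ => (X (u ζ)).2) (fderiv ℝ X (u ζ) (px u ζ)).2 ζ := fun ζ hζ =>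
    Leaf_cr (Leaf_chain hX.op hX.sm hv.sm hζ) (by
      change fderiv ℝ X (u ζ) (py u ζ) = Complex.I • fderiv ℝ X (u ζ) (px u ζ)
      rw [(hv.hol ζ (mem_univ _)).1, hX.hol _ hζ])
  have hL : ∀ ζ, u ζ ∈ Θ '' Box N → ∀ v : ℂ,
      fderiv ℝ X (u ζ) (fderiv ℝ u ζ v) = v • fderiv ℝ X (u ζ) (px u ζ) := fun ζ hζ v => by
    rw [Pool.Agent.Lib.MP_ccffa6_gt.fderiv_eq_px_py, map_add, map_smul, map_smul,
      (hv.hol ζ (mem_univ _)).1, hX.hol _ hζ]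
    conv_rhs => rw [← Complex.re_add_im v, add_smul, mul_smul]
    rfl
  have ho : IsOpen {τ | u τ ∈ Θ '' Box N} := hX.op.preimage hv.sm.continuous
  have hsm : ∀ e : ℂ, ContDiff ℝ ∞ fun ζ => Λ (u ζ) (fderiv ℝ u ζ e) := fun e =>
    (hΛ.comp hv.sm).clm_apply ((hv.sm.fderiv_right (m := ∞) (by simp)).clm_apply contDiff_const)
  have hd : ∀ ζ, px (fun w => Λ (u w) (py u w)) ζ - py (fun w => Λ (u w) (px u w)) ζ =
      dens Λ u ζ := fun ζ => Pool.Agent.Lib.MP_ccffa6_gt.dens_eq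
    (hΛ.differentiable (by simp) _) (hv.sm.contDiffAt.of_le (by norm_cast))
  obtain ⟨ρ, hsub⟩ : ∃ ρ : ℝ, {τ | u τ ∈ Θ '' Box N} ⊆ ball 0 ρ := by
    obtain ⟨R, hR⟩ := (hC.isCompact_image N).isBounded.exists_norm_le
    obtain ⟨ρ, -, hρ⟩ := exists_radius (hv.prop.eventually_gt_atTop R)
    refine ⟨ρ, fun τ ⟨Z, hZ, e⟩ => mem_ball_zero_iff.mpr (lt_of_not_ge fun h => ?_)⟩
    exact (hρ τ h).not_ge (hR _ ⟨Z, ⟨hZ.1.le, hZ.2.le⟩, e⟩)
  refine ⟨ball 0 ρ, fun w => Λ (u w) (px u w), fun w => Λ (u w) (py u w), isOpen_ball,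
    isBounded_ball, fun D h1 h2 h3 => ?_, hsub, hsm 1, hsm Complex.I, fun ζ => ?_, ?_,
    ⟨ho, fun ζ hζ => (hD ζ hζ).1.differentiableAt.differentiableWithinAt, fun ζ hζ => (hX.ne hζ).1⟩,
    ⟨ho, fun ζ hζ => (hD ζ hζ).2.differentiableAt.differentiableWithinAt, fun ζ hζ => (hX.ne hζ).2⟩,
    fun t ht => ?_, ?_⟩
  · obtain ⟨t, ht, hs⟩ := exists_lt_subset_ball (x := (0 : ℂ)) (r := ρ) isClosed_frontier h3
    exact fun ζ hζ => mem_ball_zero_iff.mpr ((Complex.norm_le_of_forall_mem_frontier_norm_le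
      (f := id) h2 differentiable_id.diffContOnCl (fun w hw => (mem_ball_zero_iff.mp (hs hw)).le)
      (subset_closure hζ)).trans_lt ht)
  · rw [hd, dens, (hv.hol ζ (mem_univ _)).1]
    exact tame _ _ (hv.imm ζ)
  · simp only [hd]
    exact hv.area ρ
  · refine isCompact_of_isClosed_isBounded ?_ (isBounded_ball.subset fun ζ hζ => hsub hζ.1)
    convert (hC.isCompact_image t).isClosed.preimage hv.sm.continuous using 1
    ext ζ
    constructor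
    · rintro ⟨⟨Z, hZ, e⟩, a1, a2⟩
      rw [(Leaf_xi (u := u) hX hZ e).1] at a1
      rw [(Leaf_xi (u := u) hX hZ e).2] at a2
      exact ⟨Z, ⟨a1, a2⟩, e⟩
    · rintro ⟨Z, hZ, e⟩
      have hZ' : Z ∈ Box N := ⟨hZ.1.trans_lt ht, hZ.2.trans_lt ht⟩
      refine ⟨⟨Z, hZ', e⟩, ?_, ?_⟩
      · rw [(Leaf_xi (u := u) hX hZ' e).1]
        exact hZ.1
      · rw [(Leaf_xi (u := u) hX hZ' e).2]
        exact hZ.2
  · obtain ⟨g, hg, g1, g2, hf⟩ := hc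
    obtain ⟨ψ, hψ, he⟩ := hC.descend hg g1 g2
    refine ⟨fun ζ => ψ (u ζ), hψ.comp hv.sm.contDiffOn fun ζ hζ => hζ, fun ζ hζ v => ?_⟩
    have hD := hD ζ hζ
    have hL := hL ζ hζ v
    have hG := (Leaf_chain hX.op hψ hv.sm hζ).fderiv
    obtain ⟨Z, hZ, e⟩ := hζ
    change Θ Z = u ζ at e
    obtain ⟨w, hw⟩ := (LinearMap.injective_iff_surjective (f := (fderiv ℝ Θ Z : E →ₗ[ℝ] E))).1
      (hC.imm Z hZ) (fderiv ℝ u ζ v)
    change fderiv ℝ Θ Z w = fderiv ℝ u ζ v at hw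
    have e1 := Leaf_desc hC.sm hX.op hX.sm hX.eq hZ w
    have e2 := Leaf_desc hC.sm hX.op hψ he hZ w
    have e3 := hf Z hZ w
    have e4 := hX.eq Z hZ
    change Λ (Θ Z) (fderiv ℝ Θ Z w) = _ at e3
    rw [hw, e] at e1 e2 e3
    rw [e] at e4
    rw [Leaf_exp, hL] at e1
    have b1 : (fderiv ℝ X (u ζ) (px u ζ)).1 / (X (u ζ)).1 * v = w.1 := by
      have := congrArg Prod.fst e1
      simp only [Prod.smul_fst, smul_eq_mul] at this
      rw [e4, div_mul_eq_mul_div, mul_comm, this]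
      exact mul_div_cancel_left₀ _ (Complex.exp_ne_zero _)
    have b2 : (fderiv ℝ X (u ζ) (px u ζ)).2 / (X (u ζ)).2 * v = w.2 := by
      have := congrArg Prod.snd e1
      simp only [Prod.smul_snd, smul_eq_mul] at this
      rw [e4, div_mul_eq_mul_div, mul_comm, this]
      exact mul_div_cancel_left₀ _ (Complex.exp_ne_zero _)
    change _ = (c * xi (fun ζ => (X (u ζ)).1) ζ + _) *
        (deriv (fun ζ => (X (u ζ)).1) ζ / (X (u ζ)).1 * v).im +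
      (c * xi (fun ζ => (X (u ζ)).2) ζ + _) *
        (deriv (fun ζ => (X (u ζ)).2) ζ / (X (u ζ)).2 * v).im + _
    rw [hD.1.deriv, hD.2.deriv, b1, b2, (Leaf_xi (u := u) hX hZ e).1, (Leaf_xi (u := u) hX hZ e).2,
      hG, ContinuousLinearMap.comp_apply, e2, ← e3, Pool.Agent.Lib.MP_ccffa6_gt.fderiv_eq_px_py,
      map_add, map_smul, map_smul, smul_eq_mul, smul_eq_mul, mul_comm v.re, mul_comm v.im]

end Pool.Agent.Lib.MP_7ed551_gt.Cy
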