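import Pool.Agent.Lib.MP_7ed551_gt.Cy.Q.HZero
import Pool.Agent.Lib.MP_7ed551_gt.Cy.Q.HArea

/-! A leaf of the pencil seen from the old chart. -/

open scoped ContDiff Topology
open Set Filter Metric MeasureTheory Real

noncomputable section

namespace Pool.Agent.Lib.MP_7ed551_gt.Cy

open Pool.Agent.Lib.MP_ccffa6_gt (Form1 dF pb px py JHol dens)

theorem contDiffAt_sig (cs zp : ℂ) {y : E} (hy : 1 + y.1 / cs ≠ 0) :
    ContDiffAt ℝ ∞ (sig cs zp) y := by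
  have : ContDiffAt ℂ ∞ (sig cs zp) y := by
    unfold sig
    fun_prop (disch := exact hy)
  exact this.restrict_scalars ℝ

/- `x ↦ (x.1 / (1 - x.1 / cs), (x.2 - zp) / (1 - x.1 / cs))` is a smooth left inverse near `y`. -/
theorem inj_fderiv_sig {cs : ℂ} (hc : cs ≠ 0) (zp : ℂ) {y : E} (hy : 1 + y.1 / cs ≠ 0) :
    Function.Injective (fderiv ℝ (sig cs zp) y) := by
  have h1 : 1 - (sig cs zp y).1 / cs ≠ 0 := by
    rw [show 1 - (sig cs zp y).1 / cs = (1 + y.1 / cs)⁻¹ by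
      rw [sig, div_right_comm, eq_comm, inv_eq_one_div, eq_sub_iff_add_eq, ← add_div, div_self hy]]
    exact inv_ne_zero hy
  have h2 : DifferentiableAt ℂ (fun x : E => (x.1 / (1 - x.1 / cs), (x.2 - zp) / (1 - x.1 / cs)))
      (sig cs zp y) := by fun_prop (disch := exact h1)
  have h3 := ((h2.restrictScalars ℝ).hasFDerivAt.comp y
    ((contDiffAt_sig cs zp hy).differentiableAt (by simp)).hasFDerivAt).fderiv
  have h4 : ∀ᶠ x : E in 𝓝 y, 1 + x.1 / cs ≠ 0 :=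
    (by fun_prop : ContinuousAt (fun x : E => 1 + x.1 / cs) y).eventually_ne hy
  rw [Filter.EventuallyEq.fderiv_eq (f := id) (h4.mono fun x hx => ?_), fderiv_id] at h3
  · exact Function.LeftInverse.injective fun v => (congrArg (fun L : E →L[ℝ] E => L v) h3).symm
  · have e : 1 - x.1 / (1 + x.1 / cs) / cs = (1 + x.1 / cs)⁻¹ := by
      rw [div_right_comm, eq_comm, inv_eq_one_div, eq_sub_iff_add_eq, ← add_div, div_self hx]
    simp only [Function.comp, sig, e, add_sub_cancel_right, div_inv_eq_mul, div_mul_cancel₀ _ hx, id]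

/- The chain rule; `fderiv u s w = w.re • px u s + w.im • J' (px u s)` (`fderiv_eq_px_py`). -/
theorem Proj.jhol_at {Λ : Form1 E} {J J' : E → E →L[ℝ] E} {A D : ℝ} {cs zp : ℂ}
    (h : Proj Λ J J' A D cs zp) {u : ℂ → E} (hu : ContDiff ℝ ∞ u) (hh : JHol J' u univ)
    (hi : ∀ s, px u s ≠ 0) {s₀ τ : ℂ} (hτ : τ ≠ 0) (hm : 1 + (u (s₀ + τ⁻¹)).1 / cs ≠ 0) :
    ContDiffAt ℝ ∞ (fun τ => sig cs zp (u (s₀ + τ⁻¹))) τ ∧
      py (fun τ => sig cs zp (u (s₀ + τ⁻¹))) τ =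
        J (sig cs zp (u (s₀ + τ⁻¹))) (px (fun τ => sig cs zp (u (s₀ + τ⁻¹))) τ) ∧
      px (fun τ => sig cs zp (u (s₀ + τ⁻¹))) τ ≠ 0 := by
  have c1 : ContDiffAt ℝ ∞ (fun τ : ℂ => s₀ + τ⁻¹) τ := contDiffAt_const.add (contDiffAt_id.inv hτ)
  have c2 := contDiffAt_sig cs zp hm
  have d := ((c2.differentiableAt (by simp)).hasFDerivAt.comp τ
    ((hu.differentiable (by simp) _).hasFDerivAt.comp τ
      ((hasDerivAt_inv hτ).const_add s₀).complexToReal_fderiv)).fderiv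
  have e : ∀ w, fderiv ℝ u (s₀ + τ⁻¹) (w * Complex.I) =
      J' (u (s₀ + τ⁻¹)) (fderiv ℝ u (s₀ + τ⁻¹) w) := fun w => by
    rw [MP_ccffa6_gt.fderiv_eq_px_py, MP_ccffa6_gt.fderiv_eq_px_py, map_add, map_smul, map_smul,
      ← (hh _ trivial).1, ← neg_eq_iff_eq_neg.2 (hh _ trivial).2]
    simp [add_comm]
  have w0 : -(τ ^ 2)⁻¹ ≠ 0 := neg_ne_zero.2 (inv_ne_zero (pow_ne_zero 2 hτ))
  generalize -(τ ^ 2)⁻¹ = w at d w0
  have p1 : ∀ z, fderiv ℝ (fun τ => sig cs zp (u (s₀ + τ⁻¹))) τ z =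
      fderiv ℝ (sig cs zp) (u (s₀ + τ⁻¹)) (fderiv ℝ u (s₀ + τ⁻¹) (w * z)) := fun z =>
    congrArg (fun L : ℂ →L[ℝ] E => L z) d
  refine ⟨c2.comp (f := fun τ => u (s₀ + τ⁻¹)) τ (hu.contDiffAt.comp τ c1),
    by rw [px, py, p1, p1, mul_one, h.pull _ hm, e], fun h0 => hi (s₀ + τ⁻¹) ?_⟩
  rw [px, p1, mul_one, map_eq_zero_iff _ (inj_fderiv_sig h.c0 zp hm)] at h0
  have : (1 : ℂ) = w⁻¹.re • w + w⁻¹.im • (w * Complex.I) := by
    rw [Complex.real_smul, Complex.real_smul, ← mul_inv_cancel₀ w0]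
    conv_lhs => rw [← Complex.re_add_im w⁻¹]
    ring
  rw [px, this, map_add, map_smul, map_smul, e, h0, map_zero, smul_zero, smul_zero, add_zero]

/- Removable singularity as in `Leaf.decay` (B/En); the first component is
`cs - cs ^ 2 / (cs + u.1)` and `τ * (cs + (u (s₀ + τ⁻¹)).1) → 1`
(`hasDerivAt_iff_tendsto_slope_zero`). -/
theorem Leaf.sig_zero {J' : E → E →L[ℝ] E} {K : Set E} (hK : IsCompact K)
    (hJ : ∀ x, x ∉ K → J' x = J0) {u : ℂ → E} {l : ℂ} (hu : Leaf J' u l) {cs : ℂ} (hc : cs ≠ 0)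
    (zp s₀ : ℂ) :
    AnalyticAt ℂ (Function.update (fun τ => sig cs zp (u (s₀ + τ⁻¹))) 0 (cs, zp)) 0 ∧
      deriv (Function.update (fun τ => sig cs zp (u (s₀ + τ⁻¹))) 0 (cs, zp)) 0 ≠ 0 := by
  have i0 : Tendsto (fun t : ℂ => t⁻¹) (𝓝[≠] 0) (cocompact ℂ) :=
    Metric.cobounded_eq_cocompact (α := ℂ) ▸ tendsto_inv₀_nhdsNE_zero
  have i1 : Tendsto (fun t : ℂ => s₀ + t⁻¹) (𝓝[≠] 0) (cocompact ℂ) :=
    (Homeomorph.addLeft s₀).toCocompactMap.cocompact_tendsto'.comp i0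
  set a : ℂ → E := Function.update (fun t => t • u (s₀ + t⁻¹)) 0 (1, 0) with ha
  have a0 : a 0 = (1, 0) := Function.update_self ..
  have a1 : ∀ t, t ≠ 0 → a t = t • u (s₀ + t⁻¹) := fun t ht => Function.update_of_ne ht ..
  have ga : AnalyticAt ℂ a 0 := by
    refine Complex.analyticAt_of_differentiable_on_punctured_nhds_of_continuousAt ?_
      (continuousAt_update_same.mpr ?_)
    · filter_upwards [i1.eventually (hu.eventually_notMem hK), self_mem_nhdsWithin] with t h1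
        (h2 : t ≠ 0)
      refine (differentiableAt_id.smul ((hu.hasDerivAt (hJ _ h1)).differentiableAt.comp t
        ((differentiableAt_inv h2).const_add s₀))).congr_of_eventuallyEq ?_
      filter_upwards [isOpen_ne.mem_nhds h2] with s hs using a1 s hs
    · have t0 : Tendsto (fun t : ℂ => t) (𝓝[≠] 0) (𝓝 0) := tendsto_nhdsWithin_of_tendsto_nhds
        tendsto_id
      have := ((t0.smul (hu.lim.comp i1)).add (t0.smul_const ((s₀, l) : E))).add_const (1, 0)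
      simp only [zero_smul, zero_add] at this
      refine this.congr' ?_
      filter_upwards [self_mem_nhdsWithin] with t (ht : t ≠ 0)
      ext <;> simp [mul_sub, mul_add, ht]
      ring
  have e : Function.update (fun τ => sig cs zp (u (s₀ + τ⁻¹))) 0 (cs, zp) = fun τ =>
      ((a τ).1 / (τ + (a τ).1 / cs), (a τ).2 / (τ + (a τ).1 / cs) + zp) := by
    funext τ
    rcases eq_or_ne τ 0 with rfl | h
    · simp [a0]
    · rw [Function.update_of_ne h, a1 τ h, sig, Prod.smul_fst, Prod.smul_snd, smul_eq_mul,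
        smul_eq_mul, mul_div_assoc τ _ cs, ← mul_one_add, mul_div_mul_left _ _ h,
        mul_div_mul_left _ _ h]
  have n0 : 0 + (a 0).1 / cs ≠ 0 := by simpa [a0] using hc
  have an : AnalyticAt ℂ (fun τ =>
      ((a τ).1 / (τ + (a τ).1 / cs), (a τ).2 / (τ + (a τ).1 / cs) + zp)) 0 :=
    have b := analyticAt_id.add ((analyticAt_fst.comp ga).div_const (c := cs))
    ((analyticAt_fst.comp ga).div b n0).prod
      (((analyticAt_snd.comp ga).div b n0).add analyticAt_const)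
  rw [e]
  refine ⟨an, fun h => ?_⟩
  have d := hasFDerivAt_fst.comp_hasDerivAt 0 ga.differentiableAt.hasDerivAt
  have d' := hasFDerivAt_fst.comp_hasDerivAt 0 an.differentiableAt.hasDerivAt
  have := d'.unique (d.div ((hasDerivAt_id' (0 : ℂ)).add (d.div_const cs)) n0)
  rw [h, map_zero, eq_comm, div_eq_zero_iff] at this
  rcases this with h | h
  · exact one_ne_zero (α := ℂ) (by simp only [Function.comp, a0] at h; linear_combination -h)
  · exact n0 (pow_eq_zero_iff two_ne_zero |>.1 h)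

/- `cs + (u (s₀ + w)).1 = w * dslope`, so `w • sig (u (s₀ + w))` extends analytically. -/
theorem sig_pole {u : ℂ → E} {cs : ℂ} (hc : cs ≠ 0) (zp : ℂ) {s₀ : ℂ} (hu : AnalyticAt ℂ u s₀)
    (h0 : cs + (u s₀).1 = 0) (h1 : deriv (fun s => cs + (u s).1) s₀ ≠ 0) :
    ∃ W : ℂ → E, AnalyticAt ℂ W 0 ∧ W 0 ≠ 0 ∧
      ∀ᶠ τ in cocompact ℂ, sig cs zp (u (s₀ + τ⁻¹)) = τ • W τ⁻¹ := by
  have g : AnalyticAt ℂ (fun s => cs + (u s).1) s₀ := analyticAt_const.add (analyticAt_fst.comp hu)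
  obtain ⟨p, hp⟩ := g
  have d : AnalyticAt ℂ (fun w => dslope (fun s => cs + (u s).1) s₀ (s₀ + w)) 0 :=
    hp.has_fpower_series_dslope_fslope.analyticAt.comp_of_eq (by fun_prop) (add_zero _)
  have a : AnalyticAt ℂ (fun w => u (s₀ + w)) 0 := hu.comp_of_eq (by fun_prop) (add_zero _)
  have n : dslope (fun s => cs + (u s).1) s₀ (s₀ + 0) ≠ 0 := by rwa [add_zero, dslope_same]
  refine ⟨fun w => ((u (s₀ + w)).1 * cs / dslope (fun s => cs + (u s).1) s₀ (s₀ + w),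
    (u (s₀ + w)).2 * cs / dslope (fun s => cs + (u s).1) s₀ (s₀ + w) + w * zp),
    (((analyticAt_fst.comp a).mul analyticAt_const).div d n).prod ((((analyticAt_snd.comp a).mul
      analyticAt_const).div d n).add (analyticAt_id.mul analyticAt_const)), fun h => ?_, ?_⟩
  · refine div_ne_zero (mul_ne_zero (fun e => hc ?_) hc) n (congrArg Prod.fst h)
    rwa [← add_zero s₀, e, add_zero] at h0
  · filter_upwards [isCompact_singleton.compl_mem_cocompact] with τ (hτ : τ ≠ 0)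
    have e := sub_smul_dslope (fun s => cs + (u s).1) s₀ (s₀ + τ⁻¹)
    rw [h0, sub_zero, add_sub_cancel_left, smul_eq_mul] at e
    rw [sig, one_add_div hc, ← e, Prod.smul_mk, smul_eq_mul, smul_eq_mul, mul_add,
      mul_inv_cancel_left₀ hτ]
    simp only [div_eq_mul_inv, mul_inv, inv_inv]
    congr 1 <;> ring

/- `one_zero` for `g = cs + u.1`, `U = {‖1 + u.1 / cs‖ < ε}` (`Leaf.hasDerivAt` in B/En). -/
theorem Proj.exists_pl {Λ : Form1 E} {J J' : E → E →L[ℝ] E} {A D : ℝ} {cs zp : ℂ}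
    (h : Proj Λ J J' A D cs zp) {K : Set E} (hK : IsCompact K) (hJ : ∀ x, x ∉ K → J' x = J0)
    {u : ℂ → E} {l : ℂ} (hu : Leaf J' u l) (hi : ∀ s, px u s ≠ 0) :
    ∃ (s₀ : ℂ) (v : ℂ → E), 1 + (u s₀).1 / cs = 0 ∧ Pl Λ J v (π * A) ∧ v 0 = (cs, zp) ∧
      ∀ τ, τ ≠ 0 → v τ = sig cs zp (u (s₀ + τ⁻¹)) := by
  obtain ⟨ε, ε0, hε⟩ := h.zero
  obtain ⟨δ, δ0, hδ⟩ := h.near
  obtain ⟨R', hR'⟩ := h.far
  have hU : IsOpen {s | ‖1 + (u s).1 / cs‖ < ε} :=
    isOpen_lt (by have := hu.sm.continuous; fun_prop) continuous_const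
  have hd : DifferentiableOn ℂ u {s | ‖1 + (u s).1 / cs‖ < ε} := fun s hs =>
    (hu.hasDerivAt (hε _ hs)).differentiableAt.differentiableWithinAt
  have hz : ∀ s, 1 + (u s).1 / cs = 0 ↔ cs + (u s).1 = 0 := fun s => by
    rw [one_add_div h.c0, div_eq_zero_iff, or_iff_left h.c0]
  obtain ⟨R, -, hR⟩ := exists_radius ((hu.eventually_notMem hK).and
    ((hu.lim.norm.eventually_lt_const (u := 1) (by simp)).and
      (tendsto_norm_cocompact_atTop.eventually_ge_atTop (‖cs‖ + 1))))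
  obtain ⟨s₀, h0, h1, h2⟩ := one_zero (g := fun s => cs + (u s).1) (R := R)
    (contDiff_const.add hu.sm.fst) hU (hd.fst.const_add cs)
    (fun s hs => by simpa [(hz s).2 hs] using ε0) fun s hs => by
      obtain ⟨b1, b2, b3⟩ := hR s hs
      refine ⟨(hu.hasDerivAt (hJ _ b1)).differentiableAt.fst.const_add cs, ?_⟩
      rw [add_sub_assoc]
      exact (norm_add_le _ _).trans_lt
        ((add_lt_add_right ((norm_fst_le (u s - (s, l))).trans_lt b2) _).trans_le b3)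
  obtain ⟨W, w1, w2, w3⟩ := sig_pole h.c0 zp
    (hd.analyticAt (hU.mem_nhds (by simpa [(hz s₀).2 h0] using ε0))) h0 h1
  obtain ⟨z1, z2⟩ := hu.sig_zero hK hJ h.c0 zp s₀
  set v := Function.update (fun τ => sig cs zp (u (s₀ + τ⁻¹))) 0 (cs, zp) with hv
  have v0 : v 0 = (cs, zp) := Function.update_self ..
  have v1 : ∀ τ, τ ≠ 0 → v τ = sig cs zp (u (s₀ + τ⁻¹)) := fun τ hτ => Function.update_of_ne hτ ..
  have key : ∀ τ, ContDiffAt ℝ ∞ v τ ∧ py v τ = J (v τ) (px v τ) ∧ px v τ ≠ 0 := fun τ => by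
    rcases eq_or_ne τ 0 with rfl | hτ
    · obtain ⟨c1, c2⟩ := MP_ccffa6_gt.cr_of_hasDerivAt z1.differentiableAt.hasDerivAt
      exact ⟨z1.contDiffAt.restrict_scalars ℝ, by
        rw [hδ _ (by simpa [v0] using δ0), c1, c2, J0_apply], c1 ▸ z2⟩
    · have e : v =ᶠ[𝓝 τ] fun τ => sig cs zp (u (s₀ + τ⁻¹)) :=
        mem_of_superset (isOpen_ne.mem_nhds hτ) v1
      obtain ⟨c1, c2, c3⟩ := h.jhol_at hu.sm hu.hol hi hτ fun e =>
        inv_ne_zero hτ (add_eq_left.1 (h2 _ ((hz _).1 e)))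
      rw [px, py, e.fderiv_eq, v1 τ hτ]
      exact ⟨c1.congr_of_eventuallyEq e, c2, c3⟩
  have sm : ContDiff ℝ ∞ v := contDiff_iff_contDiffAt.2 fun τ => (key τ).1
  have he : ∀ᶠ τ in cocompact ℂ, v τ = τ • W τ⁻¹ := by
    filter_upwards [w3, isCompact_singleton.compl_mem_cocompact] with τ e (hτ : τ ≠ 0)
    rw [v1 τ hτ, e]
  refine ⟨s₀, v, (hz _).2 h0, ⟨sm, fun τ _ => ⟨(key τ).2.1, by rw [(key τ).2.1, h.sq, neg_neg]⟩,
    fun τ => (key τ).2.2, ?_, area_fs h.sm sm (fun τ => ?_) h.A0 h.D0 (fun x hx => (hR' x hx).1)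
      w1 w2 he⟩, v0, v1⟩
  · have i2 : Tendsto (fun t : ℂ => t⁻¹) (cocompact ℂ) (𝓝 0) :=
      Metric.cobounded_eq_cocompact (α := ℂ) ▸ tendsto_inv₀_cobounded
    refine (tendsto_norm_cocompact_atTop.atTop_mul_pos (norm_pos_iff.2 w2)
      (w1.continuousAt.tendsto.comp i2).norm).congr' (he.mono fun τ e => ?_)
    simp only [e, norm_smul, Function.comp]
  · rw [dens, (key τ).2.1]
    exact (h.tame _ _ (key τ).2.2).le

end Pool.Agent.Lib.MP_7ed551_gt.Cy
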