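import Pool.Agent.Lib.MP_7ed551_gt.Cy.Q.HHole
import Pool.Agent.Lib.MP_7ed551_gt.Cy.Q.HLf
import Pool.Agent.Lib.MP_7ed551_gt.Cy.Q.HPl
import Pool.Agent.Lib.MP_7ed551_gt.Cy.Q.HInv

/-! At most one hole near the torus. -/

open scoped ContDiff Topology
open Set Filter Metric MeasureTheory Real

noncomputable section

namespace Pool.Agent.Lib.MP_7ed551_gt.Cy

open Pool.Agent.Lib.MP_ccffa6_gt (Form1 dF pb px py JHol dens)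

theorem hole_lm {A1 e : ℝ} (hA : 0 < A1) (he : 0 < e) : ∃ L tm : ℝ, 20 ≤ L ∧ ∀ t : ℝ, tm ≤ t →
    ∀ (Λ Λ' : Form1 E) (J J' : E → E →L[ℝ] E) (K' : Set E) (Θ Θ' Ψ' P' X' : E → E) (A D a : ℝ)
      (cs zp : ℂ) (k : ℤ × ℤ) (Zp : E), 0 < a → π * A1 < 3 * a → A ≤ A1 →
      Proj Λ J J' A D cs zp → Cht J Θ (L * t) → Can Λ Θ (L * t) (e / (L * t)) a k →
      Zp ∈ Box (L * t / 8) → Θ Zp = (cs, zp) →
      (∀ (b : ℝ) (m : ℤ × ℤ), m ≠ 0 → |(m.1 : ℝ)| ≤ b → |(m.2 : ℝ)| ≤ b →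
        L * t / (36 * b) ≤ |m.2 * Zp.1.re - m.1 * Zp.2.re|) →
      Amb Λ' J' K' → Cht J' Θ' t → Can Λ' Θ' t (e / (L * t)) a k →
      (∀ Z ∈ Box t, 1 + (Θ' Z).1 / cs ≠ 0 ∧ sig cs zp (Θ' Z) = Θ Z) →
      Fol J' Ψ' P' → Inv J' Θ' t X' → ∀ l, ∃ μ, Lm (Om Θ' Ψ' t l) (fun ζ => (X' (Ψ' (ζ, l))).1)
        (fun ζ => (X' (Ψ' (ζ, l))).2) μ t a (π * A1 * L / e * t) k := by
  obtain ⟨M, c₀, M0, c0, hh⟩ := hole
  have A0 : 0 < π * A1 / e := by positivity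
  obtain ⟨b, b1, b2⟩ : ∃ b : ℝ, 1 ≤ b ∧ M * (π * A1 / e) ≤ b :=
    ⟨max 1 (M * (π * A1 / e)), le_max_left _ _, le_max_right _ _⟩
  have b0 : 0 < b := by linarith
  have b3 : 1 ≤ b ^ 2 := one_le_pow₀ b1
  refine ⟨72 * b ^ 2, (π * A1 / e * (72 * b ^ 2) * 64 / c₀ + 1), by linarith, fun t ht Λ Λ' J J' K'
    Θ Θ' Ψ' P' X' A D a cs zp k Zp a0 a3 hA1 hP hC hc hZ hp hv hA' hC' hc' hs hF hX' l => ?_⟩
  have q0 : 0 < π * A1 / e * (72 * b ^ 2) * 64 / c₀ := by positivity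
  have t0 : 0 < t := by linarith
  have N0 : 0 < 72 * b ^ 2 * t := by positivity
  have tN : t ≤ 72 * b ^ 2 * t := by nlinarith
  have c1 : 0 < e / (72 * b ^ 2 * t) := by positivity
  obtain ⟨X, hX⟩ := hC.exists_inv
  obtain ⟨s₀, v, v1, v2, v3, v4⟩ := hP.exists_pl hA'.cpt hA'.farJ (hF.leaf l) (hF.px_ne l)
  have v5 : Pl Λ J v (π * A1) := ⟨v2.sm, v2.hol, v2.imm, v2.prop, fun ρ =>
    (v2.area ρ).trans (by gcongr)⟩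
  obtain ⟨S, p, q, hf⟩ := v5.exists_lf hP.sm hP.tame hC hc hX
  obtain ⟨μ, hμ⟩ := hf.exists_lw N0 c1 a0
  obtain ⟨R0, r0, r1, r2⟩ : ∃ R0 : ℝ, 0 < R0 ∧ (∀ x ∈ K', ‖x.1‖ < R0) ∧
      ∀ Z ∈ Box t, ‖(Θ' Z).1‖ < R0 := by
    obtain ⟨R, hR⟩ := (hA'.cpt.union (hC'.isCompact_image t)).isBounded.subset_ball_lt 0 0
    exact ⟨R, hR.1, fun x hx => (norm_fst_le x).trans_lt (mem_ball_zero_iff.mp (hR.2 (.inl hx))),
      fun Z hZ => (norm_fst_le _).trans_lt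
        (mem_ball_zero_iff.mp (hR.2 (.inr ⟨Z, ⟨hZ.1.le, hZ.2.le⟩, rfl⟩)))⟩
  obtain ⟨S', p', q', hf'⟩ := exists_lf hA' r1 hC' hc' r2 hF hX' r0 (lt_add_one R0) l
  obtain ⟨μ', hμ'⟩ := hf'.exists_lw t0 c1 a0
  have hB : π * A1 / (e / (72 * b ^ 2 * t)) = π * A1 * (72 * b ^ 2) / e * t := by field_simp
  rw [hB] at hμ
  have hZ' : Zp ∈ Box (72 * b ^ 2 * t) := box_mono (by linarith) hZ
  obtain ⟨x1, x2⟩ := Leaf_xi (u := v) hX hZ' (hp.trans v3.symm)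
  refine ⟨μ', hμ'.transfer (s₀ := s₀) hμ tN ?_ (fun τ hτ ⟨Z, z1, z2⟩ => ?_)
    (hh _ _ _ μ _ a _ _ k 0 (t / 8) b t hμ a3 ⟨⟨Zp, hZ', hp.trans v3.symm⟩, ?_, ?_⟩ (by linarith)
      (by nlinarith) ?_ b1 ?_ t0 tN fun m m0 m1 m2 => ?_)⟩
  · rintro ⟨Z, z1, z2⟩
    exact (hs Z z1).1 (z2 ▸ v1)
  · have e1 : v τ = Θ Z := by rw [v4 τ hτ, ← z2, (hs Z z1).2]
    have e2 := hX.eq Z (box_mono tN z1)
    have e3 := hX'.eq Z z1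
    refine ⟨⟨Z, box_mono tN z1, e1.symm⟩, ?_, ?_⟩ <;> simp only [e1, e2, ← z2, e3]
  · rw [x1]
    exact hZ.1
  · rw [x2]
    exact hZ.2
  · have h1 : π * A1 / e * (72 * b ^ 2) * 64 < t * c₀ := (div_lt_iff₀ c0).mp (by linarith)
    have h2 : π * A1 * (72 * b ^ 2) / e = π * A1 / e * (72 * b ^ 2) := by ring
    rw [h2]
    nlinarith
  · refine le_trans (le_of_eq ?_) b2
    field_simp
  · rw [x1, x2]
    refine lt_of_lt_of_le ?_ (hv b m m0 m1 m2)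
    rw [lt_div_iff₀ (by positivity)]
    nlinarith

end Pool.Agent.Lib.MP_7ed551_gt.Cy
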