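import Pool.Agent.Lib.MP_7ed551_gt.Cy.Q.HDefs

/-! Rings for the weak data. -/

open scoped ContDiff Topology
open Set Filter Metric MeasureTheory Real

noncomputable section

namespace Pool.Agent.Lib.MP_7ed551_gt.Cy

open Pool.Agent.Lib.MP_ccffa6_gt (Form1 dF pb px py JHol dens)

theorem Lf.exists_lw {S Ω : Set ℂ} {P Q : ℂ → ℝ} {z1 z2 : ℂ → ℂ} {N c a A : ℝ} {k : ℤ × ℤ}
    (h : Lf S Ω P Q z1 z2 N c a A k) (hN : 0 < N) (hc : 0 < c) (ha : 0 < a) :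
    ∃ μ : ℂ → ℝ, Lw Ω z1 z2 μ N a A (A / c) k := by
  obtain ⟨P', Q', sP, sQ, cP, cQ, tP, tQ, hnn, hco⟩ := h.exists_corr hN hc
  obtain ⟨G, hG, hf⟩ := mass_form h
  have hΩ := h.h1.op
  have hop := isOpen_core h.h1 h.h2 (N / 4)
  have one : ∀ {f : ℂ → ℝ}, ContDiff ℝ ∞ f → ContDiff ℝ 1 f := fun hf => contDiff_infty.1 hf 1
  have cd : ∀ {f g : ℂ → ℝ}, ContDiff ℝ ∞ f → ContDiff ℝ ∞ g →
      Continuous fun ζ => px g ζ - py f ζ := fun hf hg =>
    (((one hg).continuous_fderiv one_ne_zero).clm_apply continuous_const).sub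
      (((one hf).continuous_fderiv one_ne_zero).clm_apply continuous_const)
  have iS : ∀ {f : ℂ → ℝ}, Continuous f → IntegrableOn f S := fun hf =>
    (hf.continuousOn.integrableOn_compact h.bdS.isCompact_closure).mono_set subset_closure
  have c1 := cd h.smP h.smQ
  have c2 := cd sP sQ
  have hfl : ∀ ζ ∈ Ω, c⁻¹ * (px Q ζ - py P ζ) = fl z1 z2 ζ := fun ζ hζ => by
    rw [h.dens_eq hζ, inv_mul_cancel_left₀ hc.ne']
  refine ⟨fun ζ => px Q ζ - py P ζ - (px Q' ζ - py P' ζ), hN, ha, h.h1, h.h2,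
    h.prop _ (by linarith), c1.sub c2, hnn, fun ζ hζ => ?_, fun ζ h0 => ?_, fun χ hχ => ⟨?_, ?_⟩,
    ?_, ?_⟩
  · have e1 : P' =ᶠ[𝓝 ζ] _ := (hop.eventually_mem hζ).mono fun y hy => (hco y hy).1
    have e2 : Q' =ᶠ[𝓝 ζ] _ := (hop.eventually_mem hζ).mono fun y hy => (hco y hy).2
    have e3 := mass_curl_aff h.h1 h.h2 c 0 0 hζ.1
    simp only [add_zero, px, py] at e3
    rw [h.dens_eq hζ.1, px, py, e1.fderiv_eq, e2.fderiv_eq, e3, sub_self]
  · by_contra hζ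
    have h1 := h.pos ζ
    simp only [px, py, mass_d_zero tP hζ, mass_d_zero tQ hζ] at h0 h1
    linarith
  · have hK : Kd χ ⊆ Ω := fun ζ hζ => (hχ.kd hζ).1
    have g := green_cut hχ.bmp isOpen_univ (subset_univ _) (one (h.smP.sub sP)).contDiffOn
      (one (h.smQ.sub sQ)).contDiffOn
    have e1 : ∀ ζ, px (fun x => Q x - Q' x) ζ - py (fun x => P x - P' x) ζ =
        px Q ζ - py P ζ - (px Q' ζ - py P' ζ) := fun ζ => by
      simp only [px, py]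
      rw [fderiv_fun_sub (h.smQ.differentiable (by simp) ζ) (sQ.differentiable (by simp) ζ),
        fderiv_fun_sub (h.smP.differentiable (by simp) ζ) (sP.differentiable (by simp) ζ)]
      simp only [sub_apply]
      ring
    have e2 : ∀ ζ, px χ ζ * (Q ζ - Q' ζ) - py χ ζ * (P ζ - P' ζ) =
        a / (2 * π) * k.1 * (gr χ ζ * (deriv z1 ζ / z1 ζ)).re +
          a / (2 * π) * k.2 * (gr χ ζ * (deriv z2 ζ / z2 ζ)).re +
          (px χ ζ * py G ζ - py χ ζ * px G ζ) := fun ζ => by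
      by_cases hζ : ζ ∈ Kd χ
      · rw [mass_gr_re, mass_gr_re, (hf ζ (hK hζ)).1, (hf ζ (hK hζ)).2, (hco ζ (hχ.kd hζ)).1,
          (hco ζ (hχ.kd hζ)).2]
        simp only [px, py]
        ring
      · have h0 : fderiv ℝ χ ζ = 0 := image_eq_zero_of_notMem_tsupport hζ
        rw [mass_gr_re, mass_gr_re]
        simp [px, py, h0]
    have i1 := (hχ.bmp.integrable_gr hΩ hK h.h1.logd.continuousOn).re
    have i2 := (hχ.bmp.integrable_gr hΩ hK h.h2.logd.continuousOn).re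
    have i3 : Integrable fun ζ => px χ ζ * py G ζ - py χ ζ * px G ζ := by
      have i4 := (hχ.bmp.integrable_gr hΩ hK
        (g := fun ζ => ((py G ζ : ℝ) : ℂ) + ((px G ζ : ℝ) : ℂ) * Complex.I)
        ((Complex.continuous_ofReal.comp_continuousOn (mass_sm_d hΩ hG _).continuousOn).add
          ((Complex.continuous_ofReal.comp_continuousOn (mass_sm_d hΩ hG _).continuousOn).mul
            continuousOn_const))).re
      refine i4.congr (Eventually.of_forall fun ζ => ?_)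
      simp [gr]
    simp only [RCLike.re_to_complex] at i1 i2
    simp only [e1, e2] at g
    have i5 : Integrable fun ζ => a / (2 * π) * k.1 * (gr χ ζ * (deriv z1 ζ / z1 ζ)).re +
        a / (2 * π) * k.2 * (gr χ ζ * (deriv z2 ζ / z2 ζ)).re :=
      (i1.const_mul _).add (i2.const_mul _)
    rw [g, integral_add i5 i3,
      integral_add (i1.const_mul _) (i2.const_mul _), integral_const_mul, integral_const_mul,
      jac_zero hχ.bmp hΩ hK hG, wn, wn]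
    field_simp
    ring
  · have cχ := hχ.bmp.sm.continuous
    have hD : {ζ | χ ζ ≠ 0} ⊆ S := by
      refine h.full _ (isOpen_ne_fun cχ continuous_const)
        (hχ.bmp.cpt.isCompact.isBounded.subset (subset_tsupport χ)) fun ζ hζ => ?_
      by_contra hS
      rcases hχ.loc ζ (fun hc => hS (h.sub hc.1)) with h0 | h0
      · obtain ⟨y, hy, hy'⟩ := ((mem_closure_iff_frequently.1 hζ.1).and_eventually h0).exists
        exact hy hy'
      · exact hζ.2 (mem_interior_iff_mem_nhds.2 (h0.mono fun y hy => by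
          change χ y ≠ 0
          rw [hy]
          exact one_ne_zero))
    have g0 : ∫ ζ in S, (px Q' ζ - py P' ζ) = 0 := by
      rw [setIntegral_eq_integral_of_forall_compl_eq_zero, green0 (one sP) (one sQ) cP cQ]
      intro ζ hζ
      have hζ' : ζ ∉ Ω := fun h' => hζ (h.sub h')
      rw [px, py, mass_d_zero tP hζ', mass_d_zero tQ hζ', sub_zero]
    rw [← setIntegral_eq_integral_of_forall_compl_eq_zero (s := S) fun ζ hζ => by
      rw [show χ ζ = 0 from by_contra fun h' => hζ (hD h'), zero_mul]]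
    refine le_trans (setIntegral_mono (iS (cχ.mul (c1.sub c2))) (iS (c1.sub c2))
      fun ζ => mul_le_of_le_one_left (hnn ζ) (hχ.le ζ)) ?_
    simp only [Pi.sub_apply]
    rw [integral_sub (iS c1) (iS c2), g0, sub_zero]
    exact h.area
  · exact (((iS c1).mono_set h.sub).const_mul c⁻¹).congr
      ((ae_restrict_iff' hΩ.measurableSet).2 (Eventually.of_forall hfl))
  · rw [← setIntegral_congr_fun hΩ.measurableSet hfl, integral_const_mul, div_eq_inv_mul]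
    refine mul_le_mul_of_nonneg_left (le_trans ?_ h.area) (inv_nonneg.2 hc.le)
    exact setIntegral_mono_set (iS c1) (Eventually.of_forall fun ζ => (h.pos ζ).le)
      h.sub.eventuallyLE

theorem Lw.cell {Ω : Set ℂ} {z1 z2 : ℂ → ℂ} {μ : ℂ → ℝ} {N a A B : ℝ} {k : ℤ × ℤ}
    (h : Lw Ω z1 z2 μ N a A B k) {p : ℂ} (hp : p ∈ Core Ω z1 z2 (N / 8)) {ρ : ℝ}
    (hρ : ρ ≤ N / 16) : IsCompact (Cell Ω z1 z2 p ρ) ∧ Cell Ω z1 z2 p ρ ⊆ Core Ω z1 z2 (N / 5) := by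
  have hN := h.N0
  have hs : Cell Ω z1 z2 p ρ ⊆ Core Ω z1 z2 (N / 5) := fun ζ hζ =>
    ⟨hζ.1, by linarith [abs_sub_abs_le_abs_sub (xi z1 ζ) (xi z1 p), hζ.2.1, hp.2.1],
      by linarith [abs_sub_abs_le_abs_sub (xi z2 ζ) (xi z2 p), hζ.2.2, hp.2.2]⟩
  refine ⟨?_, hs⟩
  have hc : ContinuousOn (fun ζ => (xi z1 ζ, xi z2 ζ)) Ω :=
    h.h1.contDiffOn_xi.continuousOn.prodMk h.h2.contDiffOn_xi.continuousOn
  refine ring_cpt h.prop (hc.mono fun _ hζ => hζ.1)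
    (t := {y : ℝ × ℝ | |y.1 - xi z1 p| ≤ ρ ∧ |y.2 - xi z2 p| ≤ ρ})
    (IsClosed.and (isClosed_le (by fun_prop) continuous_const)
      (isClosed_le (by fun_prop) continuous_const))
    (fun ζ hζ => ⟨hζ.1, by linarith [(hs hζ).2.1], by linarith [(hs hζ).2.2]⟩)
    fun ζ hζ => and_iff_right hζ.1

theorem exists_ring_w : ∃ c₀ : ℝ, 0 < c₀ ∧ ∀ (Ω : Set ℂ) (z1 z2 : ℂ → ℂ) (μ : ℂ → ℝ) (N a A B : ℝ)
    (k : ℤ × ℤ) (p : ℂ) (ρ : ℝ), Lw Ω z1 z2 μ N a A B k → p ∈ Core Ω z1 z2 (N / 8) → 0 < ρ →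
    ρ ≤ N / 16 → B < c₀ * ρ ^ 2 →
    ∃ C D, Ring C D ∧ p ∈ C ∧ C ⊆ Cell Ω z1 z2 p ρ ∧ C ⊆ Core Ω z1 z2 (N / 5) ∧
      ∀ W χ, W ⊆ Core Ω z1 z2 (N / 4) → CutD D W χ → ¬ ∀ ζ, χ ζ * μ ζ = 0 := by
  obtain ⟨c₀, hc₀, H⟩ := mon
  refine ⟨c₀, hc₀, fun Ω z1 z2 μ N a A B k p ρ h hp hρ hρ' hB => ?_⟩
  obtain ⟨hA, hA'⟩ := h.cell hp hρ'
  have hN := h.N0
  have hpA : p ∈ Cell Ω z1 z2 p ρ := ⟨hp.1, by simpa using hρ.le, by simpa using hρ.le⟩
  have hC := isCompact_component hA p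
  have hCA := connectedComponentIn_subset (Cell Ω z1 z2 p ρ) p
  have hpC := mem_connectedComponentIn hpA
  have hΩ : connectedComponentIn (Cell Ω z1 z2 p ρ) p ⊆ Ω := fun _ hζ => (hCA hζ).1
  obtain ⟨D, hD⟩ := exists_fill hC isPreconnected_connectedComponentIn ⟨p, hpC⟩
  have hne : D ≠ ∅ := by
    rintro rfl
    have hc := hD.out
    rw [union_empty] at hc
    obtain ⟨V1, L1, o1, s1, t1, d1, e1⟩ := exists_log_near hC hc h.h1 hΩ
    obtain ⟨V2, L2, o2, s2, -, d2, e2⟩ := exists_log_near hC hc h.h2 hΩ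
    obtain ⟨U, oU, sU, pU, cU⟩ := exists_clopen_nhd hA hpA (o1.inter o2) (subset_inter s1 s2)
    have u1 : U ⊆ V1 := sU.trans inter_subset_left
    have u2 : U ⊆ V2 := sU.trans inter_subset_right
    have l1 (ζ : ℂ) (hζ : ζ ∈ U) := ring_log o1 d1 e1 (u1 hζ)
    have l2 (ζ : ℂ) (hζ : ζ ∈ U) := ring_log o2 d2 e2 (u2 hζ)
    have he : EqOn (fl z1 z2) (fun ζ => ‖deriv L1 ζ‖ ^ 2 + ‖deriv L2 ζ‖ ^ 2) U := fun ζ hζ => by
      rw [fl, (l1 ζ hζ).2, (l2 ζ hζ).2]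
    have hF : ContinuousOn (fun ζ => ‖L1 ζ - L1 p‖ ^ 2 + ‖L2 ζ - L2 p‖ ^ 2) U :=
      (((d1.continuousOn.mono u1).sub continuousOn_const).norm.pow 2).add
        (((d2.continuousOn.mono u2).sub continuousOn_const).norm.pow 2)
    have := H U L1 L2 p ρ oU (d1.mono u1) (d2.mono u2) pU hρ
      (ring_cpt cU (hF.mono inter_subset_right) (isClosed_Iic (a := ρ ^ 2))
        (fun ζ hζ => ⟨⟨t1 (u1 hζ.1), ?_, ?_⟩, hζ.1⟩) fun ζ hζ => and_iff_right hζ.2)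
      ((h.int.mono_set (u1.trans t1)).congr_fun he oU.measurableSet)
    · rw [← setIntegral_congr_fun oU.measurableSet he] at this
      have k := setIntegral_mono_set h.int
        (Eventually.of_forall fun ζ => (by unfold fl; positivity : 0 ≤ fl z1 z2 ζ))
        (u1.trans t1).eventuallyLE
      linarith [h.flat]
    · rw [(l1 ζ hζ.1).1, (l1 p pU).1]
      exact ring_re hρ (sq_nonneg _) hζ.2
    · rw [(l2 ζ hζ.1).1, (l2 p pU).1]
      exact ring_re hρ (sq_nonneg _) ((add_comm _ _).trans_le hζ.2)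
  refine ⟨_, D, hD, hpC, hCA, hCA.trans hA', fun W χ hW hχ h0 => hne (hD.eq_empty rfl ?_)⟩
  have hcl : closure D ⊆ Ω := by
    rw [closure_eq_self_union_frontier]
    refine union_subset (fun ζ hζ => h.sub ζ ?_) (hD.fr.trans hΩ)
    by_cases hw : ζ ∈ W
    · exact h.zero ζ (hW hw)
    · simpa [(hχ.one ζ hζ hw).eq_of_nhds] using h0 ζ
  have k (z : ℂ → ℂ) (hz : HolN Ω z) (hf : ∀ ζ ∈ frontier D, |xi z ζ - xi z p| ≤ ρ) (ζ : ℂ)
      (hζ : ζ ∈ D) : |xi z ζ - xi z p| ≤ ρ := by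
    have := xi_mem_Icc hz hD.bdd hcl (b := xi z p - ρ) (b' := xi z p + ρ)
      (fun w hw => ⟨by linarith [(abs_le.1 (hf w hw)).1], by linarith [(abs_le.1 (hf w hw)).2]⟩)
      ζ (subset_closure hζ)
    exact abs_le.2 ⟨by linarith [this.1], by linarith [this.2]⟩
  exact fun ζ hζ => ⟨hcl (subset_closure hζ), k z1 h.h1 (fun w hw => (hCA (hD.fr hw)).2.1) ζ hζ,
    k z2 h.h2 (fun w hw => (hCA (hD.fr hw)).2.2) ζ hζ⟩

theorem mas_le_w {Ω : Set ℂ} {z1 z2 : ℂ → ℂ} {μ : ℂ → ℝ} {N a A B : ℝ} {k : ℤ × ℤ} {χ : ℂ → ℝ}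
    (h : Lw Ω z1 z2 μ N a A B k) {L : ℝ} (hL : 0 ≤ L) (hK : Kd χ ⊆ Ω)
    (hg : ∀ ζ ∈ Ω, ∀ v, |fderiv ℝ χ ζ v| ≤
      L * (‖deriv z1 ζ / z1 ζ‖ + ‖deriv z2 ζ / z2 ζ‖) * ‖v‖) {f : ℂ → ℂ} (hf : f = z1 ∨ f = z2) :
    |wn χ f| ≤ 4 * L * B := by
  have i := (integrable_indicator_iff h.h1.op.measurableSet).2 (h.int.const_mul (4 * L))
  have := norm_integral_le_of_norm_le (f := fun ζ => (gr χ ζ * (deriv f ζ / f ζ)).re) i
    (Eventually.of_forall fun ζ => by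
      by_cases hζ : ζ ∈ Ω
      · have a1 := hg ζ hζ 1
        have a2 := hg ζ hζ Complex.I
        have a3 : ‖gr χ ζ‖ ≤ |px χ ζ| + |py χ ζ| := (norm_add_le _ _).trans_eq (by simp)
        rw [norm_one, mul_one] at a1
        rw [Complex.norm_I, mul_one] at a2
        rw [indicator_of_mem hζ, fl]
        refine (Complex.abs_re_le_norm _).trans ((norm_mul_le_of_le (a3.trans (add_le_add a1 a2))
          le_rfl).trans ?_)
        rw [← two_mul, ← mul_assoc, mul_assoc (2 * L), show 4 * L = 2 * L * 2 by ring,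
          mul_assoc (2 * L)]
        refine mul_le_mul_of_nonneg_left ?_ (by positivity)
        rcases hf with e | e <;> rw [e] <;>
          nlinarith [sq_nonneg (‖deriv z1 ζ / z1 ζ‖ - ‖deriv z2 ζ / z2 ζ‖)]
      · simp [gr_eq_zero (mt (@hK ζ) hζ), indicator_of_notMem hζ])
  rw [integral_indicator h.h1.op.measurableSet, integral_const_mul] at this
  rw [wn, abs_mul, abs_neg, abs_of_pos (by positivity)]
  refine (mul_le_of_le_one_left (abs_nonneg _) (inv_le_one_of_one_le₀ (by linarith [two_le_pi]))).trans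
    (this.trans (mul_le_mul_of_nonneg_left h.flat (by positivity)))

theorem cls_bound_w : ∃ M : ℝ, 0 < M ∧ ∀ (Ω : Set ℂ) (z1 z2 : ℂ → ℂ) (μ : ℂ → ℝ) (N a A B : ℝ)
    (k : ℤ × ℤ) (C D : Set ℂ), Lw Ω z1 z2 μ N a A B k → Ring C D → C ⊆ Core Ω z1 z2 (N / 5) →
    ∃ χ, CutD D (Core Ω z1 z2 (N / 4)) χ ∧ |wn χ z1| ≤ M * B / N ∧ |wn χ z2| ≤ M * B / N := by
  let β : ContDiffBump (0 : ℝ × ℝ) := ⟨7 / 32, 15 / 64, by norm_num, by norm_num⟩
  have βs : ContDiff ℝ ∞ β := β.contDiff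
  obtain ⟨L, hL⟩ := (βs.continuous_fderiv (by simp)).bounded_above_of_compact_support
    (β.hasCompactSupport.fderiv (𝕜 := ℝ))
  have L0 : 0 ≤ L := (norm_nonneg _).trans (hL 0)
  refine ⟨4 * L + 1, by positivity, fun Ω z1 z2 μ N a A B k C D h hR hC => ?_⟩
  have N0 := h.N0
  have hΩ := h.h1.op
  obtain ⟨ξ, hξ⟩ : ∃ ξ : ℂ → ℝ × ℝ, ξ = fun ζ => N⁻¹ • (xi z1 ζ, xi z2 ζ) := ⟨_, rfl⟩
  have ξs : ContDiffOn ℝ ∞ ξ Ω :=
    hξ ▸ (h.h1.contDiffOn_xi.prodMk h.h2.contDiffOn_xi).const_smul _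
  have ξn : ∀ ζ, N * ‖ξ ζ‖ = max |xi z1 ζ| |xi z2 ζ| := fun ζ => by
    rw [hξ, norm_smul, norm_inv, Real.norm_of_nonneg N0.le, mul_inv_cancel_left₀ N0.ne']
    rfl
  have hK := (ξs.continuousOn.mono fun _ a => a.1).preimage_isClosed_of_isClosed h.prop.isClosed
    (isClosed_closedBall (x := 0) (ε := 15 / 64))
  obtain ⟨φ, hφ⟩ : ∃ φ : ℂ → ℝ, φ = Ω.indicator fun ζ => β (ξ ζ) := ⟨_, rfl⟩
  have φ1 : ∀ ζ ∈ Ω, φ =ᶠ[𝓝 ζ] fun ζ => β (ξ ζ) := fun ζ hζ =>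
    mem_of_superset (hΩ.mem_nhds hζ) fun x hx => hφ ▸ indicator_of_mem hx _
  have φ0 : ∀ ζ, ζ ∉ Core Ω z1 z2 (N / 4) → φ =ᶠ[𝓝 ζ] fun _ => 0 := fun ζ hζ => by
    refine mem_of_superset (hK.isOpen_compl.mem_nhds fun a => hζ ?_) fun x hx => ?_
    · have := mem_closedBall_zero_iff.1 a.2
      exact ⟨a.1.1, max_lt_iff.1 (by rw [← ξn]; nlinarith)⟩
    · refine hφ ▸ indicator_apply_eq_zero.2 fun a => β.zero_of_le_dist (le_of_not_gt fun b => hx ?_)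
      have : ‖ξ x‖ < 15 / 64 := dist_zero_right (ξ x) ▸ b
      exact ⟨⟨a, max_le_iff.1 (by rw [← ξn]; nlinarith)⟩, b.le⟩
  have φs : ∀ ζ, ContDiffAt ℝ ∞ φ ζ := fun ζ => by
    by_cases hζ : ζ ∈ Ω
    · exact (βs.contDiffAt.comp ζ (ξs.contDiffAt (hΩ.mem_nhds hζ))).congr_of_eventuallyEq (φ1 ζ hζ)
    · exact contDiffAt_const.congr_of_eventuallyEq (φ0 ζ fun a => hζ a.1)
  obtain ⟨χ, hχ⟩ : ∃ χ : ℂ → ℝ, χ = D.indicator fun ζ => 1 - φ ζ := ⟨_, rfl⟩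
  have χ1 : ∀ ζ ∈ D, χ =ᶠ[𝓝 ζ] fun ζ => 1 - φ ζ := fun ζ hζ =>
    mem_of_superset (hR.op.mem_nhds hζ) fun x hx => hχ ▸ indicator_of_mem hx _
  have χ0 : ∀ ζ, ζ ∉ D → χ =ᶠ[𝓝 ζ] fun _ => 0 := fun ζ hζ => by
    by_cases a : ζ ∈ closure D
    · refine mem_of_superset ((isOpen_core h.h1 h.h2 _).mem_nhds (hC (hR.fr
        (hR.op.frontier_eq.ge ⟨a, hζ⟩)))) fun x hx => hχ ▸ indicator_apply_eq_zero.2 fun _ => ?_
      have := max_lt hx.2.1 hx.2.2
      rw [← ξn] at this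
      rw [hφ, indicator_of_mem hx.1, β.one_of_mem_closedBall (mem_closedBall_zero_iff.2
        (show _ ≤ (7 / 32 : ℝ) by nlinarith)), sub_self]
    · exact mem_of_superset (isClosed_closure.isOpen_compl.mem_nhds a) fun x hx =>
        hχ ▸ indicator_of_notMem (fun b => hx (subset_closure b)) _
  have φb : ∀ ζ, 0 ≤ φ ζ ∧ φ ζ ≤ 1 := fun ζ => hφ ▸ ⟨indicator_nonneg (fun _ _ => β.nonneg) _,
    indicator_apply_le' (fun _ => β.le_one) fun _ => zero_le_one⟩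
  have sp : tsupport χ ⊆ D := fun ζ => not_imp_not.1 fun a =>
    notMem_tsupport_iff_eventuallyEq.2 (χ0 ζ a)
  have one : ∀ ζ ∈ D, ζ ∉ Core Ω z1 z2 (N / 4) → χ =ᶠ[𝓝 ζ] fun _ => 1 := fun ζ a b =>
    ((χ1 ζ a).and (φ0 ζ b)).mono fun x e => by simp [e.1, e.2]
  have hc : Cut (Core Ω z1 z2 (N / 4)) χ := by
    refine ⟨⟨contDiff_iff_contDiffAt.2 fun ζ => ?_, hR.bdd.isCompact_closure.of_isClosed_subset
      (isClosed_tsupport _) (sp.trans subset_closure)⟩,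
      fun ζ => hχ ▸ indicator_nonneg (fun x _ => sub_nonneg.2 (φb x).2) _,
      fun ζ => hχ ▸ indicator_apply_le' (fun _ => sub_le_self _ (φb ζ).1) fun _ => zero_le_one,
      fun ζ b => (em (ζ ∈ D)).symm.imp (χ0 ζ) fun a => one ζ a b⟩
    by_cases a : ζ ∈ D
    · exact (contDiffAt_const.sub (φs ζ)).congr_of_eventuallyEq (χ1 ζ a)
    · exact contDiffAt_const.congr_of_eventuallyEq (χ0 ζ a)
  have key := fun f => mas_le_w h (χ := χ) (f := f) (div_nonneg L0 N0.le) (fun _ a => (hc.kd a).1)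
    fun ζ hζ v => by
      by_cases a : ζ ∈ D
      · have d1 := (h.h1.contDiffOn_xi.contDiffAt (hΩ.mem_nhds hζ)).differentiableAt (by simp)
        have d2 := (h.h2.contDiffOn_xi.contDiffAt (hΩ.mem_nhds hζ)).differentiableAt (by simp)
        have d := ((βs.differentiable (by simp) (ξ ζ)).hasFDerivAt.comp ζ
          (hξ ▸ (d1.hasFDerivAt.prodMk d2.hasFDerivAt).fun_const_smul N⁻¹)).const_sub 1
        have b : ∀ w : ℂ, |(w * v).re| ≤ ‖w‖ * ‖v‖ := fun w =>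
          (Complex.abs_re_le_norm _).trans (norm_mul_le _ _)
        rw [(d.congr_of_eventuallyEq (((χ1 ζ a).and (φ1 ζ hζ)).mono fun x e => by
          simp [e.1, e.2])).fderiv, neg_apply, abs_neg]
        refine (fderiv ℝ β (ξ ζ)).le_of_opNorm_le_of_le (hL _) (show ‖N⁻¹ • (fderiv ℝ (xi z1) ζ v,
          fderiv ℝ (xi z2) ζ v)‖ ≤ N⁻¹ * ((‖deriv z1 ζ / z1 ζ‖ + ‖deriv z2 ζ / z2 ζ‖) * ‖v‖)
          from ?_) |>.trans_eq (by ring)
        rw [norm_smul, norm_inv, Real.norm_of_nonneg N0.le, h.h1.fderiv_xi hζ, h.h2.fderiv_xi hζ,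
          add_mul]
        exact mul_le_mul_of_nonneg_left (max_le ((b _).trans (le_add_of_nonneg_right (by positivity)))
          ((b _).trans (le_add_of_nonneg_left (by positivity)))) (by positivity)
      · rw [(χ0 ζ a).fderiv_eq, fderiv_fun_const]
        simp only [Pi.zero_apply, zero_apply, abs_zero]
        positivity
  have B0 : 0 ≤ B / N := div_nonneg ((integral_nonneg fun ζ => by unfold fl; positivity).trans h.flat)
    N0.le
  have e : 4 * (L / N) * B ≤ (4 * L + 1) * B / N := by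
    rw [mul_div_assoc, add_mul, one_mul]
    exact (le_add_of_nonneg_right B0).trans_eq' (by ring)
  exact ⟨χ, ⟨hc, sp, one⟩, (key _ (Or.inl rfl)).trans e, (key _ (Or.inr rfl)).trans e⟩

end Pool.Agent.Lib.MP_7ed551_gt.Cy
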