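import Pool.Agent.Lib.MP_7ed551_gt.Cy.Q.HDefs

/-! A smooth function which is holomorphic near its zeros and close to the identity at infinity. -/

open scoped ContDiff Topology
open Set Filter Metric MeasureTheory Real

noncomputable section

namespace Pool.Agent.Lib.MP_7ed551_gt.Cy

open Pool.Agent.Lib.MP_ccffa6_gt (Form1 dF pb px py JHol dens)

theorem hzero_der {g : ℂ → ℂ} (hg : ContDiff ℝ ∞ g) {ζ : ℂ} (h0 : g ζ ≠ 0) (v w : ℂ) :
    fderiv ℝ (fun z => (fderiv ℝ g z v / g z).im) ζ w =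
      (fderiv ℝ (fderiv ℝ g) ζ w v / g ζ - fderiv ℝ g ζ v * fderiv ℝ g ζ w / g ζ ^ 2).im := by
  have d1 : HasFDerivAt (fderiv ℝ g) (fderiv ℝ (fderiv ℝ g) ζ) ζ :=
    ((hg.fderiv_right (m := 1) (by norm_cast)).differentiable one_ne_zero ζ).hasFDerivAt
  have d3 : HasFDerivAt g (fderiv ℝ g ζ) ζ := (hg.differentiable (by simp) ζ).hasFDerivAt
  have d5 : HasFDerivAt (fun z => (fderiv ℝ g z v * (g z)⁻¹).im) _ ζ :=
    Complex.imCLM.hasFDerivAt.comp ζ ((d1.clm_apply (hasFDerivAt_const v ζ)).mul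
      (((hasDerivAt_inv h0).hasFDerivAt.restrictScalars ℝ).comp ζ d3))
  simp only [div_eq_mul_inv]
  rw [d5.fderiv, ContinuousLinearMap.comp_apply, Complex.imCLM_apply]
  congr 1
  simp
  ring

theorem hzero_wn {g : ℂ → ℂ} (hg : ContDiff ℝ ∞ g) {φ : ℂ → ℝ} (hφ : Bmp φ)
    (hs : ∀ ζ ∈ tsupport φ, g ζ ≠ 0) (hd : ∀ ζ ∈ Kd φ, DifferentiableAt ℂ g ζ) : wn φ g = 0 := by
  have hV : IsOpen {ζ | g ζ ≠ 0} := isOpen_ne_fun hg.continuous continuous_const
  have c : ∀ v : ℂ, ContDiffOn ℝ 1 (fun z => (fderiv ℝ g z v / g z).im) {ζ | g ζ ≠ 0} := fun v =>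
    Complex.imCLM.contDiff.comp_contDiffOn
      (((hg.fderiv_right (m := 1) (by norm_cast)).clm_apply contDiff_const).contDiffOn.mul
        ((hg.of_le (by simp)).contDiffOn.inv fun _ h => h))
  have e := green_cut hφ hV hs (c 1) (c Complex.I)
  have z : ∀ ζ, φ ζ * (px (fun z => (fderiv ℝ g z Complex.I / g z).im) ζ -
      py (fun z => (fderiv ℝ g z 1 / g z).im) ζ) = 0 := fun ζ => by
    by_cases hζ : ζ ∈ tsupport φ
    · rw [px, py, hzero_der hg (hs ζ hζ), hzero_der hg (hs ζ hζ),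
        (hg.contDiffAt.isSymmSndFDerivAt (by simp; norm_cast)).eq 1 Complex.I,
        mul_comm (fderiv ℝ g ζ 1), sub_self, mul_zero]
    · rw [image_eq_zero_of_notMem_tsupport hζ, zero_mul]
  simp only [z, integral_zero] at e
  rw [wn, ← neg_eq_zero, neg_mul, neg_neg, mul_eq_zero]
  refine Or.inr (((integral_congr_ae (Eventually.of_forall fun ζ => ?_)).trans
    (neg_eq_zero.1 e.symm)))
  by_cases hζ : ζ ∈ Kd φ
  · have a : ∀ v, fderiv ℝ g ζ v / g ζ = v * (deriv g ζ / g ζ) := fun v => by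
      rw [(hd ζ hζ).hasDerivAt.complexToReal_fderiv.fderiv, ← mul_div_assoc, mul_comm v]
      simp
    simp only [a]
    simp [gr]
  · simp [gr, px, py, image_eq_zero_of_notMem_tsupport hζ]

/- `Z` = zeros, compact.  `χ0 = 1` near `Z`, support in `U`; `χ1` from `exists_cut_scale` (B/En) with
`ρ > R` and `Z ⊆ ball 0 ρ`.  `φ = χ1 - χ0` has its support in `V = {g ≠ 0}`; `P = (px g / g).im`,
`Q = (py g / g).im` are smooth on `V` with `px Q - py P = 0` (symmetry of the second derivative);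
`green_cut` gives `wn φ g = 0` (on `Kd φ ⊆ Kd χ1 ∪ Kd χ0` the function is holomorphic, there
`Q = (g' / g).re`, `P = (g' / g).im`).  `wn_sub` on `(U ∪ {R < ‖s‖}) ∩ V` and `wn_near_id` (B/En)
give `wn χ0 g = 1`.  Existence: `wn_zero`; uniqueness and simplicity: `ap2`. -/
theorem one_zero {g : ℂ → ℂ} (hg : ContDiff ℝ ∞ g) {U : Set ℂ} (hU : IsOpen U)
    (hd : DifferentiableOn ℂ g U) (hz : ∀ s, g s = 0 → s ∈ U) {R : ℝ}
    (hR : ∀ s, R ≤ ‖s‖ → DifferentiableAt ℂ g s ∧ ‖g s - s‖ < ‖s‖) :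
    ∃ s₀, g s₀ = 0 ∧ deriv g s₀ ≠ 0 ∧ ∀ s, g s = 0 → s = s₀ := by
  have hn : ∀ s, R ≤ ‖s‖ → g s ≠ 0 := fun s hs h0 => by
    have := (hR s hs).2
    rw [h0, zero_sub, norm_neg] at this
    exact this.false
  obtain ⟨ρ, ρ0, ρ1⟩ : ∃ ρ : ℝ, 0 < ρ ∧ R < ρ :=
    ⟨max R 0 + 1, by positivity, (le_max_left _ _).trans_lt (lt_add_one _)⟩
  have hb : ∀ s, g s = 0 → ‖s‖ < ρ := fun s hs => (lt_of_not_ge fun h => hn s h hs).trans ρ1
  have hZ : IsClosed {s | g s = 0} := isClosed_eq hg.continuous continuous_const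
  obtain ⟨f, h0, h1, hf⟩ := exists_contMDiffMap_zero_one_nhds_of_isClosed (n := ⊤)
    (modelWithCornersSelf ℝ ℂ) (hU.inter (isOpen_ball (x := (0 : ℂ)) (ε := ρ))).isClosed_compl hZ
    (disjoint_compl_left.mono_right fun s hs =>
      mem_inter (hz s hs) (mem_ball_zero_iff.2 (hb s hs)))
  have hs : tsupport (f : ℂ → ℝ) ⊆ U ∩ ball 0 ρ := fun ζ hζ => by_contra fun hD =>
    notMem_tsupport_iff_eventuallyEq.2 (h0.filter_mono (nhds_le_nhdsSet hD)) hζ
  have h1' : ∀ s, g s = 0 → (f : ℂ → ℝ) =ᶠ[𝓝 s] fun _ => 1 := fun s h =>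
    h1.filter_mono (nhds_le_nhdsSet (show s ∈ {s | g s = 0} from h))
  have b0 : Bmp f := ⟨f.contMDiff.contDiff, isCompact_of_isClosed_isBounded (isClosed_tsupport _)
    (isBounded_ball.subset (hs.trans inter_subset_right))⟩
  have hsU := hs.trans inter_subset_left
  have k0 : ∀ ζ ∈ Kd f, g ζ ≠ 0 := fun ζ hζ h => notMem_kd (h1' ζ h) hζ
  obtain ⟨M, -, hM⟩ := exists_cut_scale
  obtain ⟨χ, b1, -, c1, c2, -⟩ := hM ρ ρ0
  have hW : IsOpen {s : ℂ | R < ‖s‖} := isOpen_lt continuous_const continuous_norm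
  have k1 : Kd χ ⊆ {s : ℂ | R < ‖s‖} := fun s hs => ρ1.trans_le (c2 s hs).1
  have hN : HolN {s : ℂ | R < ‖s‖} g :=
    ⟨hW, fun s hs => (hR s (le_of_lt hs)).1.differentiableWithinAt, fun s hs => hn s (le_of_lt hs)⟩
  have hV : IsOpen (U ∩ {s | g s ≠ 0}) := hU.inter (isOpen_ne_fun hg.continuous continuous_const)
  have hN' : HolN ({s : ℂ | R < ‖s‖} ∪ U ∩ {s | g s ≠ 0}) g :=
    ⟨hW.union hV, fun s hs => (hs.elim (fun h => (hR s (le_of_lt h)).1) fun h =>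
      hd.differentiableAt (hU.mem_nhds h.1)).differentiableWithinAt,
      fun s hs => hs.elim (hN.ne s) fun h => h.2⟩
  have k2 := k1.trans (subset_union_left (t := U ∩ {s | g s ≠ 0}))
  have k3 : Kd f ⊆ {s : ℂ | R < ‖s‖} ∪ U ∩ {s | g s ≠ 0} := fun s hs =>
    Or.inr ⟨hsU (kd_subset hs), k0 s hs⟩
  have w0 := hzero_wn hg (b1.sub b0) (fun ζ hζ h => notMem_tsupport_iff_eventuallyEq.2 (by
      filter_upwards [h1' ζ h, (isOpen_lt continuous_norm continuous_const).mem_nhds (hb ζ h)]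
        with y a b
      rw [a, c1 y b, sub_self, Pi.zero_apply]) hζ) fun ζ hζ =>
    hN'.hol.differentiableAt (hN'.op.mem_nhds (union_subset k2 k3 (kd_sub b1 b0 hζ)))
  rw [wn_sub b1 b0 hN' k2 k3, wn_near_id b1 hN k1 fun s hs => (hR s (le_of_lt hs)).2,
    c1 0 (by simpa using ρ0), sub_eq_zero] at w0
  obtain ⟨p, hp⟩ : ∃ p, g p = 0 := by
    by_contra! h
    rw [wn_zero b0 ⟨hU, hd, fun s _ => h s⟩ hsU] at w0
    exact one_ne_zero w0
  have k : ∀ q, g q = 0 → ¬(p = q → deriv g p = 0) := fun q hq h => by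
    have := ap2 b0 (fun ζ => (hf ζ).1) hU hsU hd k0 (hz p hp) (hz q hq) hp hq h
    rw [(h1' p hp).self_of_nhds, (h1' q hq).self_of_nhds, ← w0] at this
    linarith
  exact ⟨p, hp, fun h => k p hp fun _ => h, fun s hs => by_contra fun h =>
    k s hs fun e => absurd e.symm h⟩

end Pool.Agent.Lib.MP_7ed551_gt.Cy
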