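import Pool.Agent.Lib.MP_7ed551_gt.Cy.Q.Prep
import Pool.Agent.Lib.MP_7ed551_gt.Cy.Q.HMain

/-! Monotone tori in a ball: the assembly. -/

open scoped ContDiff Topology
open Set Filter Metric MeasureTheory Real
open Complex (I)

noncomputable section

namespace Pool.Agent.Lib.MP_7ed551_gt.Cy.Q

open Pool.Agent.Lib.MP_ccffa6_gt
open FA (nq Pf Far)

/-- The projective transformation. -/
def ProjStmt : Prop :=
  ∀ (Λo Λx : Form1 E) (Jx : E → E →L[ℝ] E) (Θ : E → E) (N c a A D t : ℝ) (k : ℤ × ℤ) (cs zp : ℂ),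
    Prep Λo Λx Jx Θ N c a A D k cs zp → 0 < t → t ≤ N / 20 →
    ∃ (Λ' : Form1 E) (J' : E → E →L[ℝ] E) (K' : Set E) (ρ ρ' : E → E),
      Proj Λo Jx Θ t c a k cs zp Λ' J' K' ρ ρ'

/-- The foliation for a form which is equivalent to a form taming `J0`. -/
def FolOf : Prop :=
  ∀ (Λ Λ' : Form1 E) (J' : E → E →L[ℝ] E) (K' : Set E) (Ξ Ξ' : E → E), Far Λ →
    (∀ x v, v ≠ 0 → 0 < dF Λ x v (J0 v)) → Amb Λ' J' K' → Dif Ξ Ξ' →
    (∀ x u v, dF Λ' (Ξ x) (fderiv ℝ Ξ x u) (fderiv ℝ Ξ x v) = dF Λ x u v) →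
    ∃ Ψ P : E → E, Fol J' Ψ P

variable {Λo Λx Λ' : Form1 E} {Jx J' : E → E →L[ℝ] E} {Θ ρ ρ' : E → E} {K' : Set E}
  {N c a A D t : ℝ} {k : ℤ × ℤ} {cs zp : ℂ}

theorem Prep.ne (h : Prep Λo Λx Jx Θ N c a A D k cs zp) : cs ≠ 0 := fun e => by
  have := h.lab 0 ⟨by simpa using by linarith [h.N0], by simpa using by linarith [h.N0]⟩
  rw [e, norm_zero] at this
  exact (norm_nonneg _).not_gt this

theorem sg_eq (cs zp : ℂ) {y : E} (hy : 1 + y.1 / cs ≠ 0) : sg cs zp 1 y = sig cs zp y := by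
  refine Prod.ext ?_ ?_ <;> simp only [sg, sig, TT, mm, Prod.smul_fst, Prod.smul_snd, smul_eq_mul,
    Complex.ofReal_one, one_mul] <;> field_simp

theorem sig_ta (hc : cs ≠ 0) (zp : ℂ) {x : E} (hx : x.1 ≠ cs) :
    1 + (ta cs zp 1 x).1 / cs ≠ 0 ∧ sig cs zp (ta cs zp 1 x) = x := by
  have h1 : cs - x.1 ≠ 0 := sub_ne_zero.2 hx.symm
  have h2 : ll cs 1 x = (cs - x.1) / cs := by
    simp only [ll, Complex.ofReal_one]
    field_simp
  have h3 : 1 + (ta cs zp 1 x).1 / cs = cs / (cs - x.1) := by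
    simp only [ta, h2, Prod.smul_fst, smul_eq_mul]
    field_simp
    ring
  refine ⟨h3 ▸ div_ne_zero hc h1, ?_⟩
  rw [sig, h3]
  refine Prod.ext ?_ ?_ <;> simp only [ta, h2, Prod.smul_fst, Prod.smul_snd, smul_eq_mul,
    Complex.ofReal_one] <;> field_simp
  ring

theorem Prep.proj (h : Prep Λo Λx Jx Θ N c a A D k cs zp)
    (h' : Proj Λo Jx Θ t c a k cs zp Λ' J' K' ρ ρ') : Cy.Proj Λx Jx J' A D cs zp := by
  have m1 : ∀ y : E, mm cs 1 y = 1 + y.1 / cs := fun y => by simp [mm]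
  refine ⟨h.fin.sm, h.acs.sq, h.tame, h.fin.A0, h.fin.D0, h.ne, ?_, h.near, fun y hy v => ?_, ?_⟩
  · obtain ⟨R, hR⟩ := h.fin.far
    obtain ⟨S, hS⟩ := h.acs.far
    exact ⟨max R S, fun x hx => ⟨hR x ((le_max_left _ _).trans hx), hS x ((le_max_right _ _).trans hx)⟩⟩
  · have e : sg cs zp 1 =ᶠ[𝓝 y] sig cs zp :=
      ((by fun_prop : Continuous fun y : E => 1 + y.1 / cs).continuousAt.eventually_ne hy).mono
        fun z hz => sg_eq cs zp hz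
    rw [← e.fderiv_eq, ← e.self_of_nhds, h'.hol y (m1 y ▸ hy)]
  · obtain ⟨K, k1, k2, k3⟩ := h'.std
    obtain ⟨ε, e0, e1⟩ := Metric.mem_nhds_iff.1 ((k1.image (f := fun y : E => 1 + y.1 / cs)
      (by fun_prop)).isClosed.isOpen_compl.mem_nhds (x := 0) fun ⟨y, hy, e⟩ => k2 y hy (m1 y ▸ e))
    exact ⟨ε, e0, fun y hy => k3 y fun hk => e1 (mem_ball_zero_iff.2 hy) ⟨y, hk, rfl⟩⟩

theorem leaf_lm {A e : ℝ} (hA : 0 < A) (he : 0 < e) : ∃ L tm : ℝ, 20 ≤ L ∧ ∀ t : ℝ, tm ≤ t →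
    0 < t → ∀ (Λo Λx Λ' : Form1 E) (Jx J' : E → E →L[ℝ] E) (K' : Set E) (Θ ρ ρ' Ψ P X : E → E)
      (D a : ℝ) (cs zp : ℂ) (k : ℤ × ℤ), 0 < a → π * A < 3 * a →
      Prep Λo Λx Jx Θ (L * t) (e / (L * t)) a A D k cs zp →
      Proj Λo Jx Θ t (e / (L * t)) a k cs zp Λ' J' K' ρ ρ' → Fol J' Ψ P →
      Inv J' (fun Z => ρ (Θ Z)) t X → ∀ l, ∃ μ, Lm (Om (fun Z => ρ (Θ Z)) Ψ t l)
        (fun ζ => (X (Ψ (ζ, l))).1) (fun ζ => (X (Ψ (ζ, l))).2) μ t a (π * A * L / e * t) k := by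
  obtain ⟨L, tm, h1, h2⟩ := hole_lm hA he
  refine ⟨L, tm, h1, fun t ht t0 Λo Λx Λ' Jx J' K' Θ ρ ρ' Ψ P X D a cs zp k a0 a3 h h' hF hX => ?_⟩
  obtain ⟨Z, z1, z2⟩ := h.pt
  refine h2 t ht Λx Λ' Jx J' K' Θ _ Ψ P X A D a cs zp k Z a0 a3 le_rfl (h.proj h') h.cht h.can
    (z1.box h.N0) z2 (fun b m m0 m1 m2 => ?_) h'.amb h'.cht h'.can (fun W hW => ?_) hF hX
  · have g := z1.gen m0 m1 m2
    have b0 : 0 < b := lt_of_not_ge fun hb => by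
      nlinarith [abs_nonneg ((m.1 : ℝ) * Z.2.re - m.2 * Z.1.re), h.N0]
    rw [abs_sub_comm, div_le_iff₀ (by positivity)]
    linarith
  · have := h.lab W (Box_sub (by nlinarith) hW)
    simp only [h'.eq W hW]
    exact sig_ta h.ne zp fun e => by simp [e] at this

theorem tor_bound {f : ℝ × ℝ → E} (h : Tor f) {c : ℝ} (hc : ∀ x, π * nq (f x) < c) :
    ∃ r b : ℝ, 0 < r ∧ r < b ∧ π * b < c ∧ ∀ x, nq (f x) < r := by
  have hp : 0 < 2 * π := by positivity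
  obtain ⟨x₀, -, hx⟩ := (isCompact_Icc.prod isCompact_Icc : IsCompact
    (Icc (0 : ℝ) (2 * π) ×ˢ Icc (0 : ℝ) (2 * π))).exists_isMaxOn
    ⟨(0, 0), ⟨le_rfl, hp.le⟩, le_rfl, hp.le⟩ (f := fun x => nq (f x))
    (FA.contDiff_nq.continuous.comp h.sm.continuous).continuousOn
  have h1 : ∀ x, nq (f x) ≤ nq (f x₀) := fun x => by
    have a1 : Function.Periodic (fun t => f (t, x.2)) (2 * π) := fun t => by
      simpa using h.p1 (t, x.2)
    obtain ⟨t, ht, e1⟩ := a1.exists_mem_Ico₀ hp x.1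
    have a2 : Function.Periodic (fun u => f (t, u)) (2 * π) := fun u => by
      simpa using h.p2 (t, u)
    obtain ⟨u, hu, e2⟩ := a2.exists_mem_Ico₀ hp x.2
    have : f x = f (t, u) := e1.trans e2
    rw [this]
    exact hx (a := (t, u)) ⟨Ico_subset_Icc_self ht, Ico_subset_Icc_self hu⟩
  obtain ⟨b, b1, b2⟩ := exists_between ((lt_div_iff₀' pi_pos).2 (hc x₀))
  obtain ⟨r, r1, r2⟩ := exists_between b1
  exact ⟨r, b, (nq_nonneg _).trans_lt r1, r2, (lt_div_iff₀' pi_pos).1 b2,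
    fun x => (h1 x).trans_lt r1⟩

theorem dF_pb' {Λ : Form1 E} (hΛ : ContDiff ℝ ∞ Λ) {G : E → E} (hG : ContDiff ℝ ∞ G) (x u v : E) :
    dF (pb G Λ) x u v = dF Λ (G x) (fderiv ℝ G x u) (fderiv ℝ G x v) :=
  dF_pb (hG.of_le (by norm_cast)).contDiffAt (hΛ.differentiable (by simp) _) u v

theorem fd_comp {F G : E → E} (hF : ContDiff ℝ ∞ F) (hG : ContDiff ℝ ∞ G) (x v : E) :
    fderiv ℝ (fun x => F (G x)) x v = fderiv ℝ F (G x) (fderiv ℝ G x v) :=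
  DFunLike.congr_fun (fderiv_fun_comp x (hF.differentiable (by simp) _)
    (hG.differentiable (by simp) _)) v

theorem fd_inv {F G : E → E} (h : Dif F G) (x v : E) :
    fderiv ℝ F (G x) (fderiv ℝ G x v) = v := by
  rw [← fd_comp h.sm h.sm', funext h.right, fderiv_fun_id]
  rfl

theorem ball_of (h1 : FolStmt) (hP : ProjStmt) (hO : FolOf) (hG : TrivStmt) (hM : MasStmt)
    (h4 : FibStmt) {f : ℝ × ℝ → E} {lam : ℝ} (hl : 0 < lam) (hf : Tor f) (hm : IsMonotone f lam)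
    (hc : ∀ x, π * nq (f x) < 6 * lam) :
    HamIso (range f) (clifford lam) ∨ HamIso (range f) (chekanov lam) := by
  obtain ⟨r, b, r0, r1, r2, r3⟩ := tor_bound hf hc
  obtain ⟨β, e, k, b1, b2, b3, b4⟩ := chartU (U := {y | nq y < r}) hf hm
    (isOpen_lt FA.contDiff_nq.continuous continuous_const) r3
  have b0 := r0.trans r1
  obtain ⟨L, tm, l1, l2⟩ := leaf_lm b0 (half_pos b2)
  have l0 : 0 < L := by linarith
  obtain ⟨κ, k0, k1⟩ := neck_core (A := π * b * L / (e / 2)) (by positivity) k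
  obtain ⟨N1, δ, n0, d0, g1⟩ := hG κ k0
  obtain ⟨t, t1, t0, n2⟩ := k1 N1 δ tm n0 d0
  have n1 : 0 < 2 * (L * t) := by positivity
  obtain ⟨J, K, Θ, c1, c2, c3, c4, c5, c6⟩ := b4 _ n1
  obtain ⟨G, G', Λx, Jx, D, cs, zp, p1, p2⟩ := exists_prep h1 c1 n1 c3 c4 r0 r1 c2 c5
  rw [mul_div_cancel_left₀ _ two_ne_zero, ← div_div] at p2
  obtain ⟨Λ', J', K', ρ, ρ', q⟩ := hP _ _ _ _ _ _ _ _ _ t _ _ _ p2 t0 (by nlinarith)
  obtain ⟨ψ, ψ', q1, q2, q3⟩ := q.eqv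
  have hD := (q.dif.comp q1).comp p1.symm
  have q4 : ∀ x u v, dF Λ' (ρ (ψ (G' x))) (fderiv ℝ (fun x => ρ (ψ (G' x))) x u)
      (fderiv ℝ (fun x => ρ (ψ (G' x))) x v) = dF (fun x => lam0 x + β x) x u v := fun x u v => by
    have := q3 (G' x) (fderiv ℝ G' x u) (fderiv ℝ G' x v)
    rw [dF_pb' q.amb.smΛ q.dif.sm, dF_pb' c1.smΛ p1.sm, fd_inv p1, fd_inv p1, p1.right] at this
    have a1 := fd_comp (G := fun x => ψ (G' x)) q.dif.sm (q1.sm.comp p1.sm') x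
    rw [a1, a1, fd_comp q1.sm p1.sm', fd_comp q1.sm p1.sm', this]
  obtain ⟨Ψ, P, f1⟩ := hO _ _ _ _ _ _ ⟨c1.smΛ, c1.cpt.isBounded.exists_norm_le.elim fun S hS =>
    ⟨S + 1, fun x hx => c1.farΛ x fun h => by linarith [hS x h]⟩⟩ b1.tame q.amb hD q4
  obtain ⟨X, hX⟩ := q.cht.exists_inv
  obtain ⟨p, p', s, s', h, e1, e2, e3, e4⟩ := n2 Λ' J' _ Ψ P X _ _ q.amb.smΛ (by positivity) q.cht
    q.can f1 hX (l2 t t1 t0 _ _ _ _ _ _ _ _ _ _ _ _ _ _ _ _ _ (by positivity) (by linarith) p2 q f1 hX)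
  have hr : 0 < √(2 * lam / π) := by positivity
  have hr' : π * √(2 * lam / π) ^ 2 = 2 * lam := by
    rw [sq_sqrt (by positivity), mul_div_cancel₀ _ pi_ne_zero]
  obtain ⟨Φ, Φ', k', t1, t2, t3, t4⟩ := g1 _ _ K' _ Ψ P h _ hr q.amb f1 e2 e3 e4
  have t5 := t3.lin e1
  have u1 := hD.symm.comp t1
  have u2 : FibPos (pb (fun x => G (ψ' (ρ' (Φ x)))) fun x => lam0 x + β x) := fun x => by
    have := t2 x
    rw [dF_pb' q.amb.smΛ t1.sm] at this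
    rw [dF_pb' c1.smΛ u1.sm, ← q4, fd_comp hD.sm' t1.sm, fd_comp hD.sm' t1.sm, fd_inv hD, fd_inv hD,
      hD.right]
    exact this
  have t6 : ∀ x, G (ψ' (ρ' (Φ (std √(2 * lam / π) x)))) =
      f (p * (k' x).1 + p' * (k' x).2, s * (k' x).1 + s' * (k' x).2) := fun x => by
    have a1 := q2 _ ⟨lin p p' s s' ((k' x).1 * I, (k' x).2 * I), by constructor <;> simp [lin], rfl⟩
    beta_reduce at a1
    rw [t4, q.dif.left, ← a1, q1.left, p1.right, ← c6, lin]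
    push_cast
    congr 2 <;> ring
  obtain ⟨m1, m2, m3⟩ := hM f lam _ _ _ β _ hf hm hr u1 b1 (fun x => (b3 x).2) u2 t5 t6
  have t7 : (fun x => G (ψ' (ρ' (Φ x)))) '' Ls √(2 * lam / π) = range f := by
    rw [← range_std hr, ← range_comp]
    exact (congrArg range (funext t6)).trans (t5.surj.range_comp f)
  rw [← t7]
  refine h4 lam _ _ _ β hr hr' u1 b1 (fun y hy => ?_) u2 m1 m2 m3
  obtain ⟨x, hx⟩ : G (ψ' (ρ' (Φ y))) ∈ range f := t7 ▸ mem_image_of_mem _ hy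
  exact hx ▸ b3 x

end Pool.Agent.Lib.MP_7ed551_gt.Cy.Q
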