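import Pool.Agent.Lib.MP_7ed551_gt.Cy.Q.Pull

/-! A holomorphic normal field along the line. -/

open scoped ContDiff Topology
open Set Filter Metric MeasureTheory Real
open Complex (I)

noncomputable section

namespace Pool.Agent.Lib.MP_7ed551_gt.Cy.Q

open Pool.Agent.Lib.MP_ccffa6_gt
open FA (nq Pf Far)

variable {J : E → E →L[ℝ] E} {Θ X : E → E} {N : ℝ}

/-- The chart in multiplicative coordinates. -/
def Yl (Θ : E → E) (w : E) : E := Θ (Complex.log w.1, Complex.log w.2)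

/-- The normal field. -/
def nrm (J : E → E →L[ℝ] E) (cs : ℂ) (α β : ℂ → ℂ) (ζ : ℂ) : E :=
  (β ζ, 0) + (Complex.exp (α ζ)).re • ((0 : ℂ), (1 : ℂ)) +
    (Complex.exp (α ζ)).im • J (ζ, cs) (0, 1)

theorem Yl_exp_aux (hC : Cht J Θ N) {Z Z' : E} (h1 : Complex.exp Z.1 = Complex.exp Z'.1)
    (h2 : Complex.exp Z.2 = Complex.exp Z'.2) : Θ Z = Θ Z' := by
  obtain ⟨m, hm⟩ := Complex.exp_eq_exp_iff_exists_int.1 h1
  obtain ⟨n, hn⟩ := Complex.exp_eq_exp_iff_exists_int.1 h2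
  rw [← hC.per Z' m n]
  exact congrArg Θ (Prod.ext (by simp [hm, mul_comm]) (by simp [hn, mul_comm]))

theorem Yl_exp (hC : Cht J Θ N) (Z : E) : Yl Θ (Complex.exp Z.1, Complex.exp Z.2) = Θ Z :=
  Yl_exp_aux hC (Complex.exp_log (Complex.exp_ne_zero _)) (Complex.exp_log (Complex.exp_ne_zero _))

theorem Yl_near (hC : Cht J Θ N) {w₀ : E} (h1 : w₀.1 ≠ 0) (h2 : w₀.2 ≠ 0) :
    Yl Θ =ᶠ[𝓝 w₀] fun w => Θ (Complex.log w₀.1 + Complex.log (w.1 / w₀.1),
      Complex.log w₀.2 + Complex.log (w.2 / w₀.2)) := by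
  filter_upwards [continuousAt_fst.eventually_ne h1, continuousAt_snd.eventually_ne h2] with w a b
  refine Yl_exp_aux hC ?_ ?_ <;>
    simp [Complex.exp_add, Complex.exp_log, mul_div_cancel₀, a, b, h1, h2]

theorem Yl_smooth_aux {w₀ : E} (h1 : w₀.1 ≠ 0) (h2 : w₀.2 ≠ 0) :
    ContDiffAt ℂ ∞ (fun w : E => (Complex.log w₀.1 + Complex.log (w.1 / w₀.1),
      Complex.log w₀.2 + Complex.log (w.2 / w₀.2))) w₀ :=
  (contDiffAt_const.add ((Complex.contDiffAt_log (by simp [h1])).comp w₀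
    (contDiffAt_fst.div_const _))).prodMk (contDiffAt_const.add
      ((Complex.contDiffAt_log (by simp [h2])).comp w₀ (contDiffAt_snd.div_const _)))

theorem Yl_smooth (hC : Cht J Θ N) : ContDiffOn ℝ ∞ (Yl Θ) {w | w.1 ≠ 0 ∧ w.2 ≠ 0} :=
  fun w h => ((hC.sm.contDiffAt.comp w ((Yl_smooth_aux h.1 h.2).restrict_scalars ℝ)
    ).congr_of_eventuallyEq (Yl_near hC h.1 h.2)).contDiffWithinAt

theorem Yl_X (hC : Cht J Θ N) (hX : Inv J Θ N X) {y : E} (hy : y ∈ Θ '' Box N) :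
    Yl Θ (X y) = y ∧ ∀ v, fderiv ℝ (Yl Θ) (X y) (fderiv ℝ X y v) = v := by
  have e : ∀ y ∈ Θ '' Box N, Yl Θ (X y) = y := by
    rintro _ ⟨Z, hZ, rfl⟩
    rw [hX.eq Z hZ, Yl_exp hC]
  have h : (X y).1 ≠ 0 ∧ (X y).2 ≠ 0 := by
    obtain ⟨Z, hZ, rfl⟩ := hy
    simp [hX.eq Z hZ]
  exact ⟨e y hy, DFunLike.congr_fun (((((Yl_smooth hC).contDiffAt
    ((continuousAt_fst.eventually_ne h.1).and (continuousAt_snd.eventually_ne h.2))
    ).differentiableAt (by simp)).hasFDerivAt.comp y ((hX.sm.contDiffAt (hX.op.mem_nhds hy)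
    ).differentiableAt (by simp)).hasFDerivAt).unique ((hasFDerivAt_id y).congr_of_eventuallyEq
      (mem_of_superset (hX.op.mem_nhds hy) e)))⟩

theorem Yl_hol (hC : Cht J Θ N) {w : E} (h1 : w.1 ≠ 0) (h2 : w.2 ≠ 0)
    (h3 : |Real.log ‖w.1‖| < N) (h4 : |Real.log ‖w.2‖| < N) (v : E) :
    fderiv ℝ (Yl Θ) w (I • v) = J (Yl Θ w) (fderiv ℝ (Yl Θ) w v) := by
  rw [(((hC.sm.differentiable (by simp) _).hasFDerivAt.comp w
    (((Yl_smooth_aux h1 h2).differentiableAt (by simp)).hasFDerivAt.restrictScalars ℝ)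
    ).congr_of_eventuallyEq (Yl_near hC h1 h2)).fderiv]
  simp only [div_self h1, div_self h2, Complex.log_one, add_zero, ContinuousLinearMap.comp_apply,
    ContinuousLinearMap.coe_restrictScalars', map_smul]
  exact (hC.hol _ ⟨by rwa [Complex.log_re], by rwa [Complex.log_re]⟩ _).symm

theorem dbar_frame_aux1 {U T : Set ℂ} (hU : IsOpen U) (hT : IsCompact T) (h : T ⊆ U) {q : ℂ → ℂ}
    (hq : ContDiffOn ℝ ∞ q U) :
    ∃ s : ℂ → ℂ, ContDiff ℝ ∞ s ∧ HasCompactSupport s ∧ ∀ ζ ∈ T, dbar s ζ = q ζ := by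
  obtain ⟨g, g1, g2, -, g3⟩ := exists_smooth_nhdsSet hT.isClosed hU h hq
  obtain ⟨s, s1, s2, -, s3⟩ := exists_smooth_nhdsSet hT.isClosed isOpen_univ (subset_univ _)
    (contDiff_cT g1 (g3 hT)).contDiffOn
  refine ⟨s, s1, s3 hT, fun ζ hζ => ?_⟩
  have e : s =ᶠ[𝓝 ζ] cT g := s2.filter_mono (nhds_le_nhdsSet hζ)
  rw [← g2.self_of_nhdsSet ζ hζ, ← dbar_cT g1 (g3 hT), dbar, dbar, px, px, py, py, e.fderiv_eq]

theorem dbar_frame_aux2 {U : Set ℂ} (hU : IsOpen U) {f : ℂ → ℂ} (hf : ContDiffOn ℝ ∞ f U) :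
    ContDiffOn ℝ ∞ (dbar f) U :=
  have h : ∀ v, ContDiffOn ℝ ∞ (fun z => fderiv ℝ f z v) U := fun _ =>
    (hf.fderiv_of_isOpen hU (by simp)).clm_apply contDiffOn_const
  ((h 1).add (contDiffOn_const.mul (h I))).div_const 2

theorem dbar_frame_aux3 {α β t n : ℂ → ℂ} {z : ℂ} (hα : DifferentiableAt ℝ α z)
    (hβ : DifferentiableAt ℝ β z) (ht : DifferentiableAt ℂ t z) (hn : DifferentiableAt ℝ n z)
    (h : dbar β z * t z + Complex.exp (α z) * (dbar α z * n z + dbar n z) = 0) :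
    DifferentiableAt ℂ (fun ζ => β ζ * t ζ + Complex.exp (α ζ) * n ζ) z := by
  have d := (hβ.hasFDerivAt.fun_mul (ht.restrictScalars ℝ).hasFDerivAt).fun_add
    (hα.hasFDerivAt.cexp.fun_mul hn.hasFDerivAt)
  have e := dbar_of_differentiableAt ht
  refine differentiableAt_of_dbar d.differentiableAt ?_
  simp only [dbar, px, py] at h e ⊢
  rw [d.fderiv]
  simp only [add_apply, smul_apply, smul_eq_mul]
  linear_combination h + β z * e

theorem dbar_frame {U U' T : Set ℂ} (hU : IsOpen U) (hU' : IsOpen U') (hT : IsCompact T)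
    (h1 : U' ⊆ T) (h2 : T ⊆ U) {t n : ℂ → E} (ht : DifferentiableOn ℂ t U)
    (hn : ContDiffOn ℝ ∞ n U) (hd : ∀ ζ ∈ U, (t ζ).1 * (n ζ).2 - (t ζ).2 * (n ζ).1 ≠ 0) :
    ∃ α β : ℂ → ℂ, ContDiff ℝ ∞ α ∧ ContDiff ℝ ∞ β ∧ HasCompactSupport α ∧ HasCompactSupport β ∧
      DifferentiableOn ℂ (fun ζ => β ζ • t ζ + Complex.exp (α ζ) • n ζ) U' := by
  have t0 : ContDiffOn ℝ ∞ t U := (ht.contDiffOn hU).restrict_scalars ℝ
  have d1 := dbar_frame_aux2 hU hn.fst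
  have d2 := dbar_frame_aux2 hU hn.snd
  have δ := ((t0.fst.mul hn.snd).sub (t0.snd.mul hn.fst)).inv hd
  obtain ⟨α, a1, a2, a3⟩ := dbar_frame_aux1 hU hT h2
    (((t0.snd.mul d1).sub (t0.fst.mul d2)).mul δ)
  obtain ⟨β, b1, b2, b3⟩ := dbar_frame_aux1 hU hT h2
    (a1.contDiffOn.cexp.mul (((d2.mul hn.fst).sub (d1.mul hn.snd)).mul δ))
  refine ⟨α, β, a1, b1, a2, b2, fun ζ hζ => DifferentiableAt.differentiableWithinAt ?_⟩
  have m := hU.mem_nhds (h2 (h1 hζ))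
  have n0 := (hn.contDiffAt m).differentiableAt (by simp)
  have e := mul_inv_cancel₀ (hd ζ (h2 (h1 hζ)))
  refine (dbar_frame_aux3 (a1.differentiable (by simp) ζ) (b1.differentiable (by simp) ζ)
    (ht.differentiableAt m).fst n0.fst ?_).prodMk (dbar_frame_aux3 (a1.differentiable (by simp) ζ)
      (b1.differentiable (by simp) ζ) (ht.differentiableAt m).snd n0.snd ?_) <;>
    rw [a3 ζ (h1 hζ), b3 ζ (h1 hζ), Pi.inv_apply]
  · linear_combination -Complex.exp (α ζ) * dbar (fun x => (n x).1) ζ * e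
  · linear_combination -Complex.exp (α ζ) * dbar (fun x => (n x).2) ζ * e

theorem X_line (hX : Inv J Θ N X) (hl : ∀ x v, J x (v, 0) = (I * v, 0)) (cs : ℂ) :
    DifferentiableOn ℂ (fun ζ => X (ζ, cs)) {ζ | (ζ, cs) ∈ Θ '' Box N} :=
  fun ζ h => ((((hX.sm.contDiffAt (hX.op.mem_nhds h)).differentiableAt (by simp)).hasFDerivAt.comp
    ζ (hasFDerivAt_prodMk_left (𝕜 := ℝ) ζ cs)).hasFDerivWithinAt.complexOfReal
      (by simpa [hl] using hX.hol _ h (1, 0))).differentiableWithinAt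

theorem exists_nrm (hC : Cht J Θ N) (hX : Inv J Θ N X) (hN : 0 < N)
    (hl : ∀ x v, J x (v, 0) = (I * v, 0)) (cs : ℂ) :
    ∃ α β : ℂ → ℂ, ContDiff ℝ ∞ α ∧ ContDiff ℝ ∞ β ∧ HasCompactSupport α ∧ HasCompactSupport β ∧
      DifferentiableOn ℂ (fun ζ => fderiv ℝ X (ζ, cs) (nrm J cs α β ζ))
        {ζ | (ζ, cs) ∈ Θ '' Box (3 * N / 4)} := by
  have c : ContDiff ℝ ∞ fun ζ : ℂ => (ζ, cs) := contDiff_id.prodMk contDiff_const
  have hU := hX.op.preimage c.continuous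
  have h1 := X_line hX hl cs
  have sub : Θ '' {Z | |Z.1.re| ≤ 3 * N / 4 ∧ |Z.2.re| ≤ 3 * N / 4} ⊆ Θ '' Box N :=
    image_mono fun Z hZ => ⟨hZ.1.trans_lt (by linarith), hZ.2.trans_lt (by linarith)⟩
  have sub' : Θ '' Box (3 * N / 4) ⊆ _ := image_mono fun Z hZ => And.intro hZ.1.le hZ.2.le
  have key : ∀ ζ, (ζ, cs) ∈ Θ '' Box N → ∀ v : ℂ,
      fderiv ℝ X (ζ, cs) (v, 0) = v • deriv (fun ζ => X (ζ, cs)) ζ := fun ζ hζ v => by
    have d := ((hX.sm.contDiffAt (hX.op.mem_nhds hζ)).differentiableAt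
      (by simp)).hasFDerivAt.comp ζ (f := fun ζ => (ζ, cs)) (hasFDerivAt_prodMk_left ζ cs)
    exact DFunLike.congr_fun (d.unique
      ((h1.differentiableAt (hU.mem_nhds hζ)).hasDerivAt.hasFDerivAt.restrictScalars ℝ)) v
  obtain ⟨α, β, a1, b1, a2, b2, h⟩ := dbar_frame hU
    ((hC.isOpen_image (t := 3 * N / 4) (by linarith)).preimage c.continuous)
    (((hC.isCompact_image (3 * N / 4)).inter_right (isClosed_eq continuous_snd
      (continuous_const (y := cs)))).image continuous_fst)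
    (fun ζ hζ => ⟨_, ⟨sub' hζ, rfl⟩, rfl⟩) (by rintro _ ⟨⟨ζ, _⟩, ⟨h, rfl⟩, rfl⟩; exact sub h)
    (h1.deriv hU) (n := fun ζ => fderiv ℝ X (ζ, cs) (0, 1))
    (((hX.sm.fderiv_of_isOpen hX.op (by simp)).comp c.contDiffOn fun _ h => h).clm_apply
      contDiffOn_const) fun ζ hζ e => by
      have i : Function.Injective (fderiv ℝ X (ζ, cs)) :=
        Function.LeftInverse.injective (Yl_X hC hX hζ).2
      have k : ∀ v : ℂ, fderiv ℝ X (ζ, cs) (0, 1) ≠ v • deriv (fun ζ => X (ζ, cs)) ζ :=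
        fun v e => one_ne_zero (congrArg Prod.snd (i (e.trans (key ζ hζ v).symm)))
      have t0 := (key ζ hζ 1).symm
      generalize deriv (fun ζ => X (ζ, cs)) ζ = t at e k t0
      generalize fderiv ℝ X (ζ, cs) (0, 1) = n at e k
      by_cases h : t.1 = 0
      · have h' : t.2 ≠ 0 := fun h' => one_ne_zero (congrArg Prod.fst (i
          (t0.symm.trans ((Prod.ext (by simp [h]) (by simp [h'])).trans (map_zero _).symm))))
        refine k (n.2 / t.2) (Prod.ext ?_ (div_mul_cancel₀ _ h').symm)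
        rw [Prod.smul_fst, h, smul_zero]
        simpa [h, h'] using e
      · refine k (n.1 / t.1) (Prod.ext (div_mul_cancel₀ _ h).symm ?_)
        rw [Prod.smul_snd, smul_eq_mul, div_mul_eq_mul_div, eq_div_iff h]
        linear_combination e
  refine ⟨α, β, a1, b1, a2, b2, h.congr fun ζ hζ => ?_⟩
  rw [nrm, map_add, map_add, map_smul, map_smul, key ζ (sub (sub' hζ)), hX.hol _ (sub (sub' hζ)),
    add_assoc, ← Complex.coe_smul, ← Complex.coe_smul, smul_smul, ← add_smul, Complex.re_add_im]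

end Pool.Agent.Lib.MP_7ed551_gt.Cy.Q
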