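import Pool.Agent.Lib.MP_7ed551_gt.Cy.Q.Defs

/-! Radial forms. -/

open scoped ContDiff Topology
open Set Filter Metric MeasureTheory Real
open Complex (I)

noncomputable section

namespace Pool.Agent.Lib.MP_7ed551_gt.Cy.Q

open Pool.Agent.Lib.MP_ccffa6_gt
open FA (nq Pf Far)

variable {φ : ℝ → ℝ} {φ' A D : ℝ} {x : E}

theorem nq_nonneg (x : E) : 0 ≤ nq x := add_nonneg (sq_nonneg _) (sq_nonneg _)

theorem nq_pos {v : E} (hv : v ≠ 0) : 0 < nq v :=
  (pow_pos (norm_pos_iff.2 hv) 2).trans_le (FA.sq_norm_le v)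

theorem fderiv_nq (x u : E) : fderiv ℝ nq x u = 2 * ip x u := by
  have h : HasFDerivAt nq _ x :=
    (hasFDerivAt_fst (𝕜 := ℝ) (p := x)).norm_sq.add (hasFDerivAt_snd (𝕜 := ℝ) (p := x)).norm_sq
  rw [h.fderiv]
  simp [ip]
  ring

theorem ip_sq_le (x v : E) : ip x v ^ 2 + om x v ^ 2 ≤ nq x * nq v := by
  have := Complex.normSq_nonneg (x.1 * v.2 - x.2 * v.1)
  simp only [ip, om, w1, nq, Complex.sq_norm, Complex.normSq_apply, Complex.sub_re, Complex.sub_im,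
    Complex.mul_re, Complex.mul_im] at this ⊢
  linarith

theorem dF_rad (h : HasDerivAt φ φ' (nq x)) (u v : E) :
    dF (fun y => φ (nq y) • lam0 y) x u v =
      φ (nq x) * om u v + φ' * (ip x u * om x v - ip x v * om x u) := by
  have h1 : HasFDerivAt (fun y => φ (nq y)) _ x :=
    h.comp_hasFDerivAt x (FA.contDiff_nq.differentiable (by simp) x).hasFDerivAt
  rw [dF_smul h1.differentiableAt (contDiff_lam0.differentiable (by simp) x), h1.fderiv, dF_lam0]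
  simp only [lam0_apply, smul_apply, fderiv_nq, smul_eq_mul]
  ring

theorem dF_rad_J0 (h : HasDerivAt φ φ' (nq x)) (v : E) :
    dF (fun y => φ (nq y) • lam0 y) x v (J0 v) =
      φ (nq x) * nq v + φ' * (ip x v ^ 2 + om x v ^ 2) := by
  rw [dF_rad h, FA.om_J0]
  simp [ip, om, w1, J0_apply]
  left
  ring

theorem rad_tame (h : HasDerivAt φ φ' (nq x)) (h0 : 0 < φ (nq x))
    (h1 : 0 < φ (nq x) + nq x * φ') {v : E} (hv : v ≠ 0) :
    0 < dF (fun y => φ (nq y) • lam0 y) x v (J0 v) := by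
  rw [dF_rad_J0 h]
  have h2 := nq_pos hv
  rcases le_total 0 φ' with h3 | h3
  · positivity
  · nlinarith [mul_le_mul_of_nonpos_left (ip_sq_le x v) h3, mul_pos h1 h2]

theorem contDiff_fs (A : ℝ) (hD : 0 < D) : ContDiff ℝ ∞ (fs A D) :=
  (contDiff_const.div (FA.contDiff_nq.add contDiff_const) fun x =>
    (add_pos_of_nonneg_of_pos (nq_nonneg x) hD).ne').smul contDiff_lam0

theorem fs_lower_aux (A : ℝ) (hD : 0 < D) (x : E) :
    HasDerivAt (fun ρ => A / (ρ + D)) (-(A / (nq x + D) ^ 2)) (nq x) :=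
  ((hasDerivAt_const _ A).fun_div ((hasDerivAt_id' _).add_const D)
    (add_pos_of_nonneg_of_pos (nq_nonneg x) hD).ne').congr_deriv (by ring)

theorem fs_lower (hA : 0 ≤ A) (hD : 0 < D) (x v : E) :
    A * D / (nq x + D) ^ 2 * nq v ≤ dF (fs A D) x v (J0 v) := by
  have h := add_pos_of_nonneg_of_pos (nq_nonneg x) hD
  refine le_of_le_of_eq ?_ (dF_rad_J0 (fs_lower_aux A hD x) v).symm
  have := mul_le_mul_of_nonneg_left (ip_sq_le x v) (by positivity : 0 ≤ A / (nq x + D) ^ 2)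
  have e : A / (nq x + D) = A / (nq x + D) ^ 2 * (nq x + D) := by field_simp
  rw [e, mul_div_right_comm]
  linarith

theorem fs_upper (hA : 0 ≤ A) (hD : 0 < D) (x u v : E) :
    |dF (fs A D) x u v| ≤ 6 * A / (nq x + D) * (‖u‖ * ‖v‖) := by
  have h0 := nq_nonneg x
  have h := add_pos_of_nonneg_of_pos h0 hD
  have h1 := mul_le_mul (FA.nq_le u) (FA.nq_le v) (nq_nonneg v) (by positivity)
  have h2 : |om u v| ≤ 2 * (‖u‖ * ‖v‖) := abs_le_of_sq_le_sq
    (by nlinarith [ip_sq_le u v, sq_nonneg (ip u v)]) (by positivity)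
  have h3 : |ip x u * om x v - ip x v * om x u| ≤ nq x * (2 * (‖u‖ * ‖v‖)) := abs_le_of_sq_le_sq
    (by nlinarith [mul_le_mul (ip_sq_le x u) (ip_sq_le x v) (by positivity)
          (mul_nonneg h0 (nq_nonneg u)), mul_le_mul_of_nonneg_left h1 (sq_nonneg (nq x)),
        sq_nonneg (ip x u * ip x v + om x u * om x v)]) (by positivity)
  have e : A / (nq x + D) = A / (nq x + D) ^ 2 * (nq x + D) := by field_simp
  have h4 : 0 ≤ A / (nq x + D) ^ 2 := by positivity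
  rw [show dF (fs A D) x u v = _ from dF_rad (fs_lower_aux A hD x) u v, mul_div_assoc, e]
  refine (abs_add_le _ _).trans ?_
  rw [abs_mul, abs_mul _ (_ - _), abs_neg, abs_of_nonneg h4, abs_of_nonneg (mul_nonneg h4 h.le)]
  have h5 : 0 ≤ ‖u‖ * ‖v‖ := by positivity
  nlinarith [mul_le_mul_of_nonneg_left h2 (mul_nonneg h4 h.le), mul_le_mul_of_nonneg_left h3 h4,
    mul_nonneg (mul_nonneg h4 h0) h5, mul_nonneg (mul_nonneg h4 hD.le) h5]

theorem fs_sw (A D : ℝ) : pb sw (fs A D) = fs A D := by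
  funext x
  refine ContinuousLinearMap.ext fun v => ?_
  simp [pb, fs, lam0_apply, sw_apply, om, nq, add_comm]

theorem lam0_sw : pb sw lam0 = lam0 := by
  funext x
  refine ContinuousLinearMap.ext fun v => ?_
  simp [pb, lam0_apply, sw_apply, om, add_comm]

theorem exists_prof_aux {p q : ℝ} (h : p < q) : ∃ s : ℝ → ℝ, ContDiff ℝ ∞ s ∧
    (∀ t, t ≤ p → s t = 0) ∧ (∀ t, q ≤ t → s t = 1) ∧ (∀ t, 0 ≤ s t ∧ s t ≤ 1) ∧
    ∀ {f g : ℝ → ℝ} {f' g' ρ : ℝ}, HasDerivAt f f' ρ → HasDerivAt g g' ρ → 0 < f' → 0 < g' →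
      (p ≤ ρ → ρ ≤ q → f ρ ≤ g ρ) →
        ∃ h', 0 < h' ∧ HasDerivAt (fun t => f t + s t * (g t - f t)) h' ρ := by
  have hq := sub_pos.2 h
  obtain ⟨s, hs⟩ : ∃ s : ℝ → ℝ, s = fun t => smoothTransition ((t - p) / (q - p)) := ⟨_, rfl⟩
  have c : ContDiff ℝ ∞ s := hs ▸ smoothTransition.contDiff.comp (by fun_prop)
  have h0 : ∀ t, t ≤ p → s t = 0 := fun t ht => hs ▸
    smoothTransition.zero_of_nonpos (div_nonpos_of_nonpos_of_nonneg (sub_nonpos.2 ht) hq.le)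
  have h1 : ∀ t, q ≤ t → s t = 1 := fun t ht => hs ▸
    smoothTransition.one_of_one_le ((one_le_div hq).2 (sub_le_sub_right ht p))
  have h2 : ∀ t, 0 ≤ s t ∧ s t ≤ 1 := fun t =>
    hs ▸ ⟨smoothTransition.nonneg _, smoothTransition.le_one _⟩
  have h3 : Monotone s := hs ▸ smoothTransition.monotone.comp fun x y hxy =>
    div_le_div_of_nonneg_right (sub_le_sub_right hxy p) hq.le
  refine ⟨s, c, h0, h1, h2, fun {f g f' g' ρ} hf hg f0 g0 hle => ⟨_, ?_, hf.add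
    (((c.differentiable (by simp)) ρ).hasDerivAt.mul (hg.sub hf))⟩⟩
  have h4 : 0 ≤ deriv s ρ * (g ρ - f ρ) := by
    rcases lt_or_ge ρ p with hp | hp
    · rw [EventuallyEq.deriv_eq (f := fun _ => 0) ((eventually_lt_nhds hp).mono fun t ht =>
        h0 t ht.le), deriv_const, zero_mul]
    rcases lt_or_ge q ρ with hq | hq
    · rw [EventuallyEq.deriv_eq (f := fun _ => 1) ((eventually_gt_nhds hq).mono fun t ht =>
        h1 t ht.le), deriv_const, zero_mul]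
    exact mul_nonneg h3.deriv_nonneg (sub_nonneg.2 (hle hp hq))
  have h5 := lt_min f0 g0
  nlinarith [mul_le_mul_of_nonneg_left (min_le_left f' g') (sub_nonneg.2 (h2 ρ).2),
    mul_le_mul_of_nonneg_left (min_le_right f' g') (h2 ρ).1]

theorem exists_prof {a b : ℝ} (ha : 0 < a) (hab : a < b) : ∃ κ : ℝ, b ≤ κ ∧ ∀ D : ℝ, 1 ≤ D →
    ∃ φ : ℝ → ℝ, ContDiff ℝ ∞ φ ∧ (∀ ρ, ρ ≤ a → φ ρ = 1) ∧
      (∀ ρ, κ * D ≤ ρ → φ ρ = b / (ρ + D)) ∧
      ∀ ρ, 0 ≤ ρ → 0 < φ ρ ∧ 0 < φ ρ + ρ * deriv φ ρ := by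
  obtain ⟨d, hd, rfl⟩ : ∃ d, 0 < d ∧ b = a + 3 * d := ⟨(b - a) / 3, by linarith, by ring⟩
  obtain ⟨e, he, hde⟩ : ∃ e, 0 < e ∧ d * e = a + 2 * d :=
    ⟨(a + 2 * d) / d, by positivity, mul_div_cancel₀ _ hd.ne'⟩
  refine ⟨e + (a + 3 * d + 1), by linarith, fun D hD => ?_⟩
  have hD0 : 0 < D := by linarith
  have heD := mul_pos he hD0
  obtain ⟨s, c, s0, s1, s2, s3⟩ := exists_prof_aux (p := a) (q := a + d) (by linarith)
  obtain ⟨r, c', r0, r1, r2, r3⟩ := exists_prof_aux (p := e * D + a + d) (lt_add_one _)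
  obtain ⟨f, hf⟩ : ∃ f : ℝ → ℝ, f = fun t => a + 2 * d - d / (t + 1) := ⟨_, rfl⟩
  obtain ⟨g, hg⟩ : ∃ g : ℝ → ℝ, g = fun t => a + 3 * d - (a + 3 * d) * D / (t + D) := ⟨_, rfl⟩
  have f1 : ∀ t, 0 < t → a + d ≤ f t ∧ f t ≤ a + 2 * d := fun t ht => by
    have := div_le_self hd.le (show 1 ≤ t + 1 by linarith)
    have : 0 ≤ d / (t + 1) := by positivity
    rw [hf]
    constructor <;> linarith
  have g1 : ∀ t, 0 < t → g t = (a + 3 * d) * t / (t + D) := fun t ht => by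
    rw [hg]
    field_simp
    ring
  obtain ⟨φ, hφ⟩ : ∃ φ : ℝ → ℝ, φ = fun t => 1 + s t * ((f t + r t * (g t - f t)) / t - 1) :=
    ⟨_, rfl⟩
  have p1 : ∀ ρ, ρ ≤ a → φ ρ = 1 := fun ρ h => by simp only [hφ, s0 ρ h, zero_mul, add_zero]
  have p2 : ∀ ρ, ρ < a → φ =ᶠ[𝓝 ρ] fun _ => 1 := fun ρ h =>
    (eventually_lt_nhds h).mono fun t ht => p1 t ht.le
  have cφ : ContDiff ℝ ∞ φ := contDiff_iff_contDiffAt.2 fun ρ => by
    rcases lt_or_ge ρ a with h | h
    · exact contDiffAt_const.congr_of_eventuallyEq (p2 ρ h)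
    have := ha.trans_le h
    have := c.contDiffAt (x := ρ)
    have := c'.contDiffAt (x := ρ)
    rw [hφ, hf, hg]
    fun_prop (disch := positivity)
  refine ⟨φ, cφ, p1, fun ρ h => ?_, fun ρ h0 => ?_⟩
  · have h1 : e * D + (a + 3 * d + 1) ≤ ρ := by nlinarith
    have h2 : 0 < ρ := by linarith
    simp only [hφ, s1 ρ (by linarith), r1 ρ (by linarith), g1 ρ h2]
    field_simp
    ring
  rcases lt_or_ge ρ a with h | h
  · rw [(p2 ρ h).deriv_eq, p1 ρ h.le]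
    simp
  have h1 := ha.trans_le h
  constructor
  · have h2 : 0 < g ρ := by rw [g1 ρ h1]; positivity
    have h3 := lt_min (show 0 < f ρ by linarith [(f1 ρ h1).1]) h2
    have h4 : 0 < (f ρ + r ρ * (g ρ - f ρ)) / ρ := div_pos (by
      nlinarith [mul_le_mul_of_nonneg_left (min_le_left (f ρ) (g ρ)) (sub_nonneg.2 (r2 ρ).2),
        mul_le_mul_of_nonneg_left (min_le_right (f ρ) (g ρ)) (r2 ρ).1]) h1
    rw [hφ]
    rcases (s2 ρ).2.eq_or_lt with h5 | h5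
    · simpa [h5] using h4
    · nlinarith [mul_nonneg (s2 ρ).1 h4.le]
  have df : HasDerivAt f (d / (ρ + 1) ^ 2) ρ := by
    have := (((hasDerivAt_id' ρ).add_const 1).fun_inv (by positivity)).const_mul d
    rw [hf]
    exact (this.const_sub (a + 2 * d)).congr_deriv (by ring)
  have dg : HasDerivAt g ((a + 3 * d) * D / (ρ + D) ^ 2) ρ := by
    have := (((hasDerivAt_id' ρ).add_const D).fun_inv (by positivity)).const_mul ((a + 3 * d) * D)
    rw [hg]
    exact (this.const_sub (a + 3 * d)).congr_deriv (by ring)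
  obtain ⟨m, m0, hm⟩ := r3 df dg (by positivity) (by positivity) fun h2 _ => by
    rw [g1 ρ h1, le_div_iff₀ (by positivity)]
    nlinarith [(f1 ρ h1).2, mul_le_mul_of_nonneg_left h2 hd.le]
  obtain ⟨n, n0, hn⟩ := s3 (hasDerivAt_id' ρ) hm one_pos m0 fun _ h2 => by
    simp only [r0 ρ (by linarith), zero_mul, add_zero]
    linarith [(f1 ρ h1).1]
  have h2 := (hasDerivAt_id' ρ).fun_mul ((cφ.differentiable (by simp)) ρ).hasDerivAt
  rw [one_mul] at h2
  rw [h2.unique (hn.congr_of_eventuallyEq ((eventually_gt_nhds h1).mono fun t ht => ?_))]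
  · exact n0
  · simp only [hφ]
    field_simp

theorem exists_hat {Λ : Form1 E} {J : E → E →L[ℝ] E} {K : Set E} (hA : Amb Λ J K) {a b : ℝ}
    (ha : 0 < a) (hab : a < b) (hK : ∀ x ∈ K, nq x < a) : ∃ κ : ℝ, b ≤ κ ∧ ∀ D : ℝ, 1 ≤ D →
    ∃ Λh : Form1 E, ContDiff ℝ ∞ Λh ∧ Tm Λh J ∧ (∀ x, nq x ≤ a → Λh x = Λ x) ∧
      ∀ x, κ * D ≤ nq x → Λh x = fs b D x := by
  obtain ⟨κ, hκ, h⟩ := exists_prof ha hab
  refine ⟨κ, hκ, fun D hD => ?_⟩
  obtain ⟨φ, c, h1, h2, h3⟩ := h D hD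
  have e1 : ∀ x, nq x ≤ a → Λ x + (φ (nq x) - 1) • lam0 x = Λ x := fun x hx => by
    rw [h1 _ hx, sub_self, zero_smul, add_zero]
  have e2 : ∀ x, x ∉ K → Λ x + (φ (nq x) - 1) • lam0 x = φ (nq x) • lam0 x := fun x hx => by
    rw [hA.farΛ x hx]
    refine ContinuousLinearMap.ext fun v => ?_
    simp only [add_apply, smul_apply, smul_eq_mul]
    ring
  refine ⟨fun x => Λ x + (φ (nq x) - 1) • lam0 x,
    hA.smΛ.add (((c.comp FA.contDiff_nq).sub contDiff_const).smul contDiff_lam0),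
    fun x v hv => ?_, e1, fun x hx => ?_⟩
  · by_cases hx : x ∈ K
    · rw [dF_apply, EventuallyEq.fderiv_eq (f := Λ) (((FA.contDiff_nq.continuous.tendsto x).eventually
        (eventually_lt_nhds (hK x hx))).mono fun y hy => e1 y hy.le), ← dF_apply]
      exact hA.tame x v hv
    · rw [dF_apply, EventuallyEq.fderiv_eq (f := fun y => φ (nq y) • lam0 y)
        (mem_of_superset (hA.cpt.isClosed.isOpen_compl.mem_nhds hx) e2), ← dF_apply, hA.farJ x hx]
      exact rad_tame ((c.differentiable (by simp)) _).hasDerivAt (h3 _ (nq_nonneg x)).1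
        (h3 _ (nq_nonneg x)).2 hv
  · refine (e2 x fun h => ?_).trans (by rw [h2 _ hx, fs])
    nlinarith [hK x h]

end Pool.Agent.Lib.MP_7ed551_gt.Cy.Q
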