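import Pool.Agent.Lib.MP_7ed551_gt.Cy.Q.Pull
import Pool.Agent.Lib.MP_7ed551_gt.Cy.Q.Rad

/-! The projective maps. -/

open scoped ContDiff Topology
open Set Filter Metric Real
open Complex (I)

noncomputable section

namespace Pool.Agent.Lib.MP_7ed551_gt.Cy.Q

open Pool.Agent.Lib.MP_ccffa6_gt
open FA (nq Pf Far)

variable {cs zp : ℂ} {s R : ℝ} {x y : E}

/-- The velocity field of the projective maps. -/
def vel (cs zp : ℂ) (p : ℝ × E) : E := (p.2.1 / cs) • p.2 - (0, zp * mm cs p.1 p.2)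

theorem contDiff_mm_aux : ContDiff ℝ ∞ fun p : ℝ × E => (p.1 : ℂ) :=
  Complex.ofRealCLM.contDiff.comp contDiff_fst

theorem contDiff_mm (cs : ℂ) : ContDiff ℝ ∞ fun p : ℝ × E => mm cs p.1 p.2 := by
  have := contDiff_mm_aux
  unfold mm
  fun_prop

theorem contDiff_ll (cs : ℂ) : ContDiff ℝ ∞ fun p : ℝ × E => ll cs p.1 p.2 := by
  have := contDiff_mm_aux
  unfold ll
  fun_prop

theorem contDiff_TT (cs zp : ℂ) : ContDiff ℝ ∞ fun p : ℝ × E => TT cs zp p.1 p.2 := by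
  have := contDiff_mm_aux
  have := contDiff_mm cs
  unfold TT
  fun_prop

theorem contDiff_vel (cs zp : ℂ) : ContDiff ℝ ∞ (vel cs zp) := by
  have := contDiff_mm cs
  unfold vel
  fun_prop

theorem contDiffAt_sg (zp : ℂ) {p : ℝ × E} (h : mm cs p.1 p.2 ≠ 0) :
    ContDiffAt ℝ ∞ (fun q : ℝ × E => sg cs zp q.1 q.2) p := by
  exact ((contDiff_mm cs).contDiffAt.inv h).smul (contDiff_TT cs zp).contDiffAt

theorem contDiffAt_sg' (zp : ℂ) (h : mm cs s y ≠ 0) : ContDiffAt ℝ ∞ (sg cs zp s) y := by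
  exact (contDiffAt_sg zp (p := (s, y)) h).comp y (contDiffAt_const.prodMk contDiffAt_id)

theorem contDiffAt_ta (zp : ℂ) (h : ll cs s x ≠ 0) : ContDiffAt ℝ ∞ (ta cs zp s) x := by
  exact (((contDiff_ll cs).comp (contDiff_prodMk_right s)).contDiffAt.inv h).smul (by fun_prop)

theorem fderiv_mm_aux (cs : ℂ) (s : ℝ) (y : E) :
    HasFDerivAt (mm cs s) ((s / cs : ℂ) • ContinuousLinearMap.fst ℝ ℂ ℂ) y :=
  ((hasFDerivAt_fst.const_mul (s / cs : ℂ)).const_add 1).congr_of_eventuallyEq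
    (.of_forall fun y => by rw [mm, mul_div_right_comm])

theorem fderiv_mm (cs : ℂ) (s : ℝ) (y v : E) : fderiv ℝ (mm cs s) y v = s * v.1 / cs := by
  rw [(fderiv_mm_aux cs s y).fderiv]
  simp [mul_div_right_comm]

theorem fderiv_ll (cs : ℂ) (s : ℝ) (y v : E) : fderiv ℝ (ll cs s) y v = -(s * v.1 / cs) := by
  rw [show ll cs s = fun y => 2 - mm cs s y from funext fun y => by rw [ll, mm]; ring,
    fderiv_const_sub, neg_apply, fderiv_mm]

theorem fderiv_TT_aux (cs zp : ℂ) (s : ℝ) (y : E) : HasFDerivAt (TT cs zp s)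
    ((ContinuousLinearMap.fst ℝ ℂ ℂ).prod (ContinuousLinearMap.snd ℝ ℂ ℂ +
      (s * zp : ℂ) • (s / cs : ℂ) • ContinuousLinearMap.fst ℝ ℂ ℂ)) y :=
  hasFDerivAt_fst.prodMk (hasFDerivAt_snd.add ((fderiv_mm_aux cs s y).const_mul _))

theorem fderiv_TT (cs zp : ℂ) (s : ℝ) (y v : E) :
    fderiv ℝ (TT cs zp s) y v = (v.1, v.2 + s * zp * (s * v.1 / cs)) := by
  rw [(fderiv_TT_aux cs zp s y).fderiv]
  simp [mul_div_right_comm]

theorem fderiv_sg (zp : ℂ) (h : mm cs s y ≠ 0) (v : E) : fderiv ℝ (sg cs zp s) y v =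
    (mm cs s y)⁻¹ • ((v.1, v.2 + s * zp * (s * v.1 / cs)) - (s * v.1 / cs) • sg cs zp s y) := by
  refine (DFunLike.congr_fun ((((hasDerivAt_inv h).hasFDerivAt.restrictScalars ℝ).comp y
    (fderiv_mm_aux cs s y)).fun_smul (fderiv_TT_aux cs zp s y)).fderiv v).trans ?_
  ext <;> simp [sg] <;> field_simp <;> ring

theorem fderiv_sg_fst (zp : ℂ) (h : mm cs s y ≠ 0) (v : E) :
    (fderiv ℝ (sg cs zp s) y v).1 = v.1 / mm cs s y ^ 2 := by
  rw [fderiv_sg zp h]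
  simp only [sg, TT, Prod.smul_fst, Prod.fst_sub, smul_eq_mul]
  have e : (s : ℂ) * y.1 / cs = mm cs s y - 1 := by rw [mm]; ring
  field_simp
  linear_combination (-v.1) * e

theorem fderiv_sg_J0 (zp : ℂ) (h : mm cs s y ≠ 0) (v : E) :
    fderiv ℝ (sg cs zp s) y (J0 v) = J0 (fderiv ℝ (sg cs zp s) y v) := by
  rw [fderiv_sg zp h, fderiv_sg zp h, J0_apply, J0_apply]
  ext <;> simp <;> ring

theorem fderiv_sg_inv (zp : ℂ) (h : mm cs s y ≠ 0) : (fderiv ℝ (sg cs zp s) y).IsInvertible := by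
  refine cay_invertible ((injective_iff_map_eq_zero _).2 fun v e => ?_)
  have e1 := fderiv_sg_fst zp h v
  rw [e, eq_comm, Prod.fst_zero, div_eq_zero_iff, or_iff_left (pow_ne_zero _ h)] at e1
  rw [fderiv_sg zp h, e1] at e
  exact Prod.ext e1 (by simpa [h] using e)

theorem ll_sg (zp : ℂ) (h : mm cs s y ≠ 0) : ll cs s (sg cs zp s y) = (mm cs s y)⁻¹ := by
  have e := inv_mul_cancel₀ h
  simp only [ll, sg, TT, Prod.smul_fst, smul_eq_mul]
  rw [mm] at e ⊢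
  linear_combination -e

theorem ta_sg (zp : ℂ) (h : mm cs s y ≠ 0) : ta cs zp s (sg cs zp s y) = y := by
  rw [ta, ll_sg zp h, inv_inv]
  refine Prod.ext ?_ ?_ <;> simp only [sg, TT, Prod.smul_fst, Prod.smul_snd, smul_eq_mul] <;>
    field_simp
  ring

theorem mm_ta (zp : ℂ) (h : ll cs s x ≠ 0) : mm cs s (ta cs zp s x) = (ll cs s x)⁻¹ := by
  have e := inv_mul_cancel₀ h
  simp only [mm, ta, Prod.smul_fst, smul_eq_mul]
  rw [ll] at e ⊢
  linear_combination -e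

theorem sg_ta (zp : ℂ) (h : ll cs s x ≠ 0) : sg cs zp s (ta cs zp s x) = x := by
  rw [sg, TT, mm_ta zp h, inv_inv]
  refine Prod.ext ?_ ?_ <;> simp only [ta, Prod.smul_fst, Prod.smul_snd, smul_eq_mul] <;>
    field_simp
  ring

theorem mm_zero (cs : ℂ) (y : E) : mm cs 0 y = 1 := by
  simp [mm]

theorem sg_zero (cs zp : ℂ) : sg cs zp 0 = id := by
  funext y
  simp [sg, TT, mm_zero]

theorem TT_zero (cs zp : ℂ) : TT cs zp 0 = id := by
  funext y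
  simp [TT]

theorem ta_zero (cs zp : ℂ) (x : E) : ta cs zp 0 x = x := by
  simp [ta, ll]

theorem mm_lower (h : mm cs s y ≠ 0) (hR : ‖sg cs zp s y‖ ≤ R) :
    1 ≤ ‖mm cs s y‖ * (1 + |s| * R / ‖cs‖) := by
  have h1 : ‖ll cs s (sg cs zp s y)‖ ≤ 1 + |s| * R / ‖cs‖ := by
    refine (norm_sub_le _ _).trans ?_
    rw [norm_one, norm_div, norm_mul, Complex.norm_real, Real.norm_eq_abs]
    gcongr
    exact (norm_fst_le _).trans hR
  rw [ll_sg zp h, norm_inv] at h1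
  exact (inv_le_iff_one_le_mul₀' (norm_pos_iff.2 h)).1 h1

theorem norm_le_mm (hs : s ∈ Icc (0 : ℝ) 1) (h : mm cs s y ≠ 0) (hR : ‖sg cs zp s y‖ ≤ R) :
    ‖y‖ ≤ ‖mm cs s y‖ * (R + ‖zp‖) := by
  have h1 := congrArg norm (ta_sg zp h)
  rw [ta, ll_sg zp h, inv_inv, norm_smul] at h1
  rw [← h1]
  refine mul_le_mul_of_nonneg_left (max_le ?_ ((norm_sub_le _ _).trans ?_)) (norm_nonneg _)
  · exact ((norm_fst_le _).trans hR).trans (le_add_of_nonneg_right (norm_nonneg _))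
  · rw [norm_mul, Complex.norm_real, Real.norm_of_nonneg hs.1]
    exact add_le_add ((norm_snd_le _).trans hR) (mul_le_of_le_one_left (norm_nonneg _) hs.2)

theorem norm_fderiv_sg (hs : s ∈ Icc (0 : ℝ) 1) (h : mm cs s y ≠ 0) (hR : ‖sg cs zp s y‖ ≤ R)
    (v : E) : ‖fderiv ℝ (sg cs zp s) y v‖ ≤ (1 + (‖zp‖ + R) / ‖cs‖) / ‖mm cs s y‖ * ‖v‖ := by
  have h1 : ‖(s : ℂ)‖ ≤ 1 := by rw [Complex.norm_real, Real.norm_of_nonneg hs.1]; exact hs.2
  have h2 : ‖s * v.1 / cs‖ ≤ ‖v‖ / ‖cs‖ := by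
    rw [norm_div, norm_mul]
    gcongr
    exact (mul_le_of_le_one_left (norm_nonneg _) h1).trans (norm_fst_le _)
  have h3 : ‖s * zp * (s * v.1 / cs)‖ ≤ ‖zp‖ * (‖v‖ / ‖cs‖) := by
    rw [norm_mul, norm_mul]
    gcongr
    exact mul_le_of_le_one_left (norm_nonneg _) h1
  have h4 : ‖((v.1, v.2 + s * zp * (s * v.1 / cs)) : E)‖ ≤ ‖v‖ + ‖zp‖ * (‖v‖ / ‖cs‖) :=
    max_le ((norm_fst_le v).trans (le_add_of_nonneg_right ((norm_nonneg _).trans h3)))
      ((norm_add_le _ _).trans (add_le_add (norm_snd_le v) h3))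
  have h5 : ‖(s * v.1 / cs) • sg cs zp s y‖ ≤ ‖v‖ / ‖cs‖ * R := by
    rw [norm_smul]
    gcongr
  rw [fderiv_sg zp h, norm_smul, norm_inv]
  refine (mul_le_mul_of_nonneg_left ((norm_sub_le _ _).trans (add_le_add h4 h5))
    (by positivity)).trans_eq (by ring)

theorem norm_mm_le (hs : s ∈ Icc (0 : ℝ) 1) (y : E) : ‖mm cs s y‖ ≤ 1 + ‖y.1‖ / ‖cs‖ := by
  refine (norm_add_le _ _).trans ?_
  rw [norm_one, norm_div, norm_mul, Complex.norm_real, Real.norm_of_nonneg hs.1]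
  gcongr
  exact mul_le_of_le_one_left (norm_nonneg _) hs.2

theorem sg_sub (zp : ℂ) (hc : cs ≠ 0) (h : mm cs 1 y ≠ 0) :
    (sg cs zp 1 y).1 - cs = -cs / mm cs 1 y := by
  have e := ll_sg zp h
  rw [ll, Complex.ofReal_one, one_mul] at e
  rw [div_eq_mul_inv, ← e]
  field_simp
  ring

theorem ll_slit_aux (hs : s ∈ Icc (0 : ℝ) 1) (cs : ℂ) (x : E) :
    ‖s * x.1 / cs‖ ≤ ‖x.1‖ / ‖cs‖ := by
  rw [norm_div, norm_mul, Complex.norm_of_nonneg hs.1]
  exact div_le_div_of_nonneg_right (mul_le_of_le_one_left (norm_nonneg _) hs.2) (norm_nonneg _)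

theorem ll_slit (hs : s ∈ Icc (0 : ℝ) 1) (hx : ‖x.1‖ < ‖cs‖) : ll cs s x ∈ Complex.slitPlane := by
  rw [ll, sub_eq_add_neg]
  exact Complex.mem_slitPlane_of_norm_lt_one ((norm_neg _).trans_lt ((ll_slit_aux hs cs x).trans_lt
    ((div_lt_one ((norm_nonneg _).trans_lt hx)).2 hx)))

theorem hd_ta (zp : ℂ) (h : ll cs s x ≠ 0) :
    HasDerivAt (fun s => ta cs zp s x) (vel cs zp (s, ta cs zp s x)) s := by
  have h0 : HasDerivAt (fun s : ℝ => (s : ℂ)) 1 s := Complex.ofRealCLM.hasDerivAt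
  have h1 : HasDerivAt (fun s => ll cs s x) _ s := ((h0.mul_const x.1).div_const cs).const_sub 1
  refine ((h1.inv h).smul ((hasDerivAt_const s x.1).prodMk
    ((h0.mul_const zp).const_sub x.2))).congr_deriv ?_
  rw [vel, mm_ta zp h]
  refine Prod.ext ?_ ?_ <;> simp [ta] <;> field_simp
  ring

theorem norm_ta_le (zp : ℂ) {r : ℝ} (hr : r < ‖cs‖) (hs : s ∈ Icc (0 : ℝ) 1) (hx : ‖x.1‖ ≤ r)
    (hR : ‖x‖ ≤ R) : ‖ta cs zp s x‖ ≤ (R + ‖zp‖) / (1 - r / ‖cs‖) := by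
  have h0 : 0 < ‖cs‖ := ((norm_nonneg _).trans hx).trans_lt hr
  have h1 : 1 - r / ‖cs‖ ≤ ‖ll cs s x‖ := by
    have := norm_sub_norm_le (1 : ℂ) (s * x.1 / cs)
    rw [norm_one] at this
    exact (sub_le_sub_left ((ll_slit_aux hs cs x).trans (by gcongr)) 1).trans this
  have h2 : ‖(x.1, x.2 - s * zp)‖ ≤ R + ‖zp‖ := by
    refine norm_prod_le_iff.2 ⟨le_add_of_le_of_nonneg ((norm_fst_le x).trans hR) (norm_nonneg _),
      (norm_sub_le _ _).trans (add_le_add ((norm_snd_le x).trans hR) ?_)⟩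
    rw [norm_mul, Complex.norm_of_nonneg hs.1]
    exact mul_le_of_le_one_left (norm_nonneg _) hs.2
  rw [ta, norm_smul, norm_inv, inv_mul_eq_div]
  exact div_le_div₀ ((norm_nonneg _).trans h2) h2 (sub_pos.2 ((div_lt_one h0).2 hr)) h1

/-- Extension across the zeros of `m` by a constant. -/
theorem contDiff_ite {X F : Type} [NormedAddCommGroup X] [NormedSpace ℝ X] [NormedAddCommGroup F]
    [NormedSpace ℝ F] {m : X → ℂ} (hm : Continuous m) {f : X → F} {c : F}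
    (h1 : ∀ p, m p ≠ 0 → ContDiffAt ℝ ∞ f p) (h2 : ∀ p, m p = 0 → ∀ᶠ q in 𝓝 p, m q ≠ 0 → f q = c) :
    ContDiff ℝ ∞ fun p => if m p = 0 then c else f p := by
  refine contDiff_iff_contDiffAt.2 fun p => ?_
  by_cases h : m p = 0
  · exact contDiffAt_const.congr_of_eventuallyEq ((h2 p h).mono fun q hq => ite_eq_left_iff.2 hq)
  · exact (h1 p h).congr_of_eventuallyEq
      ((hm.continuousAt.eventually_ne h).mono fun q hq => if_neg hq)

theorem sg_far (zp : ℂ) (R : ℝ) {p : ℝ × E} (h : mm cs p.1 p.2 = 0) :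
    ∀ᶠ q : ℝ × E in 𝓝 p, mm cs q.1 q.2 ≠ 0 → R < ‖sg cs zp q.1 q.2‖ := by
  have hc : Continuous fun q : ℝ × E => ‖mm cs q.1 q.2‖ * (1 + |q.1| * R / ‖cs‖) :=
    (contDiff_mm cs).continuous.norm.mul (by fun_prop)
  exact (hc.continuousAt.eventually_lt continuousAt_const (g := fun _ => 1) (by simp [h])).mono
    fun q hq h0 => not_le.1 fun hR => (mm_lower h0 hR).not_gt hq

theorem sg_far' (zp : ℂ) (R : ℝ) (h : mm cs s y = 0) :
    ∀ᶠ z in 𝓝 y, mm cs s z ≠ 0 → R < ‖sg cs zp s z‖ := by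
  exact ((Continuous.prodMk_right s).tendsto y).eventually (sg_far zp R (p := (s, y)) h)

end Pool.Agent.Lib.MP_7ed551_gt.Cy.Q
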