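import Pool.Agent.Lib.MP_7ed551_gt.Cy.Q.PZ

/-! Capping a family of forms. -/

open scoped ContDiff Topology
open Set Filter Metric Real
open Complex (I)

noncomputable section

namespace Pool.Agent.Lib.MP_7ed551_gt.Cy.Q

open Pool.Agent.Lib.MP_ccffa6_gt
open FA (nq Pf Far)

variable {L : ℝ × E → E →L[ℝ] ℝ} {R : ℝ}

/-- `G` is a nondegenerate family which agrees with `L` on the ball of radius `R`. -/
structure Cap (L G : ℝ × E → E →L[ℝ] ℝ) (R : ℝ) : Prop where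
  sm : ContDiff ℝ ∞ G
  eq : ∀ s y, ‖y‖ ≤ R → G (s, y) = L (s, y)
  nd : ∀ s ∈ Icc (0 : ℝ) 1, ∀ y, Pf (dF (fun z => G (s, z)) y) ≠ 0
  tm : ∀ s ∈ Icc (0 : ℝ) 1, ∀ J : E → E →L[ℝ] E, Tm (fun z => L (s, z)) J →
    (∀ y, R ≤ ‖y‖ → J y = J0) → Tm (fun z => G (s, z)) J

theorem exists_eta {a : ℝ} (ha : 0 < a) (b : ℝ) : ∃ (η : Form1 E) (c : E → ℝ), ContDiff ℝ ∞ η ∧
    (∃ M : ℝ, ∀ y, ‖η y‖ ≤ M) ∧ (∀ y u v, dF η y u v = c y * w1 u.1 v.1) ∧ (∀ y, 0 ≤ c y) ∧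
    (∀ y : E, ‖y.1‖ ≤ a → η y = 0 ∧ c y = 0) ∧
    ∀ y : E, a + 1 ≤ ‖y.1‖ → ‖y.1‖ ≤ b → c y = 1 := by
  obtain ⟨c, hc, hk, h0, hl, hm⟩ := FA.exists_outer (a := a ^ 2) (b := (a + 1) ^ 2)
    (by nlinarith) (b ^ 2) zero_le_one
  obtain ⟨η, h⟩ := FA.exists_rad hc hk
  obtain ⟨M, hM⟩ := h.bd
  have hf : ∀ y : E, fderiv ℝ (Prod.fst : E → ℂ) y = ContinuousLinearMap.fst ℝ ℂ ℂ :=
    fun y => fderiv_fst
  have hq : ∀ z : ℂ, ‖z‖ ≤ a → ‖z‖ ^ 2 ≤ a ^ 2 := fun z hz =>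
    pow_le_pow_left₀ (norm_nonneg _) hz 2
  have h1 : ∀ z : ℂ, z ≠ 0 → ‖z‖ ≤ a → η z = 0 := by
    intro z hz hza
    refine ContinuousLinearMap.ext fun v => ?_
    have e := h.val z v
    have e0 : ∫ y in (0 : ℝ)..‖z‖ ^ 2, c y = 0 := by
      rw [intervalIntegral.integral_congr (g := fun _ => 0), intervalIntegral.integral_zero]
      intro y hy
      rw [uIcc_of_le (sq_nonneg _)] at hy
      exact hl y (hy.2.trans (hq z hza))
    rw [e0, zero_mul, zero_div] at e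
    exact (mul_eq_zero.1 e).resolve_left (pow_ne_zero _ (norm_ne_zero_iff.2 hz))
  have h2 : ∀ z : ℂ, ‖z‖ ≤ a → η z = 0 := by
    intro z hza
    by_cases hz : z = 0
    · subst hz
      refine tendsto_nhds_unique_of_eventuallyEq (l := 𝓝[≠] 0)
        (h.sm.continuous.continuousAt.mono_left nhdsWithin_le_nhds) tendsto_const_nhds ?_
      filter_upwards [self_mem_nhdsWithin, nhdsWithin_le_nhds (closedBall_mem_nhds (0 : ℂ) ha)]
        with w hw hw'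
      exact h1 w hw (mem_closedBall_zero_iff.1 hw')
    · exact h1 z hz hza
  refine ⟨pb Prod.fst η, fun y => c (‖y.1‖ ^ 2), contDiff_pb contDiff_fst h.sm,
    ⟨M, fun y => ?_⟩, fun y u v => ?_, fun y => h0 _, fun y hy => ⟨?_, hl _ (hq _ hy)⟩,
    fun y hy hb => hm _ ⟨pow_le_pow_left₀ (by positivity) hy 2,
      pow_le_pow_left₀ (norm_nonneg _) hb 2⟩⟩
  · rw [pb, hf]
    refine (ContinuousLinearMap.opNorm_comp_le _ _).trans ?_
    exact (mul_le_of_le_one_right (norm_nonneg _)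
      (ContinuousLinearMap.norm_fst_le ℝ ℂ ℂ)).trans (hM _)
  · rw [dF_pb contDiffAt_fst (h.sm.differentiable (by simp) _), hf, h.d]
    rfl
  · rw [pb, h2 _ hy, ContinuousLinearMap.zero_comp]

theorem exists_theta {a : ℝ} (ha : 0 < a) : ∃ (θ : Form1 E) (b : ℝ), ContDiff ℝ ∞ θ ∧ a ≤ b ∧
    (∀ y, ‖y‖ ≤ a → θ y = 0 ∧ dF θ y = 0) ∧ (∀ y v, 0 ≤ dF θ y v (J0 v)) ∧
    ∀ y, b ≤ ‖y‖ → θ y = lam0 y ∧ ∀ v, dF θ y v (J0 v) = nq v := by
  have hs : ContDiff ℝ ∞ fun ρ : ℝ => smoothTransition (ρ - 2 * a ^ 2 - 1) :=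
    smoothTransition.contDiff.comp (by fun_prop)
  have hm : Monotone fun ρ : ℝ => smoothTransition (ρ - 2 * a ^ 2 - 1) := fun x y h =>
    smoothTransition.monotone (by linarith)
  have hn := FA.contDiff_nq.continuous
  refine ⟨fun y => smoothTransition (nq y - 2 * a ^ 2 - 1) • lam0 y, 2 * a + 2,
    (hs.comp FA.contDiff_nq).smul contDiff_lam0, by linarith, fun y hy => ?_, fun y v => ?_,
    fun y hy => ?_⟩
  · have e : (fun y => smoothTransition (nq y - 2 * a ^ 2 - 1) • lam0 y) =ᶠ[𝓝 y] fun _ => 0 := by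
      have := FA.nq_le y
      have := pow_le_pow_left₀ (norm_nonneg _) hy 2
      filter_upwards [hn.continuousAt.eventually_lt (continuousAt_const (y := 2 * a ^ 2 + 1))
        (show nq y < _ by linarith)] with z hz
      rw [smoothTransition.zero_of_nonpos (by linarith), zero_smul]
    exact ⟨e.eq_of_nhds, by ext u v <;> simp [dF, e.fderiv_eq]⟩
  · rw [dF_rad_J0 (hs.differentiable (by simp) (nq y)).hasDerivAt]
    exact add_nonneg (mul_nonneg (smoothTransition.nonneg _) (nq_nonneg v))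
      (mul_nonneg hm.deriv_nonneg (by positivity))
  · have e : (fun y => smoothTransition (nq y - 2 * a ^ 2 - 1) • lam0 y) =ᶠ[𝓝 y] lam0 := by
      have := FA.sq_norm_le y
      have := pow_le_pow_left₀ (by positivity) hy 2
      filter_upwards [(continuousAt_const (y := 2 * a ^ 2 + 2)).eventually_lt hn.continuousAt
        (show _ < nq y by nlinarith)] with z hz
      rw [smoothTransition.one_of_one_le (by linarith), one_smul]
    refine ⟨e.eq_of_nhds, fun v => ?_⟩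
    rw [← FA.om_J0, ← dF_lam0 y, dF, dF, e.fderiv_eq]

theorem cap_pre (hL : ContDiff ℝ ∞ L) (hR : 0 < R)
    (bd : ∃ M : ℝ, ∀ s ∈ Icc (0 : ℝ) 1, ∀ y, ‖L (s, y)‖ ≤ M)
    (nd : ∀ s ∈ Icc (0 : ℝ) 1, ∀ (y : E) (c : ℝ), 0 ≤ c → ∀ u : E,
      (∀ v, dF (fun z => L (s, z)) y u v + c * w1 u.1 v.1 = 0) → u = 0)
    (mid : ∀ R' : ℝ, ∃ S : ℝ, ∀ s ∈ Icc (0 : ℝ) 1, ∀ y, S ≤ ‖y‖ → ∀ v, v ≠ 0 →
      0 < dF (fun z => L (s, z)) y v (J0 v) ∨
        (R' ≤ ‖y.1‖ ∧ 0 < dF (fun z => L (s, z)) y v (J0 v) + ‖v.1‖ ^ 2))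
    (far : ∃ S : ℝ, ∀ s ∈ Icc (0 : ℝ) 1, ∀ y, S ≤ ‖y‖ → ∀ v,
      -(nq v / 2) ≤ dF (fun z => L (s, z)) y v (J0 v)) :
    ∃ G, Cap L G R ∧ ∃ S M : ℝ, ∀ s ∈ Icc (0 : ℝ) 1, ∀ y, S ≤ ‖y‖ → ‖G (s, y) - lam0 y‖ ≤ M ∧
      ∀ v, nq v / 2 ≤ dF (fun z => G (s, z)) y v (J0 v) := by
  obtain ⟨M, hM⟩ := bd
  obtain ⟨S₁, m1⟩ := mid (R + 1)
  obtain ⟨S₂, m2⟩ := far
  obtain ⟨θ, b, t1, t2, t3, t4, t5⟩ := exists_theta (a := max (max S₁ S₂) R) (by positivity)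
  obtain ⟨η, c, e1, ⟨M', e2⟩, e3, e4, e5, e6⟩ := exists_eta hR b
  have w : ∀ v : E, w1 v.1 (J0 v).1 = ‖v.1‖ ^ 2 := fun v => by
    simp [w1, J0_apply, Complex.sq_norm, Complex.normSq_apply]
  have d : ∀ s y u v, dF (fun z => L (s, z) + η z + θ z) y u v =
      dF (fun z => L (s, z)) y u v + c y * w1 u.1 v.1 + dF θ y u v := fun s y u v => by
    have a1 := (hL.comp (contDiff_const.prodMk contDiff_id : ContDiff ℝ ∞ fun z : E => (s, z))
      ).differentiable (by simp) y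
    have a2 := e1.differentiable (by simp) y
    rw [dF_add (α := fun z => L (s, z) + η z) (a1.add a2) (t1.differentiable (by simp) y),
      dF_add (α := fun z => L (s, z)) a1 a2, add_apply, add_apply, add_apply, add_apply, e3]
  have p : ∀ y (v : E), 0 ≤ c y * ‖v.1‖ ^ 2 := fun y v => mul_nonneg (e4 y) (sq_nonneg _)
  have f : ∀ s ∈ Icc (0 : ℝ) 1, ∀ y, b ≤ ‖y‖ → ∀ v,
      nq v / 2 ≤ dF (fun z => L (s, z) + η z + θ z) y v (J0 v) := fun s hs y hy v => by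
    rw [d, w, (t5 y hy).2]
    linarith [m2 s hs y (le_trans (le_trans (by simp) t2) hy) v, p y v]
  refine ⟨fun q => L q + η q.2 + θ q.2, ⟨(hL.add (e1.comp contDiff_snd)).add (t1.comp contDiff_snd),
    fun s y hy => ?_, fun s hs y => ?_, fun s hs J hJ h0 y v hv => ?_⟩, b, M + M',
    fun s hs y hy => ⟨?_, f s hs y hy⟩⟩
  · simp only [(e5 y ((norm_fst_le y).trans hy)).1, (t3 y (hy.trans (le_max_right _ _))).1, add_zero]
  · rcases le_total ‖y‖ (max (max S₁ S₂) R) with hy | hy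
    · refine (FA.pf_ne_iff (FA.alt_dF _ y)).2 ((injective_iff_map_eq_zero _).2 fun u hu =>
        nd s hs y (c y) (e4 y) u fun v => ?_)
      have a1 := d s y u v
      rw [hu, (t3 y hy).2] at a1
      simpa using a1.symm
    · refine FA.pf_ne_of_tame (FA.alt_dF _ y) fun v hv => ?_
      rcases le_total b ‖y‖ with hb | hb
      · exact (half_pos (nq_pos hv)).trans_le (f s hs y hb v)
      · rw [d, w]
        rcases m1 s hs y (le_trans (by simp) hy) v hv with a | a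
        · linarith [p y v, t4 y v]
        · rw [e6 y a.1 ((norm_fst_le y).trans hb)]
          linarith [a.2, t4 y v]
  · have a1 := hJ y v hv
    rw [d]
    rcases le_total ‖y‖ R with hy | hy
    · rw [(e5 y ((norm_fst_le y).trans hy)).2, (t3 y (hy.trans (le_max_right _ _))).2]
      simpa using a1
    · rw [h0 y hy] at a1 ⊢
      rw [w]
      linarith [p y v, t4 y v]
  · simp only [(t5 y hy).1, add_sub_cancel_right]
    exact (norm_add_le _ _).trans (add_le_add (hM s hs y) (e2 y))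

theorem cap_cut {G : ℝ × E → E →L[ℝ] ℝ} (h : Cap L G R)
    (far : ∃ S M : ℝ, ∀ s ∈ Icc (0 : ℝ) 1, ∀ y, S ≤ ‖y‖ → ‖G (s, y) - lam0 y‖ ≤ M ∧
      ∀ v, nq v / 2 ≤ dF (fun z => G (s, z)) y v (J0 v)) :
    ∃ F, Cap L F R ∧ ∃ S : ℝ, ∀ s y, S ≤ ‖y‖ → F (s, y) = lam0 y := by
  obtain ⟨S, M, far⟩ := far
  obtain ⟨C, hC, hc⟩ := FA.cut_tame
  obtain ⟨T, hT⟩ := exists_gt (2 * |max S R| + 2 * (C * |M|))
  have a0 := abs_nonneg (max S R)
  have a1 := mul_nonneg hC.le (abs_nonneg M)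
  have T0 : 0 < T := by linarith
  have lt : ∀ y : E, ‖y‖ ≤ max S R → nq y < T ^ 2 := fun y hy => by
    have b := pow_le_pow_left₀ (norm_nonneg y) (hy.trans (le_abs_self _)) 2
    nlinarith [FA.nq_le y]
  have nr : ∀ s y, nq y < T ^ 2 →
      FA.Cut T 1 (fun z => G (s, z)) =ᶠ[𝓝 y] fun z => G (s, z) := fun s y hy => by
    simpa only [one_smul] using FA.cut_near T0 1 (fun z => G (s, z)) hy
  have dn : ∀ s y, nq y < T ^ 2 →
      dF (FA.Cut T 1 fun z => G (s, z)) y = dF (fun z => G (s, z)) y := fun s y hy => by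
    rw [dF, dF, (nr s y hy).fderiv_eq]
  have tm : ∀ s ∈ Icc (0 : ℝ) 1, ∀ y, ¬nq y < T ^ 2 → R ≤ ‖y‖ ∧ ∀ v, v ≠ 0 →
      0 < dF (FA.Cut T 1 fun z => G (s, z)) y v (J0 v) := fun s hs y hy => by
    have b := (not_le.1 fun b => hy (lt y b)).le
    obtain ⟨c, d⟩ := far s hs y ((le_max_left _ _).trans b)
    refine ⟨(le_max_right _ _).trans b, fun v hv => lt_of_lt_of_le (mul_pos ?_
      ((pow_pos (norm_pos_iff.2 hv) 2).trans_le (FA.sq_norm_le v))) (hc T 1 M _ y v T0 one_pos le_rfl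
      ((h.sm.comp (contDiff_prodMk_right s)).differentiable (by simp) y) c (d v))⟩
    rw [sub_pos, div_lt_iff₀ T0]
    linarith [mul_le_mul_of_nonneg_left (le_abs_self M) hC.le]
  refine ⟨fun p => FA.Cut T 1 (fun z => G (p.1, z)) p.2, ⟨?_, fun s y hy => ?_, fun s hs y => ?_,
    fun s hs J hJ h0 y v hv => ?_⟩, 2 * T, fun s y hy => FA.cut_far T0 _ _ hy⟩
  · have a := contDiff_lam0.comp (contDiff_snd : ContDiff ℝ ∞ (Prod.snd : ℝ × E → E))
    exact a.add (((FA.contDiff_chi T).comp contDiff_snd).smul ((h.sm.const_smul (1 : ℝ)).sub a))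
  · exact (nr s y (lt y (hy.trans (le_max_right _ _)))).eq_of_nhds.trans (h.eq s y hy)
  · by_cases hy : nq y < T ^ 2
    · exact (congrArg Pf (dn s y hy)).trans_ne (h.nd s hs y)
    · exact FA.pf_ne_of_tame (FA.alt_dF _ _) (tm s hs y hy).2
  · by_cases hy : nq y < T ^ 2
    · exact (h.tm s hs J hJ h0 y v hv).trans_eq (congrArg (fun μ : Bil E => μ v (J y v)) (dn s y hy)).symm
    · rw [h0 y (tm s hs y hy).1]
      exact (tm s hs y hy).2 v hv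

theorem exists_cap {Λ : Form1 E} {J : E → E →L[ℝ] E} {A D : ℝ} {cs : ℂ} (h : End Λ A D)
    (hJ : Acs J) (ht : Tm Λ J) (hb : ∀ x, 0 < dF Λ x (0, 1) (0, I)) (hc : cs ≠ 0) (zp : ℂ)
    (hR : 0 < R) :
    ∃ F, Cap (Lt Λ A D cs zp) F R ∧ ∃ S : ℝ, ∀ s y, S ≤ ‖y‖ → F (s, y) = lam0 y := by
  obtain ⟨G, h1, h2⟩ := cap_pre (contDiff_Lt h cs zp) hR (Lt_bd h cs zp)
    (fun s _ y _ c0 => Lt_nd h hJ ht hb cs zp s y c0) (Lt_mid h hb hc zp) (Lt_far h cs zp)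
  exact cap_cut h1 h2

end Pool.Agent.Lib.MP_7ed551_gt.Cy.Q
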