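import Pool.Agent.Lib.MP_7ed551_gt.Cy.Q.PA

/-! The form of Fubini and Study in the projective charts. -/

open scoped ContDiff Topology
open Set Filter Metric Real
open Complex (I)

noncomputable section

namespace Pool.Agent.Lib.MP_7ed551_gt.Cy.Q

open Pool.Agent.Lib.MP_ccffa6_gt
open FA (nq Pf Far)

variable {A D : ℝ} {cs zp : ℂ} {s : ℝ} {x y : E}

/-- The squared norm of the homogeneous coordinates. -/
def NN (D : ℝ) (cs zp : ℂ) (s : ℝ) (y : E) : ℝ := nq (TT cs zp s y) + D * ‖mm cs s y‖ ^ 2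

/-- A primitive of the form of Fubini and Study in the chart. -/
def fsT (A D : ℝ) (cs zp : ℂ) (p : ℝ × E) : E →L[ℝ] ℝ :=
  (A / NN D cs zp p.1 p.2) • (pb (TT cs zp p.1) lam0 p.2 + (D / 2) • pb (mm cs p.1) w1L p.2)

/-- The differential of the argument of the denominator. -/
def dArg (cs : ℂ) (s : ℝ) : Form1 E := fun y => (‖mm cs s y‖ ^ 2)⁻¹ • pb (mm cs s) w1L y

theorem w1L_apply (a b : ℂ) : w1L a b = w1 a b := by
  simp [w1L, w1]

theorem NN_pos (hD : 0 < D) (cs zp : ℂ) (s : ℝ) (y : E) : 0 < NN D cs zp s y := by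
  by_cases h : mm cs s y = 0
  · refine add_pos_of_pos_of_nonneg (nq_pos fun e => ?_) (by positivity)
    simp [mm, show y.1 = 0 from congrArg Prod.fst e] at h
  · exact add_pos_of_nonneg_of_pos (nq_nonneg _) (by positivity)

theorem fsT_apply (A D : ℝ) (cs zp : ℂ) (s : ℝ) (y v : E) : fsT A D cs zp (s, y) v =
    A / NN D cs zp s y * (om (TT cs zp s y) (v.1, v.2 + s * zp * (s * v.1 / cs)) / 2 +
      D / 2 * w1 (mm cs s y) (s * v.1 / cs)) := by
  simp only [fsT, pb, smul_apply, add_apply, ContinuousLinearMap.comp_apply, fderiv_TT, fderiv_mm,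
    lam0_apply, w1L_apply, smul_eq_mul]

theorem dArg_apply (cs : ℂ) (s : ℝ) (y v : E) :
    dArg cs s y v = w1 (mm cs s y) (s * v.1 / cs) / ‖mm cs s y‖ ^ 2 := by
  simp only [dArg, pb, smul_apply, ContinuousLinearMap.comp_apply, fderiv_mm, w1L_apply,
    smul_eq_mul, inv_mul_eq_div]

theorem contDiff_fsT (A : ℝ) (hD : 0 < D) (cs zp : ℂ) : ContDiff ℝ ∞ (fsT A D cs zp) := by
  refine contDiff_clm_apply_iff.2 fun v => ?_
  have h1 := contDiff_TT cs zp
  have h2 := contDiff_mm cs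
  have h3 : ContDiff ℝ ∞ fun p : ℝ × E => (p.1 : ℂ) := Complex.ofRealCLM.contDiff.comp contDiff_fst
  have h4 : ContDiff ℝ ∞ fun p : ℝ × E => p.1 * v.1 / cs := (h3.mul contDiff_const).div_const _
  simp only [funext fun p : ℝ × E => fsT_apply A D cs zp p.1 p.2 v, ← omL_apply, ← w1L_apply]
  exact (contDiff_const.div ((FA.contDiff_nq.comp h1).add (contDiff_const.mul (h2.norm_sq ℝ)))
    fun p => (NN_pos hD cs zp p.1 p.2).ne').mul ((((omL.contDiff.comp h1).clm_apply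
      (contDiff_const.prodMk (contDiff_const.add ((h3.mul contDiff_const).mul h4)))).div_const _).add
      (contDiff_const.mul ((w1L.contDiff.comp h2).clm_apply h4)))

theorem fsT_zero (A D : ℝ) (cs zp : ℂ) (y : E) : fsT A D cs zp (0, y) = fs A D y := by
  refine ContinuousLinearMap.ext fun v => ?_
  simp [fsT_apply, NN, TT_zero, mm_zero, fs, lam0_apply, w1]

theorem fsT_eq_om (c d : ℂ) (T U : E) :
    om (c • T) (c • (U - d • c • T)) = ‖c‖ ^ 2 * (om T U - nq T * (d * c).im) := by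
  simp only [om, w1, nq, Complex.sq_norm, Complex.normSq_apply, Prod.smul_fst, Prod.smul_snd,
    Prod.fst_sub, Prod.snd_sub, smul_eq_mul, Complex.mul_re, Complex.mul_im, Complex.sub_re,
    Complex.sub_im]
  ring

theorem fsT_eq (A : ℝ) (hD : 0 < D) (zp : ℂ) (h : mm cs s y ≠ 0) :
    fsT A D cs zp (s, y) = pb (sg cs zp s) (fs A D) y + (A / 2) • dArg cs s y := by
  refine ContinuousLinearMap.ext fun v => ?_
  have h1 := (NN_pos hD cs zp s y).ne'
  have h2 : ‖mm cs s y‖ ≠ 0 := norm_ne_zero_iff.2 h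
  have h3 : nq (sg cs zp s y) + D = NN D cs zp s y / ‖mm cs s y‖ ^ 2 := by
    simp only [sg, NN, nq, Prod.smul_fst, Prod.smul_snd, norm_smul, norm_inv]
    field_simp
  have h4 : ∀ d : ℂ, (d * (mm cs s y)⁻¹).im = w1 (mm cs s y) d / ‖mm cs s y‖ ^ 2 := fun d => by
    rw [← div_eq_mul_inv, Complex.div_im, Complex.sq_norm, w1]
    ring
  have h5 : nq (TT cs zp s y) = NN D cs zp s y - D * ‖mm cs s y‖ ^ 2 := (add_sub_cancel_right _ _).symm
  simp only [fsT_apply, add_apply, smul_apply, dArg_apply, pb, fs, ContinuousLinearMap.comp_apply,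
    lam0_apply, smul_eq_mul, h3, fderiv_sg zp h]
  rw [sg, fsT_eq_om, h4, h5, norm_inv]
  field_simp
  ring

theorem dF_dArg_w1 (a b : ℂ) : w1 a b / ‖a‖ ^ 2 = (b / a).im := by
  rw [Complex.div_im, Complex.sq_norm, w1]
  ring

theorem dF_dArg_log {f : E → ℂ} (hf : DifferentiableAt ℝ f x) (h : f x ∈ Complex.slitPlane) (v : E) :
    fderiv ℝ (fun z => (Complex.log (f z)).im) x v = (fderiv ℝ f x v / f x).im := by
  rw [show (fun z => (Complex.log (f z)).im) = Complex.imCLM ∘ Complex.log ∘ f from rfl,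
    (Complex.imCLM.hasFDerivAt.comp x ((Complex.hasStrictFDerivAt_log_real h).hasFDerivAt.comp x
      hf.hasFDerivAt)).fderiv, div_eq_inv_mul]
  rfl

theorem dF_dArg (h : mm cs s y ≠ 0) :
    DifferentiableAt ℝ (dArg cs s) y ∧ dF (dArg cs s) y = 0 := by
  have hm : ContDiff ℝ ∞ (mm cs s) := (contDiff_mm cs).comp (contDiff_const.prodMk contDiff_id)
  have hq : ContDiff ℝ ∞ fun z => mm cs s z / mm cs s y := hm.div_const _
  have h1 : mm cs s y / mm cs s y ∈ Complex.slitPlane := by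
    rw [div_self h]
    exact Complex.one_mem_slitPlane
  have hg : ContDiffAt ℝ 2 (fun z => (Complex.log (mm cs s z / mm cs s y)).im) y :=
    Complex.imCLM.contDiff.contDiffAt.comp y (((Complex.contDiffAt_log h1).restrict_scalars ℝ).comp y
      (f := fun z => mm cs s z / mm cs s y) (hq.contDiffAt.of_le (by norm_cast)))
  have e : dArg cs s =ᶠ[𝓝 y] fderiv ℝ fun z => (Complex.log (mm cs s z / mm cs s y)).im := by
    filter_upwards [hq.continuous.continuousAt.eventually (Complex.isOpen_slitPlane.mem_nhds h1)]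
      with z hz
    refine ContinuousLinearMap.ext fun v => ?_
    have hd := hm.differentiable (by simp) z
    rw [dArg_apply, dF_dArg_w1, dF_dArg_log (hq.differentiable (by simp) z) hz]
    simp only [div_eq_mul_inv (mm cs s _)]
    rw [fderiv_mul_const hd, smul_apply, fderiv_mm, smul_eq_mul, mul_comm (mm cs s y)⁻¹,
      mul_div_mul_right _ _ (inv_ne_zero h)]
  refine ⟨((hg.fderiv_right (m := 1) le_rfl).differentiableAt one_ne_zero).congr_of_eventuallyEq e, ?_⟩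
  rw [← dF_fderiv hg]
  refine ContinuousLinearMap.ext fun u => ContinuousLinearMap.ext fun v => ?_
  rw [dF_apply, dF_apply, e.fderiv_eq]

theorem dArg_ta (zp : ℂ) (h : ll cs s x ∈ Complex.slitPlane) :
    pb (ta cs zp s) (dArg cs s) x + fderiv ℝ (fun z => (Complex.log (ll cs s z)).im) x = 0 := by
  have h0 := Complex.slitPlane_ne_zero h
  have hm : ContDiff ℝ ∞ (mm cs s) := (contDiff_mm cs).comp (contDiff_const.prodMk contDiff_id)
  have hl : ContDiff ℝ ∞ (ll cs s) := (contDiff_ll cs).comp (contDiff_const.prodMk contDiff_id)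
  have hd := hl.differentiable (by simp) x
  have e : mm cs s ∘ ta cs zp s =ᶠ[𝓝 x] fun z => (ll cs s z)⁻¹ :=
    (hl.continuous.continuousAt.eventually_ne h0).mono fun z hz => mm_ta zp hz
  have e2 := ((hasFDerivAt_inv' (𝕜 := ℝ) h0).comp x hd.hasFDerivAt).fderiv
  refine ContinuousLinearMap.ext fun v => ?_
  have e3 := congrArg (· v) ((fderiv_comp x (hm.differentiable (by simp) _)
    ((contDiffAt_ta zp h0).differentiableAt (by simp))).symm.trans (e.fderiv_eq.trans e2))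
  change fderiv ℝ (mm cs s) _ (fderiv ℝ (ta cs zp s) x v) =
    -((ll cs s x)⁻¹ * fderiv ℝ (ll cs s) x v * (ll cs s x)⁻¹) at e3
  change dArg cs s _ (fderiv ℝ (ta cs zp s) x v) + fderiv ℝ (fun z => (Complex.log (ll cs s z)).im) x v = 0
  rw [dArg_apply, dF_dArg_w1, ← fderiv_mm cs s (ta cs zp s x), e3, mm_ta zp h0, dF_dArg_log hd h,
    neg_div, mul_div_cancel_right₀ _ (inv_ne_zero h0), Complex.neg_im, div_eq_inv_mul, neg_add_cancel]

theorem fsT_tame_aux (D : ℝ) (T U : E) (m μ : ℂ) :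
    (nq U + D * ‖μ‖ ^ 2) * (nq T + D * ‖m‖ ^ 2) - (ip T U + D * (m.re * μ.re + m.im * μ.im)) ^ 2 -
      (om T U + D * w1 m μ) ^ 2 = ‖T.1 * U.2 - T.2 * U.1‖ ^ 2 + D * ‖m * U.1 - T.1 * μ‖ ^ 2 +
      D * ‖m * U.2 - T.2 * μ‖ ^ 2 := by
  simp only [nq, ip, om, w1, Complex.sq_norm, Complex.normSq_apply, Complex.sub_re, Complex.sub_im,
    Complex.mul_re, Complex.mul_im]
  ring

theorem fsT_tame (hA : 0 < A) (hD : 0 < D) (cs zp : ℂ) (s : ℝ) :
    Tm (fun y => fsT A D cs zp (s, y)) fun _ => J0 := by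
  intro y v hv
  have hT : ContDiff ℝ ∞ (TT cs zp s) := (contDiff_TT cs zp).comp (contDiff_prodMk_right s)
  have hm : ContDiff ℝ ∞ (mm cs s) := (contDiff_mm cs).comp (contDiff_prodMk_right s)
  have hN := NN_pos hD cs zp s y
  have h1 : HasFDerivAt (fun z => A / NN D cs zp s z) _ y :=
    ((hasDerivAt_inv hN.ne').const_mul A).comp_hasFDerivAt y
      (((FA.contDiff_nq.differentiable (by simp) _).hasFDerivAt.comp y
        (hT.differentiable (by simp) y).hasFDerivAt).add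
        ((hm.differentiable (by simp) y).hasFDerivAt.norm_sq.const_mul D))
  have h2 := (contDiff_pb hT contDiff_lam0).differentiable (by simp) y
  have h3 := (contDiff_pb hm w1L.contDiff).differentiable (by simp) y
  have h4 : DifferentiableAt ℝ (fun z => (D / 2) • pb (mm cs s) w1L z) y := h3.const_smul (D / 2)
  have hU : fderiv ℝ (TT cs zp s) y (J0 v) = J0 (fderiv ℝ (TT cs zp s) y v) := by
    simp only [fderiv_TT, J0_apply, Prod.smul_mk, Prod.smul_fst, Prod.smul_snd, smul_eq_mul]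
    congr 1
    ring
  have hμ : fderiv ℝ (mm cs s) y (J0 v) = I * fderiv ℝ (mm cs s) y v := by
    simp only [fderiv_mm, J0_apply, Prod.smul_fst, smul_eq_mul]
    ring
  refine (mul_pos (div_pos hA (pow_pos hN 2)) (lt_of_lt_of_eq ?_ (fsT_tame_aux D (TT cs zp s y)
    (fderiv ℝ (TT cs zp s) y v) (mm cs s y) (fderiv ℝ (mm cs s) y v)).symm)).trans_eq (Eq.trans ?_
    (dF_smul h1.differentiableAt (h2.fun_add h4) v (J0 v)).symm)
  · simp only [fderiv_TT, fderiv_mm]
    rw [show mm cs s y * v.1 - (TT cs zp s y).1 * (s * v.1 / cs) = v.1 by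
      simp only [mm, TT]; ring]
    rcases eq_or_ne v.1 0 with e | e
    · have e' : v.2 ≠ 0 := fun e' => hv (Prod.ext e e')
      rcases eq_or_ne y.1 0 with f | f
      · simp only [e, mm, TT, f, mul_zero, zero_div, add_zero, sub_zero, one_mul]
        positivity
      · simp only [e, TT, mul_zero, zero_div, add_zero, sub_zero]
        have := pow_pos (norm_pos_iff.2 (mul_ne_zero f e')) 2
        positivity
    · positivity
  rw [h1.fderiv, dF_add h2 h4, add_apply (dF _ _), add_apply (dF _ _ _),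
    dF_smul (differentiableAt_const _) h3, dF_pb (hT.contDiffAt.of_le (by decide)) (contDiff_lam0.differentiable (by simp) _),
    dF_pb (hm.contDiffAt.of_le (by decide)) w1L.differentiableAt, dF_lam0, dF_apply, w1L.fderiv]
  simp only [pb, add_apply, smul_apply, ContinuousLinearMap.comp_apply, hU, hμ, fderiv_nq,
    lam0_apply, w1L_apply, FA.om_J0, innerSL_apply_apply, Complex.inner, fderiv_fun_const,
    Pi.zero_apply, zero_apply, show nq (TT cs zp s y) + _ = NN D cs zp s y from rfl]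
  simp only [ip, om, w1, J0_apply, Complex.sq_norm, Complex.normSq_apply, Complex.mul_re,
    Complex.mul_im, Complex.I_re, Complex.I_im, Prod.smul_fst, Prod.smul_snd, smul_eq_mul,
    Complex.conj_re, Complex.conj_im, nsmul_eq_mul, Nat.cast_ofNat]
  field_simp
  ring

theorem fsT_bd_w1 (a b : ℂ) : |w1 a b| ≤ ‖a‖ * ‖b‖ := by
  rw [← Complex.norm_conj a, ← norm_mul]
  refine le_of_eq_of_le (congrArg _ ?_) (Complex.abs_im_le_norm _)
  simp [w1, sub_eq_add_neg]

theorem fsT_bd_om (u v : E) : |om u v| ≤ 2 * (‖u‖ * ‖v‖) := by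
  have h1 := mul_le_mul (norm_fst_le u) (norm_fst_le v) (norm_nonneg _) (norm_nonneg _)
  have h2 := mul_le_mul (norm_snd_le u) (norm_snd_le v) (norm_nonneg _) (norm_nonneg _)
  rw [om]
  linarith [abs_add_le (w1 u.1 v.1) (w1 u.2 v.2), fsT_bd_w1 u.1 v.1, fsT_bd_w1 u.2 v.2]

theorem fsT_bd (A : ℝ) (hD : 0 < D) (cs zp : ℂ) :
    ∃ M : ℝ, ∀ s ∈ Icc (0 : ℝ) 1, ∀ y, ‖fsT A D cs zp (s, y)‖ ≤ M := by
  refine ⟨|A| * ((1 + ‖cs‖⁻¹) * (1 + D⁻¹) * (1 + ‖zp‖ * ‖cs‖⁻¹ + D / 2 * ‖cs‖⁻¹)), fun s hs y =>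
    ContinuousLinearMap.opNorm_le_bound _ (by positivity) fun v => ?_⟩
  have hN := NN_pos hD cs zp s y
  have hs1 : ‖(s : ℂ)‖ ≤ 1 := by rw [Complex.norm_real, Real.norm_of_nonneg hs.1]; exact hs.2
  have hq : ∀ u : E, ‖s * u.1 / cs‖ ≤ ‖cs‖⁻¹ * ‖u‖ := fun u => by
    rw [norm_div, norm_mul, div_eq_inv_mul]
    exact mul_le_mul_of_nonneg_left ((mul_le_of_le_one_left (norm_nonneg _) hs1).trans
      (norm_fst_le u)) (by positivity)
  have h1 : 1 ≤ ‖mm cs s y‖ + ‖cs‖⁻¹ * ‖TT cs zp s y‖ := by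
    have := norm_sub_le (mm cs s y) (s * (TT cs zp s y).1 / cs)
    rw [show mm cs s y - s * (TT cs zp s y).1 / cs = 1 from add_sub_cancel_right _ _, norm_one] at this
    linarith [hq (TT cs zp s y)]
  have h2 : ‖((v.1, v.2 + s * zp * (s * v.1 / cs)) : E)‖ ≤ (1 + ‖zp‖ * ‖cs‖⁻¹) * ‖v‖ := by
    have : ‖s * zp * (s * v.1 / cs)‖ ≤ ‖zp‖ * (‖cs‖⁻¹ * ‖v‖) := by
      rw [norm_mul, norm_mul]
      exact mul_le_mul (mul_le_of_le_one_left (norm_nonneg _) hs1) (hq v) (norm_nonneg _)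
        (norm_nonneg _)
    refine norm_prod_le_iff.2 ⟨?_, (norm_add_le _ _).trans ?_⟩
    · linarith [norm_fst_le v, (norm_nonneg _).trans this]
    · linarith [norm_snd_le v]
  have h3 := fsT_bd_w1 (mm cs s y) (s * v.1 / cs)
  have h4 := fsT_bd_om (TT cs zp s y) (v.1, v.2 + s * zp * (s * v.1 / cs))
  have h5 : ‖TT cs zp s y‖ ^ 2 + ‖mm cs s y‖ ^ 2 ≤ (1 + D⁻¹) * NN D cs zp s y := by
    have a1 := FA.sq_norm_le (TT cs zp s y)
    have a2 : D⁻¹ * (D * ‖mm cs s y‖ ^ 2) = ‖mm cs s y‖ ^ 2 := inv_mul_cancel_left₀ hD.ne' _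
    have a3 : 0 ≤ D⁻¹ * nq (TT cs zp s y) := mul_nonneg (by positivity) ((sq_nonneg _).trans a1)
    have a4 : 0 ≤ D * ‖mm cs s y‖ ^ 2 := by positivity
    rw [NN]
    linarith
  rw [fsT_apply, Real.norm_eq_abs, abs_mul, abs_div, abs_of_pos hN, div_mul_eq_mul_div, mul_div_assoc,
    mul_assoc |A|]
  refine mul_le_mul_of_nonneg_left ((div_le_iff₀ hN).2 ((abs_add_le _ _).trans ?_)) (abs_nonneg _)
  rw [abs_div, abs_mul, abs_of_pos (half_pos hD), abs_two]
  have hv := hq v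
  have hk : 0 ≤ ‖cs‖⁻¹ := by positivity
  have ha := norm_nonneg (TT cs zp s y)
  have hb := norm_nonneg (mm cs s y)
  have h6 := mul_le_mul_of_nonneg_left h5 (add_nonneg zero_le_one hk)
  have h7 : ‖TT cs zp s y‖ ≤ (1 + ‖cs‖⁻¹) * ((1 + D⁻¹) * NN D cs zp s y) := by
    nlinarith [mul_le_mul_of_nonneg_left h1 ha, sq_nonneg (‖TT cs zp s y‖ - ‖mm cs s y‖),
      mul_nonneg hk (sq_nonneg ‖mm cs s y‖)]
  have h8 : ‖mm cs s y‖ ≤ (1 + ‖cs‖⁻¹) * ((1 + D⁻¹) * NN D cs zp s y) := by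
    nlinarith [mul_le_mul_of_nonneg_left h1 hb, mul_nonneg hk (mul_nonneg ha hb),
      mul_nonneg hk (sq_nonneg (‖TT cs zp s y‖ - ‖mm cs s y‖))]
  have h9 := mul_le_mul h7 h2 (norm_nonneg _) (ha.trans h7)
  have h10 := mul_le_mul_of_nonneg_left (h3.trans (mul_le_mul h8 hv (norm_nonneg _) (hb.trans h8)))
    (half_pos hD).le
  linarith

end Pool.Agent.Lib.MP_7ed551_gt.Cy.Q
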