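import Pool.Agent.Lib.MP_7ed551_gt.Cy.Q.PL

/-! The almost complex structure in the projective chart. -/

open scoped ContDiff Topology
open Set Filter Metric Real
open Complex (I)

noncomputable section

namespace Pool.Agent.Lib.MP_7ed551_gt.Cy.Q

open Pool.Agent.Lib.MP_ccffa6_gt
open FA (nq Pf Far)

variable {Λ : Form1 E} {J : E → E →L[ℝ] E} {A D : ℝ} {cs zp : ℂ} {y : E}

/-- The structure in the chart. -/
def Jp (J : E → E →L[ℝ] E) (cs zp : ℂ) (y : E) : E →L[ℝ] E :=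
  if mm cs 1 y = 0 then J0 else pJ (sg cs zp 1) J y

theorem Jp_hol (J : E → E →L[ℝ] E) (zp : ℂ) (h : mm cs 1 y ≠ 0) (v : E) :
    fderiv ℝ (sg cs zp 1) y (Jp J cs zp y v) = J (sg cs zp 1 y) (fderiv ℝ (sg cs zp 1) y v) := by
  rw [Jp, if_neg h]
  exact (fderiv_sg_inv zp h).self_apply_inverse _

theorem Jp_eq (h : mm cs 1 y ≠ 0 → J (sg cs zp 1 y) = J0) : Jp J cs zp y = J0 := by
  by_cases e : mm cs 1 y = 0
  · exact if_pos e
  · exact ContinuousLinearMap.ext fun v => (fderiv_sg_inv zp e).injective (by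
      rw [Jp_hol J zp e, h e, fderiv_sg_J0 zp e])

theorem Jp_std (hJ : Acs J) (hc : cs ≠ 0) (zp : ℂ)
    (hn : ∃ ε : ℝ, 0 < ε ∧ ∀ x : E, ‖x.1 - cs‖ < ε → J x = J0) :
    ∃ K₁ : Set E, IsCompact K₁ ∧ (∀ y ∈ K₁, mm cs 1 y ≠ 0) ∧ ∀ y, y ∉ K₁ → Jp J cs zp y = J0 := by
  obtain ⟨R, hR⟩ := hJ.far
  obtain ⟨ε, h0, hε⟩ := hn
  have c : Continuous (mm cs 1) := ((contDiff_mm cs).comp (contDiff_prodMk_right 1)).continuous
  refine ⟨closedBall 0 (‖cs‖ / ε * (R + ‖zp‖)) ∩ {y | 1 ≤ ‖mm cs 1 y‖ * (1 + |1| * R / ‖cs‖)},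
    (isCompact_closedBall _ _).inter_right (isClosed_le continuous_const (by fun_prop)),
    fun y hy e => ?_, fun y hy => Jp_eq fun h => by_contra fun e => hy ?_⟩
  · have := hy.2
    rw [mem_ofPred_eq, e, norm_zero, zero_mul] at this
    linarith
  · have h1 := (not_le.1 fun k => e (hR _ k)).le
    have h2 := not_lt.1 fun k => e (hε _ k)
    rw [sg_sub zp hc h, norm_div, norm_neg, le_div_iff₀ (norm_pos_iff.2 h), mul_comm,
      ← le_div_iff₀ h0] at h2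
    exact ⟨mem_closedBall_zero_iff.2 ((norm_le_mm ⟨zero_le_one, le_rfl⟩ h h1).trans
      (mul_le_mul_of_nonneg_right h2 (add_nonneg ((norm_nonneg _).trans h1) (norm_nonneg _)))),
      mm_lower h h1⟩

theorem acs_Jp (hJ : Acs J) (hc : cs ≠ 0) (zp : ℂ)
    (hn : ∃ ε : ℝ, 0 < ε ∧ ∀ x : E, ‖x.1 - cs‖ < ε → J x = J0) : Acs (Jp J cs zp) := by
  obtain ⟨R, hR⟩ := hJ.far
  obtain ⟨K, hK, -, h⟩ := Jp_std hJ hc zp hn
  obtain ⟨r, hr⟩ := hK.isBounded.subset_ball 0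
  refine ⟨contDiff_ite ((contDiff_mm cs).comp (contDiff_prodMk_right 1)).continuous
    (fun p hp => ?_) fun p hp => (sg_far' zp R hp).mono fun q hq e =>
      (if_neg e).symm.trans (Jp_eq fun _ => hR _ (hq e).le), fun y v => ?_,
    r, fun y hy => h y fun e => (mem_ball_zero_iff.1 (hr e)).not_ge hy⟩
  · have d : ContDiffAt ℝ ∞ (fderiv ℝ (sg cs zp 1)) p :=
      (contDiffAt_sg' zp hp).fderiv_right (by simp)
    exact (((fderiv_sg_inv zp hp).contDiffAt_map_inverse.comp p d).mul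
      (hJ.sm.contDiffAt.comp p (contDiffAt_sg' zp hp))).mul d
  · by_cases e : mm cs 1 y = 0
    · rw [Jp, if_pos e, cay_J0_sq]
    · exact (fderiv_sg_inv zp e).injective (by rw [Jp_hol J zp e, Jp_hol J zp e, hJ.sq, map_neg])

theorem tm_Jp (h : End Λ A D) (ht : Tm Λ J) (cs zp : ℂ) :
    Tm (fun z => Lt Λ A D cs zp (1, z)) (Jp J cs zp) := by
  intro y v hv
  by_cases e : mm cs 1 y = 0
  · obtain ⟨R, -, hR⟩ := Lt_off h cs zp
    rw [Jp, if_pos e]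
    exact hR 1 y (.inl e) v hv
  · rw [dF_Lt h zp e, Jp_hol J zp e]
    exact ht _ _ ((map_ne_zero_iff _ (fderiv_sg_inv zp e).injective).2 hv)

end Pool.Agent.Lib.MP_7ed551_gt.Cy.Q
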