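import Pool.Agent.Lib.MP_7ed551_gt.Cy.Q.PF

/-! The family of forms in the projective charts. -/

open scoped ContDiff Topology
open Set Filter Metric Real
open Complex (I)

noncomputable section

namespace Pool.Agent.Lib.MP_7ed551_gt.Cy.Q

open Pool.Agent.Lib.MP_ccffa6_gt
open FA (nq Pf Far)

variable {Λ : Form1 E} {A D : ℝ} {cs zp : ℂ} {s : ℝ} {x y : E}

/-- The form in the chart. -/
def Lt (Λ : Form1 E) (A D : ℝ) (cs zp : ℂ) (p : ℝ × E) : E →L[ℝ] ℝ :=
  fsT A D cs zp p +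
    if mm cs p.1 p.2 = 0 then 0 else pb (sg cs zp p.1) (fun x => Λ x - fs A D x) p.2

theorem Lt_eq (h : End Λ A D) (zp : ℂ) (hm : mm cs s y ≠ 0) :
    Lt Λ A D cs zp (s, y) = pb (sg cs zp s) Λ y + (A / 2) • dArg cs s y := by
  simp only [Lt, if_neg hm, fsT_eq A h.D0 zp hm, pb, ContinuousLinearMap.sub_comp]
  abel

theorem Lt_zero (Λ : Form1 E) (A D : ℝ) (cs zp : ℂ) (y : E) : Lt Λ A D cs zp (0, y) = Λ y := by
  simp [Lt, fsT_zero, mm_zero, sg_zero, pb]

theorem contDiff_Lt (h : End Λ A D) (cs zp : ℂ) : ContDiff ℝ ∞ (Lt Λ A D cs zp) := by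
  obtain ⟨R, hR⟩ := h.far
  refine (contDiff_fsT A h.D0 cs zp).add (contDiff_ite (contDiff_mm cs).continuous (fun p hp => ?_)
    fun p hp => (sg_far zp R hp).mono fun q hq e => ?_)
  · have a := contDiffAt_sg zp hp
    exact ((h.sm.sub (contDiff_fs A h.D0)).contDiffAt.comp p a).clm_comp
      (ContDiffAt.fderiv (f := fun q : ℝ × E => sg cs zp q.1) (g := Prod.snd) (n := ∞)
        (a.comp (f := fun z : (ℝ × E) × E => (z.1.1, z.2)) (p, p.2) (by fun_prop)) contDiffAt_snd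
        (by simp))
  · simp only [pb, hR _ (hq e).le, sub_self, ContinuousLinearMap.zero_comp]

theorem dF_Lt (h : End Λ A D) (zp : ℂ) (hm : mm cs s y ≠ 0) (u v : E) :
    dF (fun z => Lt Λ A D cs zp (s, z)) y u v =
      dF Λ (sg cs zp s y) (fderiv ℝ (sg cs zp s) y u) (fderiv ℝ (sg cs zp s) y v) := by
  have a := contDiffAt_sg' zp hm
  have e : (fun z => Lt Λ A D cs zp (s, z)) =ᶠ[𝓝 y]
      fun z => pb (sg cs zp s) Λ z + (A / 2) • dArg cs s z :=
    (((contDiff_mm cs).continuous.comp (Continuous.prodMk_right s)).continuousAt.eventually_ne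
      hm).mono fun z hz => Lt_eq h zp hz
  have d1 : DifferentiableAt ℝ (pb (sg cs zp s) Λ) y :=
    ((h.sm.contDiffAt.comp y a).clm_comp (a.fderiv_right (m := ∞) (by simp))).differentiableAt
      (by simp)
  rw [← dF_pb (a.of_le (by norm_cast)) (h.sm.differentiable (by simp) _), dF, e.fderiv_eq, ← dF,
    dF_add d1 ((dF_dArg hm).1.fun_const_smul _), add_apply, add_apply,
    dF_smul (differentiableAt_const _) (dF_dArg hm).1, (dF_dArg hm).2]
  simp

theorem Lt_off (h : End Λ A D) (cs zp : ℂ) : ∃ R : ℝ, 0 < R ∧ ∀ s y,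
    (mm cs s y = 0 ∨ R < ‖sg cs zp s y‖) → ∀ v, v ≠ 0 →
      0 < dF (fun z => Lt Λ A D cs zp (s, z)) y v (J0 v) := by
  obtain ⟨R, hR⟩ := h.far
  refine ⟨max R 1, lt_max_of_lt_right one_pos, fun s y hy v hv => ?_⟩
  have h1 : ∀ᶠ z in 𝓝 y, mm cs s z ≠ 0 → max R 1 < ‖sg cs zp s z‖ := by
    by_cases hm : mm cs s y = 0
    · exact sg_far' zp _ hm
    · exact (continuousAt_const.eventually_lt (contDiffAt_sg' zp hm).continuousAt.norm
        (hy.resolve_left hm)).mono fun _ h _ => h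
  have h2 : (fun z => Lt Λ A D cs zp (s, z)) =ᶠ[𝓝 y] fun z => fsT A D cs zp (s, z) :=
    h1.mono fun z hz => by
      simp only [Lt]
      split_ifs with hm
      · exact add_zero _
      · rw [pb, hR _ ((le_max_left _ _).trans (hz hm).le), sub_self, ContinuousLinearMap.zero_comp,
          add_zero]
  rw [dF, h2.fderiv_eq]
  exact fsT_tame h.A0 h.D0 cs zp s y v hv

theorem Lt_bd (h : End Λ A D) (cs zp : ℂ) :
    ∃ M : ℝ, ∀ s ∈ Icc (0 : ℝ) 1, ∀ y, ‖Lt Λ A D cs zp (s, y)‖ ≤ M := by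
  obtain ⟨R, hR⟩ := h.far
  obtain ⟨M, hM⟩ := fsT_bd A h.D0 cs zp
  obtain ⟨B, hB⟩ := (isCompact_closedBall (0 : E) R).exists_bound_of_continuousOn
    (h.sm.continuous.sub (contDiff_fs A h.D0).continuous).continuousOn
  refine ⟨M + |B| * ((1 + (‖zp‖ + |R|) / ‖cs‖) * (1 + |R| / ‖cs‖)), fun s hs y =>
    (norm_add_le _ _).trans (add_le_add (hM s hs y) ?_)⟩
  dsimp only
  split_ifs with hm
  · rw [norm_zero]; positivity
  rcases le_total R ‖sg cs zp s y‖ with h1 | h1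
  · rw [pb, hR _ h1, sub_self, ContinuousLinearMap.zero_comp, norm_zero]; positivity
  have h2 := h1.trans (le_abs_self R)
  have h3 : ‖mm cs s y‖⁻¹ ≤ 1 + |R| / ‖cs‖ := by
    refine ((inv_le_iff_one_le_mul₀' (norm_pos_iff.2 hm)).2 (mm_lower hm h2)).trans ?_
    gcongr
    exact mul_le_of_le_one_left (abs_nonneg _) (abs_le.2 ⟨by linarith [hs.1], hs.2⟩)
  refine (ContinuousLinearMap.opNorm_comp_le _ _).trans (mul_le_mul
    ((hB _ (mem_closedBall_zero_iff.2 h1)).trans (le_abs_self B)) ?_ (norm_nonneg _) (abs_nonneg _))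
  refine (ContinuousLinearMap.opNorm_le_bound _ (by positivity) (norm_fderiv_sg hs hm h2)).trans ?_
  rw [div_eq_mul_inv _ ‖mm cs s y‖]
  gcongr

theorem pb_ta (h : End Λ A D) (zp : ℂ) (hl : ll cs s x ∈ Complex.slitPlane) :
    pb (ta cs zp s) (fun z => Lt Λ A D cs zp (s, z)) x +
      (A / 2) • fderiv ℝ (fun z => (Complex.log (ll cs s z)).im) x = Λ x := by
  have h0 := Complex.slitPlane_ne_zero hl
  have hm : mm cs s (ta cs zp s x) ≠ 0 := by rw [mm_ta zp h0]; exact inv_ne_zero h0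
  have h1 : (sg cs zp s ∘ ta cs zp s) =ᶠ[𝓝 x] id :=
    (((contDiff_ll cs).continuous.comp (Continuous.prodMk_right s)).continuousAt.eventually_ne
      h0).mono fun z hz => sg_ta zp hz
  have h2 := h1.fderiv_eq (𝕜 := ℝ)
  rw [fderiv_comp x ((contDiffAt_sg' zp hm).differentiableAt (by simp))
    ((contDiffAt_ta zp h0).differentiableAt (by simp)), fderiv_id] at h2
  have h3 := dArg_ta zp hl
  rw [pb] at h3
  rw [pb, Lt_eq h zp hm, pb, ContinuousLinearMap.add_comp, ContinuousLinearMap.comp_assoc, h2,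
    sg_ta zp h0, ContinuousLinearMap.smul_comp, add_assoc, ← smul_add, h3, smul_zero, add_zero,
    ContinuousLinearMap.comp_id]

end Pool.Agent.Lib.MP_7ed551_gt.Cy.Q
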