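import Pool.Agent.Lib.MP_7ed551_gt.Cy.Q.Pull
import Pool.Agent.Lib.MP_7ed551_gt.Cy.A.Moser

/-! The argument of Moser with fixed points. -/

open scoped ContDiff Topology
open Set Filter Metric Real
open Complex (I)

noncomputable section

namespace Pool.Agent.Lib.MP_7ed551_gt.Cy.Q

open Pool.Agent.Lib.MP_ccffa6_gt
open FA (nq Pf Far)

variable {S : Set E} {Λ Λ' Λ'' : Form1 E}

theorem pf_ne_of_tm {μ : Bil E} (h : FA.Alt μ) {L : E →L[ℝ] E} (ht : ∀ v, v ≠ 0 → 0 < μ v (L v)) :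
    Pf μ ≠ 0 := by
  refine (FA.pf_ne_iff h).2 ((injective_iff_map_eq_zero μ).2 fun v hv => by_contra fun h0 => ?_)
  simpa [hv] using ht v h0

theorem ode_uniq {X : ℝ × E → E} (hX : ContDiff ℝ ∞ X) {γ γ' : ℝ → E}
    (h : ∀ t ∈ Icc (0 : ℝ) 1, HasDerivAt γ (X (t, γ t)) t)
    (h' : ∀ t ∈ Icc (0 : ℝ) 1, HasDerivAt γ' (X (t, γ' t)) t) (h0 : γ 0 = γ' 0) :
    ∀ t ∈ Icc (0 : ℝ) 1, γ t = γ' t := by
  have hb : ∀ {γ : ℝ → E}, (∀ t ∈ Icc (0 : ℝ) 1, HasDerivAt γ (X (t, γ t)) t) →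
      ∃ C, ∀ t ∈ Icc (0 : ℝ) 1, ‖γ t‖ ≤ C := fun h => isCompact_Icc.exists_bound_of_continuousOn
    fun t ht => (h t ht).continuousAt.continuousWithinAt
  obtain ⟨C, hC⟩ := hb h
  obtain ⟨C', hC'⟩ := hb h'
  obtain ⟨K, hK⟩ := (hX.of_le (m := 1) (by simp)).contDiffOn.exists_lipschitzOnWith
    (s := Icc (0 : ℝ) 1 ×ˢ closedBall (0 : E) (max C C')) one_ne_zero
    ((convex_Icc _ _).prod (convex_closedBall _ _)) (isCompact_Icc.prod (isCompact_closedBall _ _))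
  refine fun t ht => sub_eq_zero.1 (FA.gron (C := K) (fun t ht => (h t ht).sub (h' t ht))
    (fun t ht => ?_) (left_mem_Icc.2 zero_le_one) (sub_eq_zero.2 h0) t ht)
  simpa using hK.norm_sub_le (x := (t, γ t)) (y := (t, γ' t))
    ⟨ht, mem_closedBall_zero_iff.2 ((hC t ht).trans (le_max_left _ _))⟩
    ⟨ht, mem_closedBall_zero_iff.2 ((hC' t ht).trans (le_max_right _ _))⟩

theorem flow_ext {X : ℝ × E → E} (hX : ContDiff ℝ ∞ X) (R : ℝ) :
    ∃ ρ : ℝ × E → E, ContDiff ℝ ∞ ρ ∧ (∀ x, ρ (0, x) = x) ∧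
      (∀ s ∈ Icc (0 : ℝ) 1, ∃ ρ', Dif (fun x => ρ (s, x)) ρ') ∧
      (∃ R' : ℝ, ∀ s ∈ Icc (0 : ℝ) 1, ∀ x, R' ≤ ‖x‖ → ρ (s, x) = x) ∧
      ∀ γ : ℝ → E, (∀ s ∈ Icc (0 : ℝ) 1, HasDerivAt γ (X (s, γ s)) s ∧ ‖γ s‖ ≤ R) →
        ∀ s ∈ Icc (0 : ℝ) 1, ρ (s, γ 0) = γ s := by
  let b : ContDiffBump (0 : E) := ⟨|R| + 1, |R| + 2, by positivity, by linarith⟩
  have hY : ContDiff ℝ ∞ fun p : ℝ × E => b p.2 • X p := (b.contDiff.comp contDiff_snd).smul hX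
  have hz : ∀ x : E, |R| + 2 ≤ ‖x‖ → b x = 0 := fun x hx =>
    b.zero_of_le_dist (by rwa [dist_zero_right])
  obtain ⟨ψ, -, h1, h2, h3, -⟩ := FA.tflow hY ⟨_, fun t x hx => by rw [hz x hx, zero_smul]⟩
  refine ⟨ψ, h1, h2, fun s hs => ?_, ⟨|R| + 2, fun s hs x hx => ?_⟩, fun γ hγ =>
    ode_uniq hY (h3 _) (fun t ht => ?_) (h2 _)⟩
  · have hZ : ContDiff ℝ ∞ fun p : ℝ × E => s • b p.2 • X (s * p.1, p.2) :=
      (hY.comp (f := fun p : ℝ × E => (s * p.1, p.2)) (by fun_prop)).const_smul s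
    obtain ⟨φ, φ', -, k2, k3, k4⟩ := FA.tflow hZ
      ⟨_, fun t x hx => by rw [hz x hx, zero_smul, smul_zero]⟩
    refine ⟨φ', (funext fun x => ?_ : (fun x => φ (1, x)) = fun x => ψ (s, x)) ▸ k4⟩
    have := ode_uniq hZ (γ' := fun t => ψ (s * t, x)) (k3 x) (fun t ht =>
      (h3 x _ ⟨mul_nonneg hs.1 ht.1, mul_le_one₀ hs.2 ht.1 ht.2⟩).scomp t
        (by simpa using (hasDerivAt_id t).const_mul s)) (by rw [k2, mul_zero, h2]) 1
      (right_mem_Icc.2 zero_le_one)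
    rwa [mul_one] at this
  · exact ode_uniq hY (γ' := fun _ => x) (h3 x) (fun t _ => by
      rw [hz x hx, zero_smul]; exact hasDerivAt_const t x) (h2 x) s hs
  · rw [b.one_of_mem_closedBall (mem_closedBall_zero_iff.2
      ((hγ t ht).2.trans ((le_abs_self R).trans (le_add_of_nonneg_right zero_le_one)))), one_smul]
    exact (hγ t ht).1

theorem moser_fix {F : ℝ × E → E →L[ℝ] ℝ} (hF : ContDiff ℝ ∞ F)
    (nd : ∀ t ∈ Icc (0 : ℝ) 1, ∀ x, Pf (dF (fun y => F (t, y)) x) ≠ 0)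
    (far : ∃ R : ℝ, ∀ t ∈ Icc (0 : ℝ) 1, ∀ x, R ≤ ‖x‖ → F (t, x) = F (0, x))
    (fix : ∀ t ∈ Icc (0 : ℝ) 1, ∀ x ∈ S, F (t, x) = F (0, x)) :
    Eqv S (fun y => F (0, y)) fun y => F (1, y) := by
  have m : ∀ t, smoothTransition t ∈ Icc (0 : ℝ) 1 := fun t =>
    ⟨smoothTransition.nonneg t, smoothTransition.le_one t⟩
  obtain ⟨G, hG, eG⟩ : ∃ G : ℝ × E → E →L[ℝ] ℝ, ContDiff ℝ ∞ G ∧
      ∀ t x, G (t, x) = F (smoothTransition t, x) :=
    ⟨_, hF.comp ((smoothTransition.contDiff.comp contDiff_fst).prodMk contDiff_snd), fun _ _ => rfl⟩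
  have n : ∀ t x, Pf (dF (fun y => G (t, y)) x) ≠ 0 := fun t => by
    simpa only [eG] using nd _ (m t)
  obtain ⟨X, h1, h2⟩ := FA.moser_field hG n
  have h3 : ∀ x, (∀ t ∈ Icc (0 : ℝ) 1, F (t, x) = F (0, x)) → ∀ t, X (t, x) = 0 := fun x h t => by
    have e := (hG.differentiable (by simp) (t, x)).hasFDerivAt.comp_hasDerivAt t
      ((hasDerivAt_id t).prodMk (hasDerivAt_const t x))
    simp only [Function.comp_def, id, eG, h _ (m _)] at e
    refine (FA.pf_ne_iff (FA.alt_dF _ _)).1 (n t x) (ContinuousLinearMap.ext fun v => ?_)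
    rw [h2, e.unique (hasDerivAt_const t _), map_zero]
    simp
  obtain ⟨ψ, ψ', h5, h6, h7, h8⟩ := FA.tflow h1 (far.imp fun R h t x hx =>
    h3 x (fun t ht => h t ht x hx) t)
  refine ⟨_, ψ', h8, fun x hx => ode_uniq h1 (h7 x) (γ' := fun _ => x) (fun t _ => ?_) (h6 x) 1
    (right_mem_Icc.2 zero_le_one), ?_⟩
  · rw [h3 x (fun t ht => fix t ht x hx) t]
    exact hasDerivAt_const t x
  · simpa only [eG, smoothTransition.zero, smoothTransition.one] using FA.moser_pull hG h2 h5 h6 h7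

theorem Eqv.symm (h : Eqv S Λ Λ') : Eqv S Λ' Λ := by
  obtain ⟨ψ, ψ', h1, h2, h3⟩ := h
  refine ⟨ψ', ψ, h1.symm, fun x hx => (congrArg ψ' (h2 x hx)).symm.trans (h1.left x),
    fun x u v => ?_⟩
  have e : ∀ u, fderiv ℝ ψ (ψ' x) (fderiv ℝ ψ' x u) = u := fun u => by
    rw [← ContinuousLinearMap.comp_apply, ← fderiv_comp _ (h1.sm.differentiable (by simp) _)
      (h1.sm'.differentiable (by simp) _), show ψ ∘ ψ' = id from funext h1.right, fderiv_id]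
    rfl
  rw [← h3, e, e, h1.right]

theorem Eqv.trans (h : Eqv S Λ Λ') (h' : Eqv S Λ' Λ'') : Eqv S Λ Λ'' := by
  obtain ⟨ψ, ψ', h1, h2, h3⟩ := h
  obtain ⟨φ, φ', h4, h5, h6⟩ := h'
  refine ⟨_, _, h4.comp h1, fun x hx => by rw [h2 x hx, h5 x hx], fun x u v => ?_⟩
  rw [fderiv_fun_comp _ (h4.sm.differentiable (by simp) _) (h1.sm.differentiable (by simp) _)]
  exact (h6 _ _ _).trans (h3 x u v)

theorem Eqv.congr {Γ Γ' : Form1 E} (h : Eqv S Λ Λ') (e : ∀ x, dF Γ x = dF Λ x)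
    (e' : ∀ x, dF Γ' x = dF Λ' x) : Eqv S Γ Γ' := by
  simpa only [Eqv, e, e'] using h

theorem eqv_convex (h : Far Λ) (h' : Far Λ') {J : E → E →L[ℝ] E} (t : Tm Λ J) (t' : Tm Λ' J)
    (e : ∀ x ∈ S, Λ x = Λ' x) : Eqv S Λ Λ' := by
  obtain ⟨R, hR⟩ := h.far
  obtain ⟨R', hR'⟩ := h'.far
  have d := h.sm.differentiable (by simp)
  have d' := h'.sm.differentiable (by simp)
  simpa using moser_fix (S := S) (F := fun p => (1 - p.1) • Λ p.2 + p.1 • Λ' p.2)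
    (((contDiff_const.sub contDiff_fst).smul (h.sm.comp contDiff_snd)).add
      (contDiff_fst.smul (h'.sm.comp contDiff_snd)))
    (fun s hs x => pf_ne_of_tm (FA.alt_dF _ _) (L := J x) fun v hv => by
      dsimp only
      rw [dF_add ((d x).fun_const_smul _) ((d' x).fun_const_smul _), add_apply, add_apply,
        dF_smul (differentiableAt_const _) (d x), dF_smul (differentiableAt_const _) (d' x)]
      have := t x v hv
      have := t' x v hv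
      simp only [fderiv_fun_const, Pi.zero_apply, zero_apply, zero_mul, sub_zero, zero_add]
      rcases hs.1.eq_or_lt with rfl | h0
      · linarith
      · exact add_pos_of_nonneg_of_pos (mul_nonneg (sub_nonneg.2 hs.2) (by linarith))
          (mul_pos h0 this))
    ⟨max R R', fun s _ x hx => by
      simp [hR x (le_of_max_le_left hx), hR' x (le_of_max_le_right hx), ← add_smul]⟩
    fun s _ x hx => by simp [← e x hx, ← add_smul]

theorem eqv_fam {F : ℝ × E → E →L[ℝ] ℝ} (hF : ContDiff ℝ ∞ F)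
    (nd : ∀ s ∈ Icc (0 : ℝ) 1, ∀ x, Pf (dF (fun y => F (s, y)) x) ≠ 0)
    (far : ∃ R : ℝ, ∀ s x, R ≤ ‖x‖ → F (s, x) = lam0 x) {ρ : ℝ × E → E} (hρ : ContDiff ℝ ∞ ρ)
    (ρ0 : ∀ x, ρ (0, x) = x) (dif : ∀ s ∈ Icc (0 : ℝ) 1, ∃ ρ', Dif (fun x => ρ (s, x)) ρ')
    (ρf : ∃ R : ℝ, ∀ s ∈ Icc (0 : ℝ) 1, ∀ x, R ≤ ‖x‖ → ρ (s, x) = x) {h : ℝ × E → ℝ}
    (hh : ContDiff ℝ ∞ h) (hc : HasCompactSupport h)
    (fix : ∀ s ∈ Icc (0 : ℝ) 1, ∀ x ∈ S,
      pb (fun y => ρ (s, y)) (fun y => F (s, y)) x + fderiv ℝ (fun y => h (s, y)) x = Λ x) :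
    Eqv S (fun y => F (0, y)) (pb (fun y => ρ (1, y)) fun y => F (1, y)) := by
  obtain ⟨R, hR⟩ := far
  obtain ⟨R1, h1⟩ := ρf
  obtain ⟨R2, h2⟩ := hc.isBounded.exists_norm_le
  have c : ∀ s : ℝ, ContDiff ℝ ∞ fun y : E => (s, y) := fun s => contDiff_const.prodMk contDiff_id
  have q : ContDiff ℝ ∞ fun q : (ℝ × E) × E => (q.1.1, q.2) := contDiff_fst.fst.prodMk contDiff_snd
  have e : ∀ s x, dF (fun x => pb (fun y => ρ (s, y)) (fun y => F (s, y)) x +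
      fderiv ℝ (fun y => h (s, y)) x) x = dF (pb (fun y => ρ (s, y)) fun y => F (s, y)) x :=
    fun s x => (dF_add ((contDiff_pb (hρ.comp (c s)) (hF.comp (c s))).differentiable (by simp) x)
      (((hh.comp (c s)).fderiv_right (m := 1) (by norm_cast)).differentiable (by simp) x)).trans (by
        rw [dF_fderiv ((hh.comp (c s)).contDiffAt.of_le (by norm_cast))]
        exact ContinuousLinearMap.ext fun u => add_zero _)
  have f : ∀ s ∈ Icc (0 : ℝ) 1, ∀ x, max R (max R1 R2) + 1 ≤ ‖x‖ →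
      pb (fun y => ρ (s, y)) (fun y => F (s, y)) x + fderiv ℝ (fun y => h (s, y)) x = lam0 x :=
    fun s hs x hx => by
      have := (isOpen_lt continuous_const continuous_norm).eventually_mem
        ((lt_add_one _).trans_le hx)
      simp only [mem_ofPred, max_lt_iff] at this
      have e1 : (fun y => ρ (s, y)) =ᶠ[𝓝 x] id := this.mono fun y hy => h1 s hs y hy.2.1.le
      have e2 : (fun y => h (s, y)) =ᶠ[𝓝 x] fun _ => 0 := this.mono fun y hy =>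
        image_eq_zero_of_notMem_tsupport fun a => hy.2.2.not_ge ((norm_snd_le (s, y)).trans (h2 _ a))
      rw [pb, e1.fderiv_eq, e2.fderiv_eq, h1 s hs x this.self_of_nhds.2.1.le,
        hR s x this.self_of_nhds.1.le]
      simp
  refine (moser_fix (F := fun p => pb (fun y => ρ (p.1, y)) (fun y => F (p.1, y)) p.2 +
    fderiv ℝ (fun y => h (p.1, y)) p.2) (((hF.comp (contDiff_fst.prodMk hρ)).clm_comp
      (ContDiff.fderiv (hρ.comp q) contDiff_snd (by simp))).add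
      (ContDiff.fderiv (hh.comp q) contDiff_snd (by simp))) (fun s hs x => ?_)
    ⟨_, fun s hs x hx => (f s hs x hx).trans (f 0 (by simp) x hx).symm⟩
    fun s hs x hx => (fix s hs x hx).trans (fix 0 (by simp) x hx).symm).congr (fun x => ?_)
    fun x => (e 1 x).symm
  · obtain ⟨ρ', hd⟩ := dif s hs
    exact (e s x).symm ▸ (FA.Far.pf_pb ⟨hF.comp (c s), R, hR s⟩ (nd s hs) hd x).ne'
  · rw [e, funext ρ0]
    congr 1
    ext1 y
    simp [pb]

end Pool.Agent.Lib.MP_7ed551_gt.Cy.Q
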