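import Pool.Agent.Lib.MP_7ed551_gt.Cy.Q.Pull

/-! Foliations for structures tamed by a form which is standard up to a diffeomorphism. -/

open scoped ContDiff Topology
open Set Filter Metric Real
open Complex (I)

noncomputable section

namespace Pool.Agent.Lib.MP_7ed551_gt.Cy.Q

open Pool.Agent.Lib.MP_ccffa6_gt
open FA (nq Pf Far)

variable {Λ Λ' : Form1 E} {J J' : E → E →L[ℝ] E} {Ξ Ξ' Ψ P : E → E} {K : Set E}

theorem fol_conj (h : Fol J Ψ P) (hΞ : Dif Ξ Ξ')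
    (e : ∀ x v, fderiv ℝ Ξ x (J x v) = J' (Ξ x) (fderiv ℝ Ξ x v)) :
    Fol J' (fun x => Ξ (Ψ x)) fun y => P (Ξ' y) := by
  obtain ⟨R, hR⟩ := hΞ.far
  have sm : ContDiff ℝ ∞ fun x => Ξ (Ψ x) := hΞ.sm.comp h.sm
  refine ⟨sm, h.sm'.comp hΞ.sm', fun x => by rw [hΞ.left, h.left], fun x => by rw [h.right, hΞ.right],
    fun c z hz => ?_, ?_, ?_⟩
  · have d := fderiv_fun_comp z (hΞ.sm.differentiable (by simp) _)
      ((h.leaf c).sm.differentiable (by simp) z)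
    obtain ⟨h1, h2⟩ := h.hol c z hz
    simp only [px, py] at h1 h2 ⊢
    rw [d, ContinuousLinearMap.comp_apply, ContinuousLinearMap.comp_apply, ← e, ← e, ← h1, ← map_neg,
      ← h2]
    exact ⟨rfl, rfl⟩
  · obtain ⟨R₀, h0⟩ := h.far
    exact ⟨max R R₀, fun x hx => by
      rw [h0 x (le_of_max_le_right hx), hR x ((le_of_max_le_left hx).trans (norm_snd_le x))]⟩
  obtain ⟨C, hC⟩ := h.dec
  obtain ⟨M, hM⟩ := (isCompact_closedBall (0 : E) (R + |C|)).bddAbove_image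
    (f := fun x => (‖Ξ (Ψ x) - x‖ + ‖fderiv ℝ (fun x => Ξ (Ψ x)) x - .id ℝ E‖) * ‖x.1‖)
    (((sm.continuous.sub continuous_id).norm.add
      ((sm.continuous_fderiv (by simp)).sub continuous_const).norm).mul
      continuous_fst.norm).continuousOn
  refine ⟨max C M, fun x hx => ?_⟩
  have x0 : 0 < ‖x.1‖ := by linarith
  obtain ⟨h1, h2⟩ := hC x hx
  rcases le_or_gt ‖x‖ (R + |C|) with h3 | h3
  · have := ((le_div_iff₀ x0).2 (hM (mem_image_of_mem _ (mem_closedBall_zero_iff.2 h3)))).trans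
      (div_le_div_of_nonneg_right (le_max_right C M) x0.le)
    exact ⟨(le_add_of_nonneg_right (norm_nonneg _)).trans this,
      (le_add_of_nonneg_left (norm_nonneg _)).trans this⟩
  · have h4 := (h1.trans (div_le_div_of_nonneg_right (le_abs_self C) x0.le)).trans
      (div_le_self (abs_nonneg C) hx)
    have h5 : (fun x => Ξ (Ψ x)) =ᶠ[𝓝 x] Ψ :=
      ((isOpen_lt continuous_const h.sm.continuous.norm).eventually_mem (show R < ‖Ψ x‖ by
        linarith [norm_sub_norm_le x (Ψ x), norm_sub_rev x (Ψ x)])).mono fun y hy =>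
          hR _ (le_of_lt hy)
    have h6 := div_le_div_of_nonneg_right (le_max_left C M) x0.le
    rw [h5.fderiv_eq, show Ξ (Ψ x) = Ψ x from h5.self_of_nhds]
    exact ⟨h1.trans h6, h2.trans h6⟩

theorem fol_of (hF : FolStmt) (h : Amb Λ' J' K) (hΞ : Dif Ξ Ξ') (hΛ : Far Λ)
    (h0 : Tm Λ fun _ => J0)
    (e : ∀ x u v, dF Λ' (Ξ x) (fderiv ℝ Ξ x u) (fderiv ℝ Ξ x v) = dF Λ x u v) :
    ∃ Ψ P, Fol J' Ψ P := by
  obtain ⟨R, hR⟩ := amb_of ((Amb.acs h).pull hΞ) hΛ fun x v hv => by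
    rw [← e, pJ_spec hΞ]
    exact h.tame _ _ fun z => hv (hΞ.inj_fderiv x (z.trans (map_zero _).symm))
  obtain ⟨Jt, h1, h2⟩ := hR.exists_path h0
  obtain ⟨Ψ, P, h3⟩ := hF _ _ _ h1
  exact ⟨_, _, fol_conj h3 hΞ fun x v => by rw [h2, pJ_spec hΞ]⟩

end Pool.Agent.Lib.MP_7ed551_gt.Cy.Q
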