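import Pool.Agent.Lib.MP_7ed551_gt.Cy.Q.PC
import Pool.Agent.Lib.MP_7ed551_gt.Cy.Q.PJ

/-! The extension of the projective maps. -/

open scoped ContDiff Topology
open Set Filter Metric Real
open Complex (I)

noncomputable section

namespace Pool.Agent.Lib.MP_7ed551_gt.Cy.Q

open Pool.Agent.Lib.MP_ccffa6_gt
open FA (nq Pf Far)

variable {Λ Λ' : Form1 E} {J : E → E →L[ℝ] E} {cs zp : ℂ} {B : Set E} {Θ : E → E} {N t c a : ℝ}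
  {k : ℤ × ℤ}

theorem exists_rho (hB : IsCompact B) (hc : ∀ x ∈ B, ‖x.1‖ < ‖cs‖) (zp : ℂ) :
    ∃ (ρ : ℝ × E → E) (V : Set E) (R : ℝ), ContDiff ℝ ∞ ρ ∧ (∀ x, ρ (0, x) = x) ∧
      (∀ s ∈ Icc (0 : ℝ) 1, ∃ ρ', Dif (fun x => ρ (s, x)) ρ') ∧
      (∃ R' : ℝ, ∀ s ∈ Icc (0 : ℝ) 1, ∀ x, R' ≤ ‖x‖ → ρ (s, x) = x) ∧ IsOpen V ∧ B ⊆ V ∧
      ∀ x ∈ V, ‖x.1‖ < ‖cs‖ ∧
        ∀ s ∈ Icc (0 : ℝ) 1, ρ (s, x) = ta cs zp s x ∧ ‖ta cs zp s x‖ ≤ R := by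
  obtain ⟨r, hr, h1⟩ : ∃ r : ℝ, r < ‖cs‖ ∧ ∀ x ∈ B, ‖x.1‖ < r := by
    rcases B.eq_empty_or_nonempty with rfl | hn
    · exact ⟨‖cs‖ - 1, by linarith, fun _ h => h.elim⟩
    · obtain ⟨z, hz, h⟩ := hB.exists_isMaxOn hn (f := fun x : E => ‖x.1‖) (by fun_prop)
      obtain ⟨r, h1, h2⟩ := exists_between (hc z hz)
      exact ⟨r, h2, fun x hx => lt_of_le_of_lt (h hx) h1⟩
  obtain ⟨R, h2⟩ := hB.isBounded.subset_ball 0
  obtain ⟨ρ, a1, a2, a3, a4, a5⟩ := flow_ext (contDiff_vel cs zp) ((R + ‖zp‖) / (1 - r / ‖cs‖))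
  refine ⟨ρ, {x | ‖x.1‖ < r} ∩ ball 0 R, (R + ‖zp‖) / (1 - r / ‖cs‖), a1, a2, a3, a4,
    (isOpen_lt (by fun_prop) continuous_const).inter isOpen_ball, fun x hx => ⟨h1 x hx, h2 hx⟩,
    fun x hx => ⟨hx.1.trans hr, fun s hs => ?_⟩⟩
  have h3 := fun s hs => norm_ta_le (s := s) zp hr hs hx.1.le (mem_ball_zero_iff.1 hx.2).le
  have h4 := a5 (fun s => ta cs zp s x) (fun s hs => ⟨hd_ta zp
    (Complex.slitPlane_ne_zero (ll_slit hs (hx.1.trans hr))), h3 s hs⟩) s hs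
  rw [ta_zero] at h4
  exact ⟨h4, h3 s hs⟩

theorem exists_corr (hB : IsCompact B) (hc : ∀ x ∈ B, ‖x.1‖ < ‖cs‖) (A : ℝ) :
    ∃ h : ℝ × E → ℝ, ContDiff ℝ ∞ h ∧ HasCompactSupport h ∧ ∀ s ∈ Icc (0 : ℝ) 1, ∀ x ∈ B,
      fderiv ℝ (fun y => h (s, y)) x =
        (A / 2) • fderiv ℝ (fun z => (Complex.log (ll cs s z)).im) x := by
  obtain ⟨h, h1, h2, -, h3⟩ := exists_smooth_nhdsSet (isCompact_Icc.prod hB).isClosed
    (Complex.isOpen_slitPlane.preimage (contDiff_ll cs).continuous)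
    (fun p hp => ll_slit (s := p.1) hp.1 (hc _ hp.2))
    (f := fun p => (A / 2) • (Complex.log (ll cs p.1 p.2)).im) fun p hp =>
      ((Complex.imCLM.contDiff.contDiffAt.comp p (((Complex.contDiffAt_log hp).restrict_scalars
        ℝ).comp p (contDiff_ll cs).contDiffAt)).const_smul (A / 2)).contDiffWithinAt
  refine ⟨h, h1, h3 (isCompact_Icc.prod hB), fun s hs x hx => ?_⟩
  have h4 : (fun y => h (s, y)) =ᶠ[𝓝 x] (A / 2) • fun z => (Complex.log (ll cs s z)).im :=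
    (Continuous.prodMk_right s).continuousAt.eventually
      (h2.filter_mono (nhds_le_nhdsSet (mk_mem_prod hs hx)))
  rw [h4.fderiv_eq, fderiv_const_smul_field]
  rfl

theorem can_exact (h : Can Λ Θ N c a k) (hΘ : Cht J Θ N) (ht : t ≤ N) {ρ : E → E}
    (hρ : ContDiff ℝ ∞ ρ) {g : E → ℝ} (hg : ContDiff ℝ ∞ g)
    (e : ∀ Z ∈ Box t, pb ρ Λ' (Θ Z) + fderiv ℝ g (Θ Z) = Λ (Θ Z)) :
    Can Λ' (fun Z => ρ (Θ Z)) t c a k := by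
  obtain ⟨f, h1, h2, h3, h4⟩ := h
  refine ⟨fun Z => f Z - g (Θ Z), h1.sub (hg.comp hΘ.sm), fun Z => by simp only [h2, hΘ.per1],
    fun Z => by simp only [h3, hΘ.per2], fun Z hZ v => ?_⟩
  have d := (hΘ.sm.differentiable (by simp) Z).hasFDerivAt
  have a1 := ((h1.differentiable (by simp) Z).hasFDerivAt.fun_sub
    ((hg.differentiable (by simp) _).hasFDerivAt.comp Z d)).fderiv
  have a2 := ((hρ.differentiable (by simp) _).hasFDerivAt.comp Z d).fderiv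
  have a3 := h4 Z ⟨hZ.1.trans_le ht, hZ.2.trans_le ht⟩ v
  have a4 := DFunLike.congr_fun (e Z hZ) (fderiv ℝ Θ Z v)
  simp only [Function.comp_def] at a1 a2
  simp only [pb, a1, a2, ContinuousLinearMap.comp_apply, add_apply, sub_apply] at a3 a4 ⊢
  linarith

theorem cht_Jp (h : Cht J Θ t) {ρ ρ' : E → E} (hρ : Dif ρ ρ') {V : Set E} (hV : IsOpen V)
    (hs : ∀ Z ∈ Box t, Θ Z ∈ V) (e : ∀ x ∈ V, ll cs 1 x ≠ 0 ∧ ρ x = ta cs zp 1 x) :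
    Cht (Jp J cs zp) (fun Z => ρ (Θ Z)) t := by
  refine cht_pull h hρ.symm ?_
  rintro y ⟨Z, hZ, h1⟩ v
  have h2 : ∀ y, ρ' y ∈ V → y = ta cs zp 1 (ρ' y) := fun y hy => by rw [← (e _ hy).2, hρ.right]
  have h3 : ρ' y ∈ V := h1 ▸ hs Z hZ
  have h4 : ρ' =ᶠ[𝓝 y] sg cs zp 1 :=
    (hρ.sm'.continuous.continuousAt.eventually (hV.mem_nhds h3)).mono fun w hw =>
      ((congrArg _ (h2 w hw)).trans (sg_ta zp (e _ hw).1)).symm
  rw [h4.fderiv_eq, h4.eq_of_nhds]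
  exact Jp_hol J zp (by rw [h2 y h3, mm_ta zp (e _ h3).1]; exact inv_ne_zero (e _ h3).1) v

end Pool.Agent.Lib.MP_7ed551_gt.Cy.Q
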