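import Pool.Agent.Lib.MP_7ed551_gt.Cy.Q.PR
import Pool.Agent.Lib.MP_7ed551_gt.Cy.Q.PO

/-! The projective transformation. -/

open scoped ContDiff Topology
open Set Filter Metric Real
open Complex (I)

noncomputable section

namespace Pool.Agent.Lib.MP_7ed551_gt.Cy.Q

open Pool.Agent.Lib.MP_ccffa6_gt
open FA (nq Pf Far)

theorem exists_proj {Λo Λx : Form1 E} {Jx : E → E →L[ℝ] E} {Θ : E → E} {N c a A D t : ℝ}
    {k : ℤ × ℤ} {cs zp : ℂ} (h : Prep Λo Λx Jx Θ N c a A D k cs zp) (h0 : 0 < t)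
    (ht : t ≤ N / 20) : ∃ Λ' J' K' ρ ρ', Proj Λo Jx Θ t c a k cs zp Λ' J' K' ρ ρ' := by
  have N0 := h.N0
  have hB : IsCompact (Θ '' CBox (N / 20)) :=
    Per2.compact ⟨h.cht.per1, h.cht.per2⟩ h.cht.sm.continuous.continuousOn
  have hc : ∀ x ∈ Θ '' CBox (N / 20), ‖x.1‖ < ‖cs‖ := forall_mem_image.2 h.lab
  have m0 : ∀ Z ∈ CBox 0, Z ∈ CBox (N / 20) := fun Z hZ =>
    Box_sub le_rfl (CBox_sub (by positivity) hZ)
  have c0 : cs ≠ 0 := norm_pos_iff.1 ((norm_nonneg _).trans_lt (h.lab 0 (m0 0 (by simp [CBox]))))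
  have i0 : (0 : ℝ) ∈ Icc (0 : ℝ) 1 := left_mem_Icc.2 zero_le_one
  have i1 : (1 : ℝ) ∈ Icc (0 : ℝ) 1 := right_mem_Icc.2 zero_le_one
  obtain ⟨ρ, V, R, r1, r2, r3, r4, r5, r6, r7⟩ := exists_rho hB hc zp
  obtain ⟨g, g1, g2, g3⟩ := exists_corr hB hc A
  obtain ⟨Jo, o1, o2, Ro, o3⟩ := h.old
  have hJ := acs_Jp h.acs c0 zp h.near
  obtain ⟨RJ, j1⟩ := hJ.far
  obtain ⟨F, f1, S, f2⟩ := exists_cap h.fin h.acs h.tame h.bas c0 zp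
    (R := max (max R 1) (max Ro RJ)) (by positivity)
  have fF : ∀ s, Far fun y => F (s, y) := fun s =>
    ⟨f1.sm.comp (contDiff_const.prodMk contDiff_id), S, f2 s⟩
  have e1 : ∀ x ∈ V, ∀ s ∈ Icc (0 : ℝ) 1, F (s, ta cs zp s x) = Lt Λx A D cs zp (s, ta cs zp s x) :=
    fun x hx s hs => f1.eq s _ (((r7 x hx).2 s hs).2.trans (by simp))
  have e2 : ∀ s ∈ Icc (0 : ℝ) 1, ∀ x ∈ Θ '' CBox (N / 20), pb (fun y => ρ (s, y))
      (fun y => F (s, y)) x + fderiv ℝ (fun y => g (s, y)) x = Λx x := fun s hs x hx => by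
    have a1 : (fun y => ρ (s, y)) =ᶠ[𝓝 x] ta cs zp s :=
      (r5.eventually_mem (r6 hx)).mono fun y hy => ((r7 y hy).2 s hs).1
    rw [g3 s hs x hx, ← pb_ta h.fin zp (ll_slit hs (hc x hx))]
    simp only [pb, a1.fderiv_eq, ((r7 x (r6 hx)).2 s hs).1, e1 x (r6 hx) s hs]
  obtain ⟨ρ', d1⟩ := r3 1 i1
  obtain ⟨R', am⟩ := amb_of hJ (fF 1) (f1.tm 1 i1 _ (tm_Jp h.fin h.tame cs zp)
    fun y hy => j1 y (le_trans (by simp) hy))
  have b1 : ∀ Z ∈ Box t, Θ Z ∈ Θ '' CBox (N / 20) := fun Z hZ => mem_image_of_mem Θ (Box_sub ht hZ)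
  have tN : t ≤ N := by linarith
  refine ⟨_, _, _, _, ρ', am, d1, (eqv_convex h.far (fF 0) o1 (f1.tm 0 i0 Jo ?_
    fun y hy => o3 y (le_trans (by simp) hy)) ?_).trans (eqv_fam f1.sm f1.nd ⟨S, f2⟩ r1 r2 r3 r4 g1
      g2 fun s hs x hx => e2 s hs x (image_mono m0 hx)), cht_Jp (cht_mono h.cht tN) d1 r5
      (fun Z hZ => r6 (b1 Z hZ)) fun x hx => ⟨Complex.slitPlane_ne_zero (ll_slit i1 (r7 x hx).1),
        ((r7 x hx).2 1 i1).1⟩, can_exact h.can h.cht tN d1.sm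
      (g1.comp (contDiff_const.prodMk contDiff_id)) fun Z hZ => e2 1 i1 _ (b1 Z hZ),
    fun Z hZ => ((r7 _ (r6 (b1 Z hZ))).2 1 i1).1, fun y hy => Jp_hol Jx zp hy,
    Jp_std h.acs c0 zp h.near⟩
  · simpa only [Lt_zero] using o2
  · rintro _ ⟨Z, hZ, rfl⟩
    have a1 := e1 _ (r6 (mem_image_of_mem Θ (m0 Z hZ))) 0 i0
    rw [ta_zero, Lt_zero] at a1
    exact (h.eq Z (CBox_sub N0 hZ)).trans a1.symm

end Pool.Agent.Lib.MP_7ed551_gt.Cy.Q
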