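import Pool.Agent.Lib.MP_7ed551_gt.Cy.Q.PL
import Pool.Agent.Lib.MP_7ed551_gt.Cy.Q.PM

/-! The three zones. -/

open scoped ContDiff Topology
open Set Filter Metric Real
open Complex (I)

noncomputable section

namespace Pool.Agent.Lib.MP_7ed551_gt.Cy.Q

open Pool.Agent.Lib.MP_ccffa6_gt
open FA (nq Pf Far)

variable {Λ : Form1 E} {J : E → E →L[ℝ] E} {A D : ℝ} {cs zp : ℂ} {μ Ω : Bil E}

theorem pf_pos_of_tame (h : FA.Alt μ) (ht : ∀ v, v ≠ 0 → 0 < μ v (J0 v)) : 0 < Pf μ := by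
  have := FA.pos_of_ne (g := fun t : ℝ => Pf (cos t ^ 2 • μ + sin t ^ 2 • omL))
    (by simp only [Pf, add_apply, smul_apply]; fun_prop)
    (fun t => FA.pf_ne_of_tame (fun u v => ?_) fun v hv => ?_) (x₀ := π / 2)
    (by simp [Pf, omL_apply, om, w1]) 0
  · simpa [Pf] using this
  · simp only [add_apply, smul_apply, smul_eq_mul, omL_apply, om, w1, h u v]
    ring
  · simp only [add_apply, smul_apply, omL_apply, FA.om_J0]
    exact convex_Ioi (𝕜 := ℝ) (0 : ℝ) (ht v hv) ((pow_pos (norm_pos_iff.2 hv) 2).trans_le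
      (FA.sq_norm_le v)) (sq_nonneg _) (sq_nonneg _) (cos_sq_add_sin_sq t)

theorem pf_pos (hΛ : ContDiff ℝ ∞ Λ) (hJ : Acs J) (ht : Tm Λ J) (x : E) : 0 < Pf (dF Λ x) := by
  obtain ⟨R, hR⟩ := hJ.far
  refine FA.pos_of_ne (g := fun x => Pf (dF Λ x)) (FA.cont_pf.comp (contDiff_dF hΛ).continuous)
    (fun x => pf_ne_of_tm (FA.alt_dF Λ x) (ht x)) (x₀ := ((R : ℂ), 0))
    (pf_pos_of_tame (FA.alt_dF _ _) ?_) x
  rw [← hR ((R : ℂ), 0) (by simp [le_abs_self])]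
  exact ht _

theorem pf_add_fst {c : ℝ} (e : ∀ u v, Ω u v = μ u v + c * w1 u.1 v.1) :
    Pf Ω = Pf μ + c * μ (0, 1) (0, I) := by
  simp [Pf, e, w1]
  ring

theorem Lt_nd (h : End Λ A D) (hJ : Acs J) (ht : Tm Λ J) (hb : ∀ x, 0 < dF Λ x (0, 1) (0, I))
    (cs zp : ℂ) (s : ℝ) (y : E) {c : ℝ} (hc : 0 ≤ c) (u : E)
    (hu : ∀ v, dF (fun z => Lt Λ A D cs zp (s, z)) y u v + c * w1 u.1 v.1 = 0) : u = 0 := by
  by_cases hm : mm cs s y = 0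
  · obtain ⟨R, -, hR⟩ := Lt_off h cs zp
    by_contra h0
    have h1 := hR s y (.inl hm) u h0
    have h2 := hu (J0 u)
    simp only [w1, J0_apply, Prod.smul_fst, smul_eq_mul, Complex.mul_re, Complex.mul_im,
      Complex.I_re, Complex.I_im] at h1 h2
    nlinarith [mul_nonneg hc (mul_self_nonneg u.1.re), mul_nonneg hc (mul_self_nonneg u.1.im)]
  obtain ⟨L, hL⟩ := fderiv_sg_inv zp hm
  have e1 : ∀ v, v.1 = mm cs s y ^ 2 * (L v).1 := fun v => by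
    rw [← ContinuousLinearEquiv.coe_coe, hL, fderiv_sg_fst zp hm,
      mul_div_cancel₀ _ (pow_ne_zero 2 hm)]
  obtain ⟨Ω, e⟩ : ∃ Ω : Bil E, ∀ u v, Ω u v = dF Λ (sg cs zp s y) u v +
      c * Complex.normSq (mm cs s y ^ 2) * w1 u.1 v.1 :=
    ⟨dF Λ (sg cs zp s y) + (c * Complex.normSq (mm cs s y ^ 2)) •
      w1L.bilinearComp (.fst ℝ ℂ ℂ) (.fst ℝ ℂ ℂ), fun u v => by
      rw [← w1L_apply]
      rfl⟩
  have h1 : Pf Ω ≠ 0 := pf_add_fst e ▸ (add_pos_of_pos_of_nonneg (pf_pos h.sm hJ ht _)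
    (mul_nonneg (mul_nonneg hc (Complex.normSq_nonneg _)) (hb _).le)).ne'
  refine L.map_eq_zero_iff.1 ((injective_iff_map_eq_zero _).1 ((FA.pf_ne_iff fun u v => ?_).1 h1) _
    (ContinuousLinearMap.ext fun v => ?_))
  · rw [e, e, FA.alt_dF Λ _ u v, w1, w1]
    ring
  · obtain ⟨v, rfl⟩ := L.surjective v
    have h2 := hu v
    rw [dF_Lt h zp hm, ← hL, e1 u, e1 v] at h2
    simp only [e, w1, Complex.mul_re, Complex.mul_im, Complex.normSq_apply,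
      ContinuousLinearEquiv.coe_coe, zero_apply] at h2 ⊢
    linear_combination h2

theorem exists_K_aux (hΛ : ContDiff ℝ ∞ Λ) (R : ℝ) : ∃ M : ℝ, 0 ≤ M ∧ ∀ x, ‖x‖ ≤ R → ∀ u v,
    -(M * ‖u‖ * ‖v‖) ≤ dF Λ x u v := by
  obtain ⟨M, hM⟩ := (isCompact_closedBall (0 : E) R).bddAbove_image
    ((continuous_norm (E := Bil E)).comp (contDiff_dF hΛ).continuous).continuousOn
  exact ⟨|M|, abs_nonneg M, fun x hx u v => (abs_le.1 ((dF Λ x).le_of_opNorm₂_le_of_le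
    ((hM ⟨x, mem_closedBall_zero_iff.2 hx, rfl⟩).trans (le_abs_self M)) le_rfl le_rfl)).1⟩

theorem exists_K (hΛ : ContDiff ℝ ∞ Λ) (hb : ∀ x, 0 < dF Λ x (0, 1) (0, I)) (R : ℝ) :
    ∃ K : ℝ, 0 ≤ K ∧ ∀ x, ‖x‖ ≤ R → ∀ v, v ≠ 0 → 0 < dF Λ x v (J0 v) + K * ‖v.1‖ ^ 2 := by
  obtain ⟨M, M0, hM⟩ := exists_K_aux hΛ R
  obtain ⟨b, b0, h1⟩ := (isCompact_closedBall (0 : E) R).exists_forall_le'
    (f := fun x => dF Λ x (0, 1) (0, I))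
    (((contDiff_dF hΛ).continuous.clm_apply continuous_const).clm_apply
      continuous_const).continuousOn fun x _ => hb x
  refine ⟨M + 2 * M ^ 2 / b + b / 2, by positivity, fun x hx ⟨p, q⟩ hv => ?_⟩
  have e1 : dF Λ x (0, q) (0, I * q) = ‖q‖ ^ 2 * dF Λ x (0, 1) (0, I) := by
    have a1 := FA.alt_dF Λ x (0, 1) (0, 1)
    have a2 := FA.alt_dF Λ x (0, I) (0, I)
    rw [FA.bil_left, FA.bil_right _ (0, 1), FA.bil_right _ (0, I), FA.alt_dF Λ x (0, I) (0, 1),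
      Complex.sq_norm, Complex.normSq_apply]
    simp
    linear_combination (-q.re * q.im / 2) * a1 + (q.im * q.re / 2) * a2
  have e2 : dF Λ x (p, q) (J0 (p, q)) = dF Λ x (p, 0) (I * p, 0) + dF Λ x (p, 0) (0, I * q) +
      (dF Λ x (0, q) (I * p, 0) + dF Λ x (0, q) (0, I * q)) := by
    rw [← map_add, ← map_add, ← add_apply, ← map_add]
    simp [J0_apply]
  have a1 := hM x hx (p, 0) (I * p, 0)
  have a2 := hM x hx (p, 0) (0, I * q)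
  have a3 := hM x hx (0, q) (I * p, 0)
  have a4 := mul_le_mul_of_nonneg_left (h1 x (mem_closedBall_zero_iff.2 hx)) (sq_nonneg ‖q‖)
  have a5 := mul_pos b0 (nq_pos hv)
  have a6 : 0 ≤ (2 * M * ‖p‖ - b * ‖q‖) ^ 2 / (2 * b) := by positivity
  have a7 : (2 * M * ‖p‖ - b * ‖q‖) ^ 2 / (2 * b) =
      2 * M ^ 2 / b * ‖p‖ ^ 2 - 2 * M * ‖p‖ * ‖q‖ + b / 2 * ‖q‖ ^ 2 := by
    field_simp
    ring
  simp [nq] at a1 a2 a3 a5 ⊢
  rw [e2, e1]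
  linarith

theorem Lt_mid (h : End Λ A D) (hb : ∀ x, 0 < dF Λ x (0, 1) (0, I)) (hc : cs ≠ 0) (zp : ℂ)
    (R' : ℝ) : ∃ S : ℝ, ∀ s ∈ Icc (0 : ℝ) 1, ∀ y, S ≤ ‖y‖ → ∀ v, v ≠ 0 →
      0 < dF (fun z => Lt Λ A D cs zp (s, z)) y v (J0 v) ∨
        (R' ≤ ‖y.1‖ ∧ 0 < dF (fun z => Lt Λ A D cs zp (s, z)) y v (J0 v) + ‖v.1‖ ^ 2) := by
  obtain ⟨R, R0, hR⟩ := Lt_off h cs zp
  obtain ⟨K, K0, hK⟩ := exists_K h.sm hb R
  have c0 := norm_pos_iff.2 hc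
  refine ⟨(1 + K + |R'| / ‖cs‖) * (R + ‖zp‖), fun s hs y hy v hv => ?_⟩
  by_cases h1 : mm cs s y = 0 ∨ R < ‖sg cs zp s y‖
  · exact Or.inl (hR s y h1 v hv)
  obtain ⟨hm, hx⟩ := not_or.1 h1
  have h2 := le_of_mul_le_mul_right (hy.trans (norm_le_mm hs hm (not_lt.1 hx))) (by positivity)
  have h3 : 0 ≤ |R'| / ‖cs‖ := by positivity
  have h4 : |R'| / ‖cs‖ ≤ ‖y.1‖ / ‖cs‖ := by linarith [norm_mm_le (cs := cs) hs y]
  refine Or.inr ⟨(le_abs_self _).trans ((div_le_div_iff_of_pos_right c0).1 h4), ?_⟩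
  have h5 := hK _ (not_lt.1 hx) (fderiv ℝ (sg cs zp s) y v) fun e =>
    hv ((fderiv_sg_inv zp hm).injective (e.trans (map_zero _).symm))
  have h6 : K ≤ (‖mm cs s y‖ ^ 2) ^ 2 := by
    rw [← pow_mul]
    exact le_trans (by linarith) (le_self_pow₀ (by linarith) (by norm_num))
  rw [fderiv_sg_fst zp hm, norm_div, norm_pow, div_pow, ← mul_div_assoc] at h5
  rw [dF_Lt h zp hm, fderiv_sg_J0 zp hm]
  have h7 : K * ‖v.1‖ ^ 2 / (‖mm cs s y‖ ^ 2) ^ 2 ≤ ‖v.1‖ ^ 2 :=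
    div_le_of_le_mul₀ (by positivity) (by positivity) (by rw [mul_comm]; gcongr)
  linarith

theorem Lt_far (h : End Λ A D) (cs zp : ℂ) : ∃ S : ℝ, ∀ s ∈ Icc (0 : ℝ) 1, ∀ y, S ≤ ‖y‖ → ∀ v,
    -(nq v / 2) ≤ dF (fun z => Lt Λ A D cs zp (s, z)) y v (J0 v) := by
  obtain ⟨R, R0, hR⟩ := Lt_off h cs zp
  obtain ⟨M, M0, hM⟩ := exists_K_aux h.sm R
  obtain ⟨c, hc⟩ : ∃ c, c = 1 + (‖zp‖ + R) / ‖cs‖ := ⟨_, rfl⟩
  refine ⟨(1 + 2 * M * c ^ 2) * (R + ‖zp‖), fun s hs y hy v => ?_⟩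
  have n0 := nq_nonneg v
  by_cases h1 : mm cs s y = 0 ∨ R < ‖sg cs zp s y‖
  · rcases eq_or_ne v 0 with rfl | hv
    · simpa using div_nonneg n0 zero_le_two
    · linarith [hR s y h1 v hv]
  obtain ⟨hm, h2⟩ := not_or.1 h1
  rw [not_lt] at h2
  have m0 := norm_pos_iff.2 hm
  have a1 := le_of_mul_le_mul_right (hy.trans (norm_le_mm hs hm h2)) (by positivity)
  have a2 := norm_fderiv_sg hs hm h2 v
  have a3 := norm_fderiv_sg hs hm h2 (J0 v)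
  rw [FA.norm_J0] at a3
  rw [← hc] at a2 a3
  have a4 := mul_le_mul (mul_le_mul_of_nonneg_left a2 M0) a3 (norm_nonneg _)
    ((mul_nonneg M0 (norm_nonneg _)).trans (mul_le_mul_of_nonneg_left a2 M0))
  have a5 : M * (c / ‖mm cs s y‖) ^ 2 ≤ 1 / 2 := by
    rw [div_pow, ← mul_div_assoc, div_le_iff₀ (by positivity)]
    nlinarith [mul_nonneg M0 (sq_nonneg c)]
  rw [dF_Lt h zp hm]
  linarith [hM _ h2 (fderiv ℝ (sg cs zp s) y v) (fderiv ℝ (sg cs zp s) y (J0 v)),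
    mul_le_mul_of_nonneg_right a5 (sq_nonneg ‖v‖), FA.sq_norm_le v]

end Pool.Agent.Lib.MP_7ed551_gt.Cy.Q
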