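import Pool.Agent.Lib.MP_7ed551_gt.Cy.Q.Defs

/-! The outermost leaf passes through a vertex. -/

open scoped ContDiff Topology
open Set Filter Metric MeasureTheory Real
open Complex (I)

noncomputable section

namespace Pool.Agent.Lib.MP_7ed551_gt.Cy.Q

open Pool.Agent.Lib.MP_ccffa6_gt
open FA (nq Pf Far)

theorem gauge_box_aux : √2 * √2 = 2 ∧ 1 < √2 ∧ √2 < 3 / 2 :=
  ⟨Real.mul_self_sqrt two_pos.le, Real.lt_sqrt_of_sq_lt (by norm_num),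
    (Real.sqrt_lt' (by norm_num)).2 (by norm_num)⟩

theorem gauge_box {g x y : ℝ} (h : |x + √2 * y| + |y - √2 * x| ≤ g) : |x| ≤ √2 * g / 3 ∧
    |y| ≤ √2 * g / 3 := by
  obtain ⟨h2, h1, -⟩ := gauge_box_aux
  have e1 : x = (x + √2 * y - √2 * (y - √2 * x)) / 3 := by linear_combination -x / 3 * h2
  have e2 : y = (√2 * (x + √2 * y) + (y - √2 * x)) / 3 := by linear_combination -y / 3 * h2
  generalize x + √2 * y = u at h e1 e2
  generalize y - √2 * x = v at h e1 e2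
  have a1 := abs_sub u (√2 * v)
  have a2 := abs_add_le (√2 * u) v
  rw [abs_mul, abs_of_nonneg (Real.sqrt_nonneg 2)] at a1 a2
  rw [e1, e2, abs_div, abs_div, abs_of_pos (show (0 : ℝ) < 3 by norm_num)]
  constructor <;> nlinarith [abs_nonneg u, abs_nonneg v]

theorem Vtx.box {N x y : ℝ} (hN : 0 < N) (h : Vtx (N / 4) x y) : |x| < N / 8 ∧ |y| < N / 8 := by
  obtain ⟨h1, h2⟩ := gauge_box h.1.le
  have := gauge_box_aux.2.2
  constructor <;> nlinarith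

theorem gauge_small {N x y : ℝ} (hN : 0 < N) (hx : |x| ≤ N / 20) (hy : |y| ≤ N / 20) :
    |x + √2 * y| + |y - √2 * x| < N / 4 := by
  have a1 := abs_add_le x (√2 * y)
  have a2 := abs_sub y (√2 * x)
  rw [abs_mul, abs_of_nonneg (Real.sqrt_nonneg 2)] at a1 a2
  have := gauge_box_aux.2.2
  nlinarith [Real.sqrt_nonneg 2]

theorem Vtx.gen_aux {b : ℝ} (p q : ℤ) (h : p = 0 → q ≠ 0) (h1 : |(p : ℝ)| ≤ b)
    (h2 : |(q : ℝ)| ≤ b) : 1 ≤ 3 * b * |(p : ℝ) + √2 * q| := by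
  obtain ⟨h0, -, h3⟩ := gauge_box_aux
  have hne : p ^ 2 - 2 * q ^ 2 ≠ 0 := fun e => by
    have hq : q ≠ 0 := fun a => h (by simpa [a] using e) a
    have e' : (p : ℝ) ^ 2 - 2 * q ^ 2 = 0 := by exact_mod_cast e
    refine irrational_sqrt_two ⟨|p / q|, ?_⟩
    have : (q : ℝ) ≠ 0 := Int.cast_ne_zero.2 hq
    push_cast
    rw [← Real.sqrt_sq_eq_abs]
    congr 1
    field_simp
    linarith
  have k : (1 : ℝ) ≤ |(p : ℝ) ^ 2 - 2 * q ^ 2| := by exact_mod_cast Int.one_le_abs hne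
  rw [show (p : ℝ) ^ 2 - 2 * q ^ 2 = (p - √2 * q) * (p + √2 * q) by linear_combination q ^ 2 * h0,
    abs_mul] at k
  refine k.trans (mul_le_mul_of_nonneg_right ((abs_sub _ _).trans ?_) (abs_nonneg _))
  rw [abs_mul, abs_of_nonneg (Real.sqrt_nonneg 2)]
  nlinarith [abs_nonneg (q : ℝ)]

theorem Vtx.gen {g x y b : ℝ} (h : Vtx g x y) {m : ℤ × ℤ} (hm : m ≠ 0) (h1 : |(m.1 : ℝ)| ≤ b)
    (h2 : |(m.2 : ℝ)| ≤ b) : g ≤ 9 * b * |(m.1 : ℝ) * y - m.2 * x| := by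
  have h0 := gauge_box_aux.1
  have h3 : |(3 : ℝ)| = 3 := abs_of_pos (by norm_num)
  obtain ⟨hg, h | h⟩ := h
  · have k := mul_le_mul_of_nonneg_left (Vtx.gen_aux m.1 m.2 (fun a b => hm (Prod.ext a b)) h1 h2)
      (abs_nonneg (3 * y))
    obtain rfl : x = -(√2 * y) := by linarith
    rw [neg_add_cancel, abs_zero, zero_add, show y - √2 * -(√2 * y) = 3 * y by
      linear_combination y * h0] at hg
    rw [← hg, show m.1 * y - m.2 * -(√2 * y) = y * (m.1 + √2 * m.2) by ring]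
    rw [abs_mul, h3] at k ⊢
    rw [abs_mul]
    linarith
  · have k := mul_le_mul_of_nonneg_left (Vtx.gen_aux (b := b) (-m.2) m.1
      (fun a b => hm (Prod.ext b (neg_eq_zero.1 a))) (by rwa [Int.cast_neg, abs_neg]) h1)
      (abs_nonneg (3 * x))
    obtain rfl : y = √2 * x := by linarith
    rw [sub_self, abs_zero, add_zero, show x + √2 * (√2 * x) = 3 * x by
      linear_combination x * h0] at hg
    rw [← hg, show m.1 * (√2 * x) - m.2 * x = x * ((-m.2 : ℤ) + √2 * m.1) by push_cast; ring]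
    rw [abs_mul, h3] at k ⊢
    rw [abs_mul]
    linarith

theorem harm_max_aux {Ω : Set ℂ} {z : ℂ → ℂ} (h : HolN Ω z) {p : ℂ} (hp : p ∈ Ω) :
    (∀ᶠ ζ in 𝓝 p, DifferentiableAt ℂ (fun ζ => (z ζ / z p).log) ζ) ∧
      ∀ᶠ ζ in 𝓝 p, (z ζ / z p).log.re = xi z ζ - xi z p := by
  have hΩ := h.op.mem_nhds hp
  constructor
  · filter_upwards [hΩ, ((h.hol.differentiableAt hΩ).continuousAt.div_const (z p)).eventually
      (Complex.isOpen_slitPlane.mem_nhds (by simp [div_self (h.ne p hp)]))] with ζ a b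
    exact ((h.hol.differentiableAt (h.op.mem_nhds a)).div_const _).clog b
  · filter_upwards [hΩ] with ζ a
    rw [Complex.log_re, norm_div, Real.log_div (norm_ne_zero_iff.2 (h.ne ζ a))
      (norm_ne_zero_iff.2 (h.ne p hp)), xi, xi]

theorem harm_max {Ω : Set ℂ} {z1 z2 : ℂ → ℂ} (h1 : HolN Ω z1) (h2 : HolN Ω z2) {p : ℂ}
    (hp : p ∈ Ω) (α β : ℝ) (h : IsLocalMax (fun ζ => α * xi z1 ζ + β * xi z2 ζ) p) :
    ∀ᶠ ζ in 𝓝 p, α * xi z1 ζ + β * xi z2 ζ = α * xi z1 p + β * xi z2 p := by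
  have e : ∀ᶠ ζ in 𝓝 p, ‖Complex.exp (α * (z1 ζ / z1 p).log + β * (z2 ζ / z2 p).log)‖ =
      Real.exp (α * xi z1 ζ + β * xi z2 ζ - (α * xi z1 p + β * xi z2 p)) := by
    filter_upwards [(harm_max_aux h1 hp).2, (harm_max_aux h2 hp).2] with ζ a b
    rw [Complex.norm_exp, Complex.add_re, Complex.re_ofReal_mul, Complex.re_ofReal_mul, a, b]
    congr 1
    ring
  have k := Complex.norm_eventually_eq_of_isLocalMax
    (f := fun ζ => Complex.exp (α * (z1 ζ / z1 p).log + β * (z2 ζ / z2 p).log)) (c := p) (by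
      filter_upwards [(harm_max_aux h1 hp).1, (harm_max_aux h2 hp).1] with ζ a b
      exact ((a.const_mul _).add (b.const_mul _)).cexp) (by
      filter_upwards [e, h] with ζ a b
      rw [Function.comp_apply, Function.comp_apply, a, e.self_of_nhds]
      exact Real.exp_le_exp.2 (sub_le_sub_right b _))
  filter_upwards [e, k] with ζ a b
  rw [a, e.self_of_nhds] at b
  linarith [Real.exp_injective b]

theorem exists_vtx_aux1 {f : ℂ → ℝ} {q : ℂ} (h : ContinuousAt f q) (h0 : f q ≠ 0) :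
    ∃ s : ℝ, s ≠ 0 ∧ ∀ᶠ ζ in 𝓝 q, |f ζ| = s * f ζ := by
  rcases h0.lt_or_gt with a | a
  · exact ⟨-1, by norm_num, (h.eventually (gt_mem_nhds a)).mono fun _ b => by
      rw [abs_of_neg b, neg_one_mul]⟩
  · exact ⟨1, one_ne_zero, (h.eventually (lt_mem_nhds a)).mono fun _ b => by
      rw [abs_of_pos b, one_mul]⟩

theorem exists_vtx_aux2 {Ω : Set ℂ} {z : ℂ → ℂ} (h : HolN Ω z) {q : ℂ} (hq : q ∈ Ω)
    (e : ∀ᶠ ζ in 𝓝 q, xi z ζ = xi z q) : deriv z q = 0 := by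
  by_contra hn
  have k := h.fderiv_xi hq (deriv z q / z q)⁻¹
  rw [Filter.EventuallyEq.fderiv_eq (f := fun _ => xi z q) e,
    mul_inv_cancel₀ (div_ne_zero hn (h.ne q hq))] at k
  simp at k

theorem exists_vtx {Ω : Set ℂ} {z1 z2 : ℂ → ℂ} (h1 : HolN Ω z1) (h2 : HolN Ω z2) {g : ℝ}
    (hc : IsCompact {ζ | ζ ∈ Ω ∧ |xi z1 ζ| ≤ g ∧ |xi z2 ζ| ≤ g})
    (hd : ∀ ζ ∈ Ω, deriv z1 ζ ≠ 0 ∨ deriv z2 ζ ≠ 0)
    (hg : ∀ ζ ∈ Ω, g ≤ |xi z1 ζ + √2 * xi z2 ζ| + |xi z2 ζ - √2 * xi z1 ζ|) {p : ℂ} (hp : p ∈ Ω)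
    (he : |xi z1 p + √2 * xi z2 p| + |xi z2 p - √2 * xi z1 p| = g) :
    ∃ ζ ∈ Ω, Vtx g (xi z1 ζ) (xi z2 ζ) := by
  have c1 := h1.contDiffOn_xi.continuousOn
  have c2 := h2.contDiffOn_xi.continuousOn
  have cu : ContinuousOn (fun ζ => xi z1 ζ + √2 * xi z2 ζ) Ω := c1.add (continuousOn_const.mul c2)
  have cv : ContinuousOn (fun ζ => xi z2 ζ - √2 * xi z1 ζ) Ω := c2.sub (continuousOn_const.mul c1)
  obtain ⟨h0, -, h3⟩ := gauge_box_aux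
  have hg0 : 0 ≤ g := he ▸ add_nonneg (abs_nonneg _) (abs_nonneg _)
  have hm : ∀ ζ ∈ Ω, |xi z1 ζ + √2 * xi z2 ζ| + |xi z2 ζ - √2 * xi z1 ζ| = g →
      ζ ∈ {ζ | ζ ∈ Ω ∧ |xi z1 ζ| ≤ g ∧ |xi z2 ζ| ≤ g} ∩
        (fun ζ => |xi z1 ζ + √2 * xi z2 ζ| + |xi z2 ζ - √2 * xi z1 ζ|) ⁻¹' {g} := fun ζ a b =>
    ⟨⟨a, (gauge_box b.le).1.trans (by nlinarith), (gauge_box b.le).2.trans (by nlinarith)⟩, b⟩
  obtain ⟨q, ⟨⟨hq, -⟩, hqg⟩, hmax⟩ := (hc.of_isClosed_subset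
    (((cu.abs.add cv.abs).mono fun ζ a => a.1).preimage_isClosed_of_isClosed hc.isClosed
      (isClosed_singleton (x := g))) inter_subset_left).exists_isMaxOn ⟨p, hm p hp he⟩
    (cu.abs.mono fun ζ a => a.1.1)
  have hqg' : |xi z1 q + √2 * xi z2 q| + |xi z2 q - √2 * xi z1 q| = g := hqg
  refine ⟨q, hq, hqg', ?_⟩
  by_contra hn
  rw [not_or] at hn
  have hΩ := h1.op.mem_nhds hq
  obtain ⟨s, hs0, hs⟩ := exists_vtx_aux1 (cu.continuousAt hΩ) hn.1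
  obtain ⟨t, ht0, ht⟩ := exists_vtx_aux1 (cv.continuousAt hΩ) hn.2
  have hs' := hs.self_of_nhds
  have ht' := ht.self_of_nhds
  have e1 := harm_max h1 h2 hq (√2 * t - s) (-(√2 * s) - t) (by
    filter_upwards [hΩ, hs, ht] with ζ a b c
    linarith [hg ζ a])
  have e2 := harm_max h1 h2 hq s (s * √2) (by
    filter_upwards [hΩ, hs, ht, e1] with ζ a b c d
    have : |xi z1 ζ + √2 * xi z2 ζ| ≤ |xi z1 q + √2 * xi z2 q| := hmax (hm ζ a (by linarith))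
    linarith)
  have e3 : ∀ᶠ ζ in 𝓝 q, xi z1 ζ = xi z1 q ∧ xi z2 ζ = xi z2 q := by
    filter_upwards [e1, e2] with ζ a b
    have u := mul_left_cancel₀ hs0
      (show s * (xi z1 ζ + √2 * xi z2 ζ) = s * (xi z1 q + √2 * xi z2 q) by linarith)
    have v := mul_left_cancel₀ ht0
      (show t * (xi z2 ζ - √2 * xi z1 ζ) = t * (xi z2 q - √2 * xi z1 q) by linarith)
    exact ⟨by linear_combination u / 3 - √2 / 3 * v - (xi z1 ζ - xi z1 q) / 3 * h0,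
      by linear_combination √2 / 3 * u + v / 3 - (xi z2 ζ - xi z2 q) / 3 * h0⟩
  exact (hd q hq).elim (· (exists_vtx_aux2 h1 hq (e3.mono fun _ a => a.1)))
    (· (exists_vtx_aux2 h2 hq (e3.mono fun _ a => a.2)))

theorem label_open {J : E → E →L[ℝ] E} {Θ Ψ P : E → E} {N : ℝ} (hF : Fol J Ψ P)
    (hC : Cht J Θ N) {Z : E} (hZ : Z ∈ Box N) : ¬ IsLocalMax (fun W => ‖(P (Θ W)).2‖) Z := by
  intro h
  obtain ⟨σ, -, -, e⟩ := inv_loc hC hZ h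
  have c : ContinuousAt (fun c => Ψ ((P (Θ Z)).1, c)) (P (Θ Z)).2 :=
    (hF.sm.continuous.comp (continuous_const.prodMk continuous_id)).continuousAt
  rw [ContinuousAt, hF.right] at c
  have h1 : closedBall (0 : ℂ) ‖(P (Θ Z)).2‖ ∈ 𝓝 (P (Θ Z)).2 := by
    filter_upwards [c.eventually e] with w hw
    have h2 : ‖(P (Θ (σ _))).2‖ ≤ _ := hw.1
    rwa [hw.2, hF.left, ← mem_closedBall_zero_iff] at h2
  rw [← mem_interior_iff_mem_nhds, interior_closedBall', mem_ball_zero_iff] at h1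
  exact h1.false

theorem touch {J : E → E →L[ℝ] E} {Θ Ψ P : E → E} {N : ℝ} (hF : Fol J Ψ P) (hC : Cht J Θ N)
    (hN : 0 < N) : ∃ Z : E, Vtx (N / 4) Z.1.re Z.2.re ∧
      ∀ W ∈ CBox (N / 20), ‖(P (Θ W)).2‖ < ‖(P (Θ Z)).2‖ := by
  obtain ⟨ga, hga⟩ : ∃ ga : E → ℝ, ga = fun Z => |Z.1.re + √2 * Z.2.re| + |Z.2.re - √2 * Z.1.re| :=
    ⟨_, rfl⟩
  have cg : Continuous ga := by rw [hga]; fun_prop
  have pg : ∀ (Z : E) (m n : ℤ), ga (Z + (2 * π * I * m, 2 * π * I * n)) = ga Z := fun Z m n => by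
    simp [hga]
  have bx : ∀ Z, ga Z ≤ N / 4 → Z ∈ CBox (N / 4) := fun Z h => by
    have s2 : √2 ≤ 3 := Real.sqrt_le_iff.2 (by norm_num)
    obtain ⟨a, b⟩ := gauge_box (hga ▸ h :)
    exact ⟨by nlinarith, by nlinarith⟩
  have bb : ∀ Z ∈ CBox (N / 4), Z ∈ Box N := fun Z h =>
    ⟨h.1.trans_lt (by linarith), h.2.trans_lt (by linarith)⟩
  obtain ⟨C, c1, -, c3⟩ := exists_dom (N / 4)
  have c4 : ∀ Z, ga Z ≤ N / 4 → ∃ W ∈ C ∩ {W | ga W ≤ N / 4}, Θ W = Θ Z := fun Z h => by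
    obtain ⟨m, n, e⟩ := c3 Z (bx Z h)
    exact ⟨_, ⟨e, (pg Z m n).trans_le h⟩, hC.per Z m n⟩
  obtain ⟨Z0, ⟨-, z0⟩, hm⟩ := (c1.inter_right (isClosed_le cg continuous_const)).exists_isMaxOn
    (f := fun W => ‖(P (Θ W)).2‖) ((c4 0 (by simp [hga]; positivity)).imp fun _ h => h.1)
    (hF.sm'.continuous.comp hC.sm.continuous).snd.norm.continuousOn
  have m1 : ∀ W, ga W ≤ N / 4 → ‖(P (Θ W)).2‖ ≤ ‖(P (Θ Z0)).2‖ := fun W h => by
    obtain ⟨W', a, e⟩ := c4 W h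
    exact e ▸ hm a
  have m2 : ∀ W, ga W < N / 4 → ‖(P (Θ W)).2‖ < ‖(P (Θ Z0)).2‖ := fun W h =>
    not_le.1 fun a => label_open hF hC (bb W (bx W h.le))
      ((cg.continuousAt.eventually_lt continuousAt_const h).mono fun V b => (m1 V b.le).trans a)
  obtain ⟨X, hX⟩ := hC.exists_inv
  have hu := hF.leaf (P (Θ Z0)).2
  have hp := hF.px_ne (P (Θ Z0)).2
  have hl : ∀ {W ζ}, Θ W = Ψ (ζ, (P (Θ Z0)).2) → ‖(P (Θ W)).2‖ = ‖(P (Θ Z0)).2‖ := fun e => by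
    rw [e, hF.left]
  have b0 := bb Z0 (bx Z0 z0)
  have x0 := Leaf_xi (u := fun ζ => Ψ (ζ, (P (Θ Z0)).2)) (ζ := (P (Θ Z0)).1) hX b0
    (hF.right _).symm
  obtain ⟨ζ, ⟨Z, hZ, e⟩, hv⟩ := exists_vtx (hX.holN hF _).1 (hX.holN hF _).2 (g := N / 4)
    (p := (P (Θ Z0)).1) (by
      obtain ⟨T, hT, hs⟩ := mem_cocompact.1 (hu.eventually_notMem (hC.isCompact_image (N / 4)))
      have e : {ζ | ζ ∈ Om Θ Ψ N (P (Θ Z0)).2 ∧
          |xi (fun ζ => (X (Ψ (ζ, (P (Θ Z0)).2))).1) ζ| ≤ N / 4 ∧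
          |xi (fun ζ => (X (Ψ (ζ, (P (Θ Z0)).2))).2) ζ| ≤ N / 4} =
          (fun ζ => Ψ (ζ, (P (Θ Z0)).2)) ⁻¹' (Θ '' CBox (N / 4)) := by
        refine Subset.antisymm ?_ ?_
        · rintro ζ ⟨⟨Z, hZ, e⟩, a⟩
          rw [(Leaf_xi hX hZ e).1, (Leaf_xi hX hZ e).2] at a
          exact ⟨Z, a, e⟩
        · rintro ζ ⟨Z, hZ, e⟩
          refine ⟨⟨Z, bb Z hZ, e⟩, ?_⟩
          rwa [(Leaf_xi hX (bb Z hZ) e).1, (Leaf_xi hX (bb Z hZ) e).2]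
      rw [e]
      exact hT.of_isClosed_subset ((hC.isCompact_image _).isClosed.preimage hu.sm.continuous)
        fun ζ h => by_contra fun n => hs n h)
    (fun ζ hζ => by
      have hD := hX.hasDerivAt hu hζ
      obtain ⟨Z, hZ, e⟩ := hζ
      obtain ⟨w, hw⟩ := (LinearMap.injective_iff_surjective (f := (fderiv ℝ Θ Z : E →ₗ[ℝ] E))).1
        (hC.imm Z hZ) (px (fun ζ => Ψ (ζ, (P (Θ Z0)).2)) ζ)
      change fderiv ℝ Θ Z w = _ at hw
      rw [hD.1.deriv, hD.2.deriv, ← e, ← hw, Leaf_desc hC.sm hX.op hX.sm hX.eq hZ w, Leaf_exp]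
      by_contra! h
      simp only [mul_eq_zero, Complex.exp_ne_zero, false_or] at h
      exact hp ζ (by rw [← hw, show w = 0 from Prod.ext h.1 h.2, map_zero]))
    (by
      rintro ζ ⟨W, hW, e⟩
      rw [(Leaf_xi hX hW e).1, (Leaf_xi hX hW e).2]
      exact not_lt.1 fun h => (m2 W (by rwa [hga])).ne (hl e))
    ⟨Z0, b0, (hF.right _).symm⟩ (by
      rw [x0.1, x0.2]
      exact le_antisymm (hga ▸ z0 :) (not_lt.1 fun h => (m2 Z0 (by rwa [hga])).false))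
  rw [(Leaf_xi hX hZ e).1, (Leaf_xi hX hZ e).2] at hv
  exact ⟨Z, hv, fun W hW => (m2 W (by
    rw [hga]; exact gauge_small hN hW.1 hW.2)).trans_eq (hl e).symm⟩

end Pool.Agent.Lib.MP_7ed551_gt.Cy.Q
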