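import Pool.Agent.Lib.MP_7ed551_gt.Cy.Q.Germ
import Pool.Agent.Lib.MP_7ed551_gt.Cy.Q.Far
import Pool.Agent.Lib.MP_7ed551_gt.Cy.Q.Vtx

/-! The first foliation is straightened along the leaf through a vertex. -/

open scoped ContDiff Topology
open Set Filter Metric MeasureTheory Real
open Complex (I)

noncomputable section

namespace Pool.Agent.Lib.MP_7ed551_gt.Cy.Q

open Pool.Agent.Lib.MP_ccffa6_gt
open FA (nq Pf Far)

variable {Λ : Form1 E} {J : E → E →L[ℝ] E} {K : Set E} {Θ : E → E} {N c a r b : ℝ} {k : ℤ × ℤ}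

theorem Fol.fst_bd {Ψ P : E → E} (hF : Fol J Ψ P) (r : ℝ) :
    ∃ R : ℝ, ∀ y, nq y < r → ‖(P y).1‖ < R := by
  obtain ⟨R, hR⟩ := (isCompact_closedBall (0 : E) (r + 1)).exists_bound_of_continuousOn
    (f := fun y => (P y).1) hF.sm'.continuous.fst.continuousOn
  refine ⟨R + 1, fun y hy => (hR y ?_).trans_lt (lt_add_one R)⟩
  rw [mem_closedBall_zero_iff]
  nlinarith [FA.sq_norm_le y, sq_nonneg (‖y‖ - 1), sq_nonneg ‖y‖]

theorem lab_gap {l : E → ℂ} (hl : Continuous l) (hp : Per2 l) {t : ℝ} {cs : ℂ}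
    (h : ∀ W ∈ CBox t, ‖l W‖ < ‖cs‖) : ∃ ε : ℝ, 0 < ε ∧ ∀ W ∈ CBox t, ε ≤ ‖l W - cs‖ := by
  obtain ⟨ε, e0, e1⟩ := Metric.mem_nhds_iff.1 ((hp.compact (ε := t)
    hl.continuousOn).isClosed.isOpen_compl.mem_nhds (x := cs) fun ⟨W, hW, e⟩ => (e ▸ h W hW).false)
  refine ⟨ε, e0, fun W hW => le_of_not_gt fun h' => e1 (mem_ball_iff_norm.2 h') ⟨W, hW, rfl⟩⟩

theorem end_sw {A D : ℝ} (h : End Λ A D) : End (pb sw Λ) A D := by
  obtain ⟨R, hR⟩ := h.far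
  refine ⟨contDiff_pb sw.contDiff h.sm, h.A0, h.D0, R, fun x hx => ?_⟩
  rw [← fs_sw, pb, pb, hR _ (norm_sw x ▸ hx)]

theorem far_sw (h : Far Λ) : Far (pb sw Λ) := by
  obtain ⟨R, hR⟩ := h.far
  refine ⟨contDiff_pb sw.contDiff h.sm, R, fun x hx => ?_⟩
  rw [← lam0_sw, pb, pb, hR _ (norm_sw x ▸ hx)]

theorem prep_sw {Ψ P : E → E} (hA : Amb Λ J K) (hF : Fol J Ψ P) (hN : 0 < N) (hC : Cht J Θ N)
    (hc : Can Λ Θ N c a k) (hr : 0 < r) (hb : r < b) (hK : ∀ x ∈ K, nq x < r)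
    (hΘ : ∀ Z ∈ Box N, nq (Θ Z) < r) :
    ∃ (G G' : E → E) (Λx : Form1 E) (Jx : E → E →L[ℝ] E) (D : ℝ) (cs zp : ℂ), Dif G G' ∧
      Prep (pb sw (pb G Λ)) Λx Jx (fun Z => sw (G' (Θ Z))) (N / 2) c a b D k cs zp := by
  obtain ⟨R, hR⟩ := Fol.fst_bd hF r
  obtain ⟨Φ, Φ', Λh, J1, D, f1, f2, f3, f4, f5, f6, f7, f8⟩ := exists_far hA hF hr hb hK R
  have n2 : 0 < N / 2 := half_pos hN
  have n3 : N / 2 ≤ N := (half_lt_self hN).le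
  obtain ⟨Z, z1, z2⟩ := touch hF (cht_mono hC n3) n2
  have e1 : ∀ W ∈ Box N, Φ' (Θ W) = P (Θ W) := fun W hW => by
    have := (f8 _ (hR _ (hΘ W hW))).1
    rw [hF.right] at this
    rw [← f1.left (P _), this]
  have c1 : Cht J1 (fun W => Φ' (Θ W)) N := cht_pull hC f1 fun x ⟨W, hW, e⟩ =>
    (f8 x (by rw [← f1.left x, ← e, e1 W hW]; exact hR _ (hΘ W hW))).2
  have zN : Z ∈ Box N := ⟨(z1.box n2).1.trans (by linarith), (z1.box n2).2.trans (by linarith)⟩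
  have sb : CBox (N / 2 / 20) ⊆ Box N := CBox_sub (by linarith)
  obtain ⟨ε, e0, e2⟩ := lab_gap (l := fun W => (P (Θ W)).2)
    (hF.sm'.continuous.comp hC.sm.continuous).snd
    ⟨fun W => by simp only [hC.per1], fun W => by simp only [hC.per2]⟩ z2
  have s1 := contDiff_pb f1.sm f2.sm
  obtain ⟨G, G', J2, g1, g2, g3, g4, g5, g6, ⟨δ, d0, g7⟩, g8⟩ :=
    exists_nchart s1 f5 f6 c1 hN f7 (P (Θ Z)).2 e0
  have s2 := contDiff_pb g1.sm s1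
  have hD := f1.comp g1
  have c2 : Cht J2 (fun W => G' (Φ' (Θ W))) (N / 2) := cht_pull (cht_mono c1 n3) g1 g8
  have c3 : Can (pb G (pb Φ Λh)) (fun W => G' (Φ' (Θ W))) (N / 2) c a k :=
    (can_pull (can_pull (can_congr hc fun W hW => f4 _ (hΘ W hW).le) hC.sm f1) c1.sm g1).mono n3
  have hfar : Far Λ := ⟨hA.smΛ, hA.cpt.isBounded.exists_norm_le.elim fun S hS =>
    ⟨S + 1, fun x hx => hA.farΛ x fun h => by linarith [hS x h]⟩⟩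
  refine ⟨_, _, pb sw (pb G (pb Φ Λh)), fun x => sw * J2 (sw x) * sw, D, (P (Θ Z)).2, (P (Θ Z)).1,
    hD, n2, end_sw ((f2.pb f1).pb g1), g2.sw, g3.sw s2, ⟨δ, d0, fun x hx => ?_⟩, fun x => ?_,
    cht_sw c2, can_sw c3 c2.sm, fun W hW => ?_, ⟨Z, z1, ?_⟩, far_sw (hfar.pb hD),
    ⟨fun x => sw * pJ (fun x => Φ (G x)) J (sw x) * sw,
      (Tm.pull hA.tame hA.smΛ hD).sw (contDiff_pb hD.sm hA.smΛ), ?_,
      ((Amb.acs hA).pull hD).sw.far⟩, fun W hW => ?_⟩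
  · rw [g7 (sw x) hx, sw_J0]
  · rw [dF_sw s2]
    exact g4 _
  · have := g6 _ (e1 W (sb hW) ▸ e2 W hW : ε ≤ ‖(Φ' (Θ W)).2 - _‖)
    rw [← this, g1.left, e1 W (sb hW)]
    exact z2 W hW
  · rw [e1 Z zN, ← congrArg G' (g5 (P (Θ Z)).1), g1.left]
    rfl
  · rw [← pb_comp f1.sm g1.sm]
    exact (f3.pull f2.sm hD).sw (contDiff_pb hD.sm f2.sm)
  · rw [← pb_comp f1.sm g1.sm]
    simp only [pb, sw_sw, g1.right, f1.right, f4 _ (hΘ W (Box_mono n3 hW)).le]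

theorem exists_prep (hF : FolStmt) {Jt : ℝ × E → E →L[ℝ] E} (hP : Path Λ Jt K) (hN : 0 < N)
    (hC : Cht (fun x => Jt (1, x)) Θ N) (hc : Can Λ Θ N c a k) (hr : 0 < r) (hb : r < b)
    (hK : ∀ x ∈ K, nq x < r) (hΘ : ∀ Z ∈ Box N, nq (Θ Z) < r) :
    ∃ (G G' : E → E) (Λx : Form1 E) (Jx : E → E →L[ℝ] E) (D : ℝ) (cs zp : ℂ), Dif G G' ∧
      Prep (pb G Λ) Λx Jx (fun Z => G' (Θ Z)) (N / 2) c a b D k cs zp := by
  obtain ⟨Ψ, P, h⟩ := hF _ _ _ (path_sw hP)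
  obtain ⟨G, G', Λx, Jx, D, cs, zp, h1, h2⟩ := prep_sw ((path_sw hP).amb 1) h hN (cht_sw hC)
    (can_sw hc hC.sm) hr hb (fun _ ⟨x, hx, e⟩ => by rw [← e, nq_sw]; exact hK x hx)
    fun Z hZ => by rw [nq_sw]; exact hΘ Z hZ
  refine ⟨_, _, Λx, Jx, D, cs, zp, dif_sw h1, ?_⟩
  rwa [pb_comp (G := sw) (F := fun x => G (sw x)) sw.contDiff (h1.sm.comp sw.contDiff),
    pb_comp h1.sm sw.contDiff]

end Pool.Agent.Lib.MP_7ed551_gt.Cy.Q
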