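import Pool.Agent.Lib.MP_7ed551_gt.Cy.Q.Main
import Pool.Agent.Lib.MP_7ed551_gt.Cy.Q.PX
import Pool.Agent.Lib.MP_7ed551_gt.Cy.C.Top
import Pool.Agent.Lib.MP_7ed551_gt.Cy.G.Main
import Pool.Agent.Lib.MP_7ed551_gt.Cy.A.Main
import Pool.Agent.Lib.MP_7ed551_gt.Cy.W.Mas
import Pool.Agent.Lib.MP_7ed551_gt.Cy.W.Dich

/-! Monotone tori in a ball. -/

open scoped ContDiff Topology
open Set Filter Metric MeasureTheory Real
open Complex (I)

noncomputable section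

namespace Pool.Agent.Lib.MP_7ed551_gt.Cy.Q

open Pool.Agent.Lib.MP_ccffa6_gt
open FA (nq Pf Far)

theorem ball {f : ℝ × ℝ → E} {lam : ℝ} (hl : 0 < lam) (hf : Tor f) (hm : IsMonotone f lam)
    (hc : ∀ x, π * nq (f x) < 6 * lam) :
    HamIso (range f) (clifford lam) ∨ HamIso (range f) (chekanov lam) :=
  ball_of folStmt (fun _ _ _ _ _ _ _ _ _ _ _ _ _ => exists_proj)
    (fun _ _ _ _ _ _ h1 h2 h3 h4 => fol_of folStmt h3 h4 h1 h2) (triv_of folStmt) masStmt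
    (FA.fib_of dichStmt) hl hf hm hc

end Pool.Agent.Lib.MP_7ed551_gt.Cy.Q
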